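import Mathlib
import Pool.Agent.Lib.MP_6d896a_gt.LG.Defs2
import Pool.Agent.Lib.MP_6d896a_gt.LG.PQDefs

/-!
Project LL (logarithmic Lichnerowicz inequality): definitions.
-/

set_option autoImplicit false

namespace Pool.Agent.Lib.MP_6d896a_gt.LG

open MeasureTheory Filter Topology Set Matrix
open scoped ENNReal NNReal

variable {n : ℕ}

/-! ### measures with bounded support -/

/-- log-concavity relative to a diagonal Gaussian factor -/
def DLC (q : Fin n → ℝ) (ν : Measure (Eu n)) : Prop :=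
  FP.PLm (ν.withDensity fun x => ENNReal.ofReal (Real.exp ((∑ i, q i * x i ^ 2) / 2)))

/-- energy of `f` in the metric `M` -/
noncomputable def gE (ν : Measure (Eu n)) (M : Mat n) (f : Eu n → ℝ) : ℝ :=
  ∑ i, ∑ j, M i j * ∫ x, UC.pd i f x * UC.pd j f x ∂ν

/-- the Poincare inequality in the metric `M * Cov + t * diag (1 / q)` -/
def PK (n : ℕ) (t M K : ℝ) : Prop :=
  ∀ (ν : Measure (Eu n)) (R : ℝ) (q : Fin n → ℝ), IsProbabilityMeasure ν → BS R ν →
    (∀ i, 0 < q i) → DLC q ν → ∀ f : Eu n → ℝ, UC.TT f →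
      Cv ν f f ≤ K * gE ν (M • Am ν + Matrix.diagonal fun i => t / q i) f

/-- the same for `q = 1` -/
def PK1 (n : ℕ) (t M K : ℝ) : Prop :=
  ∀ (ν : Measure (Eu n)) (R : ℝ), IsProbabilityMeasure ν → BS R ν → ULC 1 ν →
    ∀ f : Eu n → ℝ, UC.TT f →
      Cv ν f f ≤ K * gE ν (M • Am ν + Matrix.diagonal fun _ => t) f

/-- third cumulants with a function -/
noncomputable def Xc (ν : Measure (Eu n)) (k l : Fin n) (φ : Eu n → ℝ) : ℝ :=
  ∫ x, (x k - mn ν k) * ((x l - mn ν l) * (φ x - ∫ y, φ y ∂ν)) ∂ν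

/-- fourth cumulants -/
noncomputable def Fc (ν : Measure (Eu n)) (i j k l : Fin n) : ℝ :=
  ∫ x, (x i - mn ν i) * (x j - mn ν j) * ((x k - mn ν k) * (x l - mn ν l)) ∂ν -
    Am ν i j * Am ν k l - Am ν i k * Am ν j l - Am ν i l * Am ν j k

/-- second moments around the mean, with a weight -/
noncomputable def Zt (ν : Measure (Eu n)) (ψ : Eu n → ℝ) : ℝ :=
  ∑ k, ∫ x, (x k - mn ν k) ^ 2 * ψ x ∂ν

/-- squared length of the gradient -/
noncomputable def gsq (f : Eu n → ℝ) (x : Eu n) : ℝ := ∑ i, UC.pd i f x ^ 2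

/-- the cubic term, for a tensor `T` -/
noncomputable def c3 (ν : Measure (Eu n)) (T : Fin n → Fin n → Fin n → ℝ) (f : Eu n → ℝ) : ℝ :=
  ∑ k, ∑ i, ∑ j, T k i j * Cv ν (fun x => x k) (fun x => UC.pd i f x * UC.pd j f x)

/-- symmetric tensors -/
def Sym3 (T : Fin n → Fin n → Fin n → ℝ) : Prop :=
  ∀ i j k, T i j k = T j i k ∧ T i j k = T i k j

/-! ### smooth potentials -/

/-- covariance -/
noncomputable def CvE (V f g : Eu n → ℝ) : ℝ := UC.Ex V (fun x => f x * g x) - UC.Ex V f * UC.Ex V g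

/-- covariance matrix -/
noncomputable def AmE (V : Eu n → ℝ) (i j : Fin n) : ℝ := CvE V (fun x => x i) (fun x => x j)

/-- third cumulants -/
noncomputable def TmE (V : Eu n → ℝ) (k i j : Fin n) : ℝ :=
  UC.Ex V (fun x => xc V k x * (xc V i x * xc V j x))

/-- the cubic term -/
noncomputable def c3E (V f : Eu n → ℝ) : ℝ :=
  ∑ k, ∑ i, ∑ j, TmE V k i j * CvE V (fun x => x k) (fun x => UC.pd i f x * UC.pd j f x)

/-- energy in the diagonal metric `r` -/
noncomputable def rE (V : Eu n → ℝ) (r : Fin n → ℝ) (f : Eu n → ℝ) : ℝ :=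
  ∑ i, r i * UC.Ex V (fun x => UC.pd i f x ^ 2)

/-- second order energy in the diagonal metric `r` -/
noncomputable def rE2 (V : Eu n → ℝ) (r : Fin n → ℝ) (f : Eu n → ℝ) : ℝ :=
  ∑ i, ∑ j, r i * r j * UC.Ex V (fun x => UC.pd j (UC.pd i f) x ^ 2)

/-- diagonal lower bound of the second derivative -/
def HesD (V : Eu n → ℝ) (q : Fin n → ℝ) : Prop :=
  ∀ x v : Eu n, ∑ i, q i * v i ^ 2 ≤ fderiv ℝ (fderiv ℝ V) x v v

/-- covariance `diag a` -/
def CovD (V : Eu n → ℝ) (a : Fin n → ℝ) : Prop := ∀ i j, AmE V i j = if i = j then a i else 0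

/-- the smooth level of `PK`, in the coordinates in which `Cov + t * Q⁻¹ / 2 = 1` -/
def PSd (n : ℕ) (t M K : ℝ) : Prop :=
  ∀ (V : Eu n → ℝ) (κ Λ c0 : ℝ) (a : Fin n → ℝ), SP V κ Λ c0 → (∀ i, 0 < a i ∧ a i < 1) →
    CovD V a → HesD V (fun i => t / (2 * (1 - a i))) → ∀ f : Eu n → ℝ, UC.TT f →
      VarE V f ≤ K * rE V (fun i => 2 + (M - 2) * a i) f

/-- linear change of variables -/
noncomputable def cvV (V : Eu n → ℝ) (L : Eu n ≃L[ℝ] Eu n) (y : Eu n) : ℝ :=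
  V (L y) - Real.log |LinearMap.det (L : Eu n →ₗ[ℝ] Eu n)|

end Pool.Agent.Lib.MP_6d896a_gt.LG
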