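import Mathlib
import Pool.Agent.Lib.MP_6d896a_gt.LL.Defs
import Pool.Agent.Lib.MP_6d896a_gt.LG.PA1

/-!
Project LL, piece L12: linear changes of variables of potentials.
-/

set_option autoImplicit false

namespace Pool.Agent.Lib.MP_6d896a_gt.LG

open MeasureTheory Filter Topology Set Matrix
open Pool.Agent.Lib.MP_6d896a_gt.UC Pool.Agent.Lib.MP_6d896a_gt.UC.UR
open scoped ENNReal NNReal ContDiff

variable {n : ℕ} {κ : ℝ}

section cv
variable {V : Eu n → ℝ} {Λ c0 : ℝ} (L : Eu n ≃L[ℝ] Eu n)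

private lemma cv_det_ne : LinearMap.det (L : Eu n →ₗ[ℝ] Eu n) ≠ 0 :=
  (LinearEquiv.isUnit_det' L.toLinearEquiv).ne_zero

private lemma cv_exp (y : Eu n) : Real.exp (-cvV V L y) =
    |LinearMap.det (L : Eu n →ₗ[ℝ] Eu n)| * Real.exp (-V (L y)) := by
  have h : 0 < |LinearMap.det (L : Eu n →ₗ[ℝ] Eu n)| := abs_pos.mpr (cv_det_ne L)
  unfold cvV
  rw [neg_sub, sub_eq_add_neg, Real.exp_add, Real.exp_log h]

private lemma cv_map : Measure.map (fun y => L y) (volume : Measure (Eu n)) =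
    ENNReal.ofReal |(LinearMap.det (L : Eu n →ₗ[ℝ] Eu n))⁻¹| • (volume : Measure (Eu n)) :=
  Measure.map_linearMap_addHaar_eq_smul_addHaar _ (cv_det_ne L)

private lemma cv_emb : MeasurableEmbedding (fun y => L y) :=
  L.toHomeomorph.measurableEmbedding

private lemma cv_int (g : Eu n → ℝ) : ∫ y, g (L y) =
    |LinearMap.det (L : Eu n →ₗ[ℝ] Eu n)|⁻¹ * ∫ x, g x := by
  have h1 := (cv_emb L).integral_map (μ := (volume : Measure (Eu n))) g
  rw [← h1, cv_map, integral_smul_measure, abs_inv,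
    ENNReal.toReal_ofReal (inv_nonneg.mpr (abs_nonneg _)), smul_eq_mul]

private lemma cv_integrable {g : Eu n → ℝ} (hg : Integrable g) :
    Integrable (fun y => g (L y)) := by
  have h1 := (cv_emb L).integrable_map_iff (μ := (volume : Measure (Eu n))) (g := g)
  rw [cv_map] at h1
  exact h1.mp (hg.smul_measure ENNReal.ofReal_ne_top)

theorem Ex_cvV (φ : Eu n → ℝ) : UC.Ex (cvV V L) (fun y => φ (L y)) = UC.Ex V φ := by
  have h : 0 < |LinearMap.det (L : Eu n →ₗ[ℝ] Eu n)| := abs_pos.mpr (cv_det_ne L)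
  unfold UC.Ex
  have e : (fun y => φ (L y) * Real.exp (-cvV V L y)) = fun y =>
      |LinearMap.det (L : Eu n →ₗ[ℝ] Eu n)| * (fun x => φ x * Real.exp (-V x)) (L y) := by
    funext y
    rw [cv_exp]
    ring
  rw [e, integral_const_mul, cv_int L (fun x => φ x * Real.exp (-V x)), ← mul_assoc,
    mul_inv_cancel₀ h.ne', one_mul]

theorem tt_comp {f : Eu n → ℝ} (hf : UC.TT f) : UC.TT (fun y => f (L y)) :=
  ⟨hf.cd.comp L.contDiff, hf.cs.comp_homeomorph L.toHomeomorph⟩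

theorem pd_comp {f : Eu n → ℝ} (hf : ContDiff ℝ 1 f) (i : Fin n) (y : Eu n) :
    UC.pd i (fun y => f (L y)) y = ∑ j, L (EuclideanSpace.single i 1) j * UC.pd j f (L y) := by
  have h1 : HasFDerivAt (fun y => f (L y)) ((fderiv ℝ f (L y)).comp (L : Eu n →L[ℝ] Eu n)) y :=
    ((hf.differentiable (by norm_num)) (L y)).hasFDerivAt.comp y L.hasFDerivAt
  unfold UC.pd
  rw [h1.fderiv]
  show fderiv ℝ f (L y) (L (ej i)) = _
  conv_lhs => rw [← sum_ej (L (ej i))]
  rw [map_sum]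
  refine Finset.sum_congr rfl fun j _ => ?_
  rw [map_smul, smul_eq_mul]

private lemma cv_cd {m : WithTop ℕ∞} (hV : ContDiff ℝ m V) : ContDiff ℝ m (cvV V L) :=
  (hV.comp L.contDiff).sub contDiff_const

theorem hess_cvV (hV : ContDiff ℝ 2 V) (y v : Eu n) :
    fderiv ℝ (fderiv ℝ (cvV V L)) y v v = fderiv ℝ (fderiv ℝ V) (L y) (L v) (L v) := by
  have h1 : fderiv ℝ (cvV V L) = fun y => (fderiv ℝ V (L y)).comp (L : Eu n →L[ℝ] Eu n) := by
    funext y
    have : HasFDerivAt (cvV V L) ((fderiv ℝ V (L y)).comp (L : Eu n →L[ℝ] Eu n)) y :=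
      (((hV.differentiable (by norm_num)) (L y)).hasFDerivAt.comp y L.hasFDerivAt).sub_const _
    exact this.fderiv
  have hd : Differentiable ℝ (fderiv ℝ V) :=
    (hV.fderiv_right (m := 1) (by norm_num)).differentiable (by norm_num)
  have h2 : HasFDerivAt (fun y => fderiv ℝ V (L y))
      ((fderiv ℝ (fderiv ℝ V) (L y)).comp (L : Eu n →L[ℝ] Eu n)) y :=
    (hd (L y)).hasFDerivAt.comp y L.hasFDerivAt
  have h3 : HasFDerivAt (fun y => (fderiv ℝ V (L y)).comp (L : Eu n →L[ℝ] Eu n))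
      (((ContinuousLinearMap.compL ℝ (Eu n) (Eu n) ℝ).flip (L : Eu n →L[ℝ] Eu n)).comp
        ((fderiv ℝ (fderiv ℝ V) (L y)).comp (L : Eu n →L[ℝ] Eu n))) y :=
    (((ContinuousLinearMap.compL ℝ (Eu n) (Eu n) ℝ).flip
      (L : Eu n →L[ℝ] Eu n)).hasFDerivAt).comp y h2
  rw [h1, h3.fderiv]
  rfl

theorem varE_cvV (f : Eu n → ℝ) : VarE (cvV V L) (fun y => f (L y)) = VarE V f := by
  unfold VarE
  rw [Ex_cvV L f, Ex_cvV L (fun x => f x ^ 2)]

/-- the Dirichlet form transforms with a constant -/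
private lemma cv_Df (hV : Continuous V) {f : Eu n → ℝ} (hf : UC.TT f) :
    UC.Df V f f ≤ (∑ j, ∑ i, L.symm (ej j) i ^ 2) *
      UC.Df (cvV V L) (fun y => f (L y)) (fun y => f (L y)) := by
  set g : Eu n → ℝ := fun y => f (L y) with hg
  have htg : UC.TT g := tt_comp L hf
  have hfg : f = fun x => g (L.symm x) := by
    funext x
    rw [hg]
    simp
  have hcv : Continuous (cvV V L) := (hV.comp L.continuous).sub continuous_const
  have hpd : ∀ j x, UC.pd j f x = ∑ i, L.symm (ej j) i * UC.pd i g (L.symm x) := by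
    intro j x
    rw [hfg]
    exact pd_comp L.symm (htg.cd.of_le (by exact_mod_cast le_top)) j x
  have hE : ∀ i, UC.Ex V (fun x => UC.pd i g (L.symm x) ^ 2) =
      UC.Ex (cvV V L) (fun y => UC.pd i g y ^ 2) := by
    intro i
    rw [← Ex_cvV L]
    congr 1
    funext y
    rw [ContinuousLinearEquiv.symm_apply_apply]
  have hint : ∀ i, Integrable (fun x => UC.pd i g (L.symm x) ^ 2 * Real.exp (-V x)) := by
    intro i
    exact (tt_comp L.symm (htg.pd i)).sq.int hV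
  unfold UC.Df
  rw [Finset.sum_mul]
  refine Finset.sum_le_sum fun j _ => ?_
  have h1 : UC.Ex V (fun x => UC.pd j f x * UC.pd j f x) ≤
      UC.Ex V (fun x => (∑ i, L.symm (ej j) i ^ 2) * ∑ i, UC.pd i g (L.symm x) ^ 2) := by
    refine Ex_mono (((hf.pd j).mul (hf.pd j)).int hV) ?_ fun x => ?_
    · have := (integrable_finsetSum (Finset.univ : Finset (Fin n)) fun i _ => hint i).const_mul
        (∑ i, L.symm (ej j) i ^ 2)
      refine this.congr (Eventually.of_forall fun x => ?_)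
      simp only [Finset.sum_mul, mul_assoc]
    · show UC.pd j f x * UC.pd j f x ≤ _
      rw [← sq, hpd]
      exact Finset.sum_mul_sq_le_sq_mul_sq _ _ _
  refine h1.trans (le_of_eq ?_)
  rw [Ex_const_mul]
  congr 1
  rw [UC.Ex_sum Finset.univ (fun i _ => hint i)]
  refine Finset.sum_congr rfl fun i _ => ?_
  rw [hE]
  congr 1
  funext y
  rw [sq]

theorem sp_cvV (h : SP V κ Λ c0) : ∃ κ' Λ' c0' : ℝ, SP (cvV V L) κ' Λ' c0' := by
  have hk := h.kpos
  set a : ℝ := ‖(L.symm : Eu n →L[ℝ] Eu n)‖ with ha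
  have ha0 : 0 ≤ a := norm_nonneg _
  have hsymm : ∀ v : Eu n, ‖v‖ ≤ a * ‖L v‖ := by
    intro v
    have := (L.symm : Eu n →L[ℝ] Eu n).le_opNorm (L v)
    simpa using this
  refine ⟨κ / (a ^ 2 + 1), |Λ| * ‖(L : Eu n →L[ℝ] Eu n)‖ ^ 2,
    c0 * (∑ j, ∑ i, L.symm (ej j) i ^ 2 + 1), ?_, cv_cd L h.cd, ?_, ?_, ?_, ?_, ?_, ?_⟩
  · positivity
  · intro x v
    rw [hess_cvV L h.cd]
    refine le_trans ?_ (h.conv (L x) (L v))
    rw [div_mul_eq_mul_div, div_le_iff₀ (by positivity), mul_assoc]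
    refine mul_le_mul_of_nonneg_left ?_ hk.le
    have h1 : ‖v‖ ^ 2 ≤ (a * ‖L v‖) ^ 2 := pow_le_pow_left₀ (norm_nonneg _) (hsymm v) 2
    nlinarith [sq_nonneg ‖L v‖]
  · intro x v
    rw [hess_cvV L h.cd]
    refine (h.bd (L x) (L v)).trans ?_
    have h1 : ‖L v‖ ^ 2 ≤ (‖(L : Eu n →L[ℝ] Eu n)‖ * ‖v‖) ^ 2 :=
      pow_le_pow_left₀ (norm_nonneg _) ((L : Eu n →L[ℝ] Eu n).le_opNorm v) 2
    calc Λ * ‖L v‖ ^ 2 ≤ |Λ| * ‖L v‖ ^ 2 :=
          mul_le_mul_of_nonneg_right (le_abs_self _) (sq_nonneg _)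
      _ ≤ |Λ| * (‖(L : Eu n →L[ℝ] Eu n)‖ * ‖v‖) ^ 2 :=
          mul_le_mul_of_nonneg_left h1 (abs_nonneg _)
      _ = _ := by ring
  · have := Ex_cvV (V := V) L (fun _ => 1)
    rw [this, h.mass]
  · have h1 := (cv_integrable L h.int4).const_mul
      (|LinearMap.det (L : Eu n →ₗ[ℝ] Eu n)| * (1 + a) ^ 4)
    refine h1.mono' ?_ (Eventually.of_forall fun y => ?_)
    · have hc : Continuous (cvV V L) := (cv_cd L h.cd).continuous
      exact (((continuous_const.add continuous_norm).pow 4).mul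
        (Real.continuous_exp.comp hc.neg)).aestronglyMeasurable
    · rw [Real.norm_of_nonneg (by positivity), cv_exp]
      have h2 : (1 + ‖y‖) ^ 4 ≤ ((1 + a) * (1 + ‖L y‖)) ^ 4 := by
        refine pow_le_pow_left₀ (by positivity) ?_ 4
        have := hsymm y
        nlinarith [norm_nonneg (L y)]
      calc (1 + ‖y‖) ^ 4 * (|LinearMap.det (L : Eu n →ₗ[ℝ] Eu n)| * Real.exp (-V (L y)))
          ≤ ((1 + a) * (1 + ‖L y‖)) ^ 4 *
            (|LinearMap.det (L : Eu n →ₗ[ℝ] Eu n)| * Real.exp (-V (L y))) :=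
            mul_le_mul_of_nonneg_right h2 (by positivity)
        _ = _ := by ring
  · have := h.cpos
    positivity
  · intro f hf
    set g : Eu n → ℝ := fun x => f (L.symm x) with hg
    have htg : UC.TT g := tt_comp L.symm hf
    have hfg : f = fun y => g (L y) := by
      funext x
      rw [hg]
      simp
    have h1 := h.hp g htg
    have h2 := cv_Df L h.cont htg
    rw [← hfg] at h2
    have h3 := varE_cvV (V := V) L g
    rw [← hfg] at h3
    unfold VarE at h3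
    rw [h3]
    refine h1.trans ?_
    rw [mul_assoc]
    refine mul_le_mul_of_nonneg_left (h2.trans ?_) h.cpos.le
    exact mul_le_mul_of_nonneg_right (by linarith) (Df_nonneg _ _)

end cv

end Pool.Agent.Lib.MP_6d896a_gt.LG
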