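import Mathlib
import Pool.Agent.Lib.MP_6d896a_gt.LL.Defs
import Pool.Agent.Lib.MP_6d896a_gt.LG.Basic
import Pool.Agent.Lib.MP_6d896a_gt.LG.PA1
import Pool.Agent.Lib.MP_6d896a_gt.LG.PA2

/-!
Project LL, piece L04: bounds for cumulants.
-/

set_option autoImplicit false

namespace Pool.Agent.Lib.MP_6d896a_gt.LG

open MeasureTheory Filter Topology Set Matrix
open scoped ENNReal NNReal

variable {n : ℕ} {μ ν : Measure (Eu n)} {R B T κ : ℝ}

/-- centred coordinates -/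
private noncomputable def cy (ν : Measure (Eu n)) (i : Fin n) (x : Eu n) : ℝ := x i - mn ν i

private lemma cy_cd (ν : Measure (Eu n)) (i : Fin n) : ContDiff ℝ 1 (cy ν i) := by
  unfold cy
  have h : ContDiff ℝ 1 (fun x : Eu n => x i) := (EuclideanSpace.proj (𝕜 := ℝ) i).contDiff
  exact h.sub contDiff_const

private lemma cy_bm (hR : BS R ν) (i : Fin n) : BM ν (cy ν i) := BM.cont hR (cy_cd ν i).continuous

private lemma mn_apply (ν : Measure (Eu n)) (i : Fin n) : mn ν i = ∫ x, x i ∂ν := rfl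

private lemma cy_mean (hν : IsProbabilityMeasure ν) (hR : BS R ν) (i : Fin n) :
    ∫ x, cy ν i x ∂ν = 0 := by
  unfold cy
  rw [integral_sub (BM.coord hR i).int (BM.const _).int, mn_apply]
  simp

private lemma cy_cv (hν : IsProbabilityMeasure ν) (hR : BS R ν) {φ : Eu n → ℝ} (hφ : BM ν φ)
    (k : Fin n) : Cv ν (fun x => x k) φ = ∫ x, cy ν k x * φ x ∂ν := by
  unfold Cv cy
  simp only [sub_mul]
  rw [integral_sub ((BM.coord hR k).mul hφ).int (hφ.cmul _).int, integral_const_mul, mn_apply]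

private lemma cy_am (hν : IsProbabilityMeasure ν) (hR : BS R ν) (k l : Fin n) :
    Am ν k l = ∫ x, cy ν k x * cy ν l x ∂ν := by
  unfold Am
  have h1 : Cv ν (fun x => x k) (cy ν l) = Cv ν (fun x => x k) (fun x => x l) := by
    unfold cy
    rw [Cv_sub_right (BM.coord hR l) (BM.const _) (BM.coord hR k), Cv_const_right, sub_zero]
  rw [← h1, cy_cv hν hR (cy_bm hR l)]

private lemma cy_fd (ν : Measure (Eu n)) (i : Fin n) (x : Eu n) : ‖fderiv ℝ (cy ν i) x‖ ≤ 1 := by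
  have h : HasFDerivAt (cy ν i) (EuclideanSpace.proj (𝕜 := ℝ) i : Eu n →L[ℝ] ℝ) x := by
    unfold cy
    exact ((EuclideanSpace.proj (𝕜 := ℝ) i : Eu n →L[ℝ] ℝ).hasFDerivAt).sub_const _
  rw [h.fderiv]
  refine ContinuousLinearMap.opNorm_le_bound _ zero_le_one fun v => ?_
  rw [one_mul]
  exact PiLp.norm_apply_le v i

private lemma cy2_fd (ν : Measure (Eu n)) (i : Fin n) (x : Eu n) :
    ‖fderiv ℝ (fun x => cy ν i x ^ 2) x‖ ^ 2 ≤ 4 * cy ν i x ^ 2 := by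
  have h : HasFDerivAt (fun x => cy ν i x ^ 2) ((2 * cy ν i x) • fderiv ℝ (cy ν i) x) x := by
    have h1 := ((cy_cd ν i).differentiable (by norm_num) x).hasFDerivAt
    have h2 := h1.pow 2
    have e : (2 • cy ν i x ^ (2 - 1)) = 2 * cy ν i x := by simp
    rw [e] at h2
    exact h2
  rw [h.fderiv, norm_smul, mul_pow, Real.norm_eq_abs, sq_abs]
  have h3 := cy_fd ν i x
  have h4 : ‖fderiv ℝ (cy ν i) x‖ ^ 2 ≤ 1 := pow_le_one₀ (norm_nonneg _) h3
  nlinarith [sq_nonneg (cy ν i x)]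

private lemma m2 (hκ : 0 < κ) (hν : IsProbabilityMeasure ν) (hR : BS R ν) (hu : ULC κ ν)
    (i : Fin n) : ∫ x, cy ν i x ^ 2 ∂ν ≤ 1 / κ := by
  have h1 := ulc_poincare_of p1s hν hR hκ hu (cy_cd ν i)
  have h2 : Cv ν (cy ν i) (cy ν i) = ∫ x, cy ν i x ^ 2 ∂ν := by
    unfold Cv
    rw [cy_mean hν hR i, mul_zero, sub_zero]
    simp only [sq]
  have h3 : ∫ x, ‖fderiv ℝ (cy ν i) x‖ ^ 2 ∂ν ≤ 1 := by
    have h4 := int_le (ν := ν) (f := fun x => ‖fderiv ℝ (cy ν i) x‖ ^ 2) (M := 1)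
      (ae_of_all _ fun x => by
        rw [abs_of_nonneg (sq_nonneg _)]
        exact pow_le_one₀ (norm_nonneg _) (cy_fd ν i x))
    exact (le_abs_self _).trans h4
  rw [h2] at h1
  refine h1.trans ?_
  calc 1 / κ * ∫ x, ‖fderiv ℝ (cy ν i) x‖ ^ 2 ∂ν ≤ 1 / κ * 1 :=
        mul_le_mul_of_nonneg_left h3 (by positivity)
    _ = 1 / κ := mul_one _

private lemma m4 (hκ : 0 < κ) (hν : IsProbabilityMeasure ν) (hR : BS R ν) (hu : ULC κ ν)
    (i : Fin n) : ∫ x, cy ν i x ^ 4 ∂ν ≤ 5 / κ ^ 2 := by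
  have hcd : ContDiff ℝ 1 (fun x => cy ν i x ^ 2) := (cy_cd ν i).pow 2
  have h1 := ulc_poincare_of p1s hν hR hκ hu hcd
  have h2 : Cv ν (fun x => cy ν i x ^ 2) (fun x => cy ν i x ^ 2) =
      ∫ x, cy ν i x ^ 4 ∂ν - (∫ x, cy ν i x ^ 2 ∂ν) ^ 2 := by
    unfold Cv
    rw [sq (∫ x, cy ν i x ^ 2 ∂ν)]
    congr 2
    funext x
    ring
  have hb2 : BM ν (fun x => cy ν i x ^ 2) := BM.cont hR ((cy_cd ν i).continuous.pow 2)
  have h3 : ∫ x, ‖fderiv ℝ (fun x => cy ν i x ^ 2) x‖ ^ 2 ∂ν ≤ 4 * (1 / κ) := by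
    calc ∫ x, ‖fderiv ℝ (fun x => cy ν i x ^ 2) x‖ ^ 2 ∂ν ≤ ∫ x, 4 * cy ν i x ^ 2 ∂ν :=
          integral_mono_of_nonneg (ae_of_all _ fun x => sq_nonneg _) (hb2.cmul 4).int
            (ae_of_all _ fun x => cy2_fd ν i x)
      _ = 4 * ∫ x, cy ν i x ^ 2 ∂ν := integral_const_mul _ _
      _ ≤ _ := by
          have := m2 hκ hν hR hu i
          linarith
  have h4 := m2 hκ hν hR hu i
  have h5 : 0 ≤ ∫ x, cy ν i x ^ 2 ∂ν := integral_nonneg fun x => sq_nonneg _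
  have h6 : (∫ x, cy ν i x ^ 2 ∂ν) ^ 2 ≤ (1 / κ) ^ 2 := pow_le_pow_left₀ h5 h4 2
  have h7 : 1 / κ * ∫ x, ‖fderiv ℝ (fun x => cy ν i x ^ 2) x‖ ^ 2 ∂ν ≤
      1 / κ * (4 * (1 / κ)) := mul_le_mul_of_nonneg_left h3 (by positivity)
  have h8 : 5 / κ ^ 2 = 1 / κ * (4 * (1 / κ)) + (1 / κ) ^ 2 := by
    field_simp
    ring
  rw [h8]
  rw [h2] at h1
  linarith

private lemma cyp (hR : BS R ν) (i : Fin n) (p : ℕ) : BM ν (fun x => cy ν i x ^ p) :=
  BM.cont hR ((cy_cd ν i).continuous.pow p)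

theorem cum_bd (hκ : 0 < κ) : ∃ C : ℝ, 0 ≤ C ∧ ∀ (n : ℕ) (ν : Measure (Eu n)) (R : ℝ),
    IsProbabilityMeasure ν → BS R ν → ULC κ ν → ∀ i j k l : Fin n,
      |Am ν i j| ≤ C ∧ |Hm ν k i j| ≤ C ∧ |Fc ν i j k l| ≤ C := by
  refine ⟨1 / κ + 23 / κ ^ 2, by positivity, fun n ν R hν hR hu i j k l => ?_⟩
  have hp1 : 0 < 1 / κ := by positivity
  have hp2 : 0 < 1 / κ ^ 2 := by positivity
  have e5 : 5 / κ ^ 2 = 5 * (1 / κ ^ 2) := by ring
  have e23 : 23 / κ ^ 2 = 23 * (1 / κ ^ 2) := by ring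
  have hA : ∀ i j : Fin n, |Am ν i j| ≤ 1 / κ := by
    intro i j
    rw [cy_am hν hR i j]
    have h1 : |∫ x, cy ν i x * cy ν j x ∂ν| ≤
        ∫ x, (1 / 2) * (cy ν i x ^ 2 + cy ν j x ^ 2) ∂ν := by
      refine (abs_integral_le_integral_abs).trans ?_
      refine integral_mono_of_nonneg (ae_of_all _ fun x => abs_nonneg _)
        (((cyp hR i 2).add (cyp hR j 2)).cmul _).int (ae_of_all _ fun x => ?_)
      beta_reduce
      rw [abs_le]
      constructor <;> nlinarith [sq_nonneg (cy ν i x + cy ν j x), sq_nonneg (cy ν i x - cy ν j x)]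
    rw [integral_const_mul, integral_add (cyp hR i 2).int (cyp hR j 2).int] at h1
    have h2 := m2 hκ hν hR hu i
    have h3 := m2 hκ hν hR hu j
    linarith
  rw [e23]
  refine ⟨?_, ?_, ?_⟩
  · have := hA i j
    linarith
  · have h0 : Hm ν k i j = ∫ x, cy ν k x * (cy ν i x * cy ν j x) ∂ν := rfl
    rw [h0]
    have h1 : |∫ x, cy ν k x * (cy ν i x * cy ν j x) ∂ν| ≤
        ∫ x, (cy ν k x ^ 2 + (cy ν i x ^ 4 + cy ν j x ^ 4)) ∂ν := by
      refine (abs_integral_le_integral_abs).trans ?_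
      refine integral_mono_of_nonneg (ae_of_all _ fun x => abs_nonneg _)
        ((cyp hR k 2).add ((cyp hR i 4).add (cyp hR j 4))).int (ae_of_all _ fun x => ?_)
      beta_reduce
      have e1 : |cy ν k x * (cy ν i x * cy ν j x)| ≤
          (cy ν k x ^ 2 + (cy ν i x * cy ν j x) ^ 2) / 2 := by
        rw [abs_le]
        constructor <;> nlinarith [sq_nonneg (cy ν k x + cy ν i x * cy ν j x),
          sq_nonneg (cy ν k x - cy ν i x * cy ν j x)]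
      have e2 : (cy ν i x * cy ν j x) ^ 2 ≤ (cy ν i x ^ 4 + cy ν j x ^ 4) / 2 := by
        nlinarith [sq_nonneg (cy ν i x ^ 2 - cy ν j x ^ 2)]
      nlinarith [sq_nonneg (cy ν k x), sq_nonneg (cy ν i x ^ 2), sq_nonneg (cy ν j x ^ 2)]
    rw [integral_add (cyp hR k 2).int ((cyp hR i 4).add (cyp hR j 4)).int,
      integral_add (cyp hR i 4).int (cyp hR j 4).int] at h1
    have h2 := m2 hκ hν hR hu k
    have h3 := m4 hκ hν hR hu i
    have h4 := m4 hκ hν hR hu j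
    rw [e5] at h3 h4
    linarith
  · have h0 : Fc ν i j k l = ∫ x, cy ν i x * cy ν j x * (cy ν k x * cy ν l x) ∂ν -
      Am ν i j * Am ν k l - Am ν i k * Am ν j l - Am ν i l * Am ν j k := rfl
    have h1 : |∫ x, cy ν i x * cy ν j x * (cy ν k x * cy ν l x) ∂ν| ≤
        ∫ x, ((cy ν i x ^ 4 + cy ν j x ^ 4) + (cy ν k x ^ 4 + cy ν l x ^ 4)) ∂ν := by
      refine (abs_integral_le_integral_abs).trans ?_
      refine integral_mono_of_nonneg (ae_of_all _ fun x => abs_nonneg _)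
        (((cyp hR i 4).add (cyp hR j 4)).add ((cyp hR k 4).add (cyp hR l 4))).int
        (ae_of_all _ fun x => ?_)
      beta_reduce
      have e1 : |cy ν i x * cy ν j x * (cy ν k x * cy ν l x)| ≤
          ((cy ν i x * cy ν j x) ^ 2 + (cy ν k x * cy ν l x) ^ 2) / 2 := by
        rw [abs_le]
        constructor <;> nlinarith [sq_nonneg (cy ν i x * cy ν j x + cy ν k x * cy ν l x),
          sq_nonneg (cy ν i x * cy ν j x - cy ν k x * cy ν l x)]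
      have e2 : (cy ν i x * cy ν j x) ^ 2 ≤ (cy ν i x ^ 4 + cy ν j x ^ 4) / 2 := by
        nlinarith [sq_nonneg (cy ν i x ^ 2 - cy ν j x ^ 2)]
      have e3 : (cy ν k x * cy ν l x) ^ 2 ≤ (cy ν k x ^ 4 + cy ν l x ^ 4) / 2 := by
        nlinarith [sq_nonneg (cy ν k x ^ 2 - cy ν l x ^ 2)]
      have e6 : 0 ≤ (cy ν i x ^ 4 + cy ν j x ^ 4) + (cy ν k x ^ 4 + cy ν l x ^ 4) := by positivity
      linarith
    rw [integral_add ((cyp hR i 4).add (cyp hR j 4)).int ((cyp hR k 4).add (cyp hR l 4)).int,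
      integral_add (cyp hR i 4).int (cyp hR j 4).int,
      integral_add (cyp hR k 4).int (cyp hR l 4).int] at h1
    have h2 := m4 hκ hν hR hu i
    have h3 := m4 hκ hν hR hu j
    have h4 := m4 hκ hν hR hu k
    have h5 := m4 hκ hν hR hu l
    rw [e5] at h2 h3 h4 h5
    have hAA : ∀ a b c d : Fin n, |Am ν a b * Am ν c d| ≤ 1 / κ ^ 2 := by
      intro a b c d
      rw [abs_mul]
      calc |Am ν a b| * |Am ν c d| ≤ (1 / κ) * (1 / κ) :=
            mul_le_mul (hA a b) (hA c d) (abs_nonneg _) hp1.le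
        _ = 1 / κ ^ 2 := by rw [← sq, _root_.one_div_pow]
    have g1 := abs_le.mp (hAA i j k l)
    have g2 := abs_le.mp (hAA i k j l)
    have g3 := abs_le.mp (hAA i l j k)
    have g4 := abs_le.mp h1
    rw [h0, abs_le]
    constructor <;> linarith [g1.1, g1.2, g2.1, g2.2, g3.1, g3.2, g4.1, g4.2]

private lemma zt_nonneg_term {ψ : Eu n → ℝ} (h0 : ∀ x, 0 ≤ ψ x) (k : Fin n) :
    0 ≤ ∫ x, (x k - mn ν k) ^ 2 * ψ x ∂ν :=
  integral_nonneg fun x => mul_nonneg (sq_nonneg _) (h0 x)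

private lemma zt_term_le {ψ : Eu n → ℝ} (h0 : ∀ x, 0 ≤ ψ x) (k : Fin n) :
    ∫ x, cy ν k x ^ 2 * ψ x ∂ν ≤ Zt ν ψ := by
  unfold Zt
  exact Finset.single_le_sum (f := fun k => ∫ x, (x k - mn ν k) ^ 2 * ψ x ∂ν)
    (fun i _ => zt_nonneg_term h0 i) (Finset.mem_univ k)

theorem W_abs (hν : IsProbabilityMeasure ν) (hR : BS R ν) {φ ψ : Eu n → ℝ}
    (hφ : Measurable φ) (hψ : Measurable ψ) (hle : ∀ x, |φ x| ≤ ψ x) {M : ℝ}
    (hb : ∀ᵐ x ∂ν, |ψ x| ≤ M) (k : Fin n) :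
    |Cv ν (fun x => x k) φ| ≤ ∫ x, ψ x ∂ν + Zt ν ψ := by
  have h0 : ∀ x, 0 ≤ ψ x := fun x => (abs_nonneg _).trans (hle x)
  have bψ : BM ν ψ := ⟨hψ.aestronglyMeasurable, M, hb⟩
  have bφ : BM ν φ := ⟨hφ.aestronglyMeasurable, M, by
    filter_upwards [hb] with x hx
    exact ((hle x).trans (le_abs_self _)).trans hx⟩
  rw [cy_cv hν hR bφ]
  have h1 : |∫ x, cy ν k x * φ x ∂ν| ≤
      ∫ x, (1 / 2) * (ψ x + cy ν k x ^ 2 * ψ x) ∂ν := by
    refine (abs_integral_le_integral_abs).trans ?_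
    refine integral_mono_of_nonneg (ae_of_all _ fun x => abs_nonneg _)
      ((bψ.add ((cyp hR k 2).mul bψ)).cmul _).int (ae_of_all _ fun x => ?_)
    beta_reduce
    rw [abs_mul]
    have e1 : |cy ν k x| ≤ (1 / 2) * (1 + cy ν k x ^ 2) := by
      nlinarith [sq_nonneg (|cy ν k x| - 1), sq_abs (cy ν k x)]
    calc |cy ν k x| * |φ x| ≤ ((1 / 2) * (1 + cy ν k x ^ 2)) * ψ x :=
          mul_le_mul e1 (hle x) (abs_nonneg _) (by positivity)
      _ = _ := by ring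
  rw [integral_const_mul, integral_add bψ.int ((cyp hR k 2).mul bψ).int] at h1
  have h2 := zt_term_le (ν := ν) h0 k
  have h3 : 0 ≤ ∫ x, ψ x ∂ν := integral_nonneg h0
  have h4 : 0 ≤ ∫ x, cy ν k x ^ 2 * ψ x ∂ν := zt_nonneg_term h0 k
  linarith

private lemma xc_eq (hν : IsProbabilityMeasure ν) (hR : BS R ν) {φ : Eu n → ℝ} (bφ : BM ν φ)
    (k l : Fin n) : Xc ν k l φ = Cv ν (fun x => cy ν k x * cy ν l x) φ := by
  have h0 : Xc ν k l φ = ∫ x, cy ν k x * (cy ν l x * (φ x - ∫ y, φ y ∂ν)) ∂ν := rfl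
  rw [h0]
  unfold Cv
  have e : ∀ x, cy ν k x * (cy ν l x * (φ x - ∫ y, φ y ∂ν)) =
      cy ν k x * cy ν l x * φ x - (∫ y, φ y ∂ν) * (cy ν k x * cy ν l x) := fun x => by ring
  have b := (cy_bm hR k).mul (cy_bm hR l)
  simp only [e]
  rw [integral_sub (b.mul bφ).int (b.cmul _).int, integral_const_mul]
  ring

theorem X_abs (hν : IsProbabilityMeasure ν) (hR : BS R ν) {φ ψ : Eu n → ℝ}
    (hφ : Measurable φ) (hψ : Measurable ψ) (hle : ∀ x, |φ x| ≤ ψ x) {M : ℝ}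
    (hb : ∀ᵐ x ∂ν, |ψ x| ≤ M) (k l : Fin n) :
    |Xc ν k l φ| ≤ |Am ν k l| * ∫ x, ψ x ∂ν + Zt ν ψ := by
  have h0 : ∀ x, 0 ≤ ψ x := fun x => (abs_nonneg _).trans (hle x)
  have bψ : BM ν ψ := ⟨hψ.aestronglyMeasurable, M, hb⟩
  have bφ : BM ν φ := ⟨hφ.aestronglyMeasurable, M, by
    filter_upwards [hb] with x hx
    exact ((hle x).trans (le_abs_self _)).trans hx⟩
  rw [xc_eq hν hR bφ]
  unfold Cv
  rw [← cy_am hν hR]
  have h1 : |∫ x, cy ν k x * cy ν l x * φ x ∂ν| ≤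
      ∫ x, (1 / 2) * (cy ν k x ^ 2 * ψ x + cy ν l x ^ 2 * ψ x) ∂ν := by
    refine (abs_integral_le_integral_abs).trans ?_
    refine integral_mono_of_nonneg (ae_of_all _ fun x => abs_nonneg _)
      ((((cyp hR k 2).mul bψ).add ((cyp hR l 2).mul bψ)).cmul _).int (ae_of_all _ fun x => ?_)
    beta_reduce
    rw [abs_mul]
    have e1 : |cy ν k x * cy ν l x| ≤ (1 / 2) * (cy ν k x ^ 2 + cy ν l x ^ 2) := by
      rw [abs_le]
      constructor <;> nlinarith [sq_nonneg (cy ν k x + cy ν l x), sq_nonneg (cy ν k x - cy ν l x)]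
    calc |cy ν k x * cy ν l x| * |φ x| ≤ ((1 / 2) * (cy ν k x ^ 2 + cy ν l x ^ 2)) * ψ x :=
          mul_le_mul e1 (hle x) (abs_nonneg _) (by positivity)
      _ = _ := by ring
  rw [integral_const_mul, integral_add ((cyp hR k 2).mul bψ).int ((cyp hR l 2).mul bψ).int] at h1
  have h2 := zt_term_le (ν := ν) h0 k
  have h3 := zt_term_le (ν := ν) h0 l
  have h4 : |∫ x, φ x ∂ν| ≤ ∫ x, ψ x ∂ν := by
    refine (abs_integral_le_integral_abs).trans ?_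
    exact integral_mono_of_nonneg (ae_of_all _ fun x => abs_nonneg _) bψ.int
      (ae_of_all _ hle)
  have h5 : |Am ν k l * ∫ x, φ x ∂ν| ≤ |Am ν k l| * ∫ x, ψ x ∂ν := by
    rw [abs_mul]
    exact mul_le_mul_of_nonneg_left h4 (abs_nonneg _)
  refine (abs_sub _ _).trans ?_
  linarith

/-- `Xc` against the variance -/
theorem X_sq (hκ : 0 < κ) : ∃ C : ℝ, 0 ≤ C ∧ ∀ (n : ℕ) (ν : Measure (Eu n)) (R : ℝ),
    IsProbabilityMeasure ν → BS R ν → ULC κ ν → ∀ f : Eu n → ℝ, Continuous f →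
      ∀ k l : Fin n, Xc ν k l f ^ 2 ≤ C * Cv ν f f := by
  refine ⟨5 / κ ^ 2, by positivity, fun n ν R hν hR hu f hf k l => ?_⟩
  have bf : BM ν f := BM.cont hR hf
  have b := (cy_bm hR k).mul (cy_bm hR l)
  rw [xc_eq hν hR bf]
  refine (Cv_sq_le b bf).trans ?_
  refine mul_le_mul_of_nonneg_right ?_ (Cv_self_nonneg bf)
  have h1 : Cv ν (fun x => cy ν k x * cy ν l x) (fun x => cy ν k x * cy ν l x) ≤
      ∫ x, (1 / 2) * (cy ν k x ^ 4 + cy ν l x ^ 4) ∂ν := by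
    unfold Cv
    have h2 : 0 ≤ (∫ x, cy ν k x * cy ν l x ∂ν) * ∫ x, cy ν k x * cy ν l x ∂ν := mul_self_nonneg _
    have h3 : ∫ x, cy ν k x * cy ν l x * (cy ν k x * cy ν l x) ∂ν ≤
        ∫ x, (1 / 2) * (cy ν k x ^ 4 + cy ν l x ^ 4) ∂ν := by
      refine integral_mono (b.mul b).int (((cyp hR k 4).add (cyp hR l 4)).cmul _).int fun x => ?_
      beta_reduce
      nlinarith [sq_nonneg (cy ν k x ^ 2 - cy ν l x ^ 2)]
    linarith
  rw [integral_const_mul, integral_add (cyp hR k 4).int (cyp hR l 4).int] at h1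
  have h2 := m4 hκ hν hR hu k
  have h3 := m4 hκ hν hR hu l
  linarith

end Pool.Agent.Lib.MP_6d896a_gt.LG
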