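import Mathlib
import Pool.Agent.Lib.MP_6d896a_gt.LL.Defs
import Pool.Agent.Lib.MP_6d896a_gt.LG.Deriv

/-!
Project LL, piece L01: drift and diffusion of the covariance of a coordinate with a function.
-/

set_option autoImplicit false

namespace Pool.Agent.Lib.MP_6d896a_gt.LG

open MeasureTheory Filter Topology Set Matrix
open scoped ENNReal NNReal

variable {n : ℕ} {μ ν : Measure (Eu n)} {R B T κ : ℝ}

private lemma l01_mn (ν : Measure (Eu n)) (i : Fin n) : mn ν i = ∫ x, x i ∂ν := rfl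

private lemma l01_meas (i : Fin n) : Measurable fun x : Eu n => x i :=
  (PiLp.continuous_apply 2 _ i).measurable

private lemma l01_bd {φ ψ : Eu n → ℝ} {M N : ℝ} (h1 : ∀ᵐ x ∂μ, |φ x| ≤ M)
    (h2 : ∀ᵐ x ∂μ, |ψ x| ≤ N) : ∀ᵐ x ∂μ, |φ x * ψ x| ≤ |M| * |N| := by
  filter_upwards [h1, h2] with x a1 a2
  rw [abs_mul]
  exact mul_le_mul (a1.trans (le_abs_self _)) (a2.trans (le_abs_self _)) (abs_nonneg _)
    (abs_nonneg _)

/-- covariance of two bounded functions -/
private lemma l01_cv (h : Nm μ R B) {φ ψ : Eu n → ℝ} (hφ : Measurable φ) (hψ : Measurable ψ)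
    {M N : ℝ} (bφ : ∀ᵐ x ∂μ, |φ x| ≤ M) (bψ : ∀ᵐ x ∂μ, |ψ x| ≤ N) :
    It μ B T (fun t s => Cv (tl μ t s.1) φ ψ)
      (fun t s => - ∑ k, Cv (tl μ t s.1) (fun x => x k) φ * Cv (tl μ t s.1) (fun x => x k) ψ)
      (fun t s k => Cv (tl μ t s.1) (fun x => x k) (fun x => φ x * ψ x) -
        (Cv (tl μ t s.1) (fun x => x k) φ * (∫ x, ψ x ∂(tl μ t s.1)) +
          (∫ x, φ x ∂(tl μ t s.1)) * Cv (tl μ t s.1) (fun x => x k) ψ)) := by
  have e1 := It.ev (T := T) h (hφ.mul hψ) (l01_bd bφ bψ)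
  have e2 := It.ev (T := T) h hφ bφ
  have e3 := It.ev (T := T) h hψ bψ
  refine It.congr h (e1.sub h (e2.mul h e3)) ?_ ?_ ?_
  · intro t s _ _ _
    rfl
  · intro t s _ _ _
    simp
  · intro t s _ _ _
    funext k
    rfl

/-- third joint cumulant of bounded functions -/
private lemma l01_c3 [IsProbabilityMeasure ν] {u v w : Eu n → ℝ} (bu : BM ν u) (bv : BM ν v)
    (bw : BM ν w) :
    ∫ x, (v x - ∫ y, v y ∂ν) * ((u x - ∫ y, u y ∂ν) * (w x - ∫ y, w y ∂ν)) ∂ν =
      Cv ν u (fun x => v x * w x) -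
      (Cv ν u v * (∫ x, w x ∂ν) + (∫ x, v x ∂ν) * Cv ν u w) := by
  set a := ∫ x, u x ∂ν with ha
  set b := ∫ x, v x ∂ν with hb
  set c := ∫ x, w x ∂ν with hc
  have bg : BM ν fun x => (v x - b) * (w x - c) := (bv.sub (BM.const b)).mul (bw.sub (BM.const c))
  have e1 : ∫ x, (v x - b) * ((u x - a) * (w x - c)) ∂ν =
      Cv ν u (fun x => (v x - b) * (w x - c)) := by
    unfold Cv
    rw [← ha]
    have e : ∀ x : Eu n, (v x - b) * ((u x - a) * (w x - c)) =
        u x * ((v x - b) * (w x - c)) - a * ((v x - b) * (w x - c)) := fun x => by ring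
    simp only [e]
    rw [integral_sub (bu.mul bg).int (bg.cmul a).int, integral_const_mul]
  have e2 : (fun x : Eu n => (v x - b) * (w x - c)) = fun x =>
      (v x * w x - c * v x) - (b * w x - b * c) := by
    funext x
    ring
  rw [e1, e2, Cv_sub_right (((bv.mul bw).sub (bv.cmul c))) ((bw.cmul b).sub (BM.const _)) bu]
  rw [Cv_sub_right (bv.mul bw) (bv.cmul c) bu, Cv_sub_right (bw.cmul b) (BM.const _) bu,
    Cv_cmul_right, Cv_cmul_right, Cv_const_right]
  ring

/-- drift and diffusion of the covariance of a coordinate with a bounded function -/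
theorem It.W (h : Nm μ R B) {φ : Eu n → ℝ} (hm : Measurable φ) {M : ℝ}
    (hb : ∀ᵐ x ∂μ, |φ x| ≤ M) (k : Fin n) :
    It μ B T (fun t s => Cv (tl μ t s.1) (fun x => x k) φ)
      (fun t s => - ∑ p, Am (tl μ t s.1) k p * Cv (tl μ t s.1) (fun x => x p) φ)
      (fun t s p => Xc (tl μ t s.1) k p φ) := by
  refine It.congr h (l01_cv (T := T) h (l01_meas k) hm (BS.coord_ae h.bs k) hb) ?_ ?_ ?_
  · intro t s _ _ _
    rfl
  · intro t s _ _ _
    congr 1
    refine Finset.sum_congr rfl fun p _ => ?_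
    rw [Am_symm _ k p]
    rfl
  · intro t s _ _ _
    funext p
    have hP := tl_prob h t s.1
    have hR := tl_BS h t s.1
    have bφ : BM (tl μ t s.1) φ := by
      refine ⟨hm.aestronglyMeasurable, M, ?_⟩
      exact (tilted_absolutelyContinuous _ _).ae_le hb
    exact (l01_c3 (BM.coord hR p) (BM.coord hR k) bφ).symm

end Pool.Agent.Lib.MP_6d896a_gt.LG
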