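import Mathlib
import Pool.Agent.Lib.MP_6d896a_gt.LL.Defs
import Pool.Agent.Lib.MP_6d896a_gt.LL.ItW
import Pool.Agent.Lib.MP_6d896a_gt.LL.CumBd
import Pool.Agent.Lib.MP_6d896a_gt.LG.Deriv
import Pool.Agent.Lib.MP_6d896a_gt.LG.PD2

/-!
Project LL, piece L05: the time integral of the squared covariances with the coordinates.
-/

set_option autoImplicit false

namespace Pool.Agent.Lib.MP_6d896a_gt.LG

open MeasureTheory Filter Topology Set Matrix
open scoped ENNReal NNReal

variable {n : ℕ} {μ ν : Measure (Eu n)} {R B T κ : ℝ}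

/-- uniform log-concavity is monotone in the constant -/
private lemma ulc_anti {t : ℝ} (ht : 0 ≤ t) (hu : ULC (κ + t) ν) : ULC κ ν := by
  unfold ULC at hu ⊢
  have h2 : FP.PLm ((ν.withDensity fun x =>
      ENNReal.ofReal (Real.exp ((κ + t) / 2 * ‖x‖ ^ 2))).withDensity
      (fun x => ENNReal.ofReal (Real.exp (-(t / 2 * ‖x‖ ^ 2))))) := by
    refine FP.PLm.withDensity hu (by fun_prop) ?_
    intro x y l h0 h1
    show ENNReal.ofReal (Real.exp (-(t / 2 * ‖x‖ ^ 2))) ^ (1 - l) *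
      ENNReal.ofReal (Real.exp (-(t / 2 * ‖y‖ ^ 2))) ^ l ≤
      ENNReal.ofReal (Real.exp (-(t / 2 * ‖(1 - l) • x + l • y‖ ^ 2)))
    rw [ENNReal.ofReal_rpow_of_pos (Real.exp_pos _), ENNReal.ofReal_rpow_of_pos (Real.exp_pos _),
      ← ENNReal.ofReal_mul (by positivity), ← Real.exp_mul, ← Real.exp_mul, ← Real.exp_add]
    apply ENNReal.ofReal_le_ofReal
    apply Real.exp_le_exp.mpr
    have h3 : ‖(1 - l) • x + l • y‖ ^ 2 = (1 - l) * ‖x‖ ^ 2 + l * ‖y‖ ^ 2 -
        l * (1 - l) * ‖x - y‖ ^ 2 := by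
      rw [norm_add_sq_real, norm_sub_sq_real, norm_smul, norm_smul, real_inner_smul_left,
        real_inner_smul_right, Real.norm_of_nonneg (by linarith : (0 : ℝ) ≤ 1 - l),
        Real.norm_of_nonneg h0.le]
      ring
    rw [h3]
    have h4 : 0 ≤ t / 2 * (l * (1 - l) * ‖x - y‖ ^ 2) := by
      have : 0 ≤ 1 - l := by linarith
      positivity
    linarith
  rw [← withDensity_mul _ (by fun_prop) (by fun_prop)] at h2
  have e : ((fun x : Eu n => ENNReal.ofReal (Real.exp ((κ + t) / 2 * ‖x‖ ^ 2))) *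
      fun x => ENNReal.ofReal (Real.exp (-(t / 2 * ‖x‖ ^ 2)))) =
      fun x => ENNReal.ofReal (Real.exp (κ / 2 * ‖x‖ ^ 2)) := by
    funext x
    simp only [Pi.mul_apply]
    rw [← ENNReal.ofReal_mul (by positivity), ← Real.exp_add]
    congr 2
    ring
  rw [e] at h2
  exact h2

/-- Dynkin's formula for `(T - t) * F` -/
private lemma dyn_trick (h : Nm μ R B) (hT : 0 < T) {F b G : ℝ → St n → ℝ}
    {σ : ℝ → St n → Fin n → ℝ} (hI : It μ B T F b σ) (hG : Bd B T G)
    (hle : ∀ t s, 0 ≤ t → t ≤ T → Rg B t s → (T - t) * b t s ≤ G t s) :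
    JJ μ T F ≤ T * F 0 (0, 1) + JJ μ T G := by
  have hτ : It μ B T (fun t (_ : St n) => T - t) (fun _ _ => -1) (fun _ _ _ => 0) := by
    refine (It.cmul h (It.tau (T := T) h (-T)) (-1)).congr h (fun t s _ _ _ => ?_)
      (fun t s _ _ _ => ?_) (fun t s _ _ _ => ?_)
    · ring
    · ring
    · funext k
      ring
  have hP := It.mul h hτ hI
  have hdyn := dynkin h hT hP
  have e0 : (fun s => (T - T) * F T s) = fun _ : St n => (0 : ℝ) := by
    funext s
    rw [sub_self, zero_mul]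
  have hdyn' : (0 : ℝ) = (T - 0) * F 0 (0, 1) + JJ μ T (fun t s =>
      -1 * F t s + (T - t) * b t s + ∑ k, (0 : ℝ) * σ t s k) := by
    rw [← hdyn]
    show (0 : ℝ) = EE μ T (fun s => (T - T) * F T s)
    rw [e0, EE_const h hT]
  have hD : Bd B T (fun t s => -1 * F t s + (T - t) * b t s + ∑ k, (0 : ℝ) * σ t s k) := hP.bb
  have hsum := JJ_add h hT hI.bF hD
  have hmono : JJ μ T (fun t s => F t s + (-1 * F t s + (T - t) * b t s +
      ∑ k, (0 : ℝ) * σ t s k)) ≤ JJ μ T G := by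
    refine JJ_mono h hT (hI.bF.add hD) hG fun t s h1 h2 h3 => ?_
    have := hle t s h1 h2 h3
    simp only [zero_mul, Finset.sum_const_zero, add_zero]
    linarith
  linarith

theorem alpha (n : ℕ) (hκ : 0 < κ) : ∃ C : ℝ, 0 ≤ C ∧ ∀ (μ : Measure (Eu n)) (R B T : ℝ),
    Nm μ R B → ULC κ μ → 0 < T → T ≤ 1 → ∀ f : Eu n → ℝ, Continuous f →
      JJ μ T (fun t s => ∑ k, Cv (tl μ t s.1) (fun x => x k) f ^ 2) ≤
        T * ∑ k, Cv μ (fun x => x k) f ^ 2 + C * T ^ 2 * Cv μ f f := by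
  obtain ⟨C, hC, hX⟩ := X_sq (κ := κ) hκ
  refine ⟨n * (n * C), by positivity, fun μ R B T h hu hT _ f hf => ?_⟩
  obtain ⟨M, hM⟩ := PD2.bdd_of_cont h.bs hf
  have hBM : ∀ t (s : St n), BM (tl μ t s.1) f := fun t s => BM.cont (tl_BS h t s.1) hf
  have hV0 : ∀ t (s : St n), 0 ≤ Cv (tl μ t s.1) f f := fun t s => by
    have := tl_prob h t s.1
    exact Cv_self_nonneg (hBM t s)
  -- the variance
  obtain ⟨σv, hvar⟩ := It.var (T := T) h hf.measurable hM
  have hVJ : JJ μ T (fun t s => Cv (tl μ t s.1) f f) ≤ T * Cv μ f f := by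
    have h1 := dyn_trick h hT hvar (Bd.const (B := B) (T := T) (0 : ℝ)) (fun t s h1 h2 h3 => by
      have : 0 ≤ ∑ k, Cv (tl μ t s.1) (fun x => x k) f ^ 2 :=
        Finset.sum_nonneg fun k _ => sq_nonneg _
      nlinarith)
    rw [JJ_const h hT, mul_zero, add_zero] at h1
    have e : tl μ 0 ((0, 1) : St n).1 = μ := tl_zero h
    rw [e] at h1
    exact h1
  -- the sum of squares
  have hI := It.sum h Finset.univ (fun k (_ : k ∈ Finset.univ) =>
    It.mul h (It.W (T := T) h hf.measurable hM k) (It.W (T := T) h hf.measurable hM k))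
  have hG : Bd B T (fun t s => (T * (n * (n * C))) * Cv (tl μ t s.1) f f) :=
    hvar.bF.cmul _
  have key := dyn_trick h hT hI hG (fun t s h1 h2 h3 => by
    have hp := tl_prob h t s.1
    have hbs := tl_BS h t s.1
    have hulc : ULC κ (tl μ t s.1) := ulc_anti h1 (tl_ULC h hu t s.1)
    have hA : 0 ≤ ∑ k, Cv (tl μ t s.1) (fun x => x k) f *
        ∑ p, Am (tl μ t s.1) k p * Cv (tl μ t s.1) (fun x => x p) f := by
      have h4 := Am_quad hbs (fun k => Cv (tl μ t s.1) (fun x => x k) f)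
        (fun k => Cv (tl μ t s.1) (fun x => x k) f)
      have h5 : 0 ≤ Cv (tl μ t s.1) (fun x => ∑ i, Cv (tl μ t s.1) (fun x => x i) f * x i)
          (fun x => ∑ i, Cv (tl μ t s.1) (fun x => x i) f * x i) :=
        Cv_self_nonneg (BM.sum _ fun i _ => (BM.coord hbs i).cmul _)
      rw [← h4] at h5
      exact h5
    have hXs : ∑ k, ∑ p, Xc (tl μ t s.1) k p f * Xc (tl μ t s.1) k p f ≤
        n * (n * C) * Cv (tl μ t s.1) f f := by
      have h4 : ∀ k p : Fin n, Xc (tl μ t s.1) k p f * Xc (tl μ t s.1) k p f ≤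
          C * Cv (tl μ t s.1) f f := fun k p => by
        have := hX n (tl μ t s.1) R hp hbs hulc f hf k p
        rwa [sq] at this
      calc ∑ k, ∑ p, Xc (tl μ t s.1) k p f * Xc (tl μ t s.1) k p f
          ≤ ∑ _k : Fin n, ∑ _p : Fin n, C * Cv (tl μ t s.1) f f :=
            Finset.sum_le_sum fun k _ => Finset.sum_le_sum fun p _ => h4 k p
        _ = n * (n * C) * Cv (tl μ t s.1) f f := by
            simp only [Finset.sum_const, Finset.card_univ, Fintype.card_fin, nsmul_eq_mul]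
            ring
    have e1 : ∑ k, ((-∑ p, Am (tl μ t s.1) k p * Cv (tl μ t s.1) (fun x => x p) f) *
          Cv (tl μ t s.1) (fun x => x k) f +
        Cv (tl μ t s.1) (fun x => x k) f *
          (-∑ p, Am (tl μ t s.1) k p * Cv (tl μ t s.1) (fun x => x p) f) +
        ∑ p, Xc (tl μ t s.1) k p f * Xc (tl μ t s.1) k p f) =
        -2 * (∑ k, Cv (tl μ t s.1) (fun x => x k) f *
          ∑ p, Am (tl μ t s.1) k p * Cv (tl μ t s.1) (fun x => x p) f) +
        ∑ k, ∑ p, Xc (tl μ t s.1) k p f * Xc (tl μ t s.1) k p f := by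
      rw [Finset.mul_sum, ← Finset.sum_add_distrib]
      refine Finset.sum_congr rfl fun k _ => ?_
      ring
    rw [e1]
    have hTt : 0 ≤ T - t := by linarith
    have h6 : (T - t) * (-2 * (∑ k, Cv (tl μ t s.1) (fun x => x k) f *
          ∑ p, Am (tl μ t s.1) k p * Cv (tl μ t s.1) (fun x => x p) f) +
        ∑ k, ∑ p, Xc (tl μ t s.1) k p f * Xc (tl μ t s.1) k p f) ≤
        (T - t) * (n * (n * C) * Cv (tl μ t s.1) f f) :=
      mul_le_mul_of_nonneg_left (by linarith) hTt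
    have h7 : 0 ≤ n * (n * C) * Cv (tl μ t s.1) f f := by
      have := hV0 t s
      positivity
    have h8 : (T - t) * (n * (n * C) * Cv (tl μ t s.1) f f) ≤
        T * (n * (n * C) * Cv (tl μ t s.1) f f) :=
      mul_le_mul_of_nonneg_right (by linarith) h7
    calc _ ≤ (T - t) * (n * (n * C) * Cv (tl μ t s.1) f f) := h6
      _ ≤ T * (n * (n * C) * Cv (tl μ t s.1) f f) := h8
      _ = (T * (n * (n * C))) * Cv (tl μ t s.1) f f := by ring)
  rw [JJ_cmul h hT hvar.bF] at key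
  have e : tl μ 0 ((0, 1) : St n).1 = μ := tl_zero h
  rw [e] at key
  have e2 : JJ μ T (fun t s => ∑ k, Cv (tl μ t s.1) (fun x => x k) f ^ 2) =
      JJ μ T (fun t s => ∑ k, Cv (tl μ t s.1) (fun x => x k) f *
        Cv (tl μ t s.1) (fun x => x k) f) := by
    simp only [sq]
  have e3 : ∑ k, Cv μ (fun x => x k) f ^ 2 = ∑ k, Cv μ (fun x => x k) f *
      Cv μ (fun x => x k) f := by
    simp only [sq]
  rw [e2, e3]
  have h9 : (T * (n * (n * C))) * JJ μ T (fun t s => Cv (tl μ t s.1) f f) ≤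
      (T * (n * (n * C))) * (T * Cv μ f f) :=
    mul_le_mul_of_nonneg_left hVJ (by positivity)
  calc _ ≤ _ := key
    _ ≤ T * (∑ k, Cv μ (fun x => x k) f * Cv μ (fun x => x k) f) +
        (T * (n * (n * C))) * (T * Cv μ f f) := by linarith
    _ = _ := by ring

end Pool.Agent.Lib.MP_6d896a_gt.LG
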