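import Mathlib
import Pool.Agent.Lib.MP_6d896a_gt.LL.Defs
import Pool.Agent.Lib.MP_6d896a_gt.LG.Basic

/-!
Project LL, piece L10: reduction of the inequality to the case `q = 1`.
-/

set_option autoImplicit false

namespace Pool.Agent.Lib.MP_6d896a_gt.LG

open MeasureTheory Filter Topology Set Matrix
open scoped ENNReal NNReal

variable {n : ℕ} {μ ν : Measure (Eu n)} {R B T κ : ℝ}

/-- the diagonal linear map -/
private noncomputable def l10D (r : Fin n → ℝ) : Eu n →L[ℝ] Eu n :=
  LinearMap.toContinuousLinearMap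
    { toFun := fun x => WithLp.toLp 2 (fun i => r i * x i)
      map_add' := fun x y => by
        ext i
        simp [mul_add]
      map_smul' := fun c x => by
        ext i
        simp
        ring }

private lemma l10D_apply (r : Fin n → ℝ) (x : Eu n) (i : Fin n) : l10D r x i = r i * x i := rfl

/-- the diagonal linear equivalence -/
private noncomputable def l10E (r : Fin n → ℝ) (hr : ∀ i, r i ≠ 0) : Eu n ≃L[ℝ] Eu n :=
  ContinuousLinearEquiv.equivOfInverse (l10D r) (l10D fun i => (r i)⁻¹)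
    (fun x => by
      ext i
      rw [l10D_apply, l10D_apply, ← mul_assoc, inv_mul_cancel₀ (hr i), one_mul])
    (fun x => by
      ext i
      rw [l10D_apply, l10D_apply, ← mul_assoc, mul_inv_cancel₀ (hr i), one_mul])

private lemma l10E_apply {r : Fin n → ℝ} (hr : ∀ i, r i ≠ 0) (x : Eu n) (i : Fin n) :
    l10E r hr x i = r i * x i := rfl

private lemma l10E_symm_apply {r : Fin n → ℝ} (hr : ∀ i, r i ≠ 0) (x : Eu n) (i : Fin n) :
    (l10E r hr).symm x i = (r i)⁻¹ * x i := rfl

private lemma l10_int (L : Eu n ≃L[ℝ] Eu n) (φ : Eu n → ℝ) :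
    ∫ y, φ y ∂(ν.map L) = ∫ x, φ (L x) ∂ν :=
  L.toHomeomorph.measurableEmbedding.integral_map φ

private lemma l10_Cv (L : Eu n ≃L[ℝ] Eu n) (φ ψ : Eu n → ℝ) :
    Cv (ν.map L) φ ψ = Cv ν (fun x => φ (L x)) (fun x => ψ (L x)) := by
  unfold Cv
  rw [l10_int, l10_int, l10_int]

private lemma l10_tt {f : Eu n → ℝ} (hf : UC.TT f) (L : Eu n ≃L[ℝ] Eu n) :
    UC.TT (fun y => f (L y)) :=
  ⟨hf.cd.comp L.contDiff, hf.cs.comp_homeomorph L.toHomeomorph⟩

private lemma l10_pd {f : Eu n → ℝ} (hf : UC.TT f) {r : Fin n → ℝ} (hr : ∀ i, r i ≠ 0)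
    (i : Fin n) (y : Eu n) :
    UC.pd i (fun y => f ((l10E r hr).symm y)) y = (r i)⁻¹ * UC.pd i f ((l10E r hr).symm y) := by
  unfold UC.pd
  have h1 : HasFDerivAt f (fderiv ℝ f ((l10E r hr).symm y)) ((l10E r hr).symm y) :=
    (hf.cd.differentiable (by simp) _).hasFDerivAt
  have h2 : HasFDerivAt (fun y => f ((l10E r hr).symm y))
      ((fderiv ℝ f ((l10E r hr).symm y)).comp ((l10E r hr).symm : Eu n →L[ℝ] Eu n)) y :=
    h1.comp y (l10E r hr).symm.hasFDerivAt
  rw [h2.fderiv]
  have h3 : (l10E r hr).symm (ej i) = (r i)⁻¹ • ej i := by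
    ext k
    rw [l10E_symm_apply]
    by_cases hk : k = i
    · subst hk
      simp
    · simp [ej, hk]
  change fderiv ℝ f ((l10E r hr).symm y) ((l10E r hr).symm (ej i)) = _
  rw [h3, map_smul, smul_eq_mul]

private lemma l10_ulc {q r : Fin n → ℝ} (hr : ∀ i, r i ≠ 0) (hrq : ∀ i, r i ^ 2 = q i)
    (h : DLC q ν) : ULC 1 (ν.map (l10E r hr)) := by
  set L := l10E r hr with hL
  have hLm : Measurable L := L.continuous.measurable
  have h1 : (ν.map L).withDensity (fun x => ENNReal.ofReal (Real.exp (1 / 2 * ‖x‖ ^ 2))) =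
      (ν.withDensity fun x => ENNReal.ofReal (Real.exp ((∑ i, q i * x i ^ 2) / 2))).map
        (L : Eu n →ₗ[ℝ] Eu n) := by
    refine Measure.ext fun s hs => ?_
    have hm : Measurable (fun x : Eu n => ENNReal.ofReal (Real.exp (1 / 2 * ‖x‖ ^ 2))) := by
      fun_prop
    have hLm' : Measurable (L : Eu n →ₗ[ℝ] Eu n) := hLm
    rw [withDensity_apply _ hs, Measure.map_apply hLm' hs, withDensity_apply _ (hLm' hs),
      setLIntegral_map hs hm hLm]
    refine lintegral_congr fun x => ?_
    congr 2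
    rw [EuclideanSpace.norm_sq_eq]
    simp only [Real.norm_eq_abs, sq_abs]
    have e : ∀ i, L x i ^ 2 = q i * x i ^ 2 := by
      intro i
      rw [hL, l10E_apply, mul_pow, hrq]
    simp only [e]
    ring
  unfold ULC
  rw [h1]
  exact FP.PLm.map h _ hLm

/-- reduction of the inequality to the case `q = 1` -/
theorem pk_of_pk1 {t M K : ℝ} (h : PK1 n t M K) : PK n t M K := by
  intro ν R q hν hR hq hd f hf
  set r : Fin n → ℝ := fun i => Real.sqrt (q i) with hrdef
  have hr0 : ∀ i, 0 < r i := fun i => Real.sqrt_pos.2 (hq i)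
  have hr : ∀ i, r i ≠ 0 := fun i => (hr0 i).ne'
  have hrq : ∀ i, r i ^ 2 = q i := fun i => Real.sq_sqrt (hq i).le
  set L := l10E r hr with hL
  have hLm : Measurable L := L.continuous.measurable
  have hP : IsProbabilityMeasure (ν.map L) := Measure.isProbabilityMeasure_map hLm.aemeasurable
  have hBS : BS (‖(L : Eu n →L[ℝ] Eu n)‖ * R) (ν.map L) := by
    unfold BS
    have hme : MeasurableEmbedding L := L.toHomeomorph.measurableEmbedding
    rw [hme.ae_map_iff]
    filter_upwards [hR] with x hx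
    exact ((L : Eu n →L[ℝ] Eu n).le_opNorm x).trans
      (mul_le_mul_of_nonneg_left hx (norm_nonneg _))
  have h1 := h (ν.map L) _ hP hBS (l10_ulc hr hrq hd) (fun y => f (L.symm y)) (l10_tt hf L.symm)
  have e1 : Cv (ν.map L) (fun y => f (L.symm y)) (fun y => f (L.symm y)) = Cv ν f f := by
    rw [l10_Cv]
    simp
  have eA : ∀ i j, Am (ν.map L) i j = r i * r j * Am ν i j := by
    intro i j
    unfold Am
    rw [l10_Cv]
    have a1 : (fun x : Eu n => L x i) = fun x => r i * x i := rfl
    have a2 : (fun x : Eu n => L x j) = fun x => r j * x j := rfl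
    rw [a1, a2, Cv_cmul_left, Cv_cmul_right]
    ring
  have e2 : gE (ν.map L) (M • Am (ν.map L) + Matrix.diagonal fun _ => t)
      (fun y => f (L.symm y)) = gE ν (M • Am ν + Matrix.diagonal fun i => t / q i) f := by
    unfold gE
    refine Finset.sum_congr rfl fun i _ => Finset.sum_congr rfl fun j _ => ?_
    rw [l10_int]
    have a1 : ∀ x, UC.pd i (fun y => f (L.symm y)) (L x) * UC.pd j (fun y => f (L.symm y)) (L x) =
        ((r i)⁻¹ * (r j)⁻¹) * (UC.pd i f x * UC.pd j f x) := by
      intro x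
      rw [hL, l10_pd hf hr, l10_pd hf hr, ContinuousLinearEquiv.symm_apply_apply]
      ring
    simp only [a1]
    rw [integral_const_mul, ← mul_assoc]
    congr 1
    simp only [Matrix.add_apply, Matrix.smul_apply, smul_eq_mul, eA]
    by_cases hij : i = j
    · subst hij
      rw [Matrix.diagonal_apply_eq, Matrix.diagonal_apply_eq, ← hrq i]
      have := hr i
      field_simp
    · rw [Matrix.diagonal_apply_ne _ hij, Matrix.diagonal_apply_ne _ hij]
      have := hr i
      have := hr j
      field_simp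
      ring
  rw [e1, e2] at h1
  exact h1

end Pool.Agent.Lib.MP_6d896a_gt.LG
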