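import Mathlib
import Pool.Agent.Lib.MP_6d896a_gt.LL.Defs
import Pool.Agent.Lib.MP_6d896a_gt.LL.PkOf
import Pool.Agent.Lib.MP_6d896a_gt.LG.Basic
import Pool.Agent.Lib.MP_6d896a_gt.LG.PA1
import Pool.Agent.Lib.MP_6d896a_gt.LG.PA2

/-!
Project LL, piece L20: the inequality at time one.
-/

set_option autoImplicit false

namespace Pool.Agent.Lib.MP_6d896a_gt.LG

open MeasureTheory Filter Topology Set Matrix
open scoped ENNReal NNReal

variable {n : ℕ} {ν : Measure (Eu n)} {R : ℝ}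

private lemma ba_int [IsProbabilityMeasure ν] (hR : BS R ν) {f : Eu n → ℝ} (hf : UC.TT f)
    (i j : Fin n) : Integrable (fun x => UC.pd i f x * UC.pd j f x) ν :=
  (BM.cont hR ((hf.pd i).cd.continuous.mul (hf.pd j).cd.continuous)).int

private lemma ba_diag [IsProbabilityMeasure ν] (hR : BS R ν) {f : Eu n → ℝ} (hf : UC.TT f) :
    ∫ x, ‖fderiv ℝ f x‖ ^ 2 ∂ν = ∑ i, ∫ x, UC.pd i f x * UC.pd i f x ∂ν := by
  rw [← integral_finsetSum _ fun i _ => ba_int hR hf i i]
  refine integral_congr_ae (ae_of_all _ fun x => ?_)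
  have h := UC.norm_fderiv_sq f x
  simp only [sq] at h ⊢
  exact h

private lemma ba_psd [IsProbabilityMeasure ν] (hR : BS R ν) {f : Eu n → ℝ} (hf : UC.TT f) :
    0 ≤ ∑ i, ∑ j, Am ν i j * ∫ x, UC.pd i f x * UC.pd j f x ∂ν := by
  have e : ∑ i, ∑ j, Am ν i j * ∫ x, UC.pd i f x * UC.pd j f x ∂ν =
      ∫ x, ∑ i, ∑ j, Am ν i j * (UC.pd i f x * UC.pd j f x) ∂ν := by
    rw [integral_finsetSum _ fun i _ => integrable_finsetSum _ fun j _ =>
      (ba_int hR hf i j).const_mul _]
    refine Finset.sum_congr rfl fun i _ => ?_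
    rw [integral_finsetSum _ fun j _ => (ba_int hR hf i j).const_mul _]
    exact Finset.sum_congr rfl fun j _ => (integral_const_mul _ _).symm
  rw [e]
  refine integral_nonneg_of_ae (ae_of_all _ fun x => ?_)
  simp only [Pi.zero_apply]
  have h1 := (Am_psd hR).dotProduct_mulVec_nonneg (fun i => UC.pd i f x)
  rw [star_trivial] at h1
  refine h1.trans_eq ?_
  unfold dotProduct mulVec dotProduct
  refine Finset.sum_congr rfl fun i _ => ?_
  rw [Finset.mul_sum]
  exact Finset.sum_congr rfl fun j _ => by ring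

theorem pk_base {M : ℝ} (hM : 0 ≤ M) : PK n 1 M 1 := by
  refine pk_of_pk1 ?_
  intro ν R hν hR hu f hf
  have h1 := ulc_poincare_of p1s hν hR one_pos hu (hf.cd.of_le (by exact_mod_cast le_top))
  rw [ba_diag hR hf, div_one, one_mul] at h1
  have h2 := mul_nonneg hM (ba_psd hR hf)
  have e : gE ν (M • Am ν + Matrix.diagonal fun _ => 1) f =
      M * (∑ i, ∑ j, Am ν i j * ∫ x, UC.pd i f x * UC.pd j f x ∂ν) +
        ∑ i, ∫ x, UC.pd i f x * UC.pd i f x ∂ν := by
    unfold gE
    rw [Finset.mul_sum, ← Finset.sum_add_distrib]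
    refine Finset.sum_congr rfl fun i _ => ?_
    have e1 : ∀ j, (M • Am ν + Matrix.diagonal (fun _ => (1 : ℝ)) : Mat n) i j *
        ∫ x, UC.pd i f x * UC.pd j f x ∂ν =
        M * (Am ν i j * ∫ x, UC.pd i f x * UC.pd j f x ∂ν) +
          if i = j then ∫ x, UC.pd i f x * UC.pd j f x ∂ν else 0 := by
      intro j
      rw [Matrix.add_apply, Matrix.smul_apply, smul_eq_mul, Matrix.diagonal_apply]
      split_ifs <;> ring
    simp only [e1, Finset.sum_add_distrib, ← Finset.mul_sum]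
    simp
  rw [e, one_mul]
  linarith

end Pool.Agent.Lib.MP_6d896a_gt.LG
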