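import Mathlib
import Pool.Agent.Lib.MP_6d896a_gt.LL.Defs
import Pool.Agent.Lib.MP_6d896a_gt.LG.Deriv

/-!
Project LL, piece L02: drift and diffusion of the third cumulants.
-/

set_option autoImplicit false

namespace Pool.Agent.Lib.MP_6d896a_gt.LG

open MeasureTheory Filter Topology Set Matrix
open scoped ENNReal NNReal

variable {n : ℕ} {μ ν : Measure (Eu n)} {R B T κ : ℝ}

private lemma l02_meas (i : Fin n) : Measurable fun x : Eu n => x i :=
  (PiLp.continuous_apply 2 _ i).measurable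

private lemma l02_bd {φ ψ : Eu n → ℝ} {M N : ℝ} (h1 : ∀ᵐ x ∂μ, |φ x| ≤ M)
    (h2 : ∀ᵐ x ∂μ, |ψ x| ≤ N) : ∀ᵐ x ∂μ, |φ x * ψ x| ≤ |M| * |N| := by
  filter_upwards [h1, h2] with x a1 a2
  rw [abs_mul]
  exact mul_le_mul (a1.trans (le_abs_self _)) (a2.trans (le_abs_self _)) (abs_nonneg _)
    (abs_nonneg _)

/-- centred integral as a covariance -/
private lemma l02_cv [IsProbabilityMeasure ν] (hR : BS R ν) (p : Fin n) {g : Eu n → ℝ}
    (hg : BM ν g) : ∫ x, (x p - mn ν p) * g x ∂ν = Cv ν (fun x => x p) g := by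
  have bp : BM ν fun x => x p := BM.coord hR p
  have e : ∀ x : Eu n, (x p - mn ν p) * g x = x p * g x - mn ν p * g x := fun x => by ring
  simp only [e]
  rw [integral_sub (bp.mul hg).int (hg.cmul _).int, integral_const_mul]
  rfl

private lemma l02_hm [IsProbabilityMeasure ν] (hR : BS R ν) (p i j : Fin n) :
    Cv ν (fun x => x p) (fun x => x i * x j) =
      Hm ν p i j + mn ν i * Am ν p j + mn ν j * Am ν p i := by
  have bp : BM ν fun x => x p := BM.coord hR p
  have bi : BM ν fun x => x i := BM.coord hR i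
  have bj : BM ν fun x => x j := BM.coord hR j
  have bg : BM ν fun x => (x i - mn ν i) * (x j - mn ν j) :=
    (bi.sub (BM.const _)).mul (bj.sub (BM.const _))
  have e1 : Hm ν p i j = Cv ν (fun x => x p) (fun x => (x i - mn ν i) * (x j - mn ν j)) :=
    l02_cv hR p bg
  have e2 : (fun x : Eu n => (x i - mn ν i) * (x j - mn ν j)) = fun x =>
      (x i * x j - mn ν j * x i) - (mn ν i * x j - mn ν i * mn ν j) := by
    funext x
    ring
  rw [e1, e2, Cv_sub_right ((bi.mul bj).sub (bi.cmul _)) ((bj.cmul _).sub (BM.const _)) bp,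
    Cv_sub_right (bi.mul bj) (bi.cmul _) bp, Cv_sub_right (bj.cmul _) (BM.const _) bp,
    Cv_cmul_right, Cv_cmul_right, Cv_const_right]
  change _ = _ - mn ν j * Am ν p i - (mn ν i * Am ν p j - 0) + mn ν i * Am ν p j +
    mn ν j * Am ν p i
  ring

private lemma l02_e2 (i j : Fin n) : ∫ x, x i * x j ∂ν = Am ν i j + mn ν i * mn ν j := by
  change _ = (∫ x, x i * x j ∂ν - (∫ x, x i ∂ν) * ∫ x, x j ∂ν) +
    (∫ x, x i ∂ν) * ∫ x, x j ∂ν
  ring

private lemma l02_raw [IsProbabilityMeasure ν] (hR : BS R ν) (k i j : Fin n) :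
    ∫ x, x k * (x i * x j) ∂ν - mn ν k * (∫ x, x i * x j ∂ν) -
      mn ν i * (∫ x, x k * x j ∂ν) - mn ν j * (∫ x, x k * x i ∂ν) +
      2 * (mn ν k * (mn ν i * mn ν j)) = Hm ν k i j := by
  have h1 := l02_hm hR k i j
  have h2 : Cv ν (fun x => x k) (fun x => x i * x j) =
      ∫ x, x k * (x i * x j) ∂ν - mn ν k * ∫ x, x i * x j ∂ν := rfl
  rw [h2] at h1
  rw [l02_e2 k j, l02_e2 k i]
  linarith

private lemma l02_fc [IsProbabilityMeasure ν] (hR : BS R ν) (i j k p : Fin n) :
    Fc ν i j k p = Cv ν (fun x => x p) (fun x => x k * (x i * x j)) -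
      mn ν k * Cv ν (fun x => x p) (fun x => x i * x j) -
      mn ν i * Cv ν (fun x => x p) (fun x => x k * x j) -
      mn ν j * Cv ν (fun x => x p) (fun x => x k * x i) +
      (mn ν i * mn ν j * Am ν p k + (mn ν i * mn ν k * Am ν p j + mn ν j * mn ν k * Am ν p i)) -
      Am ν i j * Am ν k p - Am ν i k * Am ν j p - Am ν i p * Am ν j k := by
  have bp : BM ν fun x => x p := BM.coord hR p
  have bi : BM ν fun x => x i := BM.coord hR i
  have bj : BM ν fun x => x j := BM.coord hR j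
  have bk : BM ν fun x => x k := BM.coord hR k
  have bg : BM ν fun x => (x i - mn ν i) * (x j - mn ν j) * (x k - mn ν k) :=
    ((bi.sub (BM.const _)).mul (bj.sub (BM.const _))).mul (bk.sub (BM.const _))
  have e1 : ∫ x, (x i - mn ν i) * (x j - mn ν j) * ((x k - mn ν k) * (x p - mn ν p)) ∂ν =
      Cv ν (fun x => x p) (fun x => (x i - mn ν i) * (x j - mn ν j) * (x k - mn ν k)) := by
    rw [← l02_cv hR p bg]
    refine integral_congr_ae (ae_of_all _ fun x => ?_)
    ring
  have e2 : (fun x : Eu n => (x i - mn ν i) * (x j - mn ν j) * (x k - mn ν k)) = fun x =>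
      (((x k * (x i * x j) - mn ν k * (x i * x j)) - mn ν i * (x k * x j)) -
        mn ν j * (x k * x i)) + (mn ν i * mn ν j * x k + (mn ν i * mn ν k * x j +
        (mn ν j * mn ν k * x i - mn ν i * mn ν j * mn ν k))) := by
    funext x
    ring
  have b1 : BM ν fun x => x k * (x i * x j) := bk.mul (bi.mul bj)
  have b2 : BM ν fun x => mn ν k * (x i * x j) := (bi.mul bj).cmul _
  have b3 : BM ν fun x => mn ν i * (x k * x j) := (bk.mul bj).cmul _
  have b4 : BM ν fun x => mn ν j * (x k * x i) := (bk.mul bi).cmul _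
  have b5 : BM ν fun x => mn ν i * mn ν j * x k := bk.cmul _
  have b6 : BM ν fun x => mn ν i * mn ν k * x j := bj.cmul _
  have b7 : BM ν fun x => mn ν j * mn ν k * x i := bi.cmul _
  have b8 : BM ν fun _ => mn ν i * mn ν j * mn ν k := BM.const _
  unfold Fc
  rw [e1, e2, Cv_add_right (((b1.sub b2).sub b3).sub b4) (b5.add (b6.add (b7.sub b8))) bp,
    Cv_sub_right ((b1.sub b2).sub b3) b4 bp, Cv_sub_right (b1.sub b2) b3 bp,
    Cv_sub_right b1 b2 bp, Cv_add_right b5 (b6.add (b7.sub b8)) bp,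
    Cv_add_right b6 (b7.sub b8) bp, Cv_sub_right b7 b8 bp, Cv_cmul_right, Cv_cmul_right,
    Cv_cmul_right, Cv_cmul_right, Cv_cmul_right, Cv_cmul_right, Cv_const_right, sub_zero]
  rfl

private lemma l02_hsym (k i j : Fin n) : Hm ν k i j = Hm ν i k j := by
  unfold Hm
  refine integral_congr_ae (ae_of_all _ fun x => ?_)
  ring

private lemma l02_hsym' (k i j : Fin n) : Hm ν k i j = Hm ν k j i := by
  unfold Hm
  refine integral_congr_ae (ae_of_all _ fun x => ?_)
  ring

theorem It.H (h : Nm μ R B) (k i j : Fin n) :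
    It μ B T (fun t s => Hm (tl μ t s.1) k i j)
      (fun t s => - ∑ p, (Am (tl μ t s.1) i p * Hm (tl μ t s.1) k p j +
        Am (tl μ t s.1) j p * Hm (tl μ t s.1) k i p +
        Am (tl μ t s.1) k p * Hm (tl μ t s.1) p i j))
      (fun t s p => Fc (tl μ t s.1) i j k p) := by
  have bi := BS.coord_ae h.bs i
  have bj := BS.coord_ae h.bs j
  have bk := BS.coord_ae h.bs k
  have mi := l02_meas i
  have mj := l02_meas j
  have mk := l02_meas k
  have E3 := It.ev (T := T) h (mk.mul (mi.mul mj)) (l02_bd bk (l02_bd bi bj))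
  have Eij := It.ev (T := T) h (mi.mul mj) (l02_bd bi bj)
  have Ekj := It.ev (T := T) h (mk.mul mj) (l02_bd bk bj)
  have Eki := It.ev (T := T) h (mk.mul mi) (l02_bd bk bi)
  have Ei := It.ev (T := T) h mi bi
  have Ej := It.ev (T := T) h mj bj
  have Ek := It.ev (T := T) h mk bk
  have main := (((E3.sub h (Ek.mul h Eij)).sub h (Ei.mul h Ekj)).sub h (Ej.mul h Eki)).add h
    ((Ek.mul h (Ei.mul h Ej)).cmul h 2)
  refine It.congr h main ?_ ?_ ?_
  · intro t s _ _ _
    have := tl_prob h t s.1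
    exact l02_raw (tl_BS h t s.1) k i j
  · intro t s _ _ _
    have := tl_prob h t s.1
    have hR := tl_BS h t s.1
    set ν := tl μ t s.1 with hν
    have hC := fun p i j => l02_hm hR p i j
    have hA : ∀ p i, Cv ν (fun x => x p) (fun x => x i) = Am ν p i := fun _ _ => rfl
    have hm : ∀ i, ∫ x, x i ∂ν = mn ν i := fun _ => rfl
    have hF : ∀ p i j, Cv ν (fun x => x p) (fun x => (x i : ℝ) * x j) =
      Hm ν p i j + mn ν i * Am ν p j + mn ν j * Am ν p i := hC
    simp only [zero_mul, mul_zero, zero_add, add_zero, zero_sub, hm, hA, Pi.mul_def, hF]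
    simp only [Finset.mul_sum, ← Finset.sum_neg_distrib, ← Finset.sum_add_distrib,
      ← Finset.sum_sub_distrib]
    refine Finset.sum_congr rfl fun p _ => ?_
    rw [Am_symm ν i p, Am_symm ν j p, Am_symm ν k p, l02_hsym k p j, l02_hsym' k i p,
      l02_hsym k p i]
    ring
  · intro t s _ _ _
    have := tl_prob h t s.1
    have hR := tl_BS h t s.1
    set ν := tl μ t s.1 with hν
    funext p
    have hA : ∀ p i, Cv ν (fun x => x p) (fun x => x i) = Am ν p i := fun _ _ => rfl
    have hm : ∀ i, ∫ x, x i ∂ν = mn ν i := fun _ => rfl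
    rw [l02_fc hR i j k p]
    simp only [hm, hA, Pi.mul_def, l02_e2]
    rw [Am_symm ν i p, Am_symm ν j p, Am_symm ν k p, Am_symm ν k j, Am_symm ν k i]
    ring

end Pool.Agent.Lib.MP_6d896a_gt.LG
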