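import Mathlib
import Pool.Agent.Lib.MP_6d896a_gt.LG.Deriv
import Pool.Agent.Lib.MP_6d896a_gt.LL.Defs

/-!
Project LL, piece L03: drift of the second moments around the mean with a weight.
-/

set_option autoImplicit false

namespace Pool.Agent.Lib.MP_6d896a_gt.LG

open MeasureTheory Filter Topology Set Matrix
open scoped ENNReal NNReal

variable {n : ℕ} {μ ν : Measure (Eu n)} {R B T κ : ℝ}

private lemma zmn (ν : Measure (Eu n)) (i : Fin n) : mn ν i = ∫ x, x i ∂ν := rfl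

private lemma zmeas (i : Fin n) : Measurable fun x : Eu n => x i :=
  (PiLp.continuous_apply 2 _ i).measurable

private lemma zbd {φ ψ : Eu n → ℝ} {M N : ℝ} (h1 : ∀ᵐ x ∂μ, |φ x| ≤ M)
    (h2 : ∀ᵐ x ∂μ, |ψ x| ≤ N) : ∀ᵐ x ∂μ, |φ x * ψ x| ≤ |M| * |N| := by
  filter_upwards [h1, h2] with x a1 a2
  rw [abs_mul]
  exact mul_le_mul (a1.trans (le_abs_self _)) (a2.trans (le_abs_self _)) (abs_nonneg _)
    (abs_nonneg _)

/-- the weighted second moments in terms of covariances -/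
private lemma zcross [IsProbabilityMeasure ν] (hR : BS R ν) {ψ : Eu n → ℝ} (bψ : BM ν ψ)
    (k p : Fin n) :
    ∫ x, (x k - mn ν k) * (x p - mn ν p) * ψ x ∂ν =
      Cv ν (fun x => x p) (fun x => x k * ψ x) - (∫ x, x k ∂ν) * Cv ν (fun x => x p) ψ := by
  have bk : BM ν fun x => x k := BM.coord hR k
  have bp : BM ν fun x => x p := BM.coord hR p
  unfold Cv
  simp only [zmn]
  set a := ∫ x, x k ∂ν with ha
  set b := ∫ x, x p ∂ν with hb
  have e : ∀ x : Eu n, (x k - a) * (x p - b) * ψ x =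
      (x p * (x k * ψ x) - b * (x k * ψ x)) - (a * (x p * ψ x) - a * b * ψ x) := fun x => by ring
  simp only [e]
  rw [integral_sub (((bp.mul (bk.mul bψ)).sub ((bk.mul bψ).cmul b)).int)
      ((((bp.mul bψ).cmul a).sub (bψ.cmul (a * b))).int),
    integral_sub (bp.mul (bk.mul bψ)).int ((bk.mul bψ).cmul b).int,
    integral_sub ((bp.mul bψ).cmul a).int (bψ.cmul (a * b)).int,
    integral_const_mul, integral_const_mul, integral_const_mul]
  ring

/-- one summand of `Zt` -/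
private lemma zone [IsProbabilityMeasure ν] (hR : BS R ν) {ψ : Eu n → ℝ} (bψ : BM ν ψ)
    (k : Fin n) :
    ∫ x, (x k - mn ν k) ^ 2 * ψ x ∂ν =
      ∫ x, x k * (x k * ψ x) ∂ν - 2 * ((∫ x, x k ∂ν) * ∫ x, x k * ψ x ∂ν) +
        (∫ x, x k ∂ν) * (∫ x, x k ∂ν) * ∫ x, ψ x ∂ν := by
  have h := zcross hR bψ k k
  have e : ∀ x : Eu n, (x k - mn ν k) ^ 2 * ψ x = (x k - mn ν k) * (x k - mn ν k) * ψ x :=
    fun x => by ring
  simp only [e]
  rw [h]
  unfold Cv
  ring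

theorem It.Z (h : Nm μ R B) {ψ : Eu n → ℝ} (hm : Measurable ψ) {M : ℝ}
    (hb : ∀ᵐ x ∂μ, |ψ x| ≤ M) :
    ∃ σ, It μ B T (fun t s => Zt (tl μ t s.1) ψ)
      (fun t s => (∑ k, ∑ p, Am (tl μ t s.1) k p ^ 2) * ∫ x, ψ x ∂(tl μ t s.1) -
        2 * ∑ k, ∑ p, Am (tl μ t s.1) k p *
          ∫ x, (x k - mn (tl μ t s.1) k) * (x p - mn (tl μ t s.1) p) * ψ x ∂(tl μ t s.1)) σ := by
  have m1 : ∀ k : Fin n, Measurable fun x : Eu n => x k * ψ x := fun k => (zmeas k).mul hm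
  have m2 : ∀ k : Fin n, Measurable fun x : Eu n => x k * (x k * ψ x) := fun k =>
    (zmeas k).mul (m1 k)
  have b1 : ∀ k : Fin n, ∀ᵐ x ∂μ, |x k * ψ x| ≤ |R| * |M| := fun k =>
    zbd (BS.coord_ae h.bs k) hb
  have b2 : ∀ k : Fin n, ∀ᵐ x ∂μ, |x k * (x k * ψ x)| ≤ |R| * |(|R| * |M|)| := fun k =>
    zbd (BS.coord_ae h.bs k) (b1 k)
  have key : ∀ k : Fin n, _ := fun k =>
    ((It.ev (T := T) h (m2 k) (b2 k)).sub h
      (((It.ev (T := T) h (zmeas k) (BS.coord_ae h.bs k)).mul h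
        (It.ev (T := T) h (m1 k) (b1 k))).cmul h 2)).add h
      (((It.ev (T := T) h (zmeas k) (BS.coord_ae h.bs k)).mul h
        (It.ev (T := T) h (zmeas k) (BS.coord_ae h.bs k))).mul h
        (It.ev (T := T) h hm hb))
  refine ⟨_, It.congr h (It.sum h Finset.univ fun k _ => key k) ?_ ?_ (fun _ _ _ _ _ => rfl)⟩
  · intro t s _ _ _
    have hp := tl_prob h t s.1
    have hBS := tl_BS h t s.1
    have bψ : BM (tl μ t s.1) ψ :=
      ⟨hm.aestronglyMeasurable, M, (tilted_absolutelyContinuous μ _).ae_le hb⟩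
    unfold Zt
    refine Finset.sum_congr rfl fun k _ => ?_
    exact (zone hBS bψ k).symm
  · intro t s _ _ _
    have hp := tl_prob h t s.1
    have hBS := tl_BS h t s.1
    have bψ : BM (tl μ t s.1) ψ :=
      ⟨hm.aestronglyMeasurable, M, (tilted_absolutelyContinuous μ _).ae_le hb⟩
    rw [Finset.sum_mul, Finset.mul_sum, ← Finset.sum_sub_distrib]
    refine Finset.sum_congr rfl fun k _ => ?_
    simp only [zcross hBS bψ k]
    simp only [Am]
    simp only [zero_mul, mul_zero, zero_add, add_zero, zero_sub]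
    rw [Finset.sum_mul, Finset.sum_mul, Finset.mul_sum, Finset.mul_sum, ← Finset.sum_neg_distrib,
      ← Finset.sum_add_distrib, ← Finset.sum_add_distrib, ← Finset.sum_sub_distrib]
    refine Finset.sum_congr rfl fun p _ => ?_
    rw [Cv_comm (ν := tl μ t s.1) (fun x => x k) (fun x => x p)]
    ring

/-- `∑ k p, Am k p * ∫ x~_k x~_p ψ ≥ 0` for `ψ ≥ 0` -/
theorem am_psd_weight (hν : IsProbabilityMeasure ν) (hR : BS R ν) {ψ : Eu n → ℝ}
    (hm : Measurable ψ) (h0 : ∀ x, 0 ≤ ψ x) {M : ℝ} (hb : ∀ᵐ x ∂ν, |ψ x| ≤ M) :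
    0 ≤ ∑ k, ∑ p, Am ν k p * ∫ x, (x k - mn ν k) * (x p - mn ν p) * ψ x ∂ν := by
  have bψ : BM ν ψ := ⟨hm.aestronglyMeasurable, M, hb⟩
  have bk : ∀ k : Fin n, BM ν fun x => x k - mn ν k := fun k =>
    (BM.coord hR k).sub (BM.const _)
  have b2 : ∀ k p : Fin n, BM ν fun x => Am ν k p * ((x k - mn ν k) * (x p - mn ν p) * ψ x) :=
    fun k p => (((bk k).mul (bk p)).mul bψ).cmul _
  have e : ∑ k, ∑ p, Am ν k p * ∫ x, (x k - mn ν k) * (x p - mn ν p) * ψ x ∂ν =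
      ∫ x, ∑ k, ∑ p, Am ν k p * ((x k - mn ν k) * (x p - mn ν p) * ψ x) ∂ν := by
    rw [integral_finsetSum _ fun k _ => (BM.sum _ fun p _ => b2 k p).int]
    refine Finset.sum_congr rfl fun k _ => ?_
    rw [integral_finsetSum _ fun p _ => (b2 k p).int]
    exact Finset.sum_congr rfl fun p _ => (integral_const_mul _ _).symm
  rw [e]
  refine integral_nonneg fun x => ?_
  have h1 := (Am_psd hR).dotProduct_mulVec_nonneg (fun k => x k - mn ν k)
  rw [star_trivial] at h1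
  have h2 : ∑ k, ∑ p, Am ν k p * ((x k - mn ν k) * (x p - mn ν p) * ψ x) =
      ((fun k => x k - mn ν k) ⬝ᵥ (Am ν *ᵥ fun k => x k - mn ν k)) * ψ x := by
    unfold dotProduct mulVec dotProduct
    rw [Finset.sum_mul]
    refine Finset.sum_congr rfl fun k _ => ?_
    rw [Finset.mul_sum, Finset.sum_mul]
    exact Finset.sum_congr rfl fun p _ => by ring
  show 0 ≤ ∑ k, ∑ p, Am ν k p * ((x k - mn ν k) * (x p - mn ν p) * ψ x)
  rw [h2]
  exact mul_nonneg h1 (h0 x)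

end Pool.Agent.Lib.MP_6d896a_gt.LG
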