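import Mathlib
import Pool.Agent.Lib.MP_6d896a_gt.LL.Defs
import Pool.Agent.Lib.MP_6d896a_gt.LG.PD2
import Pool.Agent.Lib.MP_6d896a_gt.UC.Basic
import Pool.Agent.Lib.MP_6d896a_gt.LL.ItW
import Pool.Agent.Lib.MP_6d896a_gt.LL.ItH
import Pool.Agent.Lib.MP_6d896a_gt.LL.ItZ
import Pool.Agent.Lib.MP_6d896a_gt.LL.CumBd

/-!
Project LL, piece L06 (helper28): the time integral of the cubic term.
-/

set_option autoImplicit false
set_option linter.unusedSectionVars false

namespace Pool.Agent.Lib.MP_6d896a_gt.LG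

open MeasureTheory Filter Topology Set Matrix
open scoped ENNReal NNReal

variable {n : ℕ} {μ ν : Measure (Eu n)} {R B T κ : ℝ}

/-- uniform log-concavity is monotone -/
private lemma beta_ulc_mono {κ' : ℝ} (hle : κ ≤ κ') (h : ULC κ' ν) : ULC κ ν := by
  unfold ULC at *
  have h2 : FP.PLm ((ν.withDensity fun x => ENNReal.ofReal (Real.exp (κ' / 2 * ‖x‖ ^ 2))).withDensity
      (fun x => ENNReal.ofReal (Real.exp (-((κ' - κ) / 2 * ‖x‖ ^ 2))))) := by
    refine FP.PLm.withDensity h (by fun_prop) ?_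
    intro x y l h0 h1
    show ENNReal.ofReal (Real.exp (-((κ' - κ) / 2 * ‖x‖ ^ 2))) ^ (1 - l) *
      ENNReal.ofReal (Real.exp (-((κ' - κ) / 2 * ‖y‖ ^ 2))) ^ l ≤
      ENNReal.ofReal (Real.exp (-((κ' - κ) / 2 * ‖(1 - l) • x + l • y‖ ^ 2)))
    rw [ENNReal.ofReal_rpow_of_pos (Real.exp_pos _), ENNReal.ofReal_rpow_of_pos (Real.exp_pos _),
      ← ENNReal.ofReal_mul (by positivity), ← Real.exp_mul, ← Real.exp_mul, ← Real.exp_add]
    apply ENNReal.ofReal_le_ofReal
    apply Real.exp_le_exp.mpr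
    have h3 : ‖(1 - l) • x + l • y‖ ^ 2 = (1 - l) * ‖x‖ ^ 2 + l * ‖y‖ ^ 2 -
        l * (1 - l) * ‖x - y‖ ^ 2 := by
      rw [norm_add_sq_real, norm_sub_sq_real, norm_smul, norm_smul, real_inner_smul_left,
        real_inner_smul_right, Real.norm_of_nonneg (by linarith : (0 : ℝ) ≤ 1 - l),
        Real.norm_of_nonneg h0.le]
      ring
    rw [h3]
    have h4 : 0 ≤ (κ' - κ) / 2 * (l * (1 - l) * ‖x - y‖ ^ 2) := by
      have h5 : 0 ≤ 1 - l := by linarith
      have h6 : 0 ≤ (κ' - κ) / 2 := by linarith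
      positivity
    linarith
  rw [← withDensity_mul _ (by fun_prop) (by fun_prop)] at h2
  have e : ((fun x : Eu n => ENNReal.ofReal (Real.exp (κ' / 2 * ‖x‖ ^ 2))) *
      fun x => ENNReal.ofReal (Real.exp (-((κ' - κ) / 2 * ‖x‖ ^ 2)))) =
      fun x => ENNReal.ofReal (Real.exp (κ / 2 * ‖x‖ ^ 2)) := by
    funext x
    simp only [Pi.mul_apply]
    rw [← ENNReal.ofReal_mul (by positivity), ← Real.exp_add]
    congr 2
    ring
  rwa [e] at h2

/-- Dynkin's formula for `(T - t) * F` -/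
private lemma beta_time (h : Nm μ R B) (hT : 0 < T) {F b : ℝ → St n → ℝ}
    {σ : ℝ → St n → Fin n → ℝ} (hI : It μ B T F b σ) :
    JJ μ T F = T * F 0 (0, 1) + JJ μ T (fun t s => (T - t) * b t s) := by
  have h1 : It μ B T (fun t _ => T - t) (fun _ _ => -1) (fun _ _ _ => 0) := by
    refine It.time h (f := fun t => T - t) (f' := fun _ => -1) (C := |T| + 1)
      (fun t h1 h2 => ⟨?_, ?_⟩) (fun t t' h1 h2 h3 => ?_)
    · rw [abs_of_nonneg (by linarith : (0 : ℝ) ≤ T - t)]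
      have := le_abs_self T
      linarith
    · rw [abs_neg, abs_one]
      have := abs_nonneg T
      linarith
    · have : T - t' - (T - t) - (t' - t) * (-1) = 0 := by ring
      rw [this, abs_zero]
      have := abs_nonneg T
      positivity
  have h2 := It.mul h h1 hI
  have h3 := dynkin h hT h2
  simp only [zero_mul, Finset.sum_const_zero, add_zero, sub_self, sub_zero] at h3
  rw [EE_const h hT] at h3
  have e : (fun t s => -1 * F t s + (T - t) * b t s) =
      fun t s => (fun t s => -1 * F t s) t s + (fun t s => (T - t) * b t s) t s := rfl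
  rw [e, JJ_add h hT (hI.bF.cmul (-1)) (h1.bF.mul hI.bb), JJ_cmul h hT hI.bF] at h3
  linarith

private lemma beta_gsq_cont {f : Eu n → ℝ} (hf : UC.TT f) : Continuous (gsq f) := by
  unfold gsq
  exact continuous_finsetSum _ fun i _ => ((hf.pd i).cd.continuous).pow 2

private lemma beta_gsq_nonneg (f : Eu n → ℝ) (x : Eu n) : 0 ≤ gsq f x := by
  unfold gsq
  positivity

private lemma beta_le_gsq (f : Eu n → ℝ) (i j : Fin n) (x : Eu n) :
    |UC.pd i f x * UC.pd j f x| ≤ gsq f x := by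
  have hi : UC.pd i f x ^ 2 ≤ gsq f x :=
    Finset.single_le_sum (f := fun i => UC.pd i f x ^ 2) (fun _ _ => sq_nonneg _)
      (Finset.mem_univ i)
  have hj : UC.pd j f x ^ 2 ≤ gsq f x :=
    Finset.single_le_sum (f := fun i => UC.pd i f x ^ 2) (fun _ _ => sq_nonneg _)
      (Finset.mem_univ j)
  rw [abs_le]
  constructor
  · nlinarith [sq_nonneg (UC.pd i f x + UC.pd j f x)]
  · nlinarith [sq_nonneg (UC.pd i f x - UC.pd j f x)]

private lemma beta_Zt_nonneg {ψ : Eu n → ℝ} (h0 : ∀ x, 0 ≤ ψ x) : 0 ≤ Zt ν ψ := by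
  unfold Zt
  exact Finset.sum_nonneg fun k _ => integral_nonneg fun x => mul_nonneg (sq_nonneg _) (h0 x)

private lemma beta_sum_le {ι : Type*} [Fintype ι] {F : ι → ℝ} {C : ℝ} (h : ∀ i, |F i| ≤ C) :
    |∑ i, F i| ≤ Fintype.card ι * C := by
  refine (Finset.abs_sum_le_sum_abs _ _).trans ?_
  refine (Finset.sum_le_sum fun i _ => h i).trans ?_
  rw [Finset.sum_const, nsmul_eq_mul, Finset.card_univ]

/-- the drift of the cubic term is small -/
private lemma beta_drift {C : ℝ} (hC : 0 ≤ C) (hν : IsProbabilityMeasure ν) (hR : BS R ν)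
    (hc : ∀ i j k l : Fin n, |Am ν i j| ≤ C ∧ |Hm ν k i j| ≤ C ∧ |Fc ν i j k l| ≤ C)
    {f : Eu n → ℝ} (hf : UC.TT f) (k i j : Fin n) :
    |(- ∑ p, (Am ν i p * Hm ν k p j + Am ν j p * Hm ν k i p + Am ν k p * Hm ν p i j)) *
        Cv ν (fun x => x k) (fun x => UC.pd i f x * UC.pd j f x) +
      Hm ν k i j * (- ∑ p, Am ν k p * Cv ν (fun x => x p) (fun x => UC.pd i f x * UC.pd j f x)) +
      ∑ p, Fc ν i j k p * Xc ν k p (fun x => UC.pd i f x * UC.pd j f x)| ≤
      n * (5 * C ^ 2 + C) * (∫ x, gsq f x ∂ν + Zt ν (gsq f)) := by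
  have hψc := beta_gsq_cont hf
  have h0 := beta_gsq_nonneg f
  obtain ⟨M, hM⟩ := PD2.bdd_of_cont hR hψc
  set φ : Eu n → ℝ := fun x => UC.pd i f x * UC.pd j f x with hφ
  have hφm : Measurable φ := (((hf.pd i).cd.continuous).mul ((hf.pd j).cd.continuous)).measurable
  set e := ∫ x, gsq f x ∂ν with he
  set z := Zt ν (gsq f) with hz
  have he0 : 0 ≤ e := integral_nonneg h0
  have hz0 : 0 ≤ z := beta_Zt_nonneg h0
  have hW : ∀ p, |Cv ν (fun x => x p) φ| ≤ e + z := fun p =>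
    W_abs hν hR hφm hψc.measurable (beta_le_gsq f i j) hM p
  have hX : ∀ p, |Xc ν k p φ| ≤ (C + 1) * (e + z) := fun p => by
    refine (X_abs hν hR hφm hψc.measurable (beta_le_gsq f i j) hM k p).trans ?_
    have h1 : |Am ν k p| * e ≤ C * e := mul_le_mul_of_nonneg_right (hc k p k k).1 he0
    have h2 : 0 ≤ C * z := mul_nonneg hC hz0
    have h3 : (C + 1) * (e + z) = C * e + C * z + e + z := by ring
    rw [h3]
    linarith
  have mm : ∀ {x y a b : ℝ}, |x| ≤ a → |y| ≤ b → 0 ≤ a → |x * y| ≤ a * b := by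
    intro x y a b h1 h2 h3
    rw [abs_mul]
    exact mul_le_mul h1 h2 (abs_nonneg _) h3
  have hn : (Fintype.card (Fin n) : ℝ) = n := by simp
  have t1 : |- ∑ p, (Am ν i p * Hm ν k p j + Am ν j p * Hm ν k i p + Am ν k p * Hm ν p i j)| ≤
      n * (3 * C ^ 2) := by
    rw [abs_neg, ← hn]
    refine beta_sum_le fun p => ?_
    have a1 := mm (hc i p k k).1 (hc p j k k).2.1 hC
    have a2 := mm (hc j p k k).1 (hc i p k k).2.1 hC
    have a3 := mm (hc k p k k).1 (hc i j p k).2.1 hC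
    refine (abs_add_three _ _ _).trans ?_
    nlinarith
  have t2 : |- ∑ p, Am ν k p * Cv ν (fun x => x p) φ| ≤ n * (C * (e + z)) := by
    rw [abs_neg, ← hn]
    exact beta_sum_le fun p => mm (hc k p k k).1 (hW p) hC
  have t3 : |∑ p, Fc ν i j k p * Xc ν k p φ| ≤ n * (C * ((C + 1) * (e + z))) := by
    rw [← hn]
    exact beta_sum_le fun p => mm (hc i j k p).2.2 (hX p) hC
  have hn0 : (0 : ℝ) ≤ n := Nat.cast_nonneg n
  refine (abs_add_three _ _ _).trans ?_
  have u1 := mm t1 (hW k) (by positivity)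
  have u2 := mm (hc i j k k).2.1 t2 hC
  calc _ ≤ n * (3 * C ^ 2) * (e + z) + C * (n * (C * (e + z))) + n * (C * ((C + 1) * (e + z))) :=
        add_le_add (add_le_add u1 u2) t3
    _ = n * (5 * C ^ 2 + C) * (e + z) := by ring

theorem beta (n : ℕ) (hκ : 0 < κ) : ∃ C : ℝ, 0 ≤ C ∧ ∀ (μ : Measure (Eu n)) (R B T : ℝ),
    Nm μ R B → ULC κ μ → 0 < T → T ≤ 1 → ∀ f : Eu n → ℝ, UC.TT f →
      JJ μ T (fun t s => c3 (tl μ t s.1) (fun k i j => Hm (tl μ t s.1) k i j) f) ≤
        T * c3 μ (fun k i j => Hm μ k i j) f +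
          C * T ^ 2 * (∫ x, gsq f x ∂μ + Zt μ (gsq f)) := by
  obtain ⟨C, hC, hc⟩ := cum_bd hκ
  have hn0 : (0 : ℝ) ≤ n := Nat.cast_nonneg n
  set C2 : ℝ := n * (n * (n * (n * (5 * C ^ 2 + C)))) with hC2
  have hC20 : 0 ≤ C2 := by positivity
  refine ⟨C2 * (1 + n * (n * C ^ 2)), by positivity, ?_⟩
  intro μ R B T h hu hT hT1 f hf
  have hψc := beta_gsq_cont hf
  have h0 := beta_gsq_nonneg f
  -- facts at the states
  have hst : ∀ (t : ℝ) (s : St n), 0 ≤ t → ∀ i j k l : Fin n,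
      |Am (tl μ t s.1) i j| ≤ C ∧ |Hm (tl μ t s.1) k i j| ≤ C ∧ |Fc (tl μ t s.1) i j k l| ≤ C :=
    fun t s ht => hc n (tl μ t s.1) R (tl_prob h t s.1) (tl_BS h t s.1)
      (beta_ulc_mono (by linarith) (tl_ULC h hu t s.1))
  -- the cubic term
  have hφb : ∀ i j, ∃ M : ℝ, ∀ᵐ x ∂μ, |UC.pd i f x * UC.pd j f x| ≤ M := fun i j =>
    PD2.bdd_of_cont h.bs (((hf.pd i).cd.continuous).mul ((hf.pd j).cd.continuous))
  choose Mφ hMφ using hφb
  have hIt := It.sum (T := T) h (Finset.univ : Finset (Fin n)) (fun k _ =>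
    It.sum (T := T) h (Finset.univ : Finset (Fin n)) (fun i _ =>
      It.sum (T := T) h (Finset.univ : Finset (Fin n)) (fun j _ =>
        It.mul (T := T) h (It.H (T := T) h k i j)
          (It.W (T := T) h (φ := fun x => UC.pd i f x * UC.pd j f x)
            (((hf.pd i).cd.continuous).mul ((hf.pd j).cd.continuous)).measurable (hMφ i j) k))))
  have hF := beta_time h hT hIt
  -- the weight
  obtain ⟨M, hM⟩ := PD2.bdd_of_cont h.bs hψc
  obtain ⟨σ, hZ⟩ := It.Z (T := T) h hψc.measurable hM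
  have hE := It.ev (T := T) h hψc.measurable hM
  have hG := It.add h hE hZ
  have hG1 := beta_time h hT hG
  have hE1 := beta_time h hT hE
  have hbE : Bd B T (fun t s => ∫ x, gsq f x ∂(tl μ t s.1)) := hE.bF
  have hbG : Bd B T (fun t s => ∫ x, gsq f x ∂(tl μ t s.1) + Zt (tl μ t s.1) (gsq f)) := hG.bF
  have hTb : Bd B T (fun t (_ : St n) => T - t) :=
    ⟨T, fun t s h1 h2 _ => by rw [abs_of_nonneg (by linarith)]; linarith⟩
  -- time integral of the expectation
  have hJE : JJ μ T (fun t s => ∫ x, gsq f x ∂(tl μ t s.1)) = T * ∫ x, gsq f x ∂μ := by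
    rw [hE1]
    simp only [mul_zero, tl_zero h]
    rw [JJ_const h hT, mul_zero, add_zero]
  -- time integral of the weight
  have hJG : JJ μ T (fun t s => ∫ x, gsq f x ∂(tl μ t s.1) + Zt (tl μ t s.1) (gsq f)) ≤
      T * (1 + n * (n * C ^ 2)) * (∫ x, gsq f x ∂μ + Zt μ (gsq f)) := by
    have h5 : JJ μ T (fun t s => (T - t) * (0 + ((∑ k, ∑ p, Am (tl μ t s.1) k p ^ 2) *
        ∫ x, gsq f x ∂(tl μ t s.1) - 2 * ∑ k, ∑ p, Am (tl μ t s.1) k p *
          ∫ x, (x k - mn (tl μ t s.1) k) * (x p - mn (tl μ t s.1) p) * gsq f x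
            ∂(tl μ t s.1)))) ≤
        JJ μ T (fun t s => (T * (n * (n * C ^ 2))) * ∫ x, gsq f x ∂(tl μ t s.1)) := by
      refine JJ_mono h hT (hTb.mul hG.bb) (hbE.cmul _) fun t s ht1 ht2 hs => ?_
      have hpr := tl_prob h t s.1
      have hMt : ∀ᵐ x ∂(tl μ t s.1), |gsq f x| ≤ M :=
        (tilted_absolutelyContinuous μ _).ae_le hM
      have h6 := am_psd_weight hpr (tl_BS h t s.1) hψc.measurable h0 hMt
      have h7 : 0 ≤ ∫ x, gsq f x ∂(tl μ t s.1) := integral_nonneg h0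
      have h8 : (∑ k, ∑ p, Am (tl μ t s.1) k p ^ 2) ≤ n * (n * C ^ 2) := by
        have h9 : ∀ k : Fin n, ∑ p, Am (tl μ t s.1) k p ^ 2 ≤ n * C ^ 2 := fun k => by
          refine (Finset.sum_le_sum (g := fun _ => C ^ 2) fun p _ => ?_).trans ?_
          · exact sq_le_sq.2 (by rw [abs_of_nonneg hC]; exact (hst t s ht1 k p k k).1)
          · simp
        refine (Finset.sum_le_sum fun k _ => h9 k).trans ?_
        simp
      have h10 : 0 ≤ T - t := by linarith
      have h11 : T - t ≤ T := by linarith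
      have h12 : 0 ≤ (n : ℝ) * (n * C ^ 2) := by positivity
      calc (T - t) * (0 + ((∑ k, ∑ p, Am (tl μ t s.1) k p ^ 2) *
            ∫ x, gsq f x ∂(tl μ t s.1) - 2 * ∑ k, ∑ p, Am (tl μ t s.1) k p *
            ∫ x, (x k - mn (tl μ t s.1) k) * (x p - mn (tl μ t s.1) p) * gsq f x
              ∂(tl μ t s.1))) ≤
          (T - t) * ((n * (n * C ^ 2)) * ∫ x, gsq f x ∂(tl μ t s.1)) := by
            refine mul_le_mul_of_nonneg_left ?_ h10
            have := mul_le_mul_of_nonneg_right h8 h7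
            linarith
        _ ≤ T * ((n * (n * C ^ 2)) * ∫ x, gsq f x ∂(tl μ t s.1)) :=
            mul_le_mul_of_nonneg_right h11 (mul_nonneg h12 h7)
        _ = _ := by ring
    rw [JJ_cmul h hT hbE, hJE] at h5
    rw [hG1]
    simp only [tl_zero h]
    have h6 : 0 ≤ ∫ x, gsq f x ∂μ := integral_nonneg h0
    have h7 : 0 ≤ Zt μ (gsq f) := beta_Zt_nonneg h0
    have h8 : T * (n * (n * C ^ 2)) * (T * ∫ x, gsq f x ∂μ) ≤
        T * (n * (n * C ^ 2)) * (∫ x, gsq f x ∂μ + Zt μ (gsq f)) := by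
      refine mul_le_mul_of_nonneg_left ?_ (by positivity)
      nlinarith
    calc _ ≤ T * (∫ x, gsq f x ∂μ + Zt μ (gsq f)) +
          T * (n * (n * C ^ 2)) * (T * ∫ x, gsq f x ∂μ) := add_le_add le_rfl h5
      _ ≤ _ := by
        refine (add_le_add le_rfl h8).trans (le_of_eq ?_)
        ring
  -- the main estimate
  have hFe : (fun (t : ℝ) (s : St n) => c3 (tl μ t s.1) (fun k i j => Hm (tl μ t s.1) k i j) f) =
      fun t s => ∑ k, ∑ i, ∑ j, Hm (tl μ t s.1) k i j *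
        Cv (tl μ t s.1) (fun x => x k) (fun x => UC.pd i f x * UC.pd j f x) := rfl
  rw [hFe]
  refine hF.le.trans ?_
  have h0' : ∑ k, ∑ i, ∑ j, Hm (tl μ 0 ((0, 1) : St n).1) k i j *
      Cv (tl μ 0 ((0, 1) : St n).1) (fun x => x k) (fun x => UC.pd i f x * UC.pd j f x) =
      c3 μ (fun k i j => Hm μ k i j) f := by
    simp only [tl_zero h]
    rfl
  rw [h0']
  refine add_le_add le_rfl ?_
  refine (JJ_mono h hT (hTb.mul hIt.bb) (hbG.cmul (T * C2)) fun t s ht1 ht2 hs => ?_).trans ?_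
  · have hpr := tl_prob h t s.1
    have hd := fun k i j : Fin n => beta_drift hC hpr (tl_BS h t s.1) (hst t s ht1) hf k i j
    have h10 : 0 ≤ T - t := by linarith
    have h11 : T - t ≤ T := by linarith
    have hZ0 : 0 ≤ ∫ x, gsq f x ∂(tl μ t s.1) + Zt (tl μ t s.1) (gsq f) :=
      add_nonneg (integral_nonneg h0) (beta_Zt_nonneg h0)
    have hcard : (Fintype.card (Fin n) : ℝ) = n := by simp
    have h12 := beta_sum_le (fun k : Fin n => beta_sum_le (fun i : Fin n =>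
      beta_sum_le (fun j : Fin n => hd k i j)))
    rw [hcard] at h12
    have h13 := (le_abs_self _).trans h12
    calc _ ≤ (T - t) * (n * (n * (n * (n * (5 * C ^ 2 + C) *
          (∫ x, gsq f x ∂(tl μ t s.1) + Zt (tl μ t s.1) (gsq f)))))) :=
            mul_le_mul_of_nonneg_left h13 h10
      _ = (T - t) * (C2 * (∫ x, gsq f x ∂(tl μ t s.1) + Zt (tl μ t s.1) (gsq f))) := by
            rw [hC2]; ring
      _ ≤ T * (C2 * (∫ x, gsq f x ∂(tl μ t s.1) + Zt (tl μ t s.1) (gsq f))) :=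
            mul_le_mul_of_nonneg_right h11 (mul_nonneg hC20 hZ0)
      _ = _ := by ring
  · rw [JJ_cmul h hT hbG]
    calc T * C2 * _ ≤ T * C2 * (T * (1 + n * (n * C ^ 2)) *
          (∫ x, gsq f x ∂μ + Zt μ (gsq f))) :=
          mul_le_mul_of_nonneg_left hJG (by positivity)
      _ = _ := by ring

end Pool.Agent.Lib.MP_6d896a_gt.LG
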