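import Mathlib
import Pool.Agent.Lib.MP_6d896a_gt.LL.Defs
import Pool.Agent.Lib.MP_6d896a_gt.LL.CvV
import Pool.Agent.Lib.MP_6d896a_gt.LG.PA1
import Pool.Agent.Lib.MP_6d896a_gt.LG.PA2a

/-!
Project LL, piece L18: from the smooth level to measures with bounded support.
-/

set_option autoImplicit false
set_option linter.unusedVariables false

namespace Pool.Agent.Lib.MP_6d896a_gt.LG

open MeasureTheory ProbabilityTheory Filter Topology Metric Set Matrix
open scoped ENNReal NNReal ContDiff

variable {n : ℕ}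

/-! ### growth bounds and limits -/

private lemma bs_coord_cont (i : Fin n) : Continuous (fun x : Eu n => x i) := by fun_prop

private lemma bs_coord_le (x : Eu n) (i : Fin n) : |x i| ≤ ‖x‖ := by
  rw [← Real.norm_eq_abs]
  exact PiLp.norm_apply_le x i

private lemma bs_quad_bdd {c : ℝ} (hc : 0 < c) {F : Eu n → ℝ} {A : ℝ}
    (hA : ∀ x, |F x| ≤ A * (1 + ‖x‖ ^ 2)) (hA0 : 0 ≤ A) :
    ∃ B, ∀ x, |F x| * Real.exp (-c * ‖x‖ ^ 2) ≤ B := by
  refine ⟨A * (1 + 1 / c), fun x => ?_⟩
  have h1 : Real.exp (-c * ‖x‖ ^ 2) ≤ 1 := by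
    apply Real.exp_le_one_iff.mpr
    nlinarith [sq_nonneg ‖x‖]
  have h2 : ‖x‖ ^ 2 * Real.exp (-c * ‖x‖ ^ 2) ≤ 1 / c := by
    rw [le_div_iff₀ hc]
    have h3 := Real.add_one_le_exp (c * ‖x‖ ^ 2)
    have h4 : Real.exp (c * ‖x‖ ^ 2) * Real.exp (-c * ‖x‖ ^ 2) = 1 := by
      rw [← Real.exp_add, ← Real.exp_zero]
      congr 1
      ring
    have h5 := Real.exp_pos (-c * ‖x‖ ^ 2)
    nlinarith
  have h6 := Real.exp_pos (-c * ‖x‖ ^ 2)
  calc |F x| * Real.exp (-c * ‖x‖ ^ 2) ≤ A * (1 + ‖x‖ ^ 2) * Real.exp (-c * ‖x‖ ^ 2) :=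
        mul_le_mul_of_nonneg_right (hA x) h6.le
    _ = A * (Real.exp (-c * ‖x‖ ^ 2) + ‖x‖ ^ 2 * Real.exp (-c * ‖x‖ ^ 2)) := by ring
    _ ≤ A * (1 + 1 / c) := by gcongr

private lemma bs_cs_bdd {c : ℝ} (hc : 0 < c) {F : Eu n → ℝ} (hF : Continuous F)
    (hs : HasCompactSupport F) : ∃ B, ∀ x, |F x| * Real.exp (-c * ‖x‖ ^ 2) ≤ B := by
  obtain ⟨B, hB⟩ := hs.exists_bound_of_continuous hF
  have hB0 : 0 ≤ B := (norm_nonneg _).trans (hB 0)
  refine bs_quad_bdd hc (A := B) (fun x => ?_) hB0
  have h1 := hB x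
  rw [Real.norm_eq_abs] at h1
  nlinarith [sq_nonneg ‖x‖]

/-! ### linear algebra -/

private lemma bs_basis_kron (b : OrthonormalBasis (Fin n) ℝ (Eu n)) (j k : Fin n) :
    ∑ p, b p j * b p k = if j = k then 1 else 0 := by
  have h := b.sum_inner_mul_inner (EuclideanSpace.single j (1 : ℝ)) (EuclideanSpace.single k (1 : ℝ))
  simp only [EuclideanSpace.inner_single_left, EuclideanSpace.inner_single_right, map_one, one_mul,
    conj_trivial] at h
  rw [h]
  simp [eq_comm]

private lemma bs_basis_ortho (b : OrthonormalBasis (Fin n) ℝ (Eu n)) (p q : Fin n) :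
    ∑ i, b p i * b q i = if p = q then 1 else 0 := by
  have h := b.inner_eq_ite p q
  rw [PiLp.inner_apply] at h
  simp only [RCLike.inner_apply, conj_trivial] at h
  rw [← h]
  exact Finset.sum_congr rfl fun i _ => mul_comm _ _

private lemma bs_diag (C : Mat n) (hC : ∀ i j, C i j = C j i) :
    ∃ (b : OrthonormalBasis (Fin n) ℝ (Eu n)) (α : Fin n → ℝ),
      (∀ p q, ∑ i, ∑ j, b p i * b q j * C i j = if p = q then α p else 0) ∧
      (∀ j k, ∑ p, α p * (b p j * b p k) = C j k) := by
  have hH : C.IsHermitian := by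
    ext i j
    simp [Matrix.conjTranspose_apply, hC i j]
  set b := hH.eigenvectorBasis with hb
  set α := hH.eigenvalues with hα
  have e1 : ∀ q i, ∑ j, C i j * b q j = α q * b q i := by
    intro q i
    have h := congrFun (hH.mulVec_eigenvectorBasis q) i
    simpa [Matrix.mulVec, dotProduct] using h
  refine ⟨b, α, fun p q => ?_, fun j k => ?_⟩
  · have : ∀ i, ∑ j, b p i * b q j * C i j = α q * (b p i * b q i) := by
      intro i
      calc ∑ j, b p i * b q j * C i j = b p i * ∑ j, C i j * b q j := by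
            rw [Finset.mul_sum]
            exact Finset.sum_congr rfl fun j _ => by ring
        _ = _ := by rw [e1]; ring
    rw [Finset.sum_congr rfl fun i _ => this i, ← Finset.mul_sum, bs_basis_ortho]
    split_ifs with h
    · rw [h, mul_one]
    · rw [mul_zero]
  · calc ∑ p, α p * (b p j * b p k) = ∑ p, (∑ l, C j l * b p l) * b p k :=
          Finset.sum_congr rfl fun p _ => by rw [e1]; ring
      _ = ∑ l, C j l * ∑ p, b p l * b p k := by
          simp only [Finset.sum_mul, Finset.mul_sum]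
          rw [Finset.sum_comm]
          exact Finset.sum_congr rfl fun l _ => Finset.sum_congr rfl fun p _ => by ring
      _ = C j k := by
          simp [bs_basis_kron]

/-- the diagonal map -/
private noncomputable def bsD (c : Fin n → ℝ) (hc : ∀ i, c i ≠ 0) : Eu n ≃L[ℝ] Eu n :=
  LinearEquiv.toContinuousLinearEquiv
    { toFun := fun y => WithLp.toLp 2 (fun i => c i * y i)
      invFun := fun y => WithLp.toLp 2 (fun i => (c i)⁻¹ * y i)
      map_add' := fun x y => by
        ext i
        simp [mul_add]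
      map_smul' := fun r x => by
        ext i
        simp [mul_left_comm]
      left_inv := fun y => by
        ext i
        simp [hc i]
      right_inv := fun y => by
        ext i
        simp [hc i] }

private noncomputable def bsL (b : OrthonormalBasis (Fin n) ℝ (Eu n)) (c : Fin n → ℝ)
    (hc : ∀ i, c i ≠ 0) : Eu n ≃L[ℝ] Eu n :=
  (bsD c hc).trans b.repr.symm.toContinuousLinearEquiv

section L
variable (b : OrthonormalBasis (Fin n) ℝ (Eu n)) (c : Fin n → ℝ) (hc : ∀ i, c i ≠ 0)

private lemma bsL_eq (y : Eu n) :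
    bsL b c hc y = b.repr.symm (WithLp.toLp 2 (fun i => c i * y i)) := rfl

private lemma bsL_inner (y : Eu n) (p : Fin n) : inner ℝ (b p) (bsL b c hc y) = c p * y p := by
  rw [bsL_eq, ← b.repr_apply_apply, LinearIsometryEquiv.apply_symm_apply]

private lemma bsL_single (i j : Fin n) :
    bsL b c hc (EuclideanSpace.single i 1) j = c i * b i j := by
  rw [bsL_eq, ← b.sum_repr_symm]
  rw [Finset.sum_eq_single i]
  · simp
  · intro k _ hk
    simp [hk]
  · intro h; exact absurd (Finset.mem_univ i) h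

private lemma bsL_norm (y : Eu n) : ‖bsL b c hc y‖ ^ 2 = ∑ p, (c p * y p) ^ 2 := by
  rw [bsL_eq, LinearIsometryEquiv.norm_map, EuclideanSpace.norm_sq_eq]
  exact Finset.sum_congr rfl fun p _ => by simp [mul_pow]

private lemma bsL_coord (y : Eu n) (p : Fin n) :
    y p = (c p)⁻¹ * inner ℝ (bsL b c hc y) (b p) := by
  rw [real_inner_comm, bsL_inner, ← mul_assoc, inv_mul_cancel₀ (hc p), one_mul]

end L

/-! ### covariances of linear functions -/

section lin
variable {V : Eu n → ℝ} {κ Λ c0 : ℝ}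

private lemma bs_lin1 (hs : SP V κ Λ c0) (u : Eu n) :
    UC.Ex V (fun x => inner ℝ x u) = ∑ i, u i * UC.Ex V (fun x => x i) := by
  have h := hs.sum_coord (hs.const 1) u
  simpa using h

private lemma bs_cov (hs : SP V κ Λ c0) (u w : Eu n) :
    CvE V (fun x => inner ℝ x u) (fun x => inner ℝ x w) =
      ∑ i, ∑ j, u i * w j * AmE V i j := by
  unfold AmE CvE
  have h1 := hs.sum_coord (hs.sq_inner w) u
  have h2 : ∀ i, UC.Ex V (fun x => x i * inner ℝ x w) = ∑ j, w j * UC.Ex V (fun x => x i * x j) := by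
    intro i
    have h := hs.sum_coord (hs.sq_coord i) w
    have e : (fun x : Eu n => x i * (inner ℝ x w : ℝ)) = fun x => inner ℝ x w * x i := by
      funext x; ring
    rw [e, h]
    refine Finset.sum_congr rfl fun j _ => ?_
    congr 2
    funext x; ring
  rw [h1, bs_lin1 hs u, bs_lin1 hs w, Finset.sum_mul_sum, ← Finset.sum_sub_distrib]
  refine Finset.sum_congr rfl fun i _ => ?_
  rw [h2, Finset.mul_sum, ← Finset.sum_sub_distrib]
  exact Finset.sum_congr rfl fun j _ => by ring

private lemma bs_var_pos (hs : SP V κ Λ c0) {w : Eu n} (hw : w ≠ 0) :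
    0 < CvE V (fun x => inner ℝ x w) (fun x => inner ℝ x w) := by
  have e : CvE V (fun x => inner ℝ x w) (fun x => inner ℝ x w) =
      VarE V (fun x => inner ℝ x w) := by
    unfold CvE VarE
    simp only [sq]
  rw [e]
  have hq := hs.sq_inner w
  rcases (hs.VarE_nonneg hq).lt_or_eq with h | h
  · exact h
  exfalso
  rw [← hs.VarE_eq hq] at h
  set m := UC.Ex V (fun x => inner ℝ x w) with hm
  have hsq : SqV V (fun x : Eu n => inner ℝ x w - m) := hq.sub hs.cont (hs.const m)
  have hcont : Continuous fun x : Eu n => ((inner ℝ x w : ℝ) - m) ^ 2 * Real.exp (-V x) :=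
    ((hsq.1).pow 2).mul (Real.continuous_exp.comp hs.cont.neg)
  have h0 : (fun x : Eu n => ((inner ℝ x w : ℝ) - m) ^ 2 * Real.exp (-V x)) = 0 := by
    have h1 : (fun x : Eu n => ((inner ℝ x w : ℝ) - m) ^ 2 * Real.exp (-V x)) =ᵐ[volume] 0 :=
      (integral_eq_zero_iff_of_nonneg (fun x => by positivity) hsq.2).mp h.symm
    exact (Continuous.ae_eq_iff_eq volume hcont continuous_zero).mp h1
  have h2 : ∀ x : Eu n, (inner ℝ x w : ℝ) = m := by
    intro x
    have h3 := congrFun h0 x
    have h4 : ((inner ℝ x w : ℝ) - m) ^ 2 = 0 := by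
      rcases mul_eq_zero.mp h3 with h5 | h5
      · exact h5
      · exact absurd h5 (Real.exp_pos _).ne'
    have h5 := pow_eq_zero_iff (two_ne_zero) |>.mp h4
    linarith
  have h6 := h2 w
  have h7 := h2 0
  rw [inner_zero_left] at h7
  rw [← h7, real_inner_self_eq_norm_sq] at h6
  exact hw (norm_eq_zero.mp (pow_eq_zero_iff two_ne_zero |>.mp h6))

end lin

/-! ### one potential -/

private lemma bs_one {t M K : ℝ} (ht : 0 < t) (h : PSd n t M K) {V : Eu n → ℝ} {Λ c0 : ℝ}
    (hs : SP V 1 Λ c0) {f : Eu n → ℝ} (hf : UC.TT f) :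
    VarE V f ≤ K * ∑ j, ∑ k, (M * AmE V j k + if j = k then t else 0) *
      UC.Ex V (fun x => UC.pd j f x * UC.pd k f x) := by
  have hsym : ∀ i j, AmE V i j = AmE V j i := by
    intro i j
    unfold AmE CvE
    rw [mul_comm (UC.Ex V (fun x => x i))]
    congr 2
    funext x; ring
  obtain ⟨b, α, hb1, hb2⟩ := bs_diag (n := n) (fun i j => AmE V i j) hsym
  have hα : ∀ p, 0 < α p := by
    intro p
    have h1 := bs_var_pos hs (b.orthonormal.ne_zero p)
    rw [bs_cov hs, hb1 p p, if_pos rfl] at h1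
    exact h1
  set β : Fin n → ℝ := fun p => α p + t / 2 with hβ
  have hβ0 : ∀ p, 0 < β p := fun p => by have := hα p; rw [hβ]; positivity
  set c : Fin n → ℝ := fun p => Real.sqrt (β p) with hc
  have hcpos : ∀ p, 0 < c p := fun p => Real.sqrt_pos.mpr (hβ0 p)
  have hc0 : ∀ p, c p ≠ 0 := fun p => (hcpos p).ne'
  have hcsq : ∀ p, c p ^ 2 = β p := fun p => Real.sq_sqrt (hβ0 p).le
  set L := bsL b c hc0 with hL
  set a : Fin n → ℝ := fun p => α p / β p with ha
  have ha01 : ∀ p, 0 < a p ∧ a p < 1 := by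
    intro p
    have h1 := hα p
    have h2 := hβ0 p
    refine ⟨by rw [ha]; positivity, ?_⟩
    rw [ha]
    simp only
    rw [div_lt_one h2, hβ]
    simp only
    linarith
  obtain ⟨κ', Λ', c0', hs'⟩ := sp_cvV L hs
  have hcov : CovD (cvV V L) a := by
    intro i j
    have e1 : (fun y : Eu n => y i) = fun y => (c i)⁻¹ * inner ℝ (L y) (b i) := by
      funext y; exact bsL_coord b c hc0 y i
    have e2 : (fun y : Eu n => y j) = fun y => (c j)⁻¹ * inner ℝ (L y) (b j) := by
      funext y; exact bsL_coord b c hc0 y j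
    have e3 : (fun y : Eu n => y i * y j) =
        fun y => (c i)⁻¹ * (c j)⁻¹ * (inner ℝ (L y) (b i) * inner ℝ (L y) (b j)) := by
      funext y
      rw [bsL_coord b c hc0 y i, bsL_coord b c hc0 y j]
      simp only [← hL]
      ring
    have h1 := bs_cov hs (b i) (b j)
    rw [hb1 i j] at h1
    unfold AmE CvE
    rw [e3, e1, e2, UC.Ex_const_mul, UC.Ex_const_mul, UC.Ex_const_mul]
    rw [Ex_cvV L (fun x => inner ℝ x (b i) * inner ℝ x (b j)),
      Ex_cvV L (fun x => inner ℝ x (b i)), Ex_cvV L (fun x => inner ℝ x (b j))]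
    unfold CvE at h1
    have h2 : (c i)⁻¹ * (c j)⁻¹ * (UC.Ex V (fun x => inner ℝ x (b i) * inner ℝ x (b j)) -
        UC.Ex V (fun x => inner ℝ x (b i)) * UC.Ex V (fun x => inner ℝ x (b j))) =
        if i = j then a i else 0 := by
      rw [h1]
      split_ifs with hij
      · subst hij
        rw [ha]
        simp only
        rw [← hcsq i]
        have := hc0 i
        field_simp
      · rw [mul_zero]
    rw [← h2]
    ring
  have hhes : HesD (cvV V L) (fun i => t / (2 * (1 - a i))) := by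
    intro y v
    rw [hess_cvV L hs.cd]
    have h1 := hs.conv (L y) (L v)
    rw [one_mul, hL, bsL_norm] at h1
    refine le_trans (le_of_eq ?_) h1
    refine Finset.sum_congr rfl fun p _ => ?_
    rw [mul_pow, hcsq]
    congr 1
    have h2 := hβ0 p
    have h3 : 1 - a p = (t / 2) / β p := by
      rw [ha]
      simp only
      rw [eq_div_iff h2.ne', sub_mul, one_mul, div_mul_cancel₀ _ h2.ne', hβ]
      ring
    change t / (2 * (1 - a p)) = β p
    rw [h3]
    field_simp
  have h3 := h (cvV V L) κ' Λ' c0' a hs' ha01 hcov hhes (fun y => f (L y)) (tt_comp L hf)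
  rw [varE_cvV] at h3
  have hf1 : ContDiff ℝ 1 f := hf.cd.of_le (by exact_mod_cast le_top)
  have hpi : ∀ j k, Integrable (fun x => (UC.pd j f x * UC.pd k f x) * Real.exp (-V x)) :=
    fun j k => (hs.sq_pd hf j).mul_int hs.cont (hs.sq_pd hf k)
  have e4 : ∀ i, UC.Ex (cvV V L) (fun x => UC.pd i (fun y => f (L y)) x ^ 2) =
      ∑ j, ∑ k, (c i * b i j) * (c i * b i k) * UC.Ex V (fun x => UC.pd j f x * UC.pd k f x) := by
    intro i
    have e5 : (fun x => UC.pd i (fun y => f (L y)) x ^ 2) =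
        fun x => (fun z => ∑ j, ∑ k, (c i * b i j) * (c i * b i k) *
          (UC.pd j f z * UC.pd k f z)) (L x) := by
      funext x
      rw [pd_comp L hf1, sq, Finset.sum_mul_sum]
      refine Finset.sum_congr rfl fun j _ => Finset.sum_congr rfl fun k _ => ?_
      rw [hL, bsL_single, bsL_single]
      ring
    rw [e5, Ex_cvV L (fun z => ∑ j, ∑ k, (c i * b i j) * (c i * b i k) *
          (UC.pd j f z * UC.pd k f z))]
    unfold UC.Ex
    simp only [Finset.sum_mul]
    rw [integral_finsetSum _ (fun j _ => integrable_finsetSum _ fun k _ => by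
      simpa only [mul_assoc] using (hpi j k).const_mul (c i * b i j * (c i * b i k)))]
    refine Finset.sum_congr rfl fun j _ => ?_
    rw [integral_finsetSum _ (fun k _ => by
      simpa only [mul_assoc] using (hpi j k).const_mul (c i * b i j * (c i * b i k)))]
    refine Finset.sum_congr rfl fun k _ => ?_
    rw [← integral_const_mul]
    congr 1
    funext x
    ring
  refine h3.trans (le_of_eq ?_)
  congr 1
  unfold rE
  simp only [e4, Finset.mul_sum]
  rw [Finset.sum_comm]
  refine Finset.sum_congr rfl fun j _ => ?_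
  rw [Finset.sum_comm]
  refine Finset.sum_congr rfl fun k _ => ?_
  have e6 : ∀ i, (2 + (M - 2) * a i) * (c i * b i j * (c i * b i k) *
      UC.Ex V (fun x => UC.pd j f x * UC.pd k f x)) =
      (M * (α i * (b i j * b i k)) + t * (b i j * b i k)) *
        UC.Ex V (fun x => UC.pd j f x * UC.pd k f x) := by
    intro i
    have h4 : (2 + (M - 2) * a i) * c i ^ 2 = M * α i + t := by
      rw [hcsq, ha]
      simp only
      rw [add_mul, mul_assoc, div_mul_cancel₀ _ (hβ0 i).ne', hβ]
      ring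
    calc (2 + (M - 2) * a i) * (c i * b i j * (c i * b i k) *
      UC.Ex V (fun x => UC.pd j f x * UC.pd k f x)) = ((2 + (M - 2) * a i) * c i ^ 2) *
        (b i j * b i k) * UC.Ex V (fun x => UC.pd j f x * UC.pd k f x) := by ring
      _ = _ := by rw [h4]; ring
  rw [Finset.sum_congr rfl fun i _ => e6 i, ← Finset.sum_mul, Finset.sum_add_distrib,
    ← Finset.mul_sum, ← Finset.mul_sum, hb2, bs_basis_kron]
  simp only [mul_ite, mul_one, mul_zero]

/-- from the smooth level to measures with bounded support -/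
theorem pk1_of_psd {t M K : ℝ} (ht : 0 < t) (hK : 0 ≤ K) (h : PSd n t M K) : PK1 n t M K := by
  intro ν R hν hR hu f hf
  obtain ⟨V, hV1, hV2⟩ := ulc_approx hν hR one_pos hu
  have h1 : ∀ k, VarE (V k) f ≤ K * ∑ i, ∑ j, (M * AmE (V k) i j + if i = j then t else 0) *
      UC.Ex (V k) (fun x => UC.pd i f x * UC.pd j f x) := by
    intro k
    obtain ⟨Λ, c0, hs⟩ := hV1 k
    exact bs_one ht h hs hf
  have l0 : Tendsto (fun k => UC.Ex (V k) f) atTop (𝓝 (∫ x, f x ∂ν)) :=
    hV2 f hf.continuous (bs_cs_bdd (by norm_num) hf.continuous hf.cs)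
  have l1 : Tendsto (fun k => VarE (V k) f) atTop (𝓝 (Cv ν f f)) := by
    have e : Cv ν f f = ∫ x, f x ^ 2 ∂ν - (∫ x, f x ∂ν) ^ 2 := by
      unfold Cv
      simp only [sq]
    rw [e]
    have hsq : Continuous fun x => f x ^ 2 := hf.continuous.pow 2
    have hcs : HasCompactSupport fun x => f x ^ 2 := by
      have : (fun x => f x ^ 2) = fun x => f x * f x := funext fun x => sq _
      rw [this]
      exact hf.cs.mul_left
    exact (hV2 _ hsq (bs_cs_bdd (by norm_num) hsq hcs)).sub (l0.pow 2)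
  have l2 : ∀ i, Tendsto (fun k => UC.Ex (V k) (fun x => x i)) atTop (𝓝 (∫ x, x i ∂ν)) := by
    intro i
    refine hV2 _ (bs_coord_cont i) (bs_quad_bdd (by norm_num) (A := 1) (fun x => ?_) zero_le_one)
    have := bs_coord_le x i
    nlinarith [sq_nonneg (‖x‖ - 1), norm_nonneg x]
  have l3 : ∀ i j, Tendsto (fun k => UC.Ex (V k) (fun x => x i * x j)) atTop
      (𝓝 (∫ x, x i * x j ∂ν)) := by
    intro i j
    refine hV2 _ ((bs_coord_cont i).mul (bs_coord_cont j))
      (bs_quad_bdd (by norm_num) (A := 1) (fun x => ?_) zero_le_one)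
    have h0 : |x i * x j| = |x i| * |x j| := abs_mul _ _
    have h1 := mul_le_mul (bs_coord_le x i) (bs_coord_le x j) (abs_nonneg _) (norm_nonneg _)
    change |x i * x j| ≤ _
    rw [h0]
    nlinarith
  have l4 : ∀ i j, Tendsto (fun k => UC.Ex (V k) (fun x => UC.pd i f x * UC.pd j f x)) atTop
      (𝓝 (∫ x, UC.pd i f x * UC.pd j f x ∂ν)) := by
    intro i j
    have hcc : Continuous fun x => UC.pd i f x * UC.pd j f x :=
      (hf.pd i).continuous.mul (hf.pd j).continuous
    exact hV2 _ hcc (bs_cs_bdd (by norm_num) hcc (hf.pd j).cs.mul_left)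
  have l5 : ∀ i j, Tendsto (fun k => AmE (V k) i j) atTop (𝓝 (Am ν i j)) := fun i j =>
    (l3 i j).sub ((l2 i).mul (l2 j))
  have l6 : Tendsto (fun k => K * ∑ i, ∑ j, (M * AmE (V k) i j + if i = j then t else 0) *
      UC.Ex (V k) (fun x => UC.pd i f x * UC.pd j f x)) atTop
      (𝓝 (K * ∑ i, ∑ j, (M * Am ν i j + if i = j then t else 0) *
        ∫ x, UC.pd i f x * UC.pd j f x ∂ν)) := by
    refine Tendsto.const_mul _ (tendsto_finsetSum _ fun i _ => tendsto_finsetSum _ fun j _ => ?_)
    exact (((l5 i j).const_mul M).add_const _).mul (l4 i j)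
  have h2 := le_of_tendsto_of_tendsto' l1 l6 h1
  refine h2.trans (le_of_eq ?_)
  congr 1

end Pool.Agent.Lib.MP_6d896a_gt.LG
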