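import Mathlib
import Pool.Agent.Lib.MP_6d896a_gt.LL.Defs
import Pool.Agent.Lib.MP_6d896a_gt.LG.PA3a

/-!
Project LL, piece L09: diagonally uniform log-concavity.
-/

set_option autoImplicit false

namespace Pool.Agent.Lib.MP_6d896a_gt.LG

open MeasureTheory Filter Topology Set Matrix
open scoped ENNReal NNReal

variable {n : ℕ} {μ ν : Measure (Eu n)} {R B T κ : ℝ}

private lemma l09_sum_meas (q : Fin n → ℝ) :
    Continuous fun x : Eu n => (∑ i, q i * x i ^ 2) / 2 := by
  fun_prop

private lemma l09_meas {g : Eu n → ℝ} (hg : Continuous g) :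
    Measurable fun x : Eu n => ENNReal.ofReal (Real.exp (g x)) :=
  ENNReal.measurable_ofReal.comp (Real.continuous_exp.comp hg).measurable

/-- `exp g` is log-concave for concave `g` -/
private lemma l09_lcf {g : Eu n → ℝ}
    (hg : ∀ x y : Eu n, ∀ l : ℝ, 0 < l → l < 1 → (1 - l) * g x + l * g y ≤ g ((1 - l) • x + l • y)) :
    FP.LCf (fun x : Eu n => ENNReal.ofReal (Real.exp (g x))) := by
  intro x y l h0 h1
  show ENNReal.ofReal (Real.exp (g x)) ^ (1 - l) * ENNReal.ofReal (Real.exp (g y)) ^ l ≤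
    ENNReal.ofReal (Real.exp (g ((1 - l) • x + l • y)))
  rw [ENNReal.ofReal_rpow_of_pos (Real.exp_pos _), ENNReal.ofReal_rpow_of_pos (Real.exp_pos _),
    ← ENNReal.ofReal_mul (by positivity), ← Real.exp_mul, ← Real.exp_mul, ← Real.exp_add]
  apply ENNReal.ofReal_le_ofReal
  apply Real.exp_le_exp.2
  have := hg x y l h0 h1
  linarith

theorem tl_DLC (h : Nm μ R B) {q : Fin n → ℝ} (hq : DLC q μ) (t : ℝ) (c : Eu n) :
    DLC (fun i => q i + t) (tl μ t c) := by
  have := h.pr
  unfold DLC at hq ⊢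
  unfold tl Measure.tilted
  set z := ∫ x, Real.exp (inner ℝ c x - t / 2 * ‖x‖ ^ 2) ∂μ with hz
  have hz0 : 0 < z := integral_exp_pos (tl_exp_int h t c)
  have e1 : (μ.withDensity fun x => ENNReal.ofReal
      (Real.exp (inner ℝ c x - t / 2 * ‖x‖ ^ 2) / z)).withDensity
      (fun x => ENNReal.ofReal (Real.exp ((∑ i, (q i + t) * x i ^ 2) / 2))) =
      (μ.withDensity fun x => ENNReal.ofReal (Real.exp ((∑ i, q i * x i ^ 2) / 2))).withDensity
        (fun x => ENNReal.ofReal (Real.exp (inner ℝ c x - Real.log z))) := by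
    rw [← withDensity_mul _ (by fun_prop) (l09_meas (l09_sum_meas _)),
      ← withDensity_mul _ (l09_meas (l09_sum_meas _)) (l09_meas (by fun_prop))]
    congr 1
    funext x
    simp only [Pi.mul_apply]
    rw [← ENNReal.ofReal_mul (by positivity), ← ENNReal.ofReal_mul (by positivity)]
    congr 1
    rw [Real.exp_sub (inner ℝ c x) (Real.log z), Real.exp_log hz0, div_mul_eq_mul_div,
      ← Real.exp_add, mul_div_assoc', ← Real.exp_add]
    congr 2
    have e2 : ∑ i, (q i + t) * x i ^ 2 = ∑ i, q i * x i ^ 2 + t * ‖x‖ ^ 2 := by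
      rw [EuclideanSpace.real_norm_sq_eq, Finset.mul_sum, ← Finset.sum_add_distrib]
      exact Finset.sum_congr rfl fun i _ => by ring
    rw [e2]
    ring
  rw [e1]
  refine hq.withDensity (l09_meas (by fun_prop)) (l09_lcf fun x y l _ _ => ?_)
  rw [inner_add_right, real_inner_smul_right, real_inner_smul_right]
  linarith

theorem dlc_const_iff : DLC (fun _ => κ) ν ↔ ULC κ ν := by
  unfold DLC ULC
  have e : (fun x : Eu n => ENNReal.ofReal (Real.exp ((∑ i, κ * x i ^ 2) / 2))) =
      fun x => ENNReal.ofReal (Real.exp (κ / 2 * ‖x‖ ^ 2)) := by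
    funext x
    rw [EuclideanSpace.real_norm_sq_eq, ← Finset.mul_sum]
    congr 2
    ring
  rw [e]

theorem DLC.ulc {q : Fin n → ℝ} (hq : ∀ i, κ ≤ q i) (h : DLC q ν) : ULC κ ν := by
  rw [← dlc_const_iff]
  unfold DLC at h ⊢
  have h2 : FP.PLm ((ν.withDensity fun x => ENNReal.ofReal
      (Real.exp ((∑ i, q i * x i ^ 2) / 2))).withDensity
      (fun x => ENNReal.ofReal (Real.exp (-((∑ i, (q i - κ) * x i ^ 2) / 2))))) := by
    refine h.withDensity (l09_meas (l09_sum_meas _).neg) (l09_lcf fun x y l h0 h1 => ?_)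
    have h3 : ∀ i, (q i - κ) * ((1 - l) • x + l • y) i ^ 2 ≤
        (1 - l) * ((q i - κ) * x i ^ 2) + l * ((q i - κ) * y i ^ 2) := by
      intro i
      have e1 : ((1 - l) • x + l • y) i = (1 - l) * x i + l * y i := by simp
      rw [e1]
      have h4 : 0 ≤ (q i - κ) * (l * (1 - l) * (x i - y i) ^ 2) := by
        have := hq i
        have : 0 ≤ q i - κ := by linarith
        have : 0 ≤ 1 - l := by linarith
        positivity
      nlinarith [h4]
    have h5 := Finset.sum_le_sum fun i (_ : i ∈ Finset.univ) => h3 i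
    rw [Finset.sum_add_distrib, ← Finset.mul_sum, ← Finset.mul_sum] at h5
    linarith
  have m1 : Measurable fun x : Eu n =>
      ENNReal.ofReal (Real.exp (-((∑ i, (q i - κ) * x i ^ 2) / 2))) :=
    l09_meas (l09_sum_meas _).neg
  rw [← withDensity_mul _ (l09_meas (l09_sum_meas _)) m1] at h2
  have e : ((fun x : Eu n => ENNReal.ofReal (Real.exp ((∑ i, q i * x i ^ 2) / 2))) *
      fun x => ENNReal.ofReal (Real.exp (-((∑ i, (q i - κ) * x i ^ 2) / 2)))) =
      fun x => ENNReal.ofReal (Real.exp ((∑ i, κ * x i ^ 2) / 2)) := by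
    funext x
    simp only [Pi.mul_apply]
    rw [← ENNReal.ofReal_mul (by positivity), ← Real.exp_add]
    congr 2
    simp only [sub_mul, Finset.sum_sub_distrib]
    ring
  rwa [e] at h2

private lemma l09_line (V : Eu n → ℝ) (hV : ContDiff ℝ 2 V) {q : Fin n → ℝ} (hq : HesD V q)
    (x v : Eu n) :
    ConvexOn ℝ univ (fun t : ℝ => V (x + t • v) - (∑ i, q i * (x i + t * v i) ^ 2) / 2) := by
  have hVd : Differentiable ℝ V := hV.differentiable two_ne_zero
  have hVd2 : Differentiable ℝ (fderiv ℝ V) :=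
    (hV.fderiv_right (m := 1) (by norm_num)).differentiable one_ne_zero
  have hl : ∀ t : ℝ, HasDerivAt (fun t : ℝ => x + t • v) v t := by
    intro t
    have h := ((hasDerivAt_id t).smul_const v).const_add x
    simpa using h
  have hs1 : ∀ t : ℝ, HasDerivAt (fun t : ℝ => (∑ i, q i * (x i + t * v i) ^ 2) / 2)
      (∑ i, q i * v i * (x i + t * v i)) t := by
    intro t
    have h1 : ∀ i ∈ Finset.univ, HasDerivAt (fun t : ℝ => q i * (x i + t * v i) ^ 2)
        (2 * (q i * v i * (x i + t * v i))) t := by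
      intro i _
      have h2 : HasDerivAt (fun t : ℝ => x i + t * v i) (v i) t := by
        have h := ((hasDerivAt_id t).mul_const (v i)).const_add (x i)
        simpa using h
      have h3 := (h2.pow 2).const_mul (q i)
      refine h3.congr_deriv ?_
      simp
      ring
    have h4 := (HasDerivAt.fun_sum h1).div_const 2
    refine h4.congr_deriv ?_
    rw [← Finset.mul_sum]
    ring
  have hs2 : ∀ t : ℝ, HasDerivAt (fun t : ℝ => ∑ i, q i * v i * (x i + t * v i))
      (∑ i, q i * v i ^ 2) t := by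
    intro t
    refine HasDerivAt.fun_sum fun i _ => ?_
    have h2 : HasDerivAt (fun t : ℝ => x i + t * v i) (v i) t := by
      have h := ((hasDerivAt_id t).mul_const (v i)).const_add (x i)
      simpa using h
    refine (h2.const_mul (q i * v i)).congr_deriv ?_
    ring
  have hd1 : ∀ t : ℝ, HasDerivAt
      (fun t : ℝ => V (x + t • v) - (∑ i, q i * (x i + t * v i) ^ 2) / 2)
      (fderiv ℝ V (x + t • v) v - ∑ i, q i * v i * (x i + t * v i)) t :=
    fun t => ((hVd _).hasFDerivAt.comp_hasDerivAt t (hl t)).sub (hs1 t)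
  have hd2 : ∀ t : ℝ, HasDerivAt
      (fun t : ℝ => fderiv ℝ V (x + t • v) v - ∑ i, q i * v i * (x i + t * v i))
      (fderiv ℝ (fderiv ℝ V) (x + t • v) v v - ∑ i, q i * v i ^ 2) t := by
    intro t
    have h1 : HasDerivAt (fun t : ℝ => fderiv ℝ V (x + t • v))
        (fderiv ℝ (fderiv ℝ V) (x + t • v) v) t :=
      (hVd2 _).hasFDerivAt.comp_hasDerivAt t (hl t)
    have h2 := h1.clm_apply (hasDerivAt_const t v)
    have h3 : HasDerivAt (fun t : ℝ => fderiv ℝ V (x + t • v) v)
        (fderiv ℝ (fderiv ℝ V) (x + t • v) v v) t := by simpa using h2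
    exact h3.sub (hs2 t)
  have e1 : deriv (fun t : ℝ => V (x + t • v) - (∑ i, q i * (x i + t * v i) ^ 2) / 2) =
      fun t => fderiv ℝ V (x + t • v) v - ∑ i, q i * v i * (x i + t * v i) :=
    funext fun t => (hd1 t).deriv
  refine convexOn_univ_of_deriv2_nonneg (fun t => (hd1 t).differentiableAt) ?_ ?_
  · rw [e1]
    exact fun t => (hd2 t).differentiableAt
  · intro t
    have e2 : deriv^[2] (fun t : ℝ => V (x + t • v) - (∑ i, q i * (x i + t * v i) ^ 2) / 2) t =
        fderiv ℝ (fderiv ℝ V) (x + t • v) v v - ∑ i, q i * v i ^ 2 := by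
      show deriv (deriv (fun t : ℝ => V (x + t • v) - (∑ i, q i * (x i + t * v i) ^ 2) / 2)) t = _
      rw [e1]
      exact (hd2 t).deriv
    rw [e2]
    have := hq (x + t • v) v
    linarith

theorem sp_dlc {V : Eu n → ℝ} {Λ c0 : ℝ} {q : Fin n → ℝ} (h : SP V κ Λ c0) (hq : HesD V q)
    {k : ℕ} (hk : tgt V (Metric.closedBall 0 (k : ℝ)) ≠ 0) : DLC q (pa3r (tgt V) k) := by
  have := pa3_prob h
  have hVc : Continuous V := h.cd.continuous
  have hs : MeasurableSet (Metric.closedBall (0 : Eu n) (k : ℝ)) :=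
    Metric.isClosed_closedBall.measurableSet
  have h1 : FP.PLm ((tgt V).withDensity fun x => ENNReal.ofReal
      (Real.exp ((∑ i, q i * x i ^ 2) / 2))) := by
    have e : (tgt V).withDensity (fun x => ENNReal.ofReal (Real.exp ((∑ i, q i * x i ^ 2) / 2))) =
        (volume : Measure (Eu n)).withDensity (fun x => ENNReal.ofReal
          (Real.exp (-(V x - (∑ i, q i * x i ^ 2) / 2)))) := by
      unfold tgt
      have m1 : Measurable fun x : Eu n => ENNReal.ofReal (Real.exp (-V x)) := l09_meas hVc.neg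
      rw [← withDensity_mul _ m1 (l09_meas (l09_sum_meas _))]
      congr 1
      funext x
      simp only [Pi.mul_apply]
      rw [← ENNReal.ofReal_mul (by positivity), ← Real.exp_add]
      congr 2
      ring
    rw [e]
    refine (FP.plm_haar volume).withDensity (l09_meas (by fun_prop)) (l09_lcf fun x y l h0 h1 => ?_)
    have hc := (l09_line V h.cd hq x (y - x)).2 (mem_univ (0 : ℝ)) (mem_univ (1 : ℝ))
      (by linarith : 0 ≤ 1 - l) h0.le (by ring)
    simp only [smul_eq_mul, mul_zero, zero_add, mul_one, zero_smul, add_zero, one_smul,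
      zero_mul, one_mul] at hc
    have e1 : x + l • (y - x) = (1 - l) • x + l • y := by
      rw [smul_sub, sub_smul, one_smul]
      abel
    have e2 : x + (y - x) = y := by abel
    have e3 : ∀ i, x i + (y - x) i = y i := fun i => by simp
    have e4 : ∀ i, x i + l * (y - x) i = ((1 - l) • x + l • y) i := fun i => by
      simp
      ring
    simp only [e1, e2, e3, e4] at hc
    linarith
  unfold DLC pa3r
  have e5 : ((tgt V (Metric.closedBall 0 (k : ℝ)))⁻¹ •
      (tgt V).restrict (Metric.closedBall 0 (k : ℝ))).withDensity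
        (fun x => ENNReal.ofReal (Real.exp ((∑ i, q i * x i ^ 2) / 2))) =
      (tgt V (Metric.closedBall 0 (k : ℝ)))⁻¹ •
      ((tgt V).withDensity
        (fun x => ENNReal.ofReal (Real.exp ((∑ i, q i * x i ^ 2) / 2)))).restrict
          (Metric.closedBall 0 (k : ℝ)) := by
    rw [withDensity_smul_measure, restrict_withDensity hs]
  rw [e5]
  exact (h1.restrict_ball k).smul _ (ENNReal.inv_ne_zero.2 (measure_ne_top _ _))
    (ENNReal.inv_ne_top.2 hk)

end Pool.Agent.Lib.MP_6d896a_gt.LG
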