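import Mathlib
import Pool.Agent.Lib.MP_6d896a_gt.LL.Defs
import Pool.Agent.Lib.MP_6d896a_gt.LG.PA1
import Pool.Agent.Lib.MP_6d896a_gt.LG.PA2
import Pool.Agent.Lib.MP_6d896a_gt.LG.PB1
import Pool.Agent.Lib.MP_6d896a_gt.LG.PD1a
import Pool.Agent.Lib.MP_6d896a_gt.LG.PD2

/-!
Project LL, piece L08: the bound of the cubic term for measures with bounded support.
-/

set_option autoImplicit false

namespace Pool.Agent.Lib.MP_6d896a_gt.LG

open MeasureTheory Filter Topology Set Matrix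
open scoped ENNReal NNReal

variable {n : ℕ} {μ ν : Measure (Eu n)} {R B T κ τ : ℝ}

/-! ### uniformly log-concave measures -/

private lemma kb_poinc (hν : IsProbabilityMeasure ν) (hR : BS R ν) (hτ : 0 < τ) (hu : ULC τ ν)
    {g : Eu n → ℝ} (hg : ContDiff ℝ 1 g) :
    Cv ν g g ≤ τ⁻¹ * ∫ x, ‖fderiv ℝ g x‖ ^ 2 ∂ν := by
  have h := ulc_poincare_of p1s hν hR hτ hu hg
  rwa [one_div] at h

private lemma kb_am (hν : IsProbabilityMeasure ν) (hR : BS R ν) (hτ : 0 < τ) (hu : ULC τ ν) :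
    (1 - τ • Am ν).PosSemidef :=
  am_le_of hν hR hτ fun _ hf => ulc_poincare_of p1s hν hR hτ hu hf

private lemma kb_quad (hν : IsProbabilityMeasure ν) (hR : BS R ν) (hτ : 0 < τ) (hu : ULC τ ν)
    (w : Fin n → ℝ) : w ⬝ᵥ (Am ν *ᵥ w) ≤ τ⁻¹ * (w ⬝ᵥ w) := by
  have h := (kb_am hν hR hτ hu).dotProduct_mulVec_nonneg w
  rw [star_trivial, sub_mulVec, one_mulVec, smul_mulVec, dotProduct_sub, dotProduct_smul,
    smul_eq_mul] at h
  rw [inv_mul_eq_div, le_div_iff₀ hτ]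
  linarith

private lemma kb_sq (hν : IsProbabilityMeasure ν) (hR : BS R ν) (hτ : 0 < τ) (hu : ULC τ ν)
    (w : Fin n → ℝ) : (Am ν *ᵥ w) ⬝ᵥ (Am ν *ᵥ w) ≤ τ⁻¹ * (w ⬝ᵥ (Am ν *ᵥ w)) := by
  have hA := Am_psd (ν := ν) hR
  have hAT := Am_transpose ν
  have hK := kb_am hν hR hτ hu
  have hKT : (1 - τ • Am ν)ᵀ = 1 - τ • Am ν := pd1_sym hK
  have h1 := pd1_conj hA hKT
  have h2 := pd1_conj hK hAT
  have h3 := h1.add (h2.smul hτ.le)
  have e : (1 - τ • Am ν) * Am ν * (1 - τ • Am ν) + τ • (Am ν * (1 - τ • Am ν) * Am ν) =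
      Am ν - τ • (Am ν * Am ν) := by
    simp only [sub_mul, mul_sub, one_mul, mul_one, smul_mul_assoc, mul_smul_comm, smul_sub,
      mul_assoc]
    abel
  rw [e] at h3
  have h4 := h3.dotProduct_mulVec_nonneg w
  rw [star_trivial, sub_mulVec, smul_mulVec, dotProduct_sub, dotProduct_smul,
    smul_eq_mul, ← mulVec_mulVec] at h4
  have h5 : w ⬝ᵥ (Am ν *ᵥ (Am ν *ᵥ w)) = (Am ν *ᵥ w) ⬝ᵥ (Am ν *ᵥ w) := by
    rw [dotProduct_mulVec, ← mulVec_transpose, hAT]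
  rw [h5] at h4
  rw [inv_mul_eq_div, le_div_iff₀ hτ]
  linarith

private lemma kb_vec (hν : IsProbabilityMeasure ν) (hR : BS R ν) (hτ : 0 < τ) (hu : ULC τ ν)
    {g : Eu n → ℝ} (hg : Continuous g) :
    ∑ i, Cv ν (fun x => x i) g ^ 2 ≤ τ⁻¹ * Cv ν g g := by
  set v : Fin n → ℝ := fun i => Cv ν (fun x => x i) g with hv
  have hgB : BM ν g := BM.cont hR hg
  have hlB : BM ν (fun x : Eu n => ∑ i, v i * x i) :=
    BM.sum _ fun i _ => (BM.coord hR i).cmul (v i)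
  have e1 : Cv ν (fun x => ∑ i, v i * x i) g = ∑ i, v i ^ 2 := by
    rw [PD2.cv_lin hν hR v hg]
    exact Finset.sum_congr rfl fun i _ => (sq (v i)).symm
  have e2 : v ⬝ᵥ v = ∑ i, v i ^ 2 := by
    unfold dotProduct
    exact Finset.sum_congr rfl fun i _ => (sq (v i)).symm
  have h1 := Cv_sq_le hlB hgB
  rw [e1, ← Am_quad hR v v] at h1
  have h2 := kb_quad hν hR hτ hu v
  rw [e2] at h2
  have h3 : 0 ≤ Cv ν g g := Cv_self_nonneg hgB
  have h0 : 0 ≤ ∑ i, v i ^ 2 := Finset.sum_nonneg fun i _ => sq_nonneg _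
  have h4 : (∑ i, v i ^ 2) ^ 2 ≤ (τ⁻¹ * Cv ν g g) * ∑ i, v i ^ 2 := by
    calc (∑ i, v i ^ 2) ^ 2 ≤ (v ⬝ᵥ (Am ν *ᵥ v)) * Cv ν g g := h1
      _ ≤ (τ⁻¹ * ∑ i, v i ^ 2) * Cv ν g g := mul_le_mul_of_nonneg_right h2 h3
      _ = _ := by ring
  show ∑ i, v i ^ 2 ≤ _
  rcases h0.eq_or_lt with h5 | h5
  · rw [← h5]
    positivity
  · rw [sq] at h4
    exact le_of_mul_le_mul_right h4 h5

/-! ### the norm of the matrix factor -/

/-- the exact bound of the matrix factor of reachable states -/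
private def Iv (κ t : ℝ) (P : Mat n) : Prop :=
  ∀ w : Fin n → ℝ, (Pᵀ *ᵥ w) ⬝ᵥ (Pᵀ *ᵥ w) ≤ ((κ + t) / κ) ^ 2 * (w ⬝ᵥ w)

private lemma Iv.init (hκ : 0 < κ) : Iv κ 0 (1 : Mat n) := by
  intro w
  rw [transpose_one, one_mulVec, add_zero, div_self hκ.ne', one_pow, one_mul]

private lemma Iv.step (h : Nm μ R B) (hκ : 0 < κ) (hu : ULC κ μ) {d t : ℝ} (ht : 0 ≤ t)
    {s : St n} (hs : Iv κ t s.2) (e : Fin n → Bool) :
    Iv κ (t + d ^ 2) (stp μ d t s e).2 := by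
  intro w
  have hp := tl_prob h t s.1
  have hR := tl_BS h t s.1
  have hul := tl_ULC h hu t s.1
  have hτ : 0 < κ + t := by linarith
  set A := Am (tl μ t s.1) with hA
  have hAT : Aᵀ = A := Am_transpose _
  rw [stp_snd, transpose_mul, transpose_add, transpose_one, transpose_smul, hAT,
    ← mulVec_mulVec]
  refine (hs _).trans ?_
  have h1 := kb_quad hp hR hτ hul w
  have h2 := kb_sq hp hR hτ hul w
  rw [← hA] at h1 h2
  have hd : 0 ≤ d ^ 2 := sq_nonneg d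
  have e1 : ((1 + d ^ 2 • A) *ᵥ w) ⬝ᵥ ((1 + d ^ 2 • A) *ᵥ w) =
      w ⬝ᵥ w + 2 * d ^ 2 * (w ⬝ᵥ (A *ᵥ w)) + (d ^ 2) ^ 2 * ((A *ᵥ w) ⬝ᵥ (A *ᵥ w)) := by
    rw [add_mulVec, one_mulVec, smul_mulVec, add_dotProduct, dotProduct_add, dotProduct_add,
      smul_dotProduct, dotProduct_smul, smul_dotProduct, dotProduct_smul,
      dotProduct_comm (A *ᵥ w) w]
    simp only [smul_eq_mul]
    ring
  have h3 : ((1 + d ^ 2 • A) *ᵥ w) ⬝ᵥ ((1 + d ^ 2 • A) *ᵥ w) ≤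
      (1 + d ^ 2 * (κ + t)⁻¹) ^ 2 * (w ⬝ᵥ w) := by
    rw [e1]
    have h4 : (A *ᵥ w) ⬝ᵥ (A *ᵥ w) ≤ (κ + t)⁻¹ * ((κ + t)⁻¹ * (w ⬝ᵥ w)) :=
      h2.trans (mul_le_mul_of_nonneg_left h1 (by positivity))
    have h5 : 2 * d ^ 2 * (w ⬝ᵥ (A *ᵥ w)) ≤ 2 * d ^ 2 * ((κ + t)⁻¹ * (w ⬝ᵥ w)) :=
      mul_le_mul_of_nonneg_left h1 (by positivity)
    have h6 := mul_le_mul_of_nonneg_left h4 (sq_nonneg (d ^ 2))
    calc _ ≤ w ⬝ᵥ w + 2 * d ^ 2 * ((κ + t)⁻¹ * (w ⬝ᵥ w)) +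
        (d ^ 2) ^ 2 * ((κ + t)⁻¹ * ((κ + t)⁻¹ * (w ⬝ᵥ w))) := by linarith
      _ = _ := by ring
  calc ((κ + t) / κ) ^ 2 * (((1 + d ^ 2 • A) *ᵥ w) ⬝ᵥ ((1 + d ^ 2 • A) *ᵥ w))
      ≤ ((κ + t) / κ) ^ 2 * ((1 + d ^ 2 * (κ + t)⁻¹) ^ 2 * (w ⬝ᵥ w)) :=
        mul_le_mul_of_nonneg_left h3 (sq_nonneg _)
    _ = ((κ + (t + d ^ 2)) / κ) ^ 2 * (w ⬝ᵥ w) := by
        rw [← mul_assoc, ← mul_pow]
        congr 2
        field_simp
        ring

private lemma kb_Ev_mono (h : Nm μ R B) (hκ : 0 < κ) (hu : ULC κ μ) (d : ℝ) (k : ℕ)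
    {F G : St n → ℝ}
    (hle : ∀ s : St n, Rg B (k * d ^ 2) s → Iv κ (k * d ^ 2) s.2 → F s ≤ G s) :
    Ev μ d k F ≤ Ev μ d k G := by
  induction k generalizing F G with
  | zero =>
    have := hle (0, 1)
    simp only [Nat.cast_zero, zero_mul] at this
    exact this (Rg.init B) (Iv.init hκ)
  | succ k ih =>
    unfold Ev
    refine ih fun s hs hi => av_mono fun e => ?_
    have h1 := Rg.step h (d := d) (by positivity) hs e
    have h3 := Iv.step h hκ hu (d := d) (by positivity) hi e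
    have h2 : ((k + 1 : ℕ) : ℝ) * d ^ 2 = k * d ^ 2 + d ^ 2 := by push_cast; ring
    refine hle _ ?_ ?_
    · rw [h2]
      exact h1
    · rw [h2]
      exact h3

private lemma kb_EE_mono (h : Nm μ R B) (hκ : 0 < κ) (hu : ULC κ μ) (hT : 0 < T)
    {F G : St n → ℝ} (hF : Bt B T F) (hG : Bt B T G)
    (hle : ∀ s : St n, Rg B T s → Iv κ T s.2 → F s ≤ G s) : EE μ T F ≤ EE μ T G := by
  refine le_of_tendsto_of_tendsto' (EE_tendsto h hT hF) (EE_tendsto h hT hG) fun N => ?_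
  refine kb_Ev_mono h hκ hu _ _ fun s hs hi => hle s ?_ ?_
  · rwa [dl_sq_mul hT.le] at hs
  · rwa [dl_sq_mul hT.le] at hi


/-! ### the inequality at one state -/

/-- the rotated coordinates -/
private noncomputable def yv (P : Mat n) (i : Fin n) (x : Eu n) : ℝ := ∑ k, P k i * x k

private lemma yv_cont (P : Mat n) (i : Fin n) : Continuous (yv P i) := by
  unfold yv; fun_prop

private lemma kb_yv (hν : IsProbabilityMeasure ν) (hR : BS R ν) (P : Mat n) (i : Fin n)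
    {g : Eu n → ℝ} (hg : Continuous g) :
    Cv ν (yv P i) g = (Pᵀ *ᵥ fun k => Cv ν (fun x => x k) g) i := by
  unfold yv
  rw [PD2.cv_lin hν hR _ hg]
  rfl

private lemma kb_Y (hν : IsProbabilityMeasure ν) (hR : BS R ν) (hκ : 0 < κ) (hT : 0 < T)
    (hu : ULC (κ + T) ν) {P : Mat n} (hP : Iv κ T P) {g : Eu n → ℝ} (hg : ContDiff ℝ 1 g) :
    ∑ i, Cv ν (yv P i) g ^ 2 ≤ (κ ^ 2)⁻¹ * ∫ x, ‖fderiv ℝ g x‖ ^ 2 ∂ν := by
  have hτ : 0 < κ + T := by linarith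
  set c : Fin n → ℝ := fun k => Cv ν (fun x => x k) g with hc
  have h1 : ∑ i, Cv ν (yv P i) g ^ 2 = (Pᵀ *ᵥ c) ⬝ᵥ (Pᵀ *ᵥ c) := by
    unfold dotProduct
    refine Finset.sum_congr rfl fun i _ => ?_
    rw [kb_yv hν hR P i hg.continuous, sq]
  have h2 := hP c
  have h3 : c ⬝ᵥ c = ∑ i, Cv ν (fun x => x i) g ^ 2 := by
    unfold dotProduct
    exact Finset.sum_congr rfl fun i _ => (sq _).symm
  have h4 := kb_vec hν hR hτ hu hg.continuous
  have h5 := kb_poinc hν hR hτ hu hg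
  rw [h1]
  refine h2.trans ?_
  rw [h3]
  calc ((κ + T) / κ) ^ 2 * ∑ i, Cv ν (fun x => x i) g ^ 2
      ≤ ((κ + T) / κ) ^ 2 * ((κ + T)⁻¹ * ((κ + T)⁻¹ * ∫ x, ‖fderiv ℝ g x‖ ^ 2 ∂ν)) := by
        refine mul_le_mul_of_nonneg_left (h4.trans ?_) (sq_nonneg _)
        exact mul_le_mul_of_nonneg_left h5 (by positivity)
    _ = _ := by field_simp

private lemma kb_yvar (hν : IsProbabilityMeasure ν) (hR : BS R ν) (hκ : 0 < κ) (hT : 0 < T)
    (hu : ULC (κ + T) ν) {P : Mat n} (hP : Iv κ T P) (i : Fin n) :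
    Cv ν (yv P i) (yv P i) ≤ n * (κ + T) / κ ^ 2 := by
  have hτ : 0 < κ + T := by linarith
  have h1 := Am_quad (ν := ν) hR (fun k => P k i) (fun k => P k i)
  have h2 := kb_quad hν hR hτ hu (fun k => P k i)
  have h3 : (fun k => P k i) ⬝ᵥ (fun k => P k i) ≤ n * ((κ + T) / κ) ^ 2 := by
    have h4 : ∀ k, P k i * P k i ≤ ((κ + T) / κ) ^ 2 := by
      intro k
      have h5 := hP (Pi.single k 1)
      rw [mulVec_single_one, single_one_dotProduct, Pi.single_eq_same, mul_one] at h5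
      refine le_trans ?_ h5
      have h6 : P k i * P k i ≤ ∑ j, P k j * P k j :=
        Finset.single_le_sum (f := fun j => P k j * P k j) (fun j _ => mul_self_nonneg _)
          (Finset.mem_univ i)
      exact h6
    calc ∑ k, P k i * P k i ≤ ∑ _k : Fin n, ((κ + T) / κ) ^ 2 :=
          Finset.sum_le_sum fun k _ => h4 k
      _ = _ := by simp
  have h7 : Cv ν (yv P i) (yv P i) = (fun k => P k i) ⬝ᵥ (Am ν *ᵥ fun k => P k i) := h1.symm
  rw [h7]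
  refine h2.trans ?_
  calc (κ + T)⁻¹ * ((fun k => P k i) ⬝ᵥ (fun k => P k i))
      ≤ (κ + T)⁻¹ * (n * ((κ + T) / κ) ^ 2) := mul_le_mul_of_nonneg_left h3 (by positivity)
    _ = _ := by field_simp

/-- centred functions -/
private noncomputable def cn (ν : Measure (Eu n)) (g : Eu n → ℝ) (x : Eu n) : ℝ :=
  g x - ∫ y, g y ∂ν

private lemma cn_cd {g : Eu n → ℝ} (hg : ContDiff ℝ 1 g) : ContDiff ℝ 1 (cn ν g) := by
  unfold cn; fun_prop

private lemma cn_fderiv {g : Eu n → ℝ} (x : Eu n) :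
    fderiv ℝ (cn ν g) x = fderiv ℝ g x := by
  unfold cn
  rw [fderiv_sub_const]

private lemma kb_var {D : ℝ} (hν : IsProbabilityMeasure ν) (hR : BS R ν) (hτ : 0 < τ)
    (hu : ULC τ ν) {g : Eu n → ℝ} (hg : ContDiff ℝ 1 g) (hD : ∀ x, ‖fderiv ℝ g x‖ ≤ D) :
    ∫ x, cn ν g x ^ 2 ∂ν ≤ τ⁻¹ * D ^ 2 := by
  have h1 := Cv_self (ν := ν) (BM.cont hR hg.continuous)
  have h2 := kb_poinc hν hR hτ hu hg
  have h3 : ∫ x, ‖fderiv ℝ g x‖ ^ 2 ∂ν ≤ D ^ 2 := by
    have h4 : ∫ x, ‖fderiv ℝ g x‖ ^ 2 ∂ν ≤ ∫ _x, D ^ 2 ∂ν := by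
      refine integral_mono (PD2.int_of_cont hν hR ((hg.continuous_fderiv one_ne_zero).norm.pow 2))
        (integrable_const _) fun x => ?_
      exact pow_le_pow_left₀ (norm_nonneg _) (hD x) 2
    simpa using h4
  have h5 : ∫ x, cn ν g x ^ 2 ∂ν = Cv ν g g := h1.symm
  rw [h5]
  exact h2.trans (mul_le_mul_of_nonneg_left h3 (by positivity))

private lemma kb_prod {D : ℝ} (hν : IsProbabilityMeasure ν) (hR : BS R ν) (hτ : 0 < τ)
    (hu : ULC τ ν) {g k : Eu n → ℝ} (hg : ContDiff ℝ 1 g) (hk : ContDiff ℝ 1 k)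
    (hDg : ∀ x, ‖fderiv ℝ g x‖ ≤ D) (hDk : ∀ x, ‖fderiv ℝ k x‖ ≤ D) :
    Cv ν (fun x => cn ν g x * cn ν k x) (fun x => cn ν g x * cn ν k x) ≤
      4 * D ^ 4 * (τ⁻¹) ^ 2 := by
  have hD0 : 0 ≤ D := (norm_nonneg _).trans (hDg 0)
  have hcg := cn_cd (ν := ν) hg
  have hck := cn_cd (ν := ν) hk
  have hpr : ContDiff ℝ 1 (fun x => cn ν g x * cn ν k x) := hcg.mul hck
  have h1 := kb_poinc hν hR hτ hu hpr
  have h2 : ∀ x, ‖fderiv ℝ (fun x => cn ν g x * cn ν k x) x‖ ^ 2 ≤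
      2 * D ^ 2 * (cn ν g x ^ 2 + cn ν k x ^ 2) := by
    intro x
    have h3 : fderiv ℝ (fun x => cn ν g x * cn ν k x) x =
        cn ν g x • fderiv ℝ k x + cn ν k x • fderiv ℝ g x := by
      have h4 := fderiv_fun_mul (hcg.differentiable one_ne_zero x)
        (hck.differentiable one_ne_zero x)
      rw [h4, cn_fderiv, cn_fderiv]
    have h5 : ‖fderiv ℝ (fun x => cn ν g x * cn ν k x) x‖ ≤
        |cn ν g x| * D + |cn ν k x| * D := by
      rw [h3]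
      refine (norm_add_le _ _).trans ?_
      rw [norm_smul, norm_smul, Real.norm_eq_abs, Real.norm_eq_abs]
      exact add_le_add (mul_le_mul_of_nonneg_left (hDk x) (abs_nonneg _))
        (mul_le_mul_of_nonneg_left (hDg x) (abs_nonneg _))
    calc ‖fderiv ℝ (fun x => cn ν g x * cn ν k x) x‖ ^ 2
        ≤ (|cn ν g x| * D + |cn ν k x| * D) ^ 2 := pow_le_pow_left₀ (norm_nonneg _) h5 2
      _ = D ^ 2 * (|cn ν g x| + |cn ν k x|) ^ 2 := by ring
      _ ≤ D ^ 2 * (2 * (|cn ν g x| ^ 2 + |cn ν k x| ^ 2)) := by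
          refine mul_le_mul_of_nonneg_left ?_ (sq_nonneg _)
          nlinarith [sq_nonneg (|cn ν g x| - |cn ν k x|)]
      _ = _ := by rw [sq_abs, sq_abs]; ring
  have hig : Integrable (fun x => cn ν g x ^ 2) ν :=
    PD2.int_of_cont hν hR (hcg.continuous.pow 2)
  have hik : Integrable (fun x => cn ν k x ^ 2) ν :=
    PD2.int_of_cont hν hR (hck.continuous.pow 2)
  have h6 : ∫ x, ‖fderiv ℝ (fun x => cn ν g x * cn ν k x) x‖ ^ 2 ∂ν ≤
      2 * D ^ 2 * (τ⁻¹ * D ^ 2 + τ⁻¹ * D ^ 2) := by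
    calc ∫ x, ‖fderiv ℝ (fun x => cn ν g x * cn ν k x) x‖ ^ 2 ∂ν
        ≤ ∫ x, 2 * D ^ 2 * (cn ν g x ^ 2 + cn ν k x ^ 2) ∂ν :=
          integral_mono (PD2.int_of_cont hν hR ((hpr.continuous_fderiv one_ne_zero).norm.pow 2))
            ((hig.add hik).const_mul _) h2
      _ = 2 * D ^ 2 * (∫ x, cn ν g x ^ 2 ∂ν + ∫ x, cn ν k x ^ 2 ∂ν) := by
          rw [integral_const_mul, integral_add hig hik]
      _ ≤ _ := by
          refine mul_le_mul_of_nonneg_left ?_ (by positivity)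
          exact add_le_add (kb_var hν hR hτ hu hg hDg) (kb_var hν hR hτ hu hk hDk)
  refine h1.trans ((mul_le_mul_of_nonneg_left h6 (by positivity)).trans (le_of_eq ?_))
  ring

private lemma kb_err {D : ℝ} (hν : IsProbabilityMeasure ν) (hR : BS R ν) (hκ : 0 < κ)
    (hT : 0 < T) (hu : ULC (κ + T) ν) {P : Mat n} (hP : Iv κ T P) (i : Fin n)
    {g k : Eu n → ℝ} (hg : ContDiff ℝ 1 g) (hk : ContDiff ℝ 1 k)
    (hDg : ∀ x, ‖fderiv ℝ g x‖ ≤ D) (hDk : ∀ x, ‖fderiv ℝ k x‖ ≤ D) :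
    |Cv ν (yv P i) (fun x => cn ν g x * cn ν k x)| ≤
      Real.sqrt (4 * n * D ^ 4 / κ ^ 2 * (κ + T)⁻¹) := by
  have hτ : 0 < κ + T := by linarith
  have hpc : Continuous (fun x => cn ν g x * cn ν k x) :=
    (cn_cd hg).continuous.mul (cn_cd hk).continuous
  apply Real.abs_le_sqrt
  refine (Cv_sq_le (BM.cont hR (yv_cont P i)) (BM.cont hR hpc)).trans ?_
  have h1 := kb_yvar hν hR hκ hT hu hP i
  have h2 := kb_prod hν hR hτ hu hg hk hDg hDk
  have h3 : 0 ≤ Cv ν (fun x => cn ν g x * cn ν k x) (fun x => cn ν g x * cn ν k x) :=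
    Cv_self_nonneg (BM.cont hR hpc)
  calc _ ≤ (n * (κ + T) / κ ^ 2) * (4 * D ^ 4 * ((κ + T)⁻¹) ^ 2) :=
        mul_le_mul h1 h2 h3 (by positivity)
    _ = _ := by field_simp

private lemma kb_split (hν : IsProbabilityMeasure ν) (hR : BS R ν) {y g k : Eu n → ℝ}
    (hy : Continuous y) (hg : Continuous g) (hk : Continuous k) :
    Cv ν y (fun x => g x * k x) = (∫ x, g x ∂ν) * Cv ν y k + (∫ x, k x ∂ν) * Cv ν y g +
      Cv ν y (fun x => cn ν g x * cn ν k x) := by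
  have hyB := BM.cont (ν := ν) hR hy
  have hgB := BM.cont (ν := ν) hR hg
  have hkB := BM.cont (ν := ν) hR hk
  have hcB : BM ν (fun x => cn ν g x * cn ν k x) := by
    have h1 : Continuous (cn ν g) := hg.sub continuous_const
    have h2 : Continuous (cn ν k) := hk.sub continuous_const
    exact BM.cont hR (h1.mul h2)
  have e : (fun x => g x * k x) = fun x => ((∫ x, g x ∂ν) * k x + (∫ x, k x ∂ν) * g x) +
      (cn ν g x * cn ν k x + (-((∫ x, g x ∂ν) * ∫ x, k x ∂ν))) := by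
    funext x
    unfold cn
    ring
  rw [e, Cv_add_right ((hkB.cmul _).add (hgB.cmul _)) (hcB.add (BM.const _)) hyB,
    Cv_add_right (hkB.cmul _) (hgB.cmul _) hyB, Cv_cmul_right, Cv_cmul_right,
    Cv_add_right hcB (BM.const _) hyB, Cv_const_right, add_zero]


private lemma kb_jensen (hν : IsProbabilityMeasure ν) (hR : BS R ν) {φ : Eu n → ℝ}
    (hφ : Continuous φ) : (∫ x, φ x ∂ν) ^ 2 ≤ ∫ x, φ x ^ 2 ∂ν := by
  have h1 := Cv_self_nonneg (ν := ν) (BM.cont hR hφ)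
  unfold Cv at h1
  have e : ∫ x, φ x ^ 2 ∂ν = ∫ x, φ x * φ x ∂ν :=
    integral_congr_ae (ae_of_all _ fun x => sq _)
  rw [e]
  nlinarith

section pt
variable {S : Fin n → Fin n → Fin n → ℝ} {f : Eu n → ℝ} {a : Fin n → ℝ} {α : ℝ}

/-- the vector field -/
private noncomputable def ph (S : Fin n → Fin n → Fin n → ℝ) (f : Eu n → ℝ) (i : Fin n)
    (x : Eu n) : ℝ := ∑ k, ∑ j, S i k j * (UC.pd k f x * UC.pd j f x)

private lemma pd_c (hf : UC.TT f) (i : Fin n) : Continuous (UC.pd i f) := (hf.pd i).continuous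

private lemma ph_cont (hf : UC.TT f) (i : Fin n) : Continuous (ph S f i) := by
  unfold ph
  refine continuous_finsetSum _ fun k _ => continuous_finsetSum _ fun j _ => ?_
  exact continuous_const.mul ((pd_c hf k).mul (pd_c hf j))

/-- the integrand of the bound -/
private noncomputable def ps (S : Fin n → Fin n → Fin n → ℝ) (f : Eu n → ℝ) (a : Fin n → ℝ)
    (α κ : ℝ) (x : Eu n) : ℝ :=
  α * ∑ i, ∑ j, (a j)⁻¹ * (∑ k, S k i j * UC.pd k f x) ^ 2 +
    (α * κ ^ 2)⁻¹ * ∑ j, ∑ l, a j * UC.pd l (UC.pd j f) x ^ 2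

private lemma sp_cont (hf : UC.TT f) (i j : Fin n) :
    Continuous fun x => ∑ k, S k i j * UC.pd k f x :=
  continuous_finsetSum _ fun k _ => continuous_const.mul (pd_c hf k)

private lemma ps_cont (hf : UC.TT f) : Continuous (ps S f a α κ) := by
  unfold ps
  refine (continuous_const.mul ?_).add (continuous_const.mul ?_)
  · refine continuous_finsetSum _ fun i _ => continuous_finsetSum _ fun j _ => ?_
    exact continuous_const.mul ((sp_cont hf i j).pow 2)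
  · refine continuous_finsetSum _ fun i _ => continuous_finsetSum _ fun j _ => ?_
    exact continuous_const.mul ((pd_c (hf.pd i) j).pow 2)

private lemma ps_int (hν : IsProbabilityMeasure ν) (hR : BS R ν) (hf : UC.TT f) :
    ∫ x, ps S f a α κ x ∂ν =
      α * ∑ i, ∑ j, (a j)⁻¹ * ∫ x, (∑ k, S k i j * UC.pd k f x) ^ 2 ∂ν +
      (α * κ ^ 2)⁻¹ * ∑ j, ∑ l, a j * ∫ x, UC.pd l (UC.pd j f) x ^ 2 ∂ν := by
  have c1 : ∀ i j, Continuous fun x => (a j)⁻¹ * (∑ k, S k i j * UC.pd k f x) ^ 2 :=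
    fun i j => continuous_const.mul ((sp_cont hf i j).pow 2)
  have c2 : ∀ j l, Continuous fun x => a j * UC.pd l (UC.pd j f) x ^ 2 :=
    fun j l => continuous_const.mul ((pd_c (hf.pd j) l).pow 2)
  have c3 : ∀ i, Continuous fun x => ∑ j, (a j)⁻¹ * (∑ k, S k i j * UC.pd k f x) ^ 2 :=
    fun i => continuous_finsetSum _ fun j _ => c1 i j
  have c4 : ∀ j, Continuous fun x => ∑ l, a j * UC.pd l (UC.pd j f) x ^ 2 :=
    fun j => continuous_finsetSum _ fun l _ => c2 j l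
  have c5 : Continuous fun x => ∑ i, ∑ j, (a j)⁻¹ * (∑ k, S k i j * UC.pd k f x) ^ 2 :=
    continuous_finsetSum _ fun i _ => c3 i
  have c6 : Continuous fun x => ∑ j, ∑ l, a j * UC.pd l (UC.pd j f) x ^ 2 :=
    continuous_finsetSum _ fun j _ => c4 j
  unfold ps
  rw [integral_add ((PD2.int_of_cont hν hR c5).const_mul _)
    ((PD2.int_of_cont hν hR c6).const_mul _), integral_const_mul, integral_const_mul,
    integral_finsetSum _ fun i _ => PD2.int_of_cont hν hR (c3 i),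
    integral_finsetSum _ fun i _ => PD2.int_of_cont hν hR (c4 i)]
  congr 2
  · refine Finset.sum_congr rfl fun i _ => ?_
    rw [integral_finsetSum _ fun j _ => PD2.int_of_cont hν hR (c1 i j)]
    exact Finset.sum_congr rfl fun j _ => integral_const_mul _ _
  · refine Finset.sum_congr rfl fun i _ => ?_
    rw [integral_finsetSum _ fun j _ => PD2.int_of_cont hν hR (c2 i j)]
    exact Finset.sum_congr rfl fun j _ => integral_const_mul _ _

/-- rearrangement of the main terms -/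
private lemma kb_sum (hS : Sym3 S) (i : Fin n) (g : Fin n → ℝ) (Y : Fin n → ℝ)
    (E : Fin n → Fin n → ℝ) :
    ∑ k, ∑ j, S i k j * (g k * Y j + g j * Y k + E k j) =
      ∑ j, 2 * (∑ k, S k i j * g k) * Y j + ∑ k, ∑ j, S i k j * E k j := by
  have h1 : ∑ k, ∑ j, S i k j * (g k * Y j + g j * Y k + E k j) =
      ∑ k, ∑ j, S i k j * (g k * Y j) + ∑ k, ∑ j, S i k j * (g j * Y k) +
        ∑ k, ∑ j, S i k j * E k j := by
    simp only [mul_add, Finset.sum_add_distrib]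
  have h2 : ∑ k, ∑ j, S i k j * (g k * Y j) = ∑ j, (∑ k, S k i j * g k) * Y j := by
    rw [Finset.sum_comm]
    refine Finset.sum_congr rfl fun j _ => ?_
    rw [Finset.sum_mul]
    refine Finset.sum_congr rfl fun k _ => ?_
    rw [(hS i k j).1]
    ring
  have h3 : ∑ k, ∑ j, S i k j * (g j * Y k) = ∑ j, (∑ k, S k i j * g k) * Y j := by
    refine Finset.sum_congr rfl fun k _ => ?_
    rw [Finset.sum_mul]
    refine Finset.sum_congr rfl fun j _ => ?_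
    rw [(hS i k j).2, (hS i j k).1]
    ring
  rw [h1, h2, h3]
  congr 1
  rw [← Finset.sum_add_distrib]
  exact Finset.sum_congr rfl fun j _ => by ring

private lemma kb_amgm {α a b y : ℝ} (hα : 0 < α) (ha : 0 < a) :
    2 * b * y ≤ α * (a⁻¹ * b ^ 2) + α⁻¹ * (a * y ^ 2) := by
  have h : 0 ≤ α * a⁻¹ * (b - a * α⁻¹ * y) ^ 2 := by positivity
  have e : α * a⁻¹ * (b - a * α⁻¹ * y) ^ 2 =
      α * (a⁻¹ * b ^ 2) + α⁻¹ * (a * y ^ 2) - 2 * b * y := by
    field_simp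
    ring
  linarith

private lemma kb_trace (hν : IsProbabilityMeasure ν) (hR : BS R ν) (P : Mat n)
    {φ : Fin n → Eu n → ℝ} (hφ : ∀ j, Continuous (φ j)) :
    (Pᵀ * Nv ν φ).trace = ∑ i, Cv ν (yv P i) (φ i) := by
  simp only [Matrix.trace, Matrix.diag, Matrix.mul_apply, Matrix.transpose_apply]
  refine Finset.sum_congr rfl fun j _ => ?_
  unfold yv
  rw [PD2.cv_lin hν hR _ (hφ j)]
  rfl

private lemma kb_point {D : ℝ} (hν : IsProbabilityMeasure ν) (hR : BS R ν) (hκ : 0 < κ)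
    (hT : 0 < T) (hu : ULC (κ + T) ν) {P : Mat n} (hP : Iv κ T P) (hS : Sym3 S)
    (hf : UC.TT f) (ha : ∀ i, 0 < a i) (hα : 0 < α)
    (hD : ∀ j x, ‖fderiv ℝ (UC.pd j f) x‖ ≤ D) :
    (Pᵀ * Nv ν (ph S f)).trace ≤ ∫ x, ps S f a α κ x ∂ν +
      (∑ i, ∑ k, ∑ j, |S i k j|) * Real.sqrt (4 * n * D ^ 4 / κ ^ 2 * (κ + T)⁻¹) := by
  set e := Real.sqrt (4 * n * D ^ 4 / κ ^ 2 * (κ + T)⁻¹) with he
  have hg1 : ∀ i, ContDiff ℝ 1 (UC.pd i f) := fun i =>
    (hf.pd i).cd.of_le (by exact_mod_cast le_top)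
  have hgc : ∀ i, Continuous (UC.pd i f) := pd_c hf
  have hgB : ∀ i j, BM ν (fun x => UC.pd i f x * UC.pd j f x) := fun i j =>
    BM.cont hR ((hgc i).mul (hgc j))
  set m : Fin n → ℝ := fun i => ∫ x, UC.pd i f x ∂ν with hm
  -- expansion
  have h1 : ∀ i, Cv ν (yv P i) (ph S f i) =
      ∑ j, 2 * (∑ k, S k i j * m k) * Cv ν (yv P i) (UC.pd j f) +
        ∑ k, ∑ j, S i k j *
          Cv ν (yv P i) (fun x => cn ν (UC.pd k f) x * cn ν (UC.pd j f) x) := by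
    intro i
    rw [← kb_sum hS i m (fun j => Cv ν (yv P i) (UC.pd j f))]
    have hyB := BM.cont (ν := ν) hR (yv_cont P i)
    have h2 : Cv ν (yv P i) (ph S f i) =
        ∑ k, ∑ j, S i k j * Cv ν (yv P i) (fun x => UC.pd k f x * UC.pd j f x) := by
      unfold ph
      rw [Cv_sum_right _ (fun k _ => BM.sum _ fun j _ => (hgB k j).cmul _) hyB]
      refine Finset.sum_congr rfl fun k _ => ?_
      rw [Cv_sum_right _ (fun j _ => (hgB k j).cmul _) hyB]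
      exact Finset.sum_congr rfl fun j _ => Cv_cmul_right _ _ _
    rw [h2]
    refine Finset.sum_congr rfl fun k _ => Finset.sum_congr rfl fun j _ => ?_
    rw [kb_split hν hR (yv_cont P i) (hgc k) (hgc j)]
  rw [kb_trace hν hR P (ph_cont hf)]
  simp only [h1]
  rw [Finset.sum_add_distrib]
  refine add_le_add ?_ ?_
  · -- the main terms
    rw [ps_int hν hR hf]
    calc ∑ i, ∑ j, 2 * (∑ k, S k i j * m k) * Cv ν (yv P i) (UC.pd j f)
        ≤ ∑ i, ∑ j, (α * ((a j)⁻¹ * ∫ x, (∑ k, S k i j * UC.pd k f x) ^ 2 ∂ν) +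
            α⁻¹ * (a j * Cv ν (yv P i) (UC.pd j f) ^ 2)) := by
          refine Finset.sum_le_sum fun i _ => Finset.sum_le_sum fun j _ => ?_
          refine (kb_amgm hα (ha j)).trans (add_le_add ?_ le_rfl)
          refine mul_le_mul_of_nonneg_left (mul_le_mul_of_nonneg_left ?_ (inv_nonneg.2 (ha j).le))
            hα.le
          have h3 : ∑ k, S k i j * m k = ∫ x, ∑ k, S k i j * UC.pd k f x ∂ν := by
            rw [integral_finsetSum _ fun k _ => (PD2.int_of_cont hν hR (hgc k)).const_mul _]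
            exact Finset.sum_congr rfl fun k _ => (integral_const_mul _ _).symm
          rw [h3]
          exact kb_jensen hν hR (sp_cont hf i j)
      _ = α * ∑ i, ∑ j, (a j)⁻¹ * ∫ x, (∑ k, S k i j * UC.pd k f x) ^ 2 ∂ν +
            α⁻¹ * ∑ j, a j * ∑ i, Cv ν (yv P i) (UC.pd j f) ^ 2 := by
          simp only [Finset.sum_add_distrib, Finset.mul_sum]
          congr 1
          exact Finset.sum_comm
      _ ≤ _ := by
          refine add_le_add le_rfl ?_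
          rw [mul_inv, mul_assoc]
          refine mul_le_mul_of_nonneg_left ?_ (inv_nonneg.2 hα.le)
          rw [Finset.mul_sum]
          refine Finset.sum_le_sum fun j _ => ?_
          have h4 := kb_Y hν hR hκ hT hu hP (hg1 j)
          have h5 : ∫ x, ‖fderiv ℝ (UC.pd j f) x‖ ^ 2 ∂ν =
              ∑ l, ∫ x, UC.pd l (UC.pd j f) x ^ 2 ∂ν := by
            have h6 : ∀ l ∈ Finset.univ, Integrable (fun x => UC.pd l (UC.pd j f) x ^ 2) ν :=
              fun l _ => PD2.int_of_cont hν hR ((pd_c (hf.pd j) l).pow 2)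
            rw [← integral_finsetSum _ h6]
            exact integral_congr_ae (ae_of_all _ fun x => UC.norm_fderiv_sq _ _)
          rw [h5] at h4
          refine (mul_le_mul_of_nonneg_left h4 (ha j).le).trans (le_of_eq ?_)
          rw [← Finset.mul_sum]
          ring
  · -- the error terms
    rw [Finset.sum_mul]
    refine Finset.sum_le_sum fun i _ => ?_
    rw [Finset.sum_mul]
    refine Finset.sum_le_sum fun k _ => ?_
    rw [Finset.sum_mul]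
    refine Finset.sum_le_sum fun j _ => ?_
    refine (le_abs_self _).trans ?_
    rw [abs_mul]
    exact mul_le_mul_of_nonneg_left
      (kb_err hν hR hκ hT hu hP i (hg1 k) (hg1 j) (hD k) (hD j)) (abs_nonneg _)

end pt

/-- the bound with finite time horizon -/
private lemma kb_T {D : ℝ} (h : Nm μ R B) (hκ : 0 < κ) (hu : ULC κ μ) (hT : 0 < T)
    {S : Fin n → Fin n → Fin n → ℝ} (hS : Sym3 S) {f : Eu n → ℝ} (hf : UC.TT f)
    {a : Fin n → ℝ} (ha : ∀ i, 0 < a i) {α : ℝ} (hα : 0 < α)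
    (hD : ∀ j x, ‖fderiv ℝ (UC.pd j f) x‖ ≤ D) :
    c3 μ S f ≤ ∫ x, ps S f a α κ x ∂μ +
      (∑ i, ∑ k, ∑ j, |S i k j|) * Real.sqrt (4 * n * D ^ 4 / κ ^ 2 * (κ + T)⁻¹) := by
  have hμ := h.pr
  set c := (∑ i, ∑ k, ∑ j, |S i k j|) * Real.sqrt (4 * n * D ^ 4 / κ ^ 2 * (κ + T)⁻¹) with hc
  obtain ⟨σ, hσ⟩ := PD2.it_PN (T := T) h (φ := ph S f) (ph_cont hf)
  obtain ⟨M, hM⟩ := PD2.bdd_of_cont h.bs (ps_cont (S := S) (a := a) (α := α) (κ := κ) hf)
  have hg := It.ev (T := T) h (ps_cont (S := S) (a := a) (α := α) (κ := κ) hf).measurable hM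
  have hE1 : EE μ T (fun s => (s.2ᵀ * Nv (tl μ T s.1) (ph S f)).trace) = c3 μ S f := by
    rw [PD2.EE_mart h hT hσ]
    simp only [tl_zero h, Matrix.transpose_one, Matrix.one_mul]
    unfold c3 Matrix.trace Matrix.diag Nv
    refine Finset.sum_congr rfl fun k _ => ?_
    unfold ph
    have hgB : ∀ i j, BM μ (fun x => UC.pd i f x * UC.pd j f x) := fun i j =>
      BM.cont h.bs ((pd_c hf i).mul (pd_c hf j))
    rw [Cv_sum_right _ (fun i _ => BM.sum _ fun j _ => (hgB i j).cmul _) (BM.coord h.bs k)]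
    refine Finset.sum_congr rfl fun i _ => ?_
    rw [Cv_sum_right _ (fun j _ => (hgB i j).cmul _) (BM.coord h.bs k)]
    exact Finset.sum_congr rfl fun j _ => Cv_cmul_right _ _ _
  have hE2 : EE μ T (fun s => ∫ x, ps S f a α κ x ∂(tl μ T s.1)) =
      ∫ x, ps S f a α κ x ∂μ := by
    rw [PD2.EE_mart h hT hg]
    simp only [tl_zero h]
  have h1 := kb_EE_mono h hκ hu hT (F := fun s => (s.2ᵀ * Nv (tl μ T s.1) (ph S f)).trace)
    (G := fun s => ∫ x, ps S f a α κ x ∂(tl μ T s.1) + c)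
    (PD2.bt_of_it hT hσ) ((PD2.bt_of_it hT hg).add (Bt.const c)) (fun s _ hi => ?_)
  · rw [hE1, EE_add h hT (PD2.bt_of_it hT hg) (Bt.const c), hE2, EE_const h hT] at h1
    exact h1
  · exact kb_point (tl_prob h T s.1) (tl_BS h T s.1) hκ hT (tl_ULC h hu T s.1) hi hS hf ha hα hD

theorem kt_bs (hμ : IsProbabilityMeasure μ) (hR : BS R μ) (hκ : 0 < κ) (hu : ULC κ μ)
    {S : Fin n → Fin n → Fin n → ℝ} (hS : Sym3 S) {f : Eu n → ℝ} (hf : UC.TT f)
    {a : Fin n → ℝ} (ha : ∀ i, 0 < a i) {α : ℝ} (hα : 0 < α) :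
    c3 μ S f ≤ α * ∑ i, ∑ j, (a j)⁻¹ * ∫ x, (∑ k, S k i j * UC.pd k f x) ^ 2 ∂μ +
      (α * κ ^ 2)⁻¹ * ∑ j, ∑ l, a j * ∫ x, UC.pd l (UC.pd j f) x ^ 2 ∂μ := by
  have hR' : BS |R| μ := hR.mono fun x hx => hx.trans (le_abs_self R)
  have h : Nm μ |R| (2 * n * |R| ^ 2) := ⟨hμ, abs_nonneg R, hR', le_rfl⟩
  -- bound of the second derivatives
  have hb : ∀ j, ∃ C, ∀ x, ‖fderiv ℝ (UC.pd j f) x‖ ≤ C := by
    intro j
    have hcd : ContDiff ℝ 1 (UC.pd j f) := (hf.pd j).cd.of_le (by exact_mod_cast le_top)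
    exact (hf.pd j).cs.fderiv ℝ |>.exists_bound_of_continuous (hcd.continuous_fderiv one_ne_zero)
  choose C hC using hb
  have hD : ∀ j x, ‖fderiv ℝ (UC.pd j f) x‖ ≤ ∑ i, |C i| := by
    intro j x
    exact (hC j x).trans ((le_abs_self _).trans
      (Finset.single_le_sum (f := fun i => |C i|) (fun i _ => abs_nonneg (C i))
        (Finset.mem_univ j)))
  set D := ∑ i, |C i| with hDdef
  rw [← ps_int hμ hR hf]
  have h1 : ∀ᶠ T : ℝ in atTop, c3 μ S f ≤ ∫ x, ps S f a α κ x ∂μ +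
      (∑ i, ∑ k, ∑ j, |S i k j|) * Real.sqrt (4 * n * D ^ 4 / κ ^ 2 * (κ + T)⁻¹) := by
    filter_upwards [eventually_gt_atTop 0] with T hT
    exact kb_T h hκ hu hT hS hf ha hα hD
  have h2 : Tendsto (fun T : ℝ => ∫ x, ps S f a α κ x ∂μ +
      (∑ i, ∑ k, ∑ j, |S i k j|) * Real.sqrt (4 * n * D ^ 4 / κ ^ 2 * (κ + T)⁻¹)) atTop
      (𝓝 (∫ x, ps S f a α κ x ∂μ +
        (∑ i, ∑ k, ∑ j, |S i k j|) * Real.sqrt (4 * n * D ^ 4 / κ ^ 2 * 0))) := by
    have h3 : Tendsto (fun T : ℝ => (κ + T)⁻¹) atTop (𝓝 0) :=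
      tendsto_inv_atTop_zero.comp (tendsto_atTop_add_const_left _ κ tendsto_id)
    exact ((h3.const_mul _).sqrt.const_mul _).const_add _
  have h4 := ge_of_tendsto h2 h1
  simpa using h4

end Pool.Agent.Lib.MP_6d896a_gt.LG
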