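import Mathlib
import Pool.Agent.Lib.MP_6d896a_gt.LL.Defs
import Pool.Agent.Lib.MP_6d896a_gt.LL.Dlc
import Pool.Agent.Lib.MP_6d896a_gt.LL.KtBs
import Pool.Agent.Lib.MP_6d896a_gt.LG.PA3a

/-!
Project LL, piece L16: the bound of the cubic term for smooth potentials.
-/

set_option autoImplicit false

namespace Pool.Agent.Lib.MP_6d896a_gt.LG

open MeasureTheory Filter Topology Set Matrix
open scoped ENNReal NNReal

variable {n : ℕ} {κ : ℝ}

private lemma ks_sym (V : Eu n → ℝ) : Sym3 (TmE V) := by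
  intro i j k
  constructor
  · unfold TmE
    congr 1
    funext x
    ring
  · unfold TmE
    congr 1
    funext x
    ring

private lemma ks_hes {V : Eu n → ℝ} {Λ c0 : ℝ} (h : SP V κ Λ c0) : HesD V (fun _ => κ) := by
  intro x v
  refine le_trans (le_of_eq ?_) (h.conv x v)
  rw [← Finset.mul_sum, EuclideanSpace.norm_sq_eq]
  simp only [Real.norm_eq_abs, sq_abs]

private lemma ks_pos {V : Eu n → ℝ} {Λ c0 : ℝ} (h : SP V κ Λ c0) :
    ∀ᶠ k : ℕ in atTop, tgt V (Metric.closedBall 0 (k : ℝ)) ≠ 0 := by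
  have hP := pa3_prob h
  have h1 : Tendsto (fun k : ℕ => tgt V (Metric.closedBall (0 : Eu n) (k : ℝ))) atTop
      (𝓝 (tgt V (⋃ k : ℕ, Metric.closedBall (0 : Eu n) (k : ℝ)))) :=
    tendsto_measure_iUnion_atTop
      (fun a b hab => Metric.closedBall_subset_closedBall (by exact_mod_cast hab))
  rw [Metric.iUnion_closedBall_nat, measure_univ] at h1
  exact (h1.eventually (lt_mem_nhds (by norm_num : (0 : ℝ≥0∞) < 1))).mono fun k hk => hk.ne'

private lemma ks_pd {f : Eu n → ℝ} (hf : UC.TT f) (i : Fin n) :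
    Continuous (UC.pd i f) ∧ HasCompactSupport (UC.pd i f) :=
  ⟨(hf.pd i).cd.continuous, (hf.pd i).cs⟩

theorem kt_sm {V : Eu n → ℝ} {Λ c0 : ℝ} (h : SP V κ Λ c0) {f : Eu n → ℝ} (hf : UC.TT f)
    {a : Fin n → ℝ} (ha : ∀ i, 0 < a i) {α : ℝ} (hα : 0 < α) :
    c3E V f ≤ α * ∑ i, ∑ j, (a j)⁻¹ * UC.Ex V (fun x => (∑ k, TmE V k i j * UC.pd k f x) ^ 2) +
      (α * κ ^ 2)⁻¹ * ∑ j, ∑ l, a j * UC.Ex V (fun x => UC.pd l (UC.pd j f) x ^ 2) := by
  have hP := pa3_prob h
  set ρ := tgt V with hρ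
  have hcs : ∀ F : Eu n → ℝ, Continuous F → HasCompactSupport F →
      Tendsto (fun k => ∫ x, F x ∂(pa3r ρ k)) atTop (𝓝 (UC.Ex V F)) := by
    intro F hF hs
    have h1 := pa3r_tendsto ρ (pa3_integrable_cs h hF hs)
    rwa [pa3_tgt_Ex h] at h1
  -- the left hand side
  have l1 : Tendsto (fun k => c3 (pa3r ρ k) (TmE V) f) atTop (𝓝 (c3E V f)) := by
    unfold c3 c3E
    refine tendsto_finsetSum _ fun k _ => tendsto_finsetSum _ fun i _ =>
      tendsto_finsetSum _ fun j _ => Tendsto.const_mul _ ?_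
    have hi := ks_pd hf i
    have hj := ks_pd hf j
    have hgc : Continuous (fun x => UC.pd i f x * UC.pd j f x) := hi.1.mul hj.1
    have hgs : HasCompactSupport (fun x => UC.pd i f x * UC.pd j f x) := hj.2.mul_left
    have h1 := pa3r_Cv ρ (pa3_coord h k) (pa3_integrable_cs h hgc hgs)
      (pa3_integrable_cs h ((by fun_prop : Continuous fun x : Eu n => x k).mul hgc) hgs.mul_left)
    refine h1.trans_eq ?_
    unfold Cv CvE
    rw [pa3_tgt_Ex h, pa3_tgt_Ex h, pa3_tgt_Ex h]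
  have l2 : Tendsto (fun k => ∑ i, ∑ j, (a j)⁻¹ *
      ∫ x, (∑ p, TmE V p i j * UC.pd p f x) ^ 2 ∂(pa3r ρ k)) atTop
      (𝓝 (∑ i, ∑ j, (a j)⁻¹ * UC.Ex V (fun x => (∑ p, TmE V p i j * UC.pd p f x) ^ 2))) := by
    refine tendsto_finsetSum _ fun i _ => tendsto_finsetSum _ fun j _ => Tendsto.const_mul _ ?_
    have hc : Continuous (fun x => ∑ p, TmE V p i j * UC.pd p f x) :=
      continuous_finsetSum _ fun p _ => continuous_const.mul (ks_pd hf p).1
    have hs : HasCompactSupport (fun x => ∑ p, TmE V p i j * UC.pd p f x) := by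
      have : ∀ S : Finset (Fin n), HasCompactSupport (fun x => ∑ p ∈ S, TmE V p i j * UC.pd p f x) := by
        intro S
        induction S using Finset.induction_on with
        | empty =>
          simp only [Finset.sum_empty]
          exact HasCompactSupport.zero
        | insert b S hb ih =>
          simp only [Finset.sum_insert hb]
          exact ((ks_pd hf b).2.mul_left (f := fun _ => TmE V b i j)).add ih
      exact this _
    refine hcs _ (hc.pow 2) ?_
    have e : (fun x => (∑ p, TmE V p i j * UC.pd p f x) ^ 2) =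
        fun x => (∑ p, TmE V p i j * UC.pd p f x) * (∑ p, TmE V p i j * UC.pd p f x) := by
      funext x; ring
    rw [e]
    exact hs.mul_left
  have l3 : Tendsto (fun k => ∑ j, ∑ l, a j * ∫ x, UC.pd l (UC.pd j f) x ^ 2 ∂(pa3r ρ k)) atTop
      (𝓝 (∑ j, ∑ l, a j * UC.Ex V (fun x => UC.pd l (UC.pd j f) x ^ 2))) := by
    refine tendsto_finsetSum _ fun j _ => tendsto_finsetSum _ fun l _ => Tendsto.const_mul _ ?_
    have hc := ks_pd (hf.pd j) l
    refine hcs _ (hc.1.pow 2) ?_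
    have e : (fun x => UC.pd l (UC.pd j f) x ^ 2) =
        fun x => UC.pd l (UC.pd j f) x * UC.pd l (UC.pd j f) x := by
      funext x; ring
    rw [e]
    exact hc.2.mul_left
  refine le_of_tendsto_of_tendsto l1 ((l2.const_mul α).add (l3.const_mul _)) ?_
  filter_upwards [ks_pos h] with k hk
  exact kt_bs (pa3r_prob ρ hk) (pa3r_BS ρ k) h.kpos (dlc_const_iff.1 (sp_dlc h (ks_hes h) hk))
    (ks_sym V) hf ha hα

end Pool.Agent.Lib.MP_6d896a_gt.LG
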