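import Mathlib
import Pool.Agent.Lib.MP_6d896a_gt.LL.Defs
import Pool.Agent.Lib.MP_6d896a_gt.LL.CvV
import Pool.Agent.Lib.MP_6d896a_gt.LG.PQ1

/-!
Project LL, piece L13: near extremal functions of the Poincare inequality with the second order
bound.
-/

set_option autoImplicit false

namespace Pool.Agent.Lib.MP_6d896a_gt.LG

open MeasureTheory Filter Topology Set Matrix
open Pool.Agent.Lib.MP_6d896a_gt.UC Pool.Agent.Lib.MP_6d896a_gt.UC.UR
open scoped ENNReal NNReal ContDiff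

variable {n : ℕ} {κ : ℝ}

/-- the real inequalities: `N` variance, `D` normalised energy, `v` the approximate resolvent -/
private lemma ne_real {N D W L2 θ ε : ℝ} (hN : 0 < N) (hθ : 0 < θ) (hθ1 : θ ≤ 1 / 10)
    (hθ2 : 20 * θ ≤ ε) (hW0 : 0 ≤ W) (hD1 : D ≤ N * (1 + θ)) (hD2 : N * (1 - 3 / 2 * θ) ≤ D)
    (hL : L2 ≤ N * (1 + 2 * θ)) (hcs : D ^ 2 ≤ W * L2) :
    0 < W ∧ D ≤ (1 + ε) * W ∧ L2 ≤ (1 + ε) * W := by
  have hDpos : 0 < D := lt_of_lt_of_le (mul_pos hN (by linarith)) hD2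
  have h1 : (N * (1 - 3 / 2 * θ)) ^ 2 ≤ W * (N * (1 + 2 * θ)) :=
    (pow_le_pow_left₀ (mul_nonneg hN.le (by linarith)) hD2 2).trans
      (hcs.trans (mul_le_mul_of_nonneg_left hL hW0))
  have h2 : N * (1 - 3 / 2 * θ) ^ 2 ≤ W * (1 + 2 * θ) := by
    have : N * (N * (1 - 3 / 2 * θ) ^ 2) ≤ N * (W * (1 + 2 * θ)) := by
      calc N * (N * (1 - 3 / 2 * θ) ^ 2) = (N * (1 - 3 / 2 * θ)) ^ 2 := by ring
        _ ≤ _ := h1
        _ = _ := by ring
    exact le_of_mul_le_mul_left this hN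
  have hW : 0 < W := by
    by_contra hc
    have hW' : W = 0 := le_antisymm (not_lt.mp hc) hW0
    rw [hW'] at h2
    have : 0 < N * (1 - 3 / 2 * θ) ^ 2 := mul_pos hN (pow_pos (by linarith) 2)
    linarith
  -- `N (1 + 2 θ) ≤ (1 + ε) W`
  have h3 : N * (1 + 2 * θ) ≤ (1 + ε) * W := by
    have h4 : (1 + 2 * θ) ^ 2 ≤ (1 + ε) * (1 - 3 / 2 * θ) ^ 2 := by
      have e1 : (1 + 2 * θ) ^ 2 ≤ (1 + 20 * θ) * (1 - 3 / 2 * θ) ^ 2 := by
        nlinarith [mul_pos hθ hθ, mul_nonneg (mul_pos hθ hθ).le (by linarith : 0 ≤ 1 / 10 - θ)]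
      exact e1.trans (mul_le_mul_of_nonneg_right (by linarith) (sq_nonneg _))
    have h5 : (N * (1 + 2 * θ)) * (1 + 2 * θ) ≤ ((1 + ε) * W) * (1 + 2 * θ) := by
      calc (N * (1 + 2 * θ)) * (1 + 2 * θ) = N * (1 + 2 * θ) ^ 2 := by ring
        _ ≤ N * ((1 + ε) * (1 - 3 / 2 * θ) ^ 2) := mul_le_mul_of_nonneg_left h4 hN.le
        _ = (1 + ε) * (N * (1 - 3 / 2 * θ) ^ 2) := by ring
        _ ≤ (1 + ε) * (W * (1 + 2 * θ)) := mul_le_mul_of_nonneg_left h2 (by linarith)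
        _ = _ := by ring
    exact le_of_mul_le_mul_right h5 (by linarith)
  refine ⟨hW, ?_, hL.trans h3⟩
  refine hD1.trans (le_trans ?_ h3)
  exact mul_le_mul_of_nonneg_left (by linarith) hN.le

/-- the case of the euclidean metric -/
private lemma near1 {V : Eu n → ℝ} {Λ c0 : ℝ} (h : SP V κ Λ c0) {c : ℝ} (hc : 0 < c)
    (hP : HP V c) (hN : ∀ c' : ℝ, c' < c → ∃ f : Eu n → ℝ, UC.TT f ∧ c' * UC.Df V f f < VarE V f)
    {ε : ℝ} (hε : 0 < ε) :
    ∃ u : Eu n → ℝ, UC.TT u ∧ 0 < VarE V u ∧ UC.Df V u u ≤ (1 + ε) / c * VarE V u ∧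
      ∑ j, UC.Df V (UC.pd j u) (UC.pd j u) ≤ (1 + ε) / c ^ 2 * VarE V u := by
  obtain ⟨θ, hθ, hθ1, hθ2⟩ : ∃ θ : ℝ, 0 < θ ∧ θ ≤ 1 / 10 ∧ 20 * θ ≤ ε := by
    refine ⟨min (1 / 10) (ε / 20), lt_min (by norm_num) (by positivity), min_le_left _ _, ?_⟩
    have := min_le_right (1 / 10 : ℝ) (ε / 20)
    linarith
  -- a nearly extremal function
  obtain ⟨f, hf, hfc⟩ := hN (c / (1 + θ)) (by
    rw [div_lt_iff₀ (by linarith)]
    nlinarith)
  have hDf := Df_nonneg V f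
  have hNpos : 0 < VarE V f := lt_of_le_of_lt (by positivity) hfc
  have hl : 0 < 1 / c := by positivity
  have hPl : HP V (1 / (1 / c)) := by rwa [one_div_one_div]
  obtain ⟨v, hv⟩ := h.resolvent hl hPl hf (η := θ * VarE V f) (by positivity)
  have heE : eE V (1 / c) f ≤ θ * VarE V f := by
    unfold eE
    have h1 : UC.Df V f f / (1 / c) = c * UC.Df V f f := by field_simp
    rw [h1]
    have h2 : c * UC.Df V f f = (1 + θ) * (c / (1 + θ) * UC.Df V f f) := by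
      field_simp
    rw [h2]
    have := mul_le_mul_of_nonneg_left hfc.le (by linarith : (0 : ℝ) ≤ 1 + θ)
    linarith
  have hD : UC.Df V v v / (1 / c) = c * UC.Df V v v := by field_simp
  have hL : UC.Ex V (fun x => LL V v x ^ 2) / (1 / c) ^ 2 =
      c ^ 2 * UC.Ex V (fun x => LL V v x ^ 2) := by field_simp
  have r2 := hv.r2
  have r3 := hv.r3
  have r7 := hv.r7
  rw [hD] at r2 r7
  rw [hL] at r3
  have sv : SqV V v := SqV.of_TT h.cont hv.tt
  have sL : SqV V (LL V v) := h.LL_sq hv.tt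
  have hW0 := h.VarE_nonneg sv
  -- Cauchy-Schwarz
  have hcs : (c * UC.Df V v v) ^ 2 ≤ VarE V v * (c ^ 2 * UC.Ex V (fun x => LL V v x ^ 2)) := by
    have h1 := h.cov_le sv sL (Ex_LL h.cd1 hv.tt)
    have h2 : UC.Ex V (fun x => v x * LL V v x) = - UC.Df V v v := by
      rw [← green h.cd1 hv.tt hv.tt]
      congr 1
      funext x
      ring
    rw [h2, abs_neg, abs_of_nonneg (Df_nonneg V v)] at h1
    have h3 := pow_le_pow_left₀ (Df_nonneg V v) h1 2
    rw [mul_pow, Real.sq_sqrt hW0, Real.sq_sqrt (Ex_nonneg fun x => sq_nonneg _)] at h3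
    calc (c * UC.Df V v v) ^ 2 = c ^ 2 * UC.Df V v v ^ 2 := by ring
      _ ≤ c ^ 2 * (VarE V v * UC.Ex V (fun x => LL V v x ^ 2)) :=
        mul_le_mul_of_nonneg_left h3 (sq_nonneg _)
      _ = _ := by ring
  obtain ⟨k1, k2, k3⟩ := ne_real (N := VarE V f) (D := c * UC.Df V v v) (W := VarE V v)
    (L2 := c ^ 2 * UC.Ex V (fun x => LL V v x ^ 2)) hNpos hθ hθ1 hθ2 hW0 (by linarith)
    (by linarith) (by linarith) hcs
  refine ⟨v, hv.tt, k1, ?_, ?_⟩
  · rw [div_mul_eq_mul_div, le_div_iff₀ hc]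
    linarith
  · rw [div_mul_eq_mul_div, le_div_iff₀ (by positivity)]
    have h1 := h.bochner hv.tt
    have h2 : 0 ≤ κ * UC.Df V v v := mul_nonneg h.kpos.le (Df_nonneg V v)
    have h3 : ∑ j, UC.Df V (UC.pd j v) (UC.pd j v) ≤ UC.Ex V (fun x => LL V v x ^ 2) := by
      linarith
    have h4 := mul_le_mul_of_nonneg_right h3 (sq_nonneg c)
    linarith

/-- the diagonal change of variables -/
private noncomputable def dgL (s : Fin n → ℝ) (hs : ∀ i, s i ≠ 0) : Eu n ≃L[ℝ] Eu n :=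
  (LinearEquiv.toContinuousLinearEquiv
    { toFun := fun x => WithLp.toLp 2 (fun i => s i * x i)
      map_add' := fun x y => by ext i; simp [mul_add]
      map_smul' := fun a x => by ext i; simp; ring
      invFun := fun x => WithLp.toLp 2 (fun i => (s i)⁻¹ * x i)
      left_inv := fun x => by
        ext i
        simp [← mul_assoc, inv_mul_cancel₀ (hs i)]
      right_inv := fun x => by
        ext i
        simp [← mul_assoc, mul_inv_cancel₀ (hs i)] } : Eu n ≃L[ℝ] Eu n)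

private lemma dgL_apply (s : Fin n → ℝ) (hs : ∀ i, s i ≠ 0) (x : Eu n) (i : Fin n) :
    dgL s hs x i = s i * x i := rfl

private lemma pd_dgL (s : Fin n → ℝ) (hs : ∀ i, s i ≠ 0) {f : Eu n → ℝ} (hf : ContDiff ℝ 1 f)
    (i : Fin n) : UC.pd i (fun y => f (dgL s hs y)) = fun y => s i * UC.pd i f (dgL s hs y) := by
  funext y
  rw [pd_comp _ hf, Finset.sum_eq_single i]
  · rw [dgL_apply]
    simp
  · intro j _ hj
    rw [dgL_apply]
    simp [hj]
  · simp

/-- near extremal functions with the second order bound -/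
theorem near_ext {V : Eu n → ℝ} {Λ c0 : ℝ} (h : SP V κ Λ c0) {r : Fin n → ℝ}
    (hr : ∀ i, 0 < r i) {c : ℝ} (hc : 0 < c)
    (hP : ∀ f : Eu n → ℝ, UC.TT f → VarE V f ≤ c * rE V r f)
    (hN : ∀ c' : ℝ, c' < c → ∃ f : Eu n → ℝ, UC.TT f ∧ c' * rE V r f < VarE V f)
    {ε : ℝ} (hε : 0 < ε) :
    ∃ u : Eu n → ℝ, UC.TT u ∧ 0 < VarE V u ∧ rE V r u ≤ (1 + ε) / c * VarE V u ∧
      rE2 V r u ≤ (1 + ε) / c ^ 2 * VarE V u := by
  have hs : ∀ i, Real.sqrt (r i) ≠ 0 := fun i => (Real.sqrt_pos.mpr (hr i)).ne'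
  set L : Eu n ≃L[ℝ] Eu n := dgL (fun i => Real.sqrt (r i)) hs with hL
  obtain ⟨κ', Λ', c0', h'⟩ := sp_cvV L h
  have htc : ∀ {f : Eu n → ℝ}, UC.TT f → ContDiff ℝ 1 f := fun hf =>
    hf.cd.of_le (by exact_mod_cast le_top)
  -- transformation of the energies
  have hE : ∀ f : Eu n → ℝ, UC.TT f →
      UC.Df (cvV V L) (fun y => f (L y)) (fun y => f (L y)) = rE V r f := by
    intro f hf
    unfold UC.Df rE
    refine Finset.sum_congr rfl fun i _ => ?_
    have h1 := pd_dgL (fun i => Real.sqrt (r i)) hs (htc hf) i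
    rw [← hL] at h1
    rw [h1, ← Ex_cvV (V := V) L (fun x => UC.pd i f x ^ 2), ← Ex_const_mul]
    congr 1
    funext y
    have := Real.mul_self_sqrt (hr i).le
    calc Real.sqrt (r i) * UC.pd i f (L y) * (Real.sqrt (r i) * UC.pd i f (L y))
        = (Real.sqrt (r i) * Real.sqrt (r i)) * UC.pd i f (L y) ^ 2 := by ring
      _ = _ := by rw [this]
  have hE2 : ∀ f : Eu n → ℝ, UC.TT f →
      ∑ j, UC.Df (cvV V L) (UC.pd j (fun y => f (L y))) (UC.pd j (fun y => f (L y))) =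
        rE2 V r f := by
    intro f hf
    unfold UC.Df rE2
    refine Finset.sum_congr rfl fun i _ => Finset.sum_congr rfl fun j _ => ?_
    have h1 := pd_dgL (fun i => Real.sqrt (r i)) hs (htc hf) i
    have h2 := pd_dgL (fun i => Real.sqrt (r i)) hs (htc (hf.pd i)) j
    rw [← hL] at h1 h2
    have h3 : UC.pd j (UC.pd i (fun y => f (L y))) = fun y =>
        Real.sqrt (r i) * (Real.sqrt (r j) * UC.pd j (UC.pd i f) (L y)) := by
      rw [h1]
      funext y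
      have hd : Differentiable ℝ (fun y => UC.pd i f (L y)) :=
        ((hf.pd i).differentiable).comp L.differentiable
      have : UC.pd j (fun y => Real.sqrt (r i) * UC.pd i f (L y)) y =
          Real.sqrt (r i) * UC.pd j (fun y => UC.pd i f (L y)) y := by
        show fderiv ℝ (fun y => Real.sqrt (r i) * UC.pd i f (L y)) y (ej j) = _
        rw [fderiv_const_mul (hd y)]
        rfl
      rw [this, h2]
    rw [h3, ← Ex_cvV (V := V) L (fun x => UC.pd j (UC.pd i f) x ^ 2), ← Ex_const_mul]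
    congr 1
    funext y
    have e1 := Real.mul_self_sqrt (hr i).le
    have e2 := Real.mul_self_sqrt (hr j).le
    calc Real.sqrt (r i) * (Real.sqrt (r j) * UC.pd j (UC.pd i f) (L y)) *
          (Real.sqrt (r i) * (Real.sqrt (r j) * UC.pd j (UC.pd i f) (L y)))
        = (Real.sqrt (r i) * Real.sqrt (r i)) * (Real.sqrt (r j) * Real.sqrt (r j)) *
          UC.pd j (UC.pd i f) (L y) ^ 2 := by ring
      _ = _ := by rw [e1, e2]
  -- every test function is of the form `f ∘ L`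
  have hback : ∀ g : Eu n → ℝ, UC.TT g → ∃ f : Eu n → ℝ, UC.TT f ∧ g = fun y => f (L y) := by
    intro g hg
    refine ⟨fun x => g (L.symm x), tt_comp L.symm hg, ?_⟩
    funext y
    show g y = g (L.symm (L y))
    rw [ContinuousLinearEquiv.symm_apply_apply]
  have hP' : HP (cvV V L) c := by
    intro g hg
    obtain ⟨f, hf, rfl⟩ := hback g hg
    have h1 := hP f hf
    rw [← hE f hf, ← varE_cvV L f] at h1
    exact h1
  have hN' : ∀ c' : ℝ, c' < c → ∃ f : Eu n → ℝ, UC.TT f ∧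
      c' * UC.Df (cvV V L) f f < VarE (cvV V L) f := by
    intro c' hc'
    obtain ⟨f, hf, hlt⟩ := hN c' hc'
    refine ⟨fun y => f (L y), tt_comp L hf, ?_⟩
    rw [hE f hf, varE_cvV L f]
    exact hlt
  obtain ⟨g, hg, g1, g2, g3⟩ := near1 h' hc hP' hN' hε
  obtain ⟨u, hu, rfl⟩ := hback g hg
  rw [varE_cvV L u] at g1 g2 g3
  rw [hE u hu] at g2
  rw [hE2 u hu] at g3
  exact ⟨u, hu, g1, g2, g3⟩

end Pool.Agent.Lib.MP_6d896a_gt.LG
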