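import Mathlib
import Pool.Agent.Lib.MP_6d896a_gt.LL.Defs
import Pool.Agent.Lib.MP_6d896a_gt.LL.Dlc
import Pool.Agent.Lib.MP_6d896a_gt.LL.Alpha
import Pool.Agent.Lib.MP_6d896a_gt.LL.Beta
import Pool.Agent.Lib.MP_6d896a_gt.LG.Deriv
import Pool.Agent.Lib.MP_6d896a_gt.LG.PD2
import Pool.Agent.Lib.MP_6d896a_gt.UC.Basic

/-!
Project LL, piece L07: one step for measures with bounded support.
-/

set_option autoImplicit false

namespace Pool.Agent.Lib.MP_6d896a_gt.LG

open MeasureTheory Filter Topology Set Matrix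
open scoped ENNReal NNReal

variable {n : ℕ} {μ ν : Measure (Eu n)} {R B T κ : ℝ}

open PD2

private lemma ob_cont {f : Eu n → ℝ} (hf : UC.TT f) (i j : Fin n) :
    Continuous fun x => UC.pd i f x * UC.pd j f x :=
  (UC.TT.continuous (UC.TT.pd hf i)).mul (UC.TT.continuous (UC.TT.pd hf j))

/-- the process `A_ij * ∫ g_i g_j` -/
private lemma ob_it (h : Nm μ R B) {f : Eu n → ℝ} (hf : UC.TT f) (i j : Fin n) :
    ∃ σ, It μ B T (fun t s => Am (tl μ t s.1) i j * ∫ x, UC.pd i f x * UC.pd j f x ∂(tl μ t s.1))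
      (fun t s => -((Am (tl μ t s.1) * Am (tl μ t s.1)) i j) *
          (∫ x, UC.pd i f x * UC.pd j f x ∂(tl μ t s.1)) +
        ∑ k, Hm (tl μ t s.1) k i j *
          Cv (tl μ t s.1) (fun x => x k) (fun x => UC.pd i f x * UC.pd j f x)) σ := by
  obtain ⟨M, hM⟩ := bdd_of_cont h.bs (ob_cont hf i j)
  have h1 := It.ev (T := T) h (ob_cont hf i j).measurable hM
  have h2 := MIt.A (T := T) h i j
  refine ⟨_, It.congr h (It.mul h h2 h1) (fun _ _ _ _ _ => rfl) (fun t s _ _ _ => ?_)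
    (fun _ _ _ _ _ => rfl)⟩
  simp only [Matrix.neg_apply]
  ring

/-- `Σ (A²)_ij ∫ g_i g_j ≥ 0` -/
private lemma ob_psd (hν : IsProbabilityMeasure ν) (hR : BS R ν) {f : Eu n → ℝ} (hf : UC.TT f) :
    0 ≤ ∑ i, ∑ j, (Am ν * Am ν) i j * ∫ x, UC.pd i f x * UC.pd j f x ∂ν := by
  have hi : ∀ i j, Integrable (fun x : Eu n => UC.pd i f x * UC.pd j f x) ν := fun i j =>
    int_of_cont hν hR (ob_cont hf i j)
  have e : ∑ i, ∑ j, (Am ν * Am ν) i j * ∫ x, UC.pd i f x * UC.pd j f x ∂ν =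
      ∫ x, ∑ k, (∑ i, Am ν k i * UC.pd i f x) ^ 2 ∂ν := by
    obtain ⟨c, hc⟩ : ∃ c : Fin n → Fin n → ℝ, ∀ i j, (Am ν * Am ν) i j = c i j := ⟨_, fun _ _ => rfl⟩
    have e1 : ∀ x : Eu n, ∑ k, (∑ i, Am ν k i * UC.pd i f x) ^ 2 =
        ∑ i, ∑ j, c i j * (UC.pd i f x * UC.pd j f x) := by
      intro x
      have e2 : ∀ k, (∑ i, Am ν k i * UC.pd i f x) ^ 2 =
          ∑ i, ∑ j, Am ν k i * Am ν k j * (UC.pd i f x * UC.pd j f x) := by
        intro k
        rw [sq, Finset.sum_mul_sum]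
        refine Finset.sum_congr rfl fun i _ => Finset.sum_congr rfl fun j _ => ?_
        ring
      simp only [e2]
      rw [Finset.sum_comm]
      refine Finset.sum_congr rfl fun i _ => ?_
      rw [Finset.sum_comm]
      refine Finset.sum_congr rfl fun j _ => ?_
      rw [← hc, Matrix.mul_apply, Finset.sum_mul]
      refine Finset.sum_congr rfl fun k _ => ?_
      rw [Am_symm ν i k]
    simp only [e1, hc]
    rw [integral_finsetSum _ fun i _ => integrable_finsetSum _ fun j _ => (hi i j).const_mul _]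
    refine Finset.sum_congr rfl fun i _ => ?_
    rw [integral_finsetSum _ fun j _ => (hi i j).const_mul _]
    refine Finset.sum_congr rfl fun j _ => ?_
    rw [integral_const_mul]
  rw [e]
  exact integral_nonneg fun x => Finset.sum_nonneg fun k _ => sq_nonneg _

private lemma ob_gE (M : ℝ) (d : Fin n → ℝ) (f : Eu n → ℝ) :
    gE ν (M • Am ν + Matrix.diagonal d) f =
      M * (∑ i, ∑ j, Am ν i j * ∫ x, UC.pd i f x * UC.pd j f x ∂ν) +
        ∑ i, d i * ∫ x, UC.pd i f x * UC.pd i f x ∂ν := by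
  unfold gE
  simp only [Matrix.add_apply, Matrix.smul_apply, smul_eq_mul, add_mul, Finset.sum_add_distrib,
    Matrix.diagonal_apply, ite_mul, zero_mul, Finset.sum_ite_eq, Finset.mem_univ, if_true,
    Finset.mul_sum, mul_assoc]

/-- the cubic term is bounded -/
private lemma ob_bd (h : Nm μ R B) {f : Eu n → ℝ} (hf : UC.TT f) :
    Bd B T (fun t (s : St n) => c3 (tl μ t s.1) (fun k i j => Hm (tl μ t s.1) k i j) f) := by
  unfold c3
  refine Bd.sum _ fun k _ => Bd.sum _ fun i _ => Bd.sum _ fun j _ => Bd.mul ?_ ?_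
  · exact It.bs (MIt.A (T := T) h i j) k
  · obtain ⟨M, hM⟩ := bdd_of_cont h.bs (ob_cont hf i j)
    exact It.bs (It.ev (T := T) h (ob_cont hf i j).measurable hM) k

private lemma ob_gsq_nonneg (f : Eu n → ℝ) (x : Eu n) : 0 ≤ gsq f x :=
  Finset.sum_nonneg fun _ _ => sq_nonneg _

theorem os_bs (n : ℕ) (hκ : 0 < κ) : ∃ C : ℝ, 0 ≤ C ∧ ∀ (t s M K : ℝ), 0 < t → 0 < s → s ≤ 1 →
    0 ≤ M → 0 ≤ K → PK n (t + s) M K →
    ∀ (μ : Measure (Eu n)) (R : ℝ) (q : Fin n → ℝ), IsProbabilityMeasure μ → BS R μ →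
      (∀ i, κ ≤ q i) → DLC q μ → ∀ f : Eu n → ℝ, UC.TT f →
      Cv μ f f ≤ s * ∑ k, Cv μ (fun x => x k) f ^ 2 + C * s ^ 2 * Cv μ f f +
        K * (gE μ (M • Am μ + Matrix.diagonal fun i => (t + s) / (q i + s)) f +
          M * (s * c3 μ (fun k i j => Hm μ k i j) f +
            C * s ^ 2 * (∫ x, gsq f x ∂μ + Zt μ (gsq f)))) := by
  obtain ⟨Ca, hCa, ha⟩ := alpha (κ := κ) n hκ
  obtain ⟨Cb, hCb, hb⟩ := beta (κ := κ) n hκ
  refine ⟨Ca + Cb, by positivity, fun t s M K ht hs hs1 hM hK hPK μ R q hμ hR hq hD f hf => ?_⟩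
  have hR0 : 0 ≤ R := by
    obtain ⟨x, hx⟩ := hR.exists
    exact (norm_nonneg x).trans hx
  have h : Nm μ R (2 * n * R ^ 2) := ⟨hμ, hR0, hR, le_rfl⟩
  have hu : ULC κ μ := DLC.ulc hq hD
  have hfc : Continuous f := UC.TT.continuous hf
  obtain ⟨M1, hM1⟩ := bdd_of_cont hR hfc
  -- the variance
  obtain ⟨σ1, hV⟩ := It.var (T := s) h hfc.measurable hM1
  have hV1 := dynkin h hs hV
  simp only [tl_zero h] at hV1
  have hVb := It.bb hV
  have hJV : JJ μ s (fun t s => - ∑ k, Cv (tl μ t s.1) (fun x => x k) f ^ 2) =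
      - JJ μ s (fun t s => ∑ k, Cv (tl μ t s.1) (fun x => x k) f ^ 2) := by
    have hb2 : Bd (2 * n * R ^ 2) s (fun t (s : St n) => ∑ k, Cv (tl μ t s.1) (fun x => x k) f ^ 2) := by
      have := hVb.neg
      simpa using this
    have := JJ_cmul h hs hb2 (-1)
    simp only [neg_mul, one_mul] at this
    exact this
  rw [hJV] at hV1
  have ha1 := ha μ R _ s h hu hs hs1 f hfc
  -- the energy
  have hg : ∀ i j, ∃ σ, It μ (2 * n * R ^ 2) s
      (fun t s => Am (tl μ t s.1) i j * ∫ x, UC.pd i f x * UC.pd j f x ∂(tl μ t s.1))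
      (fun t s => -((Am (tl μ t s.1) * Am (tl μ t s.1)) i j) *
          (∫ x, UC.pd i f x * UC.pd j f x ∂(tl μ t s.1)) +
        ∑ k, Hm (tl μ t s.1) k i j *
          Cv (tl μ t s.1) (fun x => x k) (fun x => UC.pd i f x * UC.pd j f x)) σ :=
    fun i j => ob_it h hf i j
  choose σg hg using hg
  have hG := It.sum h Finset.univ fun i (_ : i ∈ Finset.univ) => It.sum h Finset.univ
    fun j (_ : j ∈ Finset.univ) => hg i j
  have hG1 := dynkin h hs hG
  simp only [tl_zero h] at hG1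
  have hG2 : JJ μ s (fun t s => ∑ i, ∑ j, (-((Am (tl μ t s.1) * Am (tl μ t s.1)) i j) *
          (∫ x, UC.pd i f x * UC.pd j f x ∂(tl μ t s.1)) +
        ∑ k, Hm (tl μ t s.1) k i j *
          Cv (tl μ t s.1) (fun x => x k) (fun x => UC.pd i f x * UC.pd j f x))) ≤
      JJ μ s (fun t s => c3 (tl μ t s.1) (fun k i j => Hm (tl μ t s.1) k i j) f) := by
    refine JJ_mono h hs (It.bb hG) (ob_bd h hf) fun t' s' h1 h2 h3 => ?_
    have hp := tl_prob h t' s'.1
    have hb' := tl_BS h t' s'.1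
    have h4 := ob_psd hp hb' hf
    unfold c3
    have e1 : ∑ k, ∑ i, ∑ j, Hm (tl μ t' s'.1) k i j *
        Cv (tl μ t' s'.1) (fun x => x k) (fun x => UC.pd i f x * UC.pd j f x) =
        ∑ i, ∑ j, ∑ k, Hm (tl μ t' s'.1) k i j *
        Cv (tl μ t' s'.1) (fun x => x k) (fun x => UC.pd i f x * UC.pd j f x) := by
      rw [Finset.sum_comm]
      refine Finset.sum_congr rfl fun i _ => ?_
      rw [Finset.sum_comm]
    rw [e1]
    simp only [neg_mul, Finset.sum_add_distrib, Finset.sum_neg_distrib]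
    linarith
  have hb1 := hb μ R _ s h hu hs hs1 f hf
  -- the energy of the diagonal part
  have hdg : ∀ i, It μ (2 * n * R ^ 2) s
      (fun t s => ∫ x, UC.pd i f x * UC.pd i f x ∂(tl μ t s.1)) (fun _ _ => 0)
      (fun t s k => Cv (tl μ t s.1) (fun x => x k) (fun x => UC.pd i f x * UC.pd i f x)) := by
    intro i
    obtain ⟨M2, hM2⟩ := bdd_of_cont hR (ob_cont hf i i)
    exact It.ev (T := s) h (ob_cont hf i i).measurable hM2
  have hDg := It.sum h Finset.univ fun i (_ : i ∈ Finset.univ) =>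
    It.cmul h (hdg i) ((t + s) / (q i + s))
  have hE := It.cmul h (It.add h (It.cmul h hG M) hDg) K
  have hmono := EE_mono h hs (F := fun s' => Cv (tl μ s s'.1) f f)
    (G := fun s' => K * (M * (∑ i, ∑ j, Am (tl μ s s'.1) i j *
        ∫ x, UC.pd i f x * UC.pd j f x ∂(tl μ s s'.1)) +
        ∑ i, (t + s) / (q i + s) * ∫ x, UC.pd i f x * UC.pd i f x ∂(tl μ s s'.1)))
    (bt_of_it hs hV) (bt_of_it hs hE) (fun s' _ => by
      have hp := tl_prob h s s'.1
      have hb' := tl_BS h s s'.1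
      have h1 := hPK (tl μ s s'.1) R (fun i => q i + s) hp hb'
        (fun i => by have := hq i; linarith) (tl_DLC h hD s s'.1) f hf
      rw [ob_gE] at h1
      exact h1)
  rw [EE_cmul h hs (bt_of_it hs (It.add h (It.cmul h hG M) hDg)),
    EE_add h hs (bt_of_it hs (It.cmul h hG M)) (bt_of_it hs hDg),
    EE_cmul h hs (bt_of_it hs hG), hV1, hG1] at hmono
  have hDg1 : EE μ s (fun s' => ∑ i, (t + s) / (q i + s) *
      ∫ x, UC.pd i f x * UC.pd i f x ∂(tl μ s s'.1)) =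
      ∑ i, (t + s) / (q i + s) * ∫ x, UC.pd i f x * UC.pd i f x ∂μ := by
    have h1 := dynkin h hs hDg
    simp only [tl_zero h, mul_zero, Finset.sum_const_zero] at h1
    rw [JJ_const h hs, mul_zero, add_zero] at h1
    exact h1
  rw [hDg1] at hmono
  have hcv : 0 ≤ Cv μ f f := Cv_self_nonneg (BM.cont hR hfc)
  have hg0 : 0 ≤ ∫ x, gsq f x ∂μ := integral_nonneg fun x => ob_gsq_nonneg f x
  have hz0 : 0 ≤ Zt μ (gsq f) := Finset.sum_nonneg fun k _ => integral_nonneg fun x =>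
    mul_nonneg (sq_nonneg _) (ob_gsq_nonneg f x)
  rw [ob_gE]
  set E1 := ∑ i, ∑ j, Am μ i j * ∫ x, UC.pd i f x * UC.pd j f x ∂μ with hE1
  set E2 := ∑ i, (t + s) / (q i + s) * ∫ x, UC.pd i f x * UC.pd i f x ∂μ with hE2
  set c := c3 μ (fun k i j => Hm μ k i j) f with hc
  set Wm := ∑ k, Cv μ (fun x => x k) f ^ 2 with hWm
  have h5 := mul_le_mul_of_nonneg_left (mul_le_mul_of_nonneg_left (hG2.trans hb1) hM) hK
  have h6 : 0 ≤ K * (M * (Ca * s ^ 2 * (∫ x, gsq f x ∂μ + Zt μ (gsq f)))) := by positivity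
  have h7 : 0 ≤ Cb * s ^ 2 * Cv μ f f := by positivity
  nlinarith

end Pool.Agent.Lib.MP_6d896a_gt.LG
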