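import Mathlib
import Pool.Agent.Lib.MP_6d896a_gt.LL.Dlc

/-!
Project LL, piece L15: the one step inequality for smooth potentials.
-/

set_option autoImplicit false

namespace Pool.Agent.Lib.MP_6d896a_gt.LG

open MeasureTheory Filter Topology Set Matrix
open scoped ENNReal NNReal

variable {n : ℕ} {μ ν : Measure (Eu n)} {R B T κ : ℝ}

/-! ### expansion of centred moments -/

private lemma l15_ia {f g : Eu n → ℝ} (hf : Integrable f ν) (hg : Integrable g ν) :
    Integrable (fun x => f x + g x) ν := hf.add hg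

private lemma l15_is {f g : Eu n → ℝ} (hf : Integrable f ν) (hg : Integrable g ν) :
    Integrable (fun x => f x - g x) ν := hf.sub hg

private lemma l15_ex3 [IsFiniteMeasure ν] (c : Eu n) (k i j : Fin n)
    (i3 : Integrable (fun x : Eu n => x k * (x i * x j)) ν)
    (i2 : ∀ a b : Fin n, Integrable (fun x : Eu n => x a * x b) ν)
    (i1 : ∀ a : Fin n, Integrable (fun x : Eu n => x a) ν) :
    ∫ x, (x k - c k) * ((x i - c i) * (x j - c j)) ∂ν =
      ∫ x, x k * (x i * x j) ∂ν - c k * (∫ x, x i * x j ∂ν) - c i * (∫ x, x k * x j ∂ν) -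
        c j * (∫ x, x k * x i ∂ν) + (c k * c i * (∫ x, x j ∂ν) + (c k * c j * (∫ x, x i ∂ν) +
        (c i * c j * (∫ x, x k ∂ν) - c k * c i * c j * ∫ _x, (1 : ℝ) ∂ν))) := by
  have e : ∀ x : Eu n, (x k - c k) * ((x i - c i) * (x j - c j)) =
      (((x k * (x i * x j) - c k * (x i * x j)) - c i * (x k * x j)) - c j * (x k * x i)) +
        (c k * c i * x j + (c k * c j * x i + (c i * c j * x k - c k * c i * c j * 1))) :=
    fun x => by ring
  simp only [e]
  have a1 : Integrable (fun x : Eu n => c k * (x i * x j)) ν := (i2 i j).const_mul _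
  have a2 : Integrable (fun x : Eu n => c i * (x k * x j)) ν := (i2 k j).const_mul _
  have a3 : Integrable (fun x : Eu n => c j * (x k * x i)) ν := (i2 k i).const_mul _
  have a4 : Integrable (fun x : Eu n => c k * c i * x j) ν := (i1 j).const_mul _
  have a5 : Integrable (fun x : Eu n => c k * c j * x i) ν := (i1 i).const_mul _
  have a6 : Integrable (fun x : Eu n => c i * c j * x k) ν := (i1 k).const_mul _
  have a7 : Integrable (fun _ : Eu n => c k * c i * c j * (1 : ℝ)) ν := integrable_const _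
  have s1 := l15_is i3 a1
  have s2 := l15_is s1 a2
  have s3 := l15_is s2 a3
  have s4 := l15_is a6 a7
  have s5 := l15_ia a5 s4
  have s6 := l15_ia a4 s5
  rw [integral_add s3 s6, integral_sub s2 a3, integral_sub s1 a2, integral_sub i3 a1,
    integral_add a4 s5, integral_add a5 s4, integral_sub a6 a7]
  simp only [integral_const_mul]

private lemma l15_ex2 (c : ℝ) (k : Fin n) {ψ : Eu n → ℝ}
    (i2 : Integrable (fun x : Eu n => x k * (x k * ψ x)) ν)
    (i1 : Integrable (fun x : Eu n => x k * ψ x) ν) (i0 : Integrable ψ ν) :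
    ∫ x, (x k - c) ^ 2 * ψ x ∂ν =
      ∫ x, x k * (x k * ψ x) ∂ν - 2 * c * (∫ x, x k * ψ x ∂ν) + c ^ 2 * ∫ x, ψ x ∂ν := by
  have e : ∀ x : Eu n, (x k - c) ^ 2 * ψ x =
      (x k * (x k * ψ x) - 2 * c * (x k * ψ x)) + c ^ 2 * ψ x := fun x => by ring
  simp only [e]
  have a1 : Integrable (fun x : Eu n => 2 * c * (x k * ψ x)) ν := i1.const_mul _
  have a0 : Integrable (fun x : Eu n => c ^ 2 * ψ x) ν := i0.const_mul _
  have s1 := l15_is i2 a1
  rw [integral_add s1 a0, integral_sub i2 a1]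
  simp only [integral_const_mul]

/-! ### limits -/

section lims
variable {V : Eu n → ℝ} {Λ c0 : ℝ}

private lemma l15_int3 (h : SP V κ Λ c0) (k i j : Fin n) :
    Integrable (fun x : Eu n => x k * (x i * x j)) (tgt V) := by
  refine pa3_integrable h (by fun_prop) (C := 1) fun x => ?_
  have h1 := coord_le x k
  have h2 := coord_le x i
  have h3 := coord_le x j
  have h0 := norm_nonneg x
  have h4 : (1 + ‖x‖) ^ 3 ≤ (1 + ‖x‖) ^ 4 := pow_le_pow_right₀ (by linarith) (by norm_num)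
  have h5 : |x k * (x i * x j)| ≤ ‖x‖ * (‖x‖ * ‖x‖) := by
    rw [abs_mul, abs_mul]
    exact mul_le_mul h1 (mul_le_mul h2 h3 (abs_nonneg _) h0) (by positivity) h0
  have h6 : ‖x‖ * (‖x‖ * ‖x‖) ≤ (1 + ‖x‖) ^ 3 := by
    have : ‖x‖ * (‖x‖ * ‖x‖) = ‖x‖ ^ 3 := by ring
    rw [this]
    exact pow_le_pow_left₀ h0 (by linarith) 3
  linarith

private lemma l15_pos (h : SP V κ Λ c0) :
    ∀ᶠ k : ℕ in atTop, tgt V (Metric.closedBall 0 (k : ℝ)) ≠ 0 := by
  have hP := pa3_prob h
  have h1 : Tendsto (fun k : ℕ => tgt V (Metric.closedBall (0 : Eu n) (k : ℝ))) atTop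
      (𝓝 (tgt V (⋃ k : ℕ, Metric.closedBall (0 : Eu n) (k : ℝ)))) :=
    tendsto_measure_iUnion_atTop
      (fun a b hab => Metric.closedBall_subset_closedBall (by exact_mod_cast hab))
  rw [Metric.iUnion_closedBall_nat, measure_univ] at h1
  exact (h1.eventually (lt_mem_nhds (by norm_num : (0 : ℝ≥0∞) < 1))).mono fun k hk => hk.ne'

private lemma l15_mn (h : SP V κ Λ c0) (i : Fin n) :
    Tendsto (fun N => mn (pa3r (tgt V) N) i) atTop (𝓝 (mn (tgt V) i)) := by
  have hP := pa3_prob h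
  exact pa3r_tendsto (tgt V) (pa3_coord h i)

private lemma l15_Am (h : SP V κ Λ c0) (i j : Fin n) :
    Tendsto (fun N => Am (pa3r (tgt V) N) i j) atTop (𝓝 (Am (tgt V) i j)) := by
  have hP := pa3_prob h
  exact pa3r_Cv (tgt V) (pa3_coord h i) (pa3_coord h j) (pa3_coord2 h i j)

private lemma l15_Hm (h : SP V κ Λ c0) (k i j : Fin n) :
    Tendsto (fun N => Hm (pa3r (tgt V) N) k i j) atTop (𝓝 (Hm (tgt V) k i j)) := by
  have hP := pa3_prob h
  have m := fun a => l15_mn h a
  have r3 := pa3r_tendsto (tgt V) (l15_int3 h k i j)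
  have r2 := fun a b => pa3r_tendsto (tgt V) (pa3_coord2 h a b)
  have r1 := fun a => pa3r_tendsto (tgt V) (pa3_coord h a)
  have r0 := pa3r_tendsto (tgt V) (integrable_const (1 : ℝ))
  have key : Tendsto (fun N => ∫ x, x k * (x i * x j) ∂(pa3r (tgt V) N) -
      mn (pa3r (tgt V) N) k * (∫ x, x i * x j ∂(pa3r (tgt V) N)) -
      mn (pa3r (tgt V) N) i * (∫ x, x k * x j ∂(pa3r (tgt V) N)) -
      mn (pa3r (tgt V) N) j * (∫ x, x k * x i ∂(pa3r (tgt V) N)) +
      (mn (pa3r (tgt V) N) k * mn (pa3r (tgt V) N) i * (∫ x, x j ∂(pa3r (tgt V) N)) +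
      (mn (pa3r (tgt V) N) k * mn (pa3r (tgt V) N) j * (∫ x, x i ∂(pa3r (tgt V) N)) +
      (mn (pa3r (tgt V) N) i * mn (pa3r (tgt V) N) j * (∫ x, x k ∂(pa3r (tgt V) N)) -
      mn (pa3r (tgt V) N) k * mn (pa3r (tgt V) N) i * mn (pa3r (tgt V) N) j *
        ∫ _x, (1 : ℝ) ∂(pa3r (tgt V) N))))) atTop (𝓝 (Hm (tgt V) k i j)) := by
    have e : Hm (tgt V) k i j = _ := l15_ex3 (ν := tgt V) (mn (tgt V)) k i j
      (l15_int3 h k i j) (pa3_coord2 h) (pa3_coord h)
    rw [e]
    exact (((r3.sub ((m k).mul (r2 i j))).sub ((m i).mul (r2 k j))).sub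
      ((m j).mul (r2 k i))).add ((((m k).mul (m i)).mul (r1 j)).add
      ((((m k).mul (m j)).mul (r1 i)).add ((((m i).mul (m j)).mul (r1 k)).sub
      ((((m k).mul (m i)).mul (m j)).mul r0))))
  refine key.congr' ?_
  filter_upwards [l15_pos h] with N hN
  have hp := pa3r_prob (tgt V) hN
  have hB := pa3r_BS (tgt V) N
  have b1 : ∀ a, BM (pa3r (tgt V) N) fun x : Eu n => x a := fun a => BM.coord hB a
  exact (l15_ex3 (ν := pa3r (tgt V) N) (mn (pa3r (tgt V) N)) k i j
    ((b1 k).mul ((b1 i).mul (b1 j))).int (fun a b => ((b1 a).mul (b1 b)).int)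
    (fun a => (b1 a).int)).symm

private lemma l15_Zt (h : SP V κ Λ c0) {ψ : Eu n → ℝ} (hc : Continuous ψ)
    (hs : HasCompactSupport ψ) :
    Tendsto (fun N => Zt (pa3r (tgt V) N) ψ) atTop (𝓝 (Zt (tgt V) ψ)) := by
  have hP := pa3_prob h
  have i0 : Integrable ψ (tgt V) := pa3_integrable_cs h hc hs
  have c1 : ∀ k : Fin n, Continuous fun x : Eu n => x k * ψ x := fun k =>
    (by fun_prop : Continuous fun x : Eu n => x k).mul hc
  have s1 : ∀ k : Fin n, HasCompactSupport fun x : Eu n => x k * ψ x := fun k => hs.mul_left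
  have i1 : ∀ k : Fin n, Integrable (fun x : Eu n => x k * ψ x) (tgt V) := fun k =>
    pa3_integrable_cs h (c1 k) (s1 k)
  have i2 : ∀ k : Fin n, Integrable (fun x : Eu n => x k * (x k * ψ x)) (tgt V) := fun k =>
    pa3_integrable_cs h ((by fun_prop : Continuous fun x : Eu n => x k).mul (c1 k))
      (s1 k).mul_left
  unfold Zt
  refine tendsto_finsetSum _ fun k _ => ?_
  have m := l15_mn h k
  have r2 := pa3r_tendsto (tgt V) (i2 k)
  have r1 := pa3r_tendsto (tgt V) (i1 k)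
  have r0 := pa3r_tendsto (tgt V) i0
  rw [l15_ex2 (mn (tgt V) k) k (i2 k) (i1 k) i0]
  refine ((r2.sub ((m.const_mul 2).mul r1)).add ((m.pow 2).mul r0)).congr' ?_
  filter_upwards [l15_pos h] with N hN
  have hp := pa3r_prob (tgt V) hN
  have hB := pa3r_BS (tgt V) N
  have b1 : BM (pa3r (tgt V) N) fun x : Eu n => x k := BM.coord hB k
  have b0 : BM (pa3r (tgt V) N) ψ := BM.cont hB hc
  exact (l15_ex2 (mn (pa3r (tgt V) N) k) k (b1.mul (b1.mul b0)).int (b1.mul b0).int
    b0.int).symm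

/-! ### the limit objects -/

private lemma l15_CvE (h : SP V κ Λ c0) (f g : Eu n → ℝ) : Cv (tgt V) f g = CvE V f g := by
  unfold Cv CvE
  rw [pa3_tgt_Ex h, pa3_tgt_Ex h, pa3_tgt_Ex h]

private lemma l15_TmE (h : SP V κ Λ c0) (k i j : Fin n) : Hm (tgt V) k i j = TmE V k i j := by
  have hm : ∀ a, mn (tgt V) a = UC.Ex V (fun y => y a) := fun a =>
    pa3_tgt_Ex h (fun y => y a)
  unfold Hm TmE xc
  simp only [hm]
  rw [pa3_tgt_Ex h]

private lemma l15_ZtE (h : SP V κ Λ c0) (ψ : Eu n → ℝ) :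
    Zt (tgt V) ψ = ∑ k, UC.Ex V (fun x => xc V k x ^ 2 * ψ x) := by
  have hm : ∀ a, mn (tgt V) a = UC.Ex V (fun y => y a) := fun a =>
    pa3_tgt_Ex h (fun y => y a)
  unfold Zt xc
  simp only [hm]
  refine Finset.sum_congr rfl fun k _ => ?_
  rw [pa3_tgt_Ex h]

end lims

/-- the statement of `os_bs` for `n` and `κ` implies that of `os_sm` -/
theorem os_sm_of (n : ℕ) (hos : ∃ C : ℝ, 0 ≤ C ∧ ∀ (t s M K : ℝ), 0 < t → 0 < s → s ≤ 1 →
    0 ≤ M → 0 ≤ K → PK n (t + s) M K →
    ∀ (μ : Measure (Eu n)) (R : ℝ) (q : Fin n → ℝ), IsProbabilityMeasure μ → BS R μ →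
      (∀ i, κ ≤ q i) → DLC q μ → ∀ f : Eu n → ℝ, UC.TT f →
      Cv μ f f ≤ s * ∑ k, Cv μ (fun x => x k) f ^ 2 + C * s ^ 2 * Cv μ f f +
        K * (gE μ (M • Am μ + Matrix.diagonal fun i => (t + s) / (q i + s)) f +
          M * (s * c3 μ (fun k i j => Hm μ k i j) f +
            C * s ^ 2 * (∫ x, gsq f x ∂μ + Zt μ (gsq f))))) :
    ∃ C : ℝ, 0 ≤ C ∧ ∀ (t s M K : ℝ), 0 < t → 0 < s → s ≤ 1 →
    0 ≤ M → 0 ≤ K → PK n (t + s) M K →
    ∀ (V : Eu n → ℝ) (κ' Λ c0 : ℝ) (q a : Fin n → ℝ), SP V κ' Λ c0 →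
      (∀ i, κ ≤ q i) → HesD V q → CovD V a → ∀ f : Eu n → ℝ, UC.TT f →
      VarE V f ≤ s * ∑ k, CvE V (fun x => x k) f ^ 2 + C * s ^ 2 * VarE V f +
        K * (rE V (fun i => M * a i + (t + s) / (q i + s)) f +
          M * (s * c3E V f + C * s ^ 2 * (UC.Ex V (gsq f) +
            ∑ k, UC.Ex V (fun x => xc V k x ^ 2 * gsq f x)))) := by
  obtain ⟨C, hC, hos⟩ := hos
  refine ⟨C, hC, ?_⟩
  intro t s M K ht hs hs1 hM hK hPK V κ' Λ c0 q a h hq hHes hCov f hf
  have hP := pa3_prob h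
  have hfc : Continuous f := hf.cd.continuous
  have hpc : ∀ i, Continuous (UC.pd i f) := fun i => (hf.pd i).cd.continuous
  have hps : ∀ i, HasCompactSupport (UC.pd i f) := fun i => (hf.pd i).cs
  have cc : ∀ k : Fin n, Continuous fun x : Eu n => x k := fun k => by fun_prop
  -- products of derivatives
  have gc : ∀ i j, Continuous fun x => UC.pd i f x * UC.pd j f x := fun i j =>
    (hpc i).mul (hpc j)
  have gs : ∀ i j, HasCompactSupport fun x => UC.pd i f x * UC.pd j f x := fun i j =>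
    (hps j).mul_left
  have gi : ∀ i j, Integrable (fun x => UC.pd i f x * UC.pd j f x) (tgt V) := fun i j =>
    pa3_integrable_cs h (gc i j) (gs i j)
  have qc : Continuous (gsq f) := continuous_finsetSum _ fun i _ => (hpc i).pow 2
  have qs : HasCompactSupport (gsq f) := by
    have e : gsq f = fun x => ∑ i, UC.pd i f x * UC.pd i f x := by
      funext x
      exact Finset.sum_congr rfl fun i _ => sq _
    rw [e]
    exact HasCompactSupport.intro hf.cs.isCompact (fun x hx => Finset.sum_eq_zero fun i _ => by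
      have h1 : f =ᶠ[𝓝 x] fun _ => 0 := notMem_tsupport_iff_eventuallyEq.1 hx
      have h2 : fderiv ℝ f x = 0 := by rw [h1.fderiv_eq]; simp
      unfold UC.pd
      rw [h2]
      simp)
  have hff : Integrable (fun x => f x * f x) (tgt V) :=
    pa3_integrable_cs h (hfc.mul hfc) hf.cs.mul_left
  have hfi : Integrable f (tgt V) := pa3_integrable_cs h hfc hf.cs
  have hxf : ∀ k : Fin n, Integrable (fun x : Eu n => x k * f x) (tgt V) := fun k =>
    pa3_integrable_cs h ((cc k).mul hfc) hf.cs.mul_left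
  have l1 : Tendsto (fun N => Cv (pa3r (tgt V) N) f f) atTop (𝓝 (Cv (tgt V) f f)) :=
    pa3r_Cv (tgt V) hfi hfi hff
  have l2 : Tendsto (fun N => ∑ k, Cv (pa3r (tgt V) N) (fun x => x k) f ^ 2) atTop
      (𝓝 (∑ k, Cv (tgt V) (fun x => x k) f ^ 2)) :=
    tendsto_finsetSum _ fun k _ => (pa3r_Cv (tgt V) (pa3_coord h k) hfi (hxf k)).pow 2
  have l3 : Tendsto (fun N => gE (pa3r (tgt V) N) (M • Am (pa3r (tgt V) N) +
      Matrix.diagonal fun i => (t + s) / (q i + s)) f) atTop
      (𝓝 (gE (tgt V) (M • Am (tgt V) + Matrix.diagonal fun i => (t + s) / (q i + s)) f)) := by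
    unfold gE
    refine tendsto_finsetSum _ fun i _ => tendsto_finsetSum _ fun j _ => ?_
    refine Tendsto.mul ?_ (pa3r_tendsto (tgt V) (gi i j))
    exact ((l15_Am h i j).const_mul M).add_const _
  have l4 : Tendsto (fun N => c3 (pa3r (tgt V) N) (fun k i j => Hm (pa3r (tgt V) N) k i j) f)
      atTop (𝓝 (c3 (tgt V) (fun k i j => Hm (tgt V) k i j) f)) := by
    unfold c3
    refine tendsto_finsetSum _ fun k _ => tendsto_finsetSum _ fun i _ =>
      tendsto_finsetSum _ fun j _ => ?_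
    exact (l15_Hm h k i j).mul (pa3r_Cv (tgt V) (pa3_coord h k) (gi i j)
      (pa3_integrable_cs h ((cc k).mul (gc i j)) (gs i j).mul_left))
  have l5 := pa3r_tendsto (tgt V) (pa3_integrable_cs h qc qs)
  have l6 := l15_Zt h qc qs
  have lim := le_of_tendsto_of_tendsto l1 (((l2.const_mul s).add (l1.const_mul (C * s ^ 2))).add
    ((l3.add (((l4.const_mul s).add ((l5.add l6).const_mul (C * s ^ 2))).const_mul M)).const_mul
      K)) (by
    filter_upwards [l15_pos h] with N hN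
    exact hos t s M K ht hs hs1 hM hK hPK (pa3r (tgt V) N) N q (pa3r_prob (tgt V) hN)
      (pa3r_BS (tgt V) N) hq (sp_dlc h hHes hN) f hf)
  have e1 : Cv (tgt V) f f = VarE V f := by
    rw [l15_CvE h]
    unfold CvE VarE
    simp only [sq]
  have e3 : gE (tgt V) (M • Am (tgt V) + Matrix.diagonal fun i => (t + s) / (q i + s)) f =
      rE V (fun i => M * a i + (t + s) / (q i + s)) f := by
    unfold gE rE
    refine Finset.sum_congr rfl fun i _ => ?_
    rw [Finset.sum_eq_single i]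
    · have h7 : Am (tgt V) i i = a i := by
        have := hCov i i
        rw [if_pos rfl] at this
        rw [← this]
        exact l15_CvE h _ _
      rw [Matrix.add_apply, Matrix.smul_apply, Matrix.diagonal_apply_eq, h7, smul_eq_mul,
        pa3_tgt_Ex h]
      simp only [sq]
    · intro j _ hji
      have h7 : Am (tgt V) i j = 0 := by
        have := hCov i j
        rw [if_neg (Ne.symm hji)] at this
        rw [← this]
        exact l15_CvE h _ _
      rw [Matrix.add_apply, Matrix.smul_apply, Matrix.diagonal_apply_ne _ (Ne.symm hji), h7]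
      simp
    · simp
  have e4 : c3 (tgt V) (fun k i j => Hm (tgt V) k i j) f = c3E V f := by
    unfold c3 c3E
    refine Finset.sum_congr rfl fun k _ => Finset.sum_congr rfl fun i _ =>
      Finset.sum_congr rfl fun j _ => ?_
    exact congrArg₂ (· * ·) (l15_TmE h k i j) (l15_CvE h _ _)
  rw [e1, e3, e4, l15_ZtE h, pa3_tgt_Ex h] at lim
  simp only [l15_CvE h] at lim
  exact lim

end Pool.Agent.Lib.MP_6d896a_gt.LG
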