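import Mathlib
import Pool.Agent.Lib.MP_6d896a_gt.LL.Defs
import Pool.Agent.Lib.MP_6d896a_gt.LG.PQ4
import Pool.Agent.Lib.MP_6d896a_gt.LG.PA3a

/-!
Project LL, piece L11: the weighted thin shell inequality for quadratic forms at the smooth level,
in coordinates with diagonal covariance, and the resulting bound of the third cumulants.
-/

set_option autoImplicit false

namespace Pool.Agent.Lib.MP_6d896a_gt.LG

open MeasureTheory Filter Topology Set
open scoped ENNReal NNReal
open UC (Ex Df pd)

variable {n : ℕ} {κ : ℝ}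

namespace TsW

variable {ν : Measure (Eu n)} {R : ℝ}

private lemma coord_cont (i : Fin n) : Continuous (fun x : Eu n => x i) := by fun_prop

/-- weighted form of the thin shell inequality for quadratic forms -/
private lemma tq_w {C : ℝ} (hC : 0 ≤ C) (hW : Thin n C) (hν : IsProbabilityMeasure ν)
    (hR : BS R ν) (hpl : FP.PLm ν) {r : Fin n → ℝ} (hr : ∀ i, 0 < r i)
    (b : Fin n → Fin n → ℝ) (hb : ∀ i j, b i j = b j i) :
    Cv ν (fun x => ∑ i, ∑ j, b i j * ((x i - mn ν i) * (x j - mn ν j)))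
      (fun x => ∑ i, ∑ j, b i j * ((x i - mn ν i) * (x j - mn ν j))) ≤
      2 * C * (1 + ∑ i, ∑ j, |Am ν i j / (r i * r j) - if i = j then 1 else 0|) ^ 2 *
        ∑ i, ∑ j, (r i * r j * b i j) ^ 2 := by
  let L0 : Eu n →ₗ[ℝ] Eu n :=
    { toFun := fun x => WithLp.toLp 2 (fun k => (r k)⁻¹ * x k)
      map_add' := by
        intro x y
        ext k
        simp [mul_add]
      map_smul' := by
        intro c x
        ext k
        simp
        ring }
  let L : Eu n →L[ℝ] Eu n := LinearMap.toContinuousLinearMap L0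
  have hL : ∀ x k, (L x) k = (r k)⁻¹ * x k := fun x k => rfl
  have hLc : Continuous L := L.continuous
  have hLm : Measurable L := hLc.measurable
  set ν' := ν.map L with hν'
  have hp : IsProbabilityMeasure ν' := Measure.isProbabilityMeasure_map hLm.aemeasurable
  have hpl' : FP.PLm ν' := FP.PLm.map hpl L0 hLm
  have hR' : BS (‖L‖ * R) ν' := by
    unfold BS
    rw [hν', ae_map_iff hLm.aemeasurable (measurableSet_le measurable_norm measurable_const)]
    filter_upwards [hR] with x hx
    exact (L.le_opNorm x).trans (by gcongr)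
  have hint : ∀ f : Eu n → ℝ, Continuous f → ∫ y, f y ∂ν' = ∫ x, f (L x) ∂ν := by
    intro f hf
    rw [hν', integral_map hLm.aemeasurable hf.aestronglyMeasurable]
  have hmn : ∀ k, mn ν' k = (r k)⁻¹ * mn ν k := by
    intro k
    have h1 : (mn ν') k = ∫ y, y k ∂ν' := rfl
    have h2 : (mn ν) k = ∫ y, y k ∂ν := rfl
    rw [h1, hint _ (by fun_prop), h2, ← integral_const_mul]
    rfl
  have hcv : ∀ f g : Eu n → ℝ, Continuous f → Continuous g →
      Cv ν' f g = Cv ν (fun x => f (L x)) (fun x => g (L x)) := by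
    intro f g hf hg
    rw [Cv, hint _ (by fun_prop), hint _ hf, hint _ hg]
    rfl
  set ε : ℝ := ∑ i, ∑ j, |Am ν i j / (r i * r j) - if i = j then 1 else 0| with hε
  have hε0 : 0 ≤ ε := Finset.sum_nonneg fun i _ => Finset.sum_nonneg fun j _ => abs_nonneg _
  have hs : ∀ w : Eu n, Cv ν' (fun x => inner ℝ x w) (fun x => inner ℝ x w) ≤
      (1 + ε) * ‖w‖ ^ 2 := by
    intro w
    rw [hcv _ _ (by fun_prop) (by fun_prop)]
    have e1 : (fun x : Eu n => inner ℝ (L x) w) = fun x => ∑ i, ((r i)⁻¹ * w i) * x i := by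
      funext x
      rw [PiLp.inner_apply]
      refine Finset.sum_congr rfl fun i _ => ?_
      rw [hL]
      simp
      ring
    rw [e1, ← Am_quad hR]
    unfold dotProduct Matrix.mulVec
    have hw : ‖w‖ ^ 2 = ∑ i, w i ^ 2 := by
      rw [EuclideanSpace.norm_sq_eq]
      simp only [Real.norm_eq_abs, sq_abs]
    have hwi : ∀ i, w i ^ 2 ≤ ‖w‖ ^ 2 := by
      intro i
      rw [hw]
      exact Finset.single_le_sum (f := fun j => w j ^ 2) (fun j _ => sq_nonneg _)
        (Finset.mem_univ i)
    have h1 : ∀ i j, (r i)⁻¹ * w i * (Am ν i j * ((r j)⁻¹ * w j)) ≤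
        (if i = j then w i ^ 2 else 0) +
          |Am ν i j / (r i * r j) - if i = j then 1 else 0| * ‖w‖ ^ 2 := by
      intro i j
      have h2 : (r i)⁻¹ * w i * (Am ν i j * ((r j)⁻¹ * w j)) =
          (if i = j then w i ^ 2 else 0) +
          (Am ν i j / (r i * r j) - if i = j then 1 else 0) * (w i * w j) := by
        have hri := (hr i).ne'
        have hrj := (hr j).ne'
        split_ifs with hij
        · subst hij
          field_simp
          ring
        · field_simp
          ring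
      rw [h2]
      have h3 : |w i * w j| ≤ ‖w‖ ^ 2 := by
        rw [abs_mul]
        have h4 := hwi i
        have h5 := hwi j
        have h6 := sq_abs (w i)
        have h7 := sq_abs (w j)
        nlinarith [sq_nonneg (|w i| - |w j|)]
      have h4 : (Am ν i j / (r i * r j) - if i = j then 1 else 0) * (w i * w j) ≤
          |Am ν i j / (r i * r j) - if i = j then 1 else 0| * ‖w‖ ^ 2 := by
        calc _ ≤ |(Am ν i j / (r i * r j) - if i = j then 1 else 0) * (w i * w j)| :=
              le_abs_self _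
          _ ≤ _ := by
              rw [abs_mul]
              exact mul_le_mul_of_nonneg_left h3 (abs_nonneg _)
      linarith
    calc ∑ i, (r i)⁻¹ * w i * ∑ j, Am ν i j * ((r j)⁻¹ * w j)
        = ∑ i, ∑ j, (r i)⁻¹ * w i * (Am ν i j * ((r j)⁻¹ * w j)) := by
          refine Finset.sum_congr rfl fun i _ => ?_
          rw [Finset.mul_sum]
      _ ≤ ∑ i, ∑ j, ((if i = j then w i ^ 2 else 0) +
          |Am ν i j / (r i * r j) - if i = j then 1 else 0| * ‖w‖ ^ 2) :=
          Finset.sum_le_sum fun i _ => Finset.sum_le_sum fun j _ => h1 i j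
      _ = (1 + ε) * ‖w‖ ^ 2 := by
          simp only [Finset.sum_add_distrib, ← Finset.sum_mul]
          rw [← hε, add_mul, one_mul]
          congr 1
          rw [hw]
          refine Finset.sum_congr rfl fun i _ => ?_
          simp
  have h3 := thin_quad hC hW hp hR' hpl' hs (fun i j => r i * r j * b i j)
    (fun i j => by rw [hb i j]; ring)
  rw [hcv _ _ (by fun_prop) (by fun_prop)] at h3
  have e2 : (fun x : Eu n => ∑ i, ∑ j, r i * r j * b i j *
      (((L x) i - mn ν' i) * ((L x) j - mn ν' j))) =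
      fun x => ∑ i, ∑ j, b i j * ((x i - mn ν i) * (x j - mn ν j)) := by
    funext x
    refine Finset.sum_congr rfl fun i _ => Finset.sum_congr rfl fun j _ => ?_
    rw [hmn, hmn, hL, hL]
    have hri := (hr i).ne'
    have hrj := (hr j).ne'
    field_simp
  rw [e2] at h3
  exact h3

/-- continuous functions with polynomial growth -/
private def PG (d : ℕ) (F : Eu n → ℝ) : Prop :=
  Continuous F ∧ ∃ A : ℝ, 0 ≤ A ∧ ∀ x, |F x| ≤ A * (1 + ‖x‖) ^ d

private lemma PG.mul {d e : ℕ} {F G : Eu n → ℝ} (hF : PG d F) (hG : PG e G) :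
    PG (d + e) (fun x => F x * G x) := by
  obtain ⟨hc, A, hA0, hA⟩ := hF
  obtain ⟨hc', A', hA0', hA'⟩ := hG
  refine ⟨hc.mul hc', A * A', by positivity, fun x => ?_⟩
  rw [abs_mul, pow_add]
  calc |F x| * |G x| ≤ (A * (1 + ‖x‖) ^ d) * (A' * (1 + ‖x‖) ^ e) :=
        mul_le_mul (hA x) (hA' x) (abs_nonneg _) (by positivity)
    _ = _ := by ring

private lemma PG.coord (i : Fin n) : PG 1 (fun x : Eu n => x i) := by
  refine ⟨coord_cont i, 1, zero_le_one, fun x => ?_⟩
  have := coord_le x i
  rw [pow_one, one_mul]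
  linarith

private lemma PG.shift (i : Fin n) (a : ℝ) : PG 1 (fun x : Eu n => x i - a) := by
  refine ⟨by fun_prop, 1 + |a|, by positivity, fun x => ?_⟩
  have h1 := coord_le x i
  have h2 := abs_sub (x i) a
  have h3 := norm_nonneg x
  have h4 := abs_nonneg a
  rw [pow_one]
  nlinarith

private lemma PG.mono {d e : ℕ} {F : Eu n → ℝ} (hF : PG d F) (hde : d ≤ e) : PG e F := by
  obtain ⟨hc, A, hA0, hA⟩ := hF
  refine ⟨hc, A, hA0, fun x => (hA x).trans ?_⟩
  exact mul_le_mul_of_nonneg_left (pow_le_pow_right₀ (by linarith [norm_nonneg x]) hde) hA0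

private lemma PG.one : PG 0 (fun _ : Eu n => (1 : ℝ)) :=
  ⟨continuous_const, 1, zero_le_one, fun x => by simp⟩

private lemma PG.list (g : Fin n → Eu n → ℝ) (hg : ∀ i, PG 1 (g i)) (L : List (Fin n)) :
    PG L.length (fun x => (L.map (fun i => g i x)).prod) := by
  induction L with
  | nil => simpa using PG.one
  | cons i L ih =>
    have h1 := (hg i).mul ih
    have e1 : (i :: L).length = 1 + L.length := by
      rw [List.length_cons]; omega
    rw [e1]
    simpa using h1

private lemma PG.add {d : ℕ} {F G : Eu n → ℝ} (hF : PG d F) (hG : PG d G) :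
    PG d (fun x => F x + G x) := by
  obtain ⟨hc, A, hA0, hA⟩ := hF
  obtain ⟨hc', A', hA0', hA'⟩ := hG
  refine ⟨hc.add hc', A + A', by positivity, fun x => ?_⟩
  rw [add_mul]
  exact (abs_add_le _ _).trans (add_le_add (hA x) (hA' x))

private lemma PG.cmul {d : ℕ} {F : Eu n → ℝ} (hF : PG d F) (c : ℝ) :
    PG d (fun x => c * F x) := by
  obtain ⟨hc, A, hA0, hA⟩ := hF
  refine ⟨hc.const_mul c, |c| * A, by positivity, fun x => ?_⟩
  rw [abs_mul, mul_assoc]
  exact mul_le_mul_of_nonneg_left (hA x) (abs_nonneg _)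

private lemma PG.sum {d : ℕ} {ι : Type*} (s : Finset ι) {F : ι → Eu n → ℝ}
    (hF : ∀ i ∈ s, PG d (F i)) : PG d (fun x => ∑ i ∈ s, F i x) := by
  classical
  induction s using Finset.induction_on with
  | empty =>
    refine ⟨by simpa using continuous_const, 0, le_refl _, fun x => ?_⟩
    simp
  | insert i s hi ih =>
    simp only [Finset.sum_insert hi]
    exact (hF i (Finset.mem_insert_self _ _)).add
      (ih fun j hj => hF j (Finset.mem_insert_of_mem hj))

section lim
variable {V : Eu n → ℝ} {Λ c0 : ℝ}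

private lemma sp_int (h : SP V κ Λ c0) {F : Eu n → ℝ} (hF : PG 4 F) : Integrable F (tgt V) := by
  obtain ⟨hFc, A, hA0, hA⟩ := hF
  exact pa3_integrable h hFc hA

private lemma bm {k : ℕ} {F : Eu n → ℝ} (hF : Continuous F) : BM (pa3r (tgt V) k) F :=
  BM.cont (pa3r_BS _ _) hF

/-- convergence of centred moments -/
private lemma lim_mom (h : SP V κ Λ c0) {a : ℕ → Fin n → ℝ} {b : Fin n → ℝ}
    (ha : ∀ i, Tendsto (fun k => a k i) atTop (𝓝 (b i))) (L : List (Fin n)) :
    ∀ M : List (Fin n), L.length + M.length ≤ 4 →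
      Tendsto (fun k => ∫ x, (L.map (fun i => x i - a k i)).prod *
        (M.map (fun i => x i)).prod ∂(pa3r (tgt V) k)) atTop
        (𝓝 (Ex V (fun x => (L.map (fun i => x i - b i)).prod *
          (M.map (fun i => x i)).prod))) := by
  have hp := pa3_prob h
  induction L with
  | nil =>
    intro M hM
    simp only [List.map_nil, List.prod_nil, one_mul]
    rw [← pa3_tgt_Ex h]
    apply pa3r_tendsto
    have h1 := PG.list (n := n) (fun i x => x i) (fun i => PG.coord i) M
    exact sp_int h (h1.mono (by simpa using hM))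
  | cons i L ih =>
    intro M hM
    have hM' : L.length + 1 + M.length ≤ 4 := by simpa using hM
    have h1 := ih (i :: M) (by rw [List.length_cons]; omega)
    have h2 := ih M (by omega)
    have h3 := h1.sub ((ha i).mul h2)
    have gS : ∀ c : Fin n → ℝ, PG L.length
        (fun x : Eu n => (L.map (fun i => x i - c i)).prod) :=
      fun c => PG.list (fun i x => x i - c i) (fun i => PG.shift i _) L
    have gW : ∀ N : List (Fin n), PG N.length (fun x : Eu n => (N.map (fun i => x i)).prod) :=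
      fun N => PG.list (fun i x => x i) (fun i => PG.coord i) N
    have e1 : ∀ (c : Fin n → ℝ) (x : Eu n), ((i :: L).map (fun i => x i - c i)).prod *
        (M.map (fun i => x i)).prod = (L.map (fun i => x i - c i)).prod *
        ((i :: M).map (fun i => x i)).prod - c i * ((L.map (fun i => x i - c i)).prod *
        (M.map (fun i => x i)).prod) := by
      intro c x
      simp only [List.map_cons, List.prod_cons]
      ring
    simp only [e1]
    have i1 : PG 4 (fun x : Eu n => (L.map (fun i => x i - b i)).prod *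
        ((i :: M).map (fun i => x i)).prod) :=
      ((gS b).mul (gW (i :: M))).mono (by rw [List.length_cons]; omega)
    have i2 : PG 4 (fun x : Eu n => (L.map (fun i => x i - b i)).prod *
        (M.map (fun i => x i)).prod) := ((gS b).mul (gW M)).mono (by omega)
    have e2 : Ex V (fun x => (L.map (fun i => x i - b i)).prod *
        ((i :: M).map (fun i => x i)).prod -
        b i * ((L.map (fun i => x i - b i)).prod * (M.map (fun i => x i)).prod)) =
        Ex V (fun x => (L.map (fun i => x i - b i)).prod * ((i :: M).map (fun i => x i)).prod) -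
        b i * Ex V (fun x => (L.map (fun i => x i - b i)).prod *
          (M.map (fun i => x i)).prod) := by
      rw [← pa3_tgt_Ex h, ← pa3_tgt_Ex h, ← pa3_tgt_Ex h, integral_sub (sp_int h i1)
        ((sp_int h i2).const_mul _), integral_const_mul]
    rw [e2]
    refine h3.congr' ?_
    have hpos : ∀ᶠ k : ℕ in atTop, (tgt V) (Metric.closedBall 0 (k : ℝ)) ≠ 0 := by
      have h1 : Tendsto (fun k : ℕ => (tgt V) (Metric.closedBall (0 : Eu n) (k : ℝ))) atTop
          (𝓝 ((tgt V) (⋃ k : ℕ, Metric.closedBall (0 : Eu n) (k : ℝ)))) :=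
        tendsto_measure_iUnion_atTop
          (fun a b hab => Metric.closedBall_subset_closedBall (by exact_mod_cast hab))
      rw [Metric.iUnion_closedBall_nat, measure_univ] at h1
      exact (h1.eventually (lt_mem_nhds (by norm_num : (0 : ℝ≥0∞) < 1))).mono
        fun k hk => hk.ne'
    filter_upwards [hpos] with k hk
    have hpk := pa3r_prob (tgt V) hk
    rw [integral_sub, integral_const_mul]
    · exact (bm ((gS (a k)).1.mul (gW (i :: M)).1)).int
    · exact ((bm ((gS (a k)).1.mul (gW M).1)).cmul _).int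

private lemma hpos (h : SP V κ Λ c0) :
    ∀ᶠ k : ℕ in atTop, (tgt V) (Metric.closedBall 0 (k : ℝ)) ≠ 0 := by
  have hp := pa3_prob h
  have h1 : Tendsto (fun k : ℕ => (tgt V) (Metric.closedBall (0 : Eu n) (k : ℝ))) atTop
      (𝓝 ((tgt V) (⋃ k : ℕ, Metric.closedBall (0 : Eu n) (k : ℝ)))) :=
    tendsto_measure_iUnion_atTop
      (fun a b hab => Metric.closedBall_subset_closedBall (by exact_mod_cast hab))
  rw [Metric.iUnion_closedBall_nat, measure_univ] at h1
  exact (h1.eventually (lt_mem_nhds (by norm_num : (0 : ℝ≥0∞) < 1))).mono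
    fun k hk => hk.ne'

/-- variances of linear combinations -/
private lemma var_fam {ι : Type} [Fintype ι] {ρ : Measure (Eu n)} {y : ι → Eu n → ℝ}
    (h1 : ∀ p, Integrable (y p) ρ) (h2 : ∀ p q, Integrable (fun x => y p x * y q x) ρ)
    (B : ι → ℝ) :
    Cv ρ (fun x => ∑ p, B p * y p x) (fun x => ∑ p, B p * y p x) =
      ∑ p, ∑ q, B p * B q * (∫ x, y p x * y q x ∂ρ - (∫ x, y p x ∂ρ) * ∫ x, y q x ∂ρ) := by
  have e1 : ∫ x, ∑ p, B p * y p x ∂ρ = ∑ p, B p * ∫ x, y p x ∂ρ := by
    rw [integral_finsetSum _ (fun i _ => (h1 i).const_mul _)]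
    exact Finset.sum_congr rfl fun i _ => integral_const_mul _ _
  have e2 : ∫ x, (∑ p, B p * y p x) * (∑ p, B p * y p x) ∂ρ =
      ∑ p, ∑ q, B p * B q * ∫ x, y p x * y q x ∂ρ := by
    have e3 : ∀ x : Eu n, (∑ p, B p * y p x) * (∑ p, B p * y p x) =
        ∑ p, ∑ q, B p * B q * (y p x * y q x) := by
      intro x
      rw [Finset.sum_mul_sum]
      exact Finset.sum_congr rfl fun i _ => Finset.sum_congr rfl fun j _ => by ring
    simp only [e3]
    rw [integral_finsetSum _ (fun i _ => integrable_finsetSum _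
      fun j _ => (h2 i j).const_mul _)]
    refine Finset.sum_congr rfl fun i _ => ?_
    rw [integral_finsetSum _ (fun j _ => (h2 i j).const_mul _)]
    exact Finset.sum_congr rfl fun j _ => integral_const_mul _ _
  unfold Cv
  rw [e1, e2, Finset.sum_mul_sum, ← Finset.sum_sub_distrib]
  refine Finset.sum_congr rfl fun i _ => ?_
  rw [← Finset.sum_sub_distrib]
  exact Finset.sum_congr rfl fun j _ => by ring

private lemma varE_Cv (h : SP V κ Λ c0) (f : Eu n → ℝ) : VarE V f = Cv (tgt V) f f := by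
  unfold VarE Cv
  rw [pa3_tgt_Ex h, pa3_tgt_Ex h]
  simp only [sq]

private lemma amE_Cv (h : SP V κ Λ c0) (i j : Fin n) : AmE V i j = Am (tgt V) i j := by
  unfold AmE CvE Am Cv
  rw [pa3_tgt_Ex h, pa3_tgt_Ex h, pa3_tgt_Ex h]

end lim

end TsW

open TsW in
theorem tsw {C : ℝ} (hC : 0 ≤ C) (hW : Thin n C) {V : Eu n → ℝ} {Λ c0 : ℝ}
    (h : SP V κ Λ c0) {a : Fin n → ℝ} (ha : ∀ i, 0 < a i) (hA : CovD V a)
    (b : Fin n → Fin n → ℝ) (hb : ∀ i j, b i j = b j i) :
    VarE V (fun x => ∑ i, ∑ j, b i j * (xc V i x * xc V j x)) ≤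
      2 * C * ∑ i, ∑ j, a i * a j * b i j ^ 2 := by
  have hp := pa3_prob h
  set ρ := tgt V with hρ
  have hpl : FP.PLm ρ := pa3_plm h
  set m : Fin n → ℝ := fun i => Ex V (fun y => y i) with hm
  have lm : ∀ i, Tendsto (fun k => mn (pa3r ρ k) i) atTop (𝓝 (m i)) := by
    intro i
    have h1 := pa3r_tendsto ρ (pa3_coord h i)
    rw [pa3_tgt_Ex h] at h1
    exact h1
  let y : (Fin n → ℝ) → Fin n × Fin n → Eu n → ℝ := fun c p x =>
    (x p.1 - c p.1) * (x p.2 - c p.2)
  have hy : ∀ c p, PG 2 (y c p) := fun c p => (PG.shift p.1 _).mul (PG.shift p.2 _)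
  have l1 : ∀ p, Tendsto (fun k => ∫ x, y (mn (pa3r ρ k)) p x ∂(pa3r ρ k)) atTop
      (𝓝 (Ex V (y m p))) := by
    intro p
    have h1 := lim_mom h lm [p.1, p.2] [] (by simp)
    simpa [y] using h1
  have l2 : ∀ p q, Tendsto (fun k => ∫ x, y (mn (pa3r ρ k)) p x * y (mn (pa3r ρ k)) q x
      ∂(pa3r ρ k)) atTop (𝓝 (Ex V (fun x => y m p x * y m q x))) := by
    intro p q
    have h1 := lim_mom h lm [p.1, p.2, q.1, q.2] [] (by simp)
    simpa [y, mul_assoc] using h1
  have key : ∀ᶠ k : ℕ in atTop, ∑ p : Fin n × Fin n, ∑ q : Fin n × Fin n,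
      b p.1 p.2 * b q.1 q.2 * (∫ x, y (mn (pa3r ρ k)) p x * y (mn (pa3r ρ k)) q x ∂(pa3r ρ k) -
        (∫ x, y (mn (pa3r ρ k)) p x ∂(pa3r ρ k)) * ∫ x, y (mn (pa3r ρ k)) q x ∂(pa3r ρ k)) ≤
      2 * C * (1 + ∑ i, ∑ j, |Am (pa3r ρ k) i j / (Real.sqrt (a i) * Real.sqrt (a j)) -
        if i = j then 1 else 0|) ^ 2 *
        ∑ i, ∑ j, (Real.sqrt (a i) * Real.sqrt (a j) * b i j) ^ 2 := by
    filter_upwards [hpos h] with k hk
    have hpk := pa3r_prob ρ hk
    have h1 := tq_w hC hW hpk (pa3r_BS ρ k) (pa3r_plm ρ hpl hk)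
      (fun i => Real.sqrt_pos.2 (ha i)) b hb
    refine le_trans (le_of_eq ?_) h1
    have e1 : (fun x : Eu n => ∑ i, ∑ j, b i j * ((x i - mn (pa3r ρ k) i) *
        (x j - mn (pa3r ρ k) j))) =
        fun x => ∑ p : Fin n × Fin n, b p.1 p.2 * y (mn (pa3r ρ k)) p x := by
      funext x
      rw [Fintype.sum_prod_type]
    rw [e1]
    exact (var_fam (fun p => (bm (hy _ p).1).int)
      (fun p q => (bm ((hy _ p).1.mul (hy _ q).1)).int) (fun p => b p.1 p.2)).symm
  have lL : Tendsto (fun k => ∑ p : Fin n × Fin n, ∑ q : Fin n × Fin n,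
      b p.1 p.2 * b q.1 q.2 * (∫ x, y (mn (pa3r ρ k)) p x * y (mn (pa3r ρ k)) q x ∂(pa3r ρ k) -
        (∫ x, y (mn (pa3r ρ k)) p x ∂(pa3r ρ k)) * ∫ x, y (mn (pa3r ρ k)) q x ∂(pa3r ρ k)))
      atTop (𝓝 (∑ p : Fin n × Fin n, ∑ q : Fin n × Fin n,
      b p.1 p.2 * b q.1 q.2 * (Ex V (fun x => y m p x * y m q x) -
        Ex V (y m p) * Ex V (y m q)))) :=
    tendsto_finsetSum _ fun p _ => tendsto_finsetSum _ fun q _ =>
      ((l2 p q).sub ((l1 p).mul (l1 q))).const_mul _
  have lR : Tendsto (fun k => 2 * C * (1 + ∑ i, ∑ j, |Am (pa3r ρ k) i j /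
      (Real.sqrt (a i) * Real.sqrt (a j)) - if i = j then 1 else 0|) ^ 2 *
        ∑ i, ∑ j, (Real.sqrt (a i) * Real.sqrt (a j) * b i j) ^ 2) atTop
      (𝓝 (2 * C * (1 + ∑ i : Fin n, ∑ j : Fin n, |Am ρ i j /
      (Real.sqrt (a i) * Real.sqrt (a j)) - if i = j then 1 else 0|) ^ 2 *
        ∑ i, ∑ j, (Real.sqrt (a i) * Real.sqrt (a j) * b i j) ^ 2)) := by
    refine Tendsto.mul_const _ (Tendsto.const_mul _ (Tendsto.pow (Tendsto.const_add _ ?_) 2))
    refine tendsto_finsetSum _ fun i _ => tendsto_finsetSum _ fun j _ => ?_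
    exact ((((pa3r_Cv ρ (pa3_coord h i) (pa3_coord h j)
      (pa3_coord2 h i j)).div_const _).sub_const _).abs)
  have hfin := le_of_tendsto_of_tendsto lL lR key
  have e1 : (fun x : Eu n => ∑ i, ∑ j, b i j * (xc V i x * xc V j x)) =
      fun x => ∑ p : Fin n × Fin n, b p.1 p.2 * y m p x := by
    funext x
    rw [Fintype.sum_prod_type]
    rfl
  have e2 := var_fam (ρ := ρ) (y := y m) (fun p => sp_int h ((hy m p).mono (by norm_num)))
    (fun p q => sp_int h ((hy m p).mul (hy m q))) (fun p => b p.1 p.2)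
  simp only [hρ, pa3_tgt_Ex h] at e2
  rw [e1, varE_Cv h, e2]
  refine hfin.trans (le_of_eq ?_)
  have e3 : ∀ i j, |Am ρ i j / (Real.sqrt (a i) * Real.sqrt (a j)) - if i = j then 1 else 0| =
      0 := by
    intro i j
    rw [abs_eq_zero, hρ, ← amE_Cv h, hA i j]
    split_ifs with hij
    · subst hij
      rw [Real.mul_self_sqrt (ha i).le, div_self (ha i).ne', sub_self]
    · simp
  have e4 : ∀ i j, (Real.sqrt (a i) * Real.sqrt (a j) * b i j) ^ 2 = a i * a j * b i j ^ 2 := by
    intro i j
    rw [mul_pow, mul_pow, Real.sq_sqrt (ha i).le, Real.sq_sqrt (ha j).le]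
  simp only [e3, e4, Finset.sum_const_zero, add_zero, one_pow, mul_one]

open TsW in
theorem t_bd {C : ℝ} (hC : 0 ≤ C) (hW : Thin n C) {V : Eu n → ℝ} {Λ c0 : ℝ}
    (h : SP V κ Λ c0) {a : Fin n → ℝ} (ha : ∀ i, 0 < a i) (hA : CovD V a) (θ : Fin n → ℝ) :
    ∑ i, ∑ j, (∑ k, TmE V k i j * θ k) ^ 2 / (a i * a j) ≤ 2 * C * ∑ k, a k * θ k ^ 2 := by
  have hp := pa3_prob h
  set b : Fin n → Fin n → ℝ := fun i j => (∑ k, TmE V k i j * θ k) / (a i * a j) with hb
  have hxc : ∀ i, PG 1 (xc V i) := fun i => PG.shift i _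
  have hb2 : ∀ i j, b i j = b j i := by
    intro i j
    simp only [hb]
    rw [mul_comm (a i)]
    congr 1
    refine Finset.sum_congr rfl fun k _ => ?_
    congr 1
    unfold TmE
    congr 1
    funext x
    ring
  have h1 := tsw hC hW h ha hA b hb2
  set q : Eu n → ℝ := fun x => ∑ i, ∑ j, b i j * (xc V i x * xc V j x) with hq
  set l : Eu n → ℝ := fun x => ∑ k, θ k * xc V k x with hl
  have hq2 : PG 2 q := PG.sum _ fun i _ => PG.sum _ fun j _ =>
    ((hxc i).mul (hxc j)).cmul _
  have hl1 : PG 1 l := PG.sum _ fun k _ => (hxc k).cmul _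
  have hone : Ex V (fun _ => 1) = 1 := h.mass
  have hexc : ∀ k, ∫ x, xc V k x ∂(tgt V) = 0 := by
    intro k
    unfold xc
    rw [integral_sub (pa3_coord h k) (integrable_const _), pa3_tgt_Ex h]
    simp
  have hel : ∫ x, l x ∂(tgt V) = 0 := by
    simp only [hl]
    rw [integral_finsetSum _ fun k _ => (sp_int h ((hxc k).mono (by norm_num))).const_mul _]
    refine Finset.sum_eq_zero fun k _ => ?_
    rw [integral_const_mul, hexc, mul_zero]
  -- the variance of the linear form
  have hvl : ∫ x, l x ^ 2 ∂(tgt V) = ∑ k, a k * θ k ^ 2 := by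
    have e1 := var_fam (ρ := tgt V) (y := fun k => xc V k)
      (fun k => sp_int h ((hxc k).mono (by norm_num)))
      (fun k k' => sp_int h (((hxc k).mul (hxc k')).mono (by norm_num))) θ
    have e2 : Cv (tgt V) l l = ∫ x, l x ^ 2 ∂(tgt V) := by
      unfold Cv
      rw [hel]
      simp [sq]
    rw [← e2]
    simp only [hl]
    rw [e1]
    refine Finset.sum_congr rfl fun k _ => ?_
    have e3 : ∀ k', (∫ x, xc V k x * xc V k' x ∂(tgt V) -
        (∫ x, xc V k x ∂(tgt V)) * ∫ x, xc V k' x ∂(tgt V)) = if k = k' then a k else 0 := by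
      intro k'
      rw [hexc, hexc, mul_zero, sub_zero, ← hA k k']
      unfold AmE CvE
      set mk := Ex V (fun y => y k) with hmk
      set mk' := Ex V (fun y => y k') with hmk'
      have e4 : ∀ x : Eu n, xc V k x * xc V k' x =
          x k * x k' - (mk' * x k + mk * x k') + mk * mk' := by
        intro x
        unfold xc
        ring
      simp only [e4]
      rw [integral_add, integral_sub, integral_add, integral_const_mul, integral_const_mul,
        pa3_tgt_Ex h, pa3_tgt_Ex h, pa3_tgt_Ex h, ← hmk, ← hmk']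
      · simp
        ring
      · exact (pa3_coord h k).const_mul _
      · exact (pa3_coord h k').const_mul _
      · exact pa3_coord2 h k k'
      · exact ((pa3_coord h k).const_mul _).add ((pa3_coord h k').const_mul _)
      · exact (pa3_coord2 h k k').sub
          (((pa3_coord h k).const_mul _).add ((pa3_coord h k').const_mul _))
      · exact integrable_const _
    simp only [e3]
    rw [Finset.sum_eq_single k]
    · simp
      ring
    · intro j _ hj
      rw [if_neg (Ne.symm hj), mul_zero]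
    · simp
  -- the covariance
  set S : ℝ := ∑ i, ∑ j, (∑ k, TmE V k i j * θ k) ^ 2 / (a i * a j) with hS
  have hS0 : 0 ≤ S := Finset.sum_nonneg fun i _ => Finset.sum_nonneg fun j _ =>
    div_nonneg (sq_nonneg _) (mul_pos (ha i) (ha j)).le
  have hcov : ∫ x, l x * q x ∂(tgt V) = S := by
    have e1 : ∀ x, l x * q x = ∑ i, ∑ j, b i j * ∑ k, θ k * (xc V k x * (xc V i x * xc V j x)) := by
      intro x
      simp only [hl, hq]
      rw [Finset.mul_sum]
      refine Finset.sum_congr rfl fun i _ => ?_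
      rw [Finset.mul_sum]
      refine Finset.sum_congr rfl fun j _ => ?_
      rw [Finset.sum_mul, Finset.mul_sum]
      refine Finset.sum_congr rfl fun k _ => ?_
      ring
    have i3 : ∀ i j k, Integrable (fun x => θ k * (xc V k x * (xc V i x * xc V j x))) (tgt V) :=
      fun i j k => (sp_int h (((hxc k).mul ((hxc i).mul (hxc j))).mono (by norm_num))).const_mul _
    simp only [e1]
    rw [integral_finsetSum _ fun i _ => integrable_finsetSum _ fun j _ =>
      (integrable_finsetSum _ fun k _ => i3 i j k).const_mul _]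
    rw [hS]
    refine Finset.sum_congr rfl fun i _ => ?_
    rw [integral_finsetSum _ fun j _ => (integrable_finsetSum _ fun k _ => i3 i j k).const_mul _]
    refine Finset.sum_congr rfl fun j _ => ?_
    rw [integral_const_mul, integral_finsetSum _ fun k _ => i3 i j k]
    have e2 : ∑ k, ∫ x, θ k * (xc V k x * (xc V i x * xc V j x)) ∂(tgt V) =
        ∑ k, TmE V k i j * θ k := by
      refine Finset.sum_congr rfl fun k _ => ?_
      rw [integral_const_mul, pa3_tgt_Ex h, mul_comm]
      rfl
    rw [e2]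
    simp only [hb]
    ring
  -- Cauchy-Schwarz
  have hVq : VarE V q = ∫ x, (q x - Ex V q) ^ 2 ∂(tgt V) := by
    rw [varE_Cv h]
    unfold Cv
    rw [← pa3_tgt_Ex h q]
    set mq := ∫ x, q x ∂(tgt V) with hmq
    have e1 : ∀ x, (q x - mq) ^ 2 = q x * q x - 2 * mq * q x + mq ^ 2 := fun x => by ring
    simp only [e1]
    have i1 : Integrable (fun x => q x * q x) (tgt V) := sp_int h (hq2.mul hq2)
    have i2 : Integrable (fun x => 2 * mq * q x) (tgt V) :=
      (sp_int h (hq2.mono (by norm_num))).const_mul _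
    have i12 : Integrable (fun x => q x * q x - 2 * mq * q x) (tgt V) := i1.sub i2
    rw [integral_add i12 (integrable_const _), integral_sub i1 i2, integral_const_mul,
      ← hmq]
    simp
    ring
  have hlq : ∫ x, l x * (q x - Ex V q) ∂(tgt V) = S := by
    have e1 : ∀ x, l x * (q x - Ex V q) = l x * q x - Ex V q * l x := fun x => by ring
    simp only [e1]
    rw [integral_sub (sp_int h ((hl1.mul hq2).mono (by norm_num)))
      ((sp_int h (hl1.mono (by norm_num))).const_mul _), integral_const_mul, hel, hcov]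
    ring
  have hqs : PG 2 (fun x => q x - Ex V q) := by
    have e1 : (fun x => q x - Ex V q) = fun x => q x + (-Ex V q) * 1 := by
      funext x; ring
    rw [e1]
    exact hq2.add ((PG.one.cmul _).mono (by norm_num))
  have key : ∀ t : ℝ, 0 ≤ (∑ k, a k * θ k ^ 2) * (t * t) + (-2 * S) * t + VarE V q := by
    intro t
    have h2 : 0 ≤ ∫ x, (t * l x - (q x - Ex V q)) ^ 2 ∂(tgt V) :=
      integral_nonneg fun x => sq_nonneg _
    have e1 : ∀ x, (t * l x - (q x - Ex V q)) ^ 2 =
        t * t * l x ^ 2 - 2 * t * (l x * (q x - Ex V q)) + (q x - Ex V q) ^ 2 :=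
      fun x => by ring
    simp only [e1] at h2
    have j1 : Integrable (fun x => l x ^ 2) (tgt V) := by
      have := sp_int h ((hl1.mul hl1).mono (by norm_num))
      simpa only [sq] using this
    have j2 : Integrable (fun x => l x * (q x - Ex V q)) (tgt V) :=
      sp_int h ((hl1.mul hqs).mono (by norm_num))
    have j3 : Integrable (fun x => (q x - Ex V q) ^ 2) (tgt V) := by
      have := sp_int h (hqs.mul hqs)
      simpa only [sq] using this
    have j12 : Integrable (fun x => t * t * l x ^ 2 - 2 * t * (l x * (q x - Ex V q)))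
        (tgt V) := (j1.const_mul _).sub (j2.const_mul _)
    rw [integral_add j12 j3,
      integral_sub (j1.const_mul _) (j2.const_mul _), integral_const_mul, integral_const_mul,
      hvl, hlq, ← hVq] at h2
    linarith
  have hdisc := discrim_le_zero key
  unfold discrim at hdisc
  have hA0 : 0 ≤ ∑ k, a k * θ k ^ 2 := Finset.sum_nonneg fun k _ =>
    mul_nonneg (ha k).le (sq_nonneg _)
  have hbS : ∑ i, ∑ j, a i * a j * b i j ^ 2 = S := by
    rw [hS]
    refine Finset.sum_congr rfl fun i _ => Finset.sum_congr rfl fun j _ => ?_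
    simp only [hb]
    have hi := (ha i).ne'
    have hj := (ha j).ne'
    field_simp
  rw [hbS] at h1
  have h3 : S * S ≤ (∑ k, a k * θ k ^ 2) * (2 * C * S) := by
    have h4 := mul_le_mul_of_nonneg_left h1 hA0
    nlinarith
  rcases hS0.eq_or_lt with h0 | h0
  · rw [← h0]
    positivity
  · have h5 : S * S ≤ (2 * C * ∑ k, a k * θ k ^ 2) * S := by linarith
    exact le_of_mul_le_mul_right h5 h0

end Pool.Agent.Lib.MP_6d896a_gt.LG
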