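import Mathlib
import Pool.Agent.Lib.MP_6d896a_gt.LL.Defs
import Pool.Agent.Lib.MP_6d896a_gt.UC.Basic
import Pool.Agent.Lib.MP_6d896a_gt.UC.Ibp

/-!
Project LL, piece L14: weighted second moments of smooth strongly log-concave measures.
-/

set_option autoImplicit false

namespace Pool.Agent.Lib.MP_6d896a_gt.LG

open MeasureTheory Filter Topology Set
open scoped ENNReal NNReal ContDiff

variable {n : ℕ} {V : Eu n → ℝ} {κ Λ c0 : ℝ}

/-- strong monotonicity of the gradient -/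
private lemma zs_mono (h : SP V κ Λ c0) (x0 v : Eu n) :
    κ * ‖v‖ ^ 2 ≤ fderiv ℝ V (x0 + v) v - fderiv ℝ V x0 v := by
  have hd : Differentiable ℝ (fderiv ℝ V) :=
    (h.cd.fderiv_right (m := 1) (by norm_num)).differentiable (by norm_num)
  have hg : ∀ t : ℝ, HasDerivAt (fun t : ℝ => fderiv ℝ V (x0 + t • v) v)
      (fderiv ℝ (fderiv ℝ V) (x0 + t • v) v v) t := by
    intro t
    have h1 : HasDerivAt (fun t : ℝ => x0 + t • v) v t := by
      simpa using ((hasDerivAt_id t).smul_const v).const_add x0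
    have h2 : HasDerivAt (fun t : ℝ => fderiv ℝ V (x0 + t • v))
        (fderiv ℝ (fderiv ℝ V) (x0 + t • v) v) t :=
      (hd _).hasFDerivAt.comp_hasDerivAt t h1
    exact ((ContinuousLinearMap.apply ℝ ℝ v).hasFDerivAt).comp_hasDerivAt t h2
  obtain ⟨t, -, ht⟩ := exists_hasDerivAt_eq_slope (fun t : ℝ => fderiv ℝ V (x0 + t • v) v)
    (fun t => fderiv ℝ (fderiv ℝ V) (x0 + t • v) v v) zero_lt_one
    (fun t _ => (hg t).continuousAt.continuousWithinAt) (fun t _ => hg t)
  have h3 := h.conv (x0 + t • v) v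
  rw [ht] at h3
  simpa using h3

private lemma zs_line (h : SP V κ Λ c0) (x : Eu n) :
    V 0 + fderiv ℝ V 0 x + κ / 4 * ‖x‖ ^ 2 ≤ V x := by
  have hd : Differentiable ℝ V := h.cd.differentiable (by norm_num)
  have hg : ∀ t : ℝ, HasDerivAt (fun t : ℝ => V (t • x)) (fderiv ℝ V (t • x) x) t := by
    intro t
    have h1 : HasDerivAt (fun t : ℝ => t • x) x t := by
      simpa using (hasDerivAt_id t).smul_const x
    exact (hd _).hasFDerivAt.comp_hasDerivAt t h1
  have hb : ∀ t : ℝ, 0 < t → fderiv ℝ V 0 x + κ * t * ‖x‖ ^ 2 ≤ fderiv ℝ V (t • x) x := by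
    intro t ht
    have h1 := zs_mono h 0 (t • x)
    rw [zero_add, norm_smul, Real.norm_eq_abs, abs_of_pos ht, map_smul, map_smul, smul_eq_mul,
      smul_eq_mul] at h1
    have h2 : t * (κ * t * ‖x‖ ^ 2) ≤ t * (fderiv ℝ V (t • x) x - fderiv ℝ V 0 x) := by
      nlinarith
    have h3 := le_of_mul_le_mul_left h2 ht
    linarith
  obtain ⟨s, hs, hs'⟩ := exists_hasDerivAt_eq_slope (fun t : ℝ => V (t • x))
    (fun t => fderiv ℝ V (t • x) x) (show (0 : ℝ) < 1 / 2 by norm_num)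
    (fun t _ => (hg t).continuousAt.continuousWithinAt) (fun t _ => hg t)
  obtain ⟨t, ht, ht'⟩ := exists_hasDerivAt_eq_slope (fun t : ℝ => V (t • x))
    (fun t => fderiv ℝ V (t • x) x) (show (1 / 2 : ℝ) < 1 by norm_num)
    (fun t _ => (hg t).continuousAt.continuousWithinAt) (fun t _ => hg t)
  have h1 := hb s hs.1
  have h2 := hb t (by linarith [ht.1])
  rw [hs'] at h1
  rw [ht'] at h2
  simp only [one_smul, zero_smul] at h1 h2
  have hk := h.kpos
  have hn := sq_nonneg ‖x‖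
  have h3 : 0 ≤ κ * s * ‖x‖ ^ 2 := by have := hs.1; positivity
  have h4 : κ * (1 / 2) * ‖x‖ ^ 2 ≤ κ * t * ‖x‖ ^ 2 := by
    have := ht.1
    gcongr
  norm_num at h1 h2
  linarith

private lemma zs_min (h : SP V κ Λ c0) : ∃ x0 : Eu n, fderiv ℝ V x0 = 0 := by
  have hc : Continuous V := h.cd.continuous
  have hk := h.kpos
  have hev : ∀ᶠ x in cocompact (Eu n), V 0 ≤ V x := by
    have hcp := (isCompact_closedBall (0 : Eu n) (4 * ‖fderiv ℝ V 0‖ / κ)).compl_mem_cocompact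
    filter_upwards [hcp] with x hx
    rw [mem_compl_iff, mem_closedBall_zero_iff, not_le, div_lt_iff₀ hk] at hx
    have h1 := zs_line h x
    have h2 := (fderiv ℝ V 0).le_opNorm x
    rw [Real.norm_eq_abs] at h2
    have h3 := neg_abs_le (fderiv ℝ V 0 x)
    have h4 := norm_nonneg x
    nlinarith
  obtain ⟨x0, hx0⟩ := hc.exists_forall_le' 0 hev
  exact ⟨x0, IsLocalMin.fderiv_eq_zero (Eventually.of_forall hx0)⟩

private lemma zs_fd (f : Eu n → ℝ) (x v : Eu n) : fderiv ℝ f x v = ∑ i, v i * UC.pd i f x := by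
  have hv : v = ∑ i, v i • (ej i : Eu n) := by
    ext k
    simp [ej, Finset.sum_apply, Pi.single_apply]
  conv_lhs => rw [hv]
  rw [map_sum]
  refine Finset.sum_congr rfl fun i _ => ?_
  rw [map_smul, smul_eq_mul]
  rfl

private lemma zs_rad (h : SP V κ Λ c0) {x0 : Eu n} (h0 : fderiv ℝ V x0 = 0) {g : Eu n → ℝ}
    (hg : UC.TT g) :
    κ / 2 * UC.Ex V (fun x => ‖x - x0‖ ^ 2 * g x ^ 2) ≤
      n * UC.Ex V (fun x => g x ^ 2) + 2 / κ * UC.Df V g g := by
  have hk := h.kpos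
  have hV1 : ContDiff ℝ 1 V := h.cd.of_le (by norm_num)
  have hVc : Continuous V := h.cd.continuous
  have hgc := hg.continuous
  have hpV : ∀ i, Continuous (UC.pd i V) := fun i =>
    (UC.pd_contDiff (m := 0) hV1 (by norm_num) i).continuous
  have hpg : ∀ i, Continuous (UC.pd i g) := fun i => (hg.pd i).continuous
  have hxi : ∀ i, Continuous fun x : Eu n => x i - x0 i := fun i => by fun_prop
  have hcs : ∀ i, HasCompactSupport (fun x =>
      (x i - x0 i) * (UC.pd i V x * g x ^ 2 - 2 * g x * UC.pd i g x)) := by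
    intro i
    have e : (fun x => (x i - x0 i) * (UC.pd i V x * g x ^ 2 - 2 * g x * UC.pd i g x)) =
        fun x => g x * ((x i - x0 i) * (UC.pd i V x * g x - 2 * UC.pd i g x)) := by
      funext x; ring
    rw [e]
    exact hg.cs.mul_right
  have hct : ∀ i, Continuous (fun x =>
      (x i - x0 i) * (UC.pd i V x * g x ^ 2 - 2 * g x * UC.pd i g x)) := fun i =>
    (hxi i).mul (((hpV i).mul (hgc.pow 2)).sub ((continuous_const.mul hgc).mul (hpg i)))
  have hi : ∀ i, UC.Ex V (fun x => g x ^ 2) =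
      UC.Ex V (fun x => (x i - x0 i) * (UC.pd i V x * g x ^ 2 - 2 * g x * UC.pd i g x)) := by
    intro i
    have h1 := UC.ibp (V := V) (f := fun x : Eu n => x i - x0 i) (g := fun x => g x ^ 2) hV1
      (by fun_prop) (hg.sq.cd.of_le (by exact_mod_cast le_top)) hg.sq.cs i
    have e1 : ∀ x, UC.pd i (fun x : Eu n => x i - x0 i) x = 1 := by
      intro x
      have h2 : HasFDerivAt (fun x : Eu n => x i - x0 i)
          (EuclideanSpace.proj (𝕜 := ℝ) i : Eu n →L[ℝ] ℝ) x :=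
        ((EuclideanSpace.proj (𝕜 := ℝ) i : Eu n →L[ℝ] ℝ).hasFDerivAt).sub_const _
      unfold UC.pd
      rw [h2.fderiv]
      simp [ej]
    have e2 : ∀ x, UC.pd i (fun x => g x ^ 2) x = 2 * g x * UC.pd i g x := by
      intro x
      have h3 := UC.pd_mul hg.differentiable hg.differentiable i x
      have e3 : (fun x => g x ^ 2) = fun x => g x * g x := by funext x; ring
      rw [e3, h3]; ring
    simp only [e1, e2, one_mul] at h1
    rw [h1, ← UC.Ex_neg]
    congr 1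
    funext x
    ring
  have hsum : n * UC.Ex V (fun x => g x ^ 2) = UC.Ex V (fun x => ∑ i,
      (x i - x0 i) * (UC.pd i V x * g x ^ 2 - 2 * g x * UC.pd i g x)) := by
    rw [UC.Ex_sum Finset.univ (F := fun i x =>
      (x i - x0 i) * (UC.pd i V x * g x ^ 2 - 2 * g x * UC.pd i g x))
      fun i _ => UC.int_cs hVc (hct i) (hcs i)]
    rw [← Finset.sum_congr rfl fun i _ => hi i]
    simp
  have hDf : UC.Df V g g = UC.Ex V (fun x => ∑ i, UC.pd i g x ^ 2) := by
    rw [UC.Ex_sum Finset.univ (F := fun i x => UC.pd i g x ^ 2)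
      fun i _ => (hg.pd i).sq.int hVc]
    unfold UC.Df
    refine Finset.sum_congr rfl fun i _ => ?_
    congr 1
    funext x
    ring
  have iA : Integrable (fun x => ‖x - x0‖ ^ 2 * g x ^ 2 * Real.exp (-V x)) := by
    refine UC.int_cs hVc ((by fun_prop : Continuous fun x : Eu n => ‖x - x0‖ ^ 2).mul
      (hgc.pow 2)) ?_
    exact hg.sq.cs.mul_left
  have iB : Integrable (fun x => (∑ i, UC.pd i g x ^ 2) * Real.exp (-V x)) :=
    (UC.TT.sum Finset.univ (F := fun i x => UC.pd i g x ^ 2) fun i _ => (hg.pd i).sq).int hVc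
  have iC : Integrable (fun x => (∑ i,
      (x i - x0 i) * (UC.pd i V x * g x ^ 2 - 2 * g x * UC.pd i g x)) * Real.exp (-V x)) := by
    have : Integrable (fun x => ∑ i,
      (x i - x0 i) * (UC.pd i V x * g x ^ 2 - 2 * g x * UC.pd i g x) * Real.exp (-V x)) :=
      integrable_finsetSum _ fun i _ => UC.int_cs hVc (hct i) (hcs i)
    refine this.congr (Eventually.of_forall fun x => ?_)
    beta_reduce
    rw [Finset.sum_mul]
  rw [hsum, hDf, ← UC.Ex_const_mul, ← UC.Ex_const_mul, ← UC.Ex_add iC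
    ((iB.const_mul (2 / κ)).congr (Eventually.of_forall fun x => by beta_reduce; ring))]
  refine UC.Ex_mono ((iA.const_mul (κ / 2)).congr (Eventually.of_forall fun x => by
    beta_reduce; ring)) ((iC.add (iB.const_mul (2 / κ))).congr (Eventually.of_forall fun x => by
    simp only [Pi.add_apply]; ring)) fun x => ?_
  have h1 := zs_mono h x0 (x - x0)
  rw [h0, add_sub_cancel, zero_apply, sub_zero, zs_fd] at h1
  have hnorm : ‖x - x0‖ ^ 2 = ∑ i, (x i - x0 i) ^ 2 := by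
    rw [EuclideanSpace.norm_sq_eq]
    refine Finset.sum_congr rfl fun i _ => ?_
    simp
  have h2 : ∑ i, (x i - x0 i) * (UC.pd i V x * g x ^ 2 - 2 * g x * UC.pd i g x) =
      (∑ i, (x - x0) i * UC.pd i V x) * g x ^ 2 -
        ∑ i, 2 * ((x i - x0 i) * g x) * UC.pd i g x := by
    rw [Finset.sum_mul, ← Finset.sum_sub_distrib]
    refine Finset.sum_congr rfl fun i _ => ?_
    simp only [PiLp.sub_apply]
    ring
  have h3 : ∑ i, 2 * ((x i - x0 i) * g x) * UC.pd i g x ≤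
      κ / 2 * (‖x - x0‖ ^ 2 * g x ^ 2) + 2 / κ * ∑ i, UC.pd i g x ^ 2 := by
    rw [hnorm, Finset.sum_mul, Finset.mul_sum, Finset.mul_sum, ← Finset.sum_add_distrib]
    refine Finset.sum_le_sum fun i _ => ?_
    have h4 : κ * (κ / 2 * ((x i - x0 i) ^ 2 * g x ^ 2) + 2 / κ * UC.pd i g x ^ 2) =
        κ ^ 2 / 2 * ((x i - x0 i) * g x) ^ 2 + 2 * UC.pd i g x ^ 2 := by
      field_simp
    have h5 : κ * (2 * ((x i - x0 i) * g x) * UC.pd i g x) ≤
        κ * (κ / 2 * ((x i - x0 i) ^ 2 * g x ^ 2) + 2 / κ * UC.pd i g x ^ 2) := by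
      rw [h4]
      nlinarith [sq_nonneg (κ * ((x i - x0 i) * g x) - 2 * UC.pd i g x)]
    exact le_of_mul_le_mul_left h5 hk
  have h6 : κ * ‖x - x0‖ ^ 2 * g x ^ 2 ≤ (∑ i, (x - x0) i * UC.pd i V x) * g x ^ 2 :=
    mul_le_mul_of_nonneg_right h1 (sq_nonneg _)
  rw [h2]
  linarith

private lemma zs_int2 (h : SP V κ Λ c0) (x0 : Eu n) :
    Integrable (fun x : Eu n => ‖x - x0‖ ^ 2 * Real.exp (-V x)) := by
  have hVc : Continuous V := h.cd.continuous
  refine (h.int4.const_mul ((1 + ‖x0‖) ^ 2)).mono' ?_ (Eventually.of_forall fun x => ?_)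
  · exact ((by fun_prop : Continuous fun x : Eu n => ‖x - x0‖ ^ 2).mul
      (Real.continuous_exp.comp hVc.neg)).aestronglyMeasurable
  · have hx := norm_nonneg x
    have h0 := norm_nonneg x0
    rw [Real.norm_eq_abs, abs_of_nonneg (by positivity), ← mul_assoc]
    refine mul_le_mul_of_nonneg_right ?_ (Real.exp_pos _).le
    have h1 : ‖x - x0‖ ≤ (1 + ‖x0‖) * (1 + ‖x‖) := by
      have := norm_sub_le x x0
      nlinarith
    calc ‖x - x0‖ ^ 2 ≤ ((1 + ‖x0‖) * (1 + ‖x‖)) ^ 2 := pow_le_pow_left₀ (norm_nonneg _) h1 2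
      _ = (1 + ‖x0‖) ^ 2 * (1 + ‖x‖) ^ 2 := by ring
      _ ≤ (1 + ‖x0‖) ^ 2 * (1 + ‖x‖) ^ 4 := by
        refine mul_le_mul_of_nonneg_left ?_ (sq_nonneg _)
        exact pow_le_pow_right₀ (by linarith) (by norm_num)

/-- a bump function, and a bound of its derivative -/
private lemma zs_bump (n : ℕ) : ∃ (b : Eu n → ℝ) (B : ℝ), 0 ≤ B ∧ UC.TT b ∧ (∀ x, 0 ≤ b x) ∧
    (∀ x, b x ≤ 1) ∧ (∀ x, ‖x‖ ≤ 1 → b x = 1) ∧ ∀ x, ‖fderiv ℝ b x‖ ≤ B := by
  let b : ContDiffBump (0 : Eu n) := ⟨1, 2, one_pos, one_lt_two⟩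
  have hT : UC.TT (b : Eu n → ℝ) := ⟨b.contDiff, b.hasCompactSupport⟩
  have hc : Continuous (fderiv ℝ (b : Eu n → ℝ)) := hT.cd.continuous_fderiv (by simp)
  have hs : HasCompactSupport (fderiv ℝ (b : Eu n → ℝ)) := hT.cs.fderiv ℝ
  obtain ⟨B, hB⟩ := hs.exists_bound_of_continuous hc
  refine ⟨b, B, (norm_nonneg _).trans (hB 0), hT, fun x => b.nonneg, fun x => b.le_one, ?_, hB⟩
  intro x hx
  exact b.one_of_mem_closedBall (mem_closedBall_zero_iff.2 hx)

private lemma zs_mean (n : ℕ) (hκ : 0 < κ) : ∃ C : ℝ, 0 ≤ C ∧ ∀ (V : Eu n → ℝ) (Λ c0 : ℝ),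
    SP V κ Λ c0 → ∀ x0 : Eu n, fderiv ℝ V x0 = 0 →
      ∑ k, (UC.Ex V (fun y => y k) - x0 k) ^ 2 ≤ C := by
  obtain ⟨b, B, hB0, hT, hb0, hb1, hb2, hB⟩ := zs_bump n
  refine ⟨2 / κ * (n + 2 / κ * B ^ 2), by positivity, ?_⟩
  intro V Λ c0 h x0 h0
  have hVc : Continuous V := h.cd.continuous
  have i0 : Integrable (fun x => Real.exp (-V x)) := by
    refine h.int4.mono' (Real.continuous_exp.comp hVc.neg).aestronglyMeasurable
      (Eventually.of_forall fun x => ?_)
    rw [Real.norm_eq_abs, abs_of_pos (Real.exp_pos _)]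
    have h1 : (1 : ℝ) ≤ (1 + ‖x‖) ^ 4 := one_le_pow₀ (by linarith [norm_nonneg x])
    nlinarith [Real.exp_pos (-V x)]
  have i2 := zs_int2 h x0
  -- the bound for the scaled bump functions
  have hk : ∀ k : ℕ, UC.Ex V (fun x => ‖x - x0‖ ^ 2 * b (((k : ℝ) + 1)⁻¹ • x) ^ 2) ≤
      2 / κ * (n + 2 / κ * B ^ 2) := by
    intro k
    set c : ℝ := ((k : ℝ) + 1)⁻¹ with hc
    have hc0 : 0 < c := by positivity
    have hc1 : c ≤ 1 := inv_le_one_of_one_le₀ (by linarith [(k.cast_nonneg : (0 : ℝ) ≤ k)])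
    have hg : UC.TT (fun x => b (c • x)) := by
      refine ⟨hT.cd.comp (by fun_prop), ?_⟩
      exact hT.cs.comp_smul hc0.ne'
    have h1 := zs_rad h h0 hg
    have h2 : UC.Ex V (fun x => b (c • x) ^ 2) ≤ 1 := by
      rw [← h.mass]
      refine UC.Ex_mono (hg.sq.int hVc) (by simpa using i0) fun x => ?_
      have := hb0 (c • x)
      have := hb1 (c • x)
      nlinarith
    have h3 : UC.Df V (fun x => b (c • x)) (fun x => b (c • x)) ≤ B ^ 2 := by
      have hDf : UC.Df V (fun x => b (c • x)) (fun x => b (c • x)) =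
          UC.Ex V (fun x => ∑ i, UC.pd i (fun x => b (c • x)) x ^ 2) := by
        rw [UC.Ex_sum Finset.univ (F := fun i x => UC.pd i (fun x => b (c • x)) x ^ 2)
          fun i _ => (hg.pd i).sq.int hVc]
        unfold UC.Df
        refine Finset.sum_congr rfl fun i _ => ?_
        congr 1
        funext x
        ring
      have h5 : UC.Ex V (fun _ => B ^ 2) = B ^ 2 := by
        have h6 := UC.Ex_const_mul V (fun _ => (1 : ℝ)) (B ^ 2)
        rw [h.mass] at h6
        simpa using h6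
      rw [hDf, ← h5]
      refine UC.Ex_mono ?_ (i0.const_mul _) fun x => ?_
      · exact (UC.TT.sum Finset.univ (F := fun i x => UC.pd i (fun x => b (c • x)) x ^ 2)
          fun i _ => (hg.pd i).sq).int hVc
      · rw [← UC.norm_fderiv_sq]
        refine pow_le_pow_left₀ (norm_nonneg _) ?_ 2
        have h7 : HasFDerivAt (fun x => b (c • x))
            ((fderiv ℝ b (c • x)).comp (c • ContinuousLinearMap.id ℝ (Eu n))) x := by
          have h8 : HasFDerivAt (fun x : Eu n => c • x) (c • ContinuousLinearMap.id ℝ (Eu n)) x :=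
            (hasFDerivAt_id x).const_smul c
          exact (hT.differentiable _).hasFDerivAt.comp x h8
        rw [h7.fderiv, ContinuousLinearMap.comp_smul, ContinuousLinearMap.comp_id, norm_smul,
          Real.norm_eq_abs, abs_of_pos hc0]
        calc c * ‖fderiv ℝ b (c • x)‖ ≤ 1 * B :=
              mul_le_mul hc1 (hB _) (norm_nonneg _) zero_le_one
          _ = B := one_mul B
    have h4 : κ / 2 * UC.Ex V (fun x => ‖x - x0‖ ^ 2 * b (c • x) ^ 2) ≤ n + 2 / κ * B ^ 2 := by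
      refine h1.trans ?_
      have hn : (0 : ℝ) ≤ n := n.cast_nonneg
      have h5 : (n : ℝ) * UC.Ex V (fun x => b (c • x) ^ 2) ≤ n * 1 :=
        mul_le_mul_of_nonneg_left h2 hn
      have h6 := mul_le_mul_of_nonneg_left h3 (by positivity : 0 ≤ 2 / κ)
      linarith
    have h9 : UC.Ex V (fun x => ‖x - x0‖ ^ 2 * b (c • x) ^ 2) =
        2 / κ * (κ / 2 * UC.Ex V (fun x => ‖x - x0‖ ^ 2 * b (c • x) ^ 2)) := by
      field_simp
    rw [h9]
    exact mul_le_mul_of_nonneg_left h4 (by positivity)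
  -- the limit
  have hlim : Tendsto (fun k : ℕ => UC.Ex V (fun x =>
      ‖x - x0‖ ^ 2 * b (((k : ℝ) + 1)⁻¹ • x) ^ 2)) atTop
      (𝓝 (UC.Ex V (fun x => ‖x - x0‖ ^ 2))) := by
    unfold UC.Ex
    refine tendsto_integral_of_dominated_convergence
      (fun x => ‖x - x0‖ ^ 2 * Real.exp (-V x)) ?_ i2 ?_ ?_
    · intro k
      have hbc := hT.continuous
      exact (((by fun_prop : Continuous fun x : Eu n => ‖x - x0‖ ^ 2).mul
        ((hbc.comp (by fun_prop)).pow 2)).mul
        (Real.continuous_exp.comp hVc.neg)).aestronglyMeasurable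
    · intro k
      refine Eventually.of_forall fun x => ?_
      have h1 := hb0 (((k : ℝ) + 1)⁻¹ • x)
      have h2 := hb1 (((k : ℝ) + 1)⁻¹ • x)
      rw [Real.norm_eq_abs, abs_of_nonneg (by positivity)]
      refine mul_le_mul_of_nonneg_right ?_ (Real.exp_pos _).le
      have h3 : b (((k : ℝ) + 1)⁻¹ • x) ^ 2 ≤ 1 := by nlinarith
      nlinarith [sq_nonneg ‖x - x0‖]
    · refine Eventually.of_forall fun x => ?_
      refine tendsto_const_nhds.congr' ?_
      obtain ⟨N, hN⟩ := exists_nat_ge ‖x‖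
      filter_upwards [eventually_ge_atTop N] with k hk'
      have h1 : b (((k : ℝ) + 1)⁻¹ • x) = 1 := by
        apply hb2
        rw [norm_smul, Real.norm_eq_abs, abs_of_pos (by positivity), inv_mul_le_iff₀ (by positivity)]
        have : (N : ℝ) ≤ k := by exact_mod_cast hk'
        linarith
      rw [h1]
      ring
  have hE : UC.Ex V (fun x => ‖x - x0‖ ^ 2) ≤ 2 / κ * (n + 2 / κ * B ^ 2) :=
    le_of_tendsto' hlim hk
  refine le_trans ?_ hE
  have hnorm : ∀ x : Eu n, ‖x - x0‖ ^ 2 = ∑ i, (x i - x0 i) ^ 2 := by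
    intro x
    rw [EuclideanSpace.norm_sq_eq]
    refine Finset.sum_congr rfl fun i _ => ?_
    simp
  have hle : ∀ (i : Fin n) (x : Eu n), (x i - x0 i) ^ 2 ≤ ‖x - x0‖ ^ 2 := by
    intro i x
    rw [hnorm]
    exact Finset.single_le_sum (f := fun i => (x i - x0 i) ^ 2) (fun i _ => sq_nonneg _)
      (Finset.mem_univ i)
  have j2 : ∀ i, Integrable (fun x : Eu n => (x i - x0 i) ^ 2 * Real.exp (-V x)) := by
    intro i
    refine i2.mono' ?_ (Eventually.of_forall fun x => ?_)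
    · exact ((by fun_prop : Continuous fun x : Eu n => (x i - x0 i) ^ 2).mul
        (Real.continuous_exp.comp hVc.neg)).aestronglyMeasurable
    · rw [Real.norm_eq_abs, abs_of_nonneg (by positivity)]
      exact mul_le_mul_of_nonneg_right (hle i x) (Real.exp_pos _).le
  have j1 : ∀ i, Integrable (fun x : Eu n => (x i - x0 i) * Real.exp (-V x)) := by
    intro i
    refine (i0.add (j2 i)).mono' ?_ (Eventually.of_forall fun x => ?_)
    · exact ((by fun_prop : Continuous fun x : Eu n => (x i - x0 i)).mul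
        (Real.continuous_exp.comp hVc.neg)).aestronglyMeasurable
    · simp only [Pi.add_apply]
      rw [Real.norm_eq_abs, abs_mul, abs_of_pos (Real.exp_pos _)]
      have h1 : |x i - x0 i| ≤ 1 + (x i - x0 i) ^ 2 := by
        rw [← sq_abs (x i - x0 i)]
        nlinarith [sq_nonneg (|x i - x0 i| - 1), abs_nonneg (x i - x0 i)]
      nlinarith [Real.exp_pos (-V x)]
  have e1 : UC.Ex V (fun x => ‖x - x0‖ ^ 2) = ∑ i, UC.Ex V (fun x => (x i - x0 i) ^ 2) := by
    rw [← UC.Ex_sum Finset.univ (F := fun i (x : Eu n) => (x i - x0 i) ^ 2) fun i _ => j2 i]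
    congr 1
    funext x
    exact hnorm x
  rw [e1]
  refine Finset.sum_le_sum fun i _ => ?_
  have e2 : UC.Ex V (fun y => y i) - x0 i = UC.Ex V (fun x => (x i - x0 i) * 1) := by
    have e3 : UC.Ex V (fun _ => x0 i) = x0 i := by
      have h6 := UC.Ex_const_mul V (fun _ => (1 : ℝ)) (x0 i)
      rw [h.mass] at h6
      simpa using h6
    have i3 : Integrable (fun x : Eu n => x i * Real.exp (-V x)) := by
      refine ((j1 i).add (i0.const_mul (x0 i))).congr (Eventually.of_forall fun x => ?_)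
      simp only [Pi.add_apply]
      ring
    have h7 := UC.Ex_sub i3 (i0.const_mul (x0 i))
    rw [e3] at h7
    rw [← h7]
    simp
  rw [e2]
  have h8 := UC.Ex_cs (V := V) (f := fun x : Eu n => x i - x0 i) (g := fun _ => 1) (j2 i)
    (by simpa using i0) (by simpa using j1 i)
  refine h8.trans (le_of_eq ?_)
  have e4 : UC.Ex V (fun _ => (1 : ℝ) ^ 2) = 1 := by
    simpa using h.mass
  rw [e4, mul_one]

theorem zsm (n : ℕ) (hκ : 0 < κ) : ∃ C : ℝ, 0 ≤ C ∧ ∀ (V : Eu n → ℝ) (Λ c0 : ℝ), SP V κ Λ c0 →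
    ∀ h : Eu n → ℝ, UC.TT h →
      ∑ k, UC.Ex V (fun x => xc V k x ^ 2 * h x ^ 2) ≤
        C * (UC.Ex V (fun x => h x ^ 2) + UC.Df V h h) := by
  obtain ⟨C, hC, hm⟩ := zs_mean n hκ
  refine ⟨4 / κ * (n + 2 / κ) + 2 * C, by positivity, ?_⟩
  intro V Λ c0 hs h hh
  obtain ⟨x0, h0⟩ := zs_min hs
  have hVc : Continuous V := hs.cd.continuous
  have hhc := hh.continuous
  have hD0 : 0 ≤ UC.Df V h h := Finset.sum_nonneg fun j _ =>
    UC.Ex_nonneg fun x => mul_self_nonneg _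
  have hH0 : 0 ≤ UC.Ex V (fun x => h x ^ 2) := UC.Ex_nonneg fun x => sq_nonneg _
  have h1 := zs_rad hs h0 hh
  have h2 := hm V Λ c0 hs x0 h0
  have hnorm : ∀ x : Eu n, ‖x - x0‖ ^ 2 = ∑ i, (x i - x0 i) ^ 2 := by
    intro x
    rw [EuclideanSpace.norm_sq_eq]
    refine Finset.sum_congr rfl fun i _ => ?_
    simp
  have hxc : ∀ k, Continuous (xc V k) := fun k => by
    unfold xc
    fun_prop
  have i1 : ∀ k, Integrable (fun x => xc V k x ^ 2 * h x ^ 2 * Real.exp (-V x)) := fun k =>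
    UC.int_cs hVc (((hxc k).pow 2).mul (hhc.pow 2)) hh.sq.cs.mul_left
  have iA : Integrable (fun x => ‖x - x0‖ ^ 2 * h x ^ 2 * Real.exp (-V x)) :=
    UC.int_cs hVc ((by fun_prop : Continuous fun x : Eu n => ‖x - x0‖ ^ 2).mul
      (hhc.pow 2)) hh.sq.cs.mul_left
  have iH : Integrable (fun x => h x ^ 2 * Real.exp (-V x)) := hh.sq.int hVc
  have h3 : ∑ k, UC.Ex V (fun x => xc V k x ^ 2 * h x ^ 2) ≤
      2 * UC.Ex V (fun x => ‖x - x0‖ ^ 2 * h x ^ 2) +
        (2 * ∑ k, (UC.Ex V (fun y => y k) - x0 k) ^ 2) * UC.Ex V (fun x => h x ^ 2) := by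
    rw [← UC.Ex_sum Finset.univ (F := fun k x => xc V k x ^ 2 * h x ^ 2) fun k _ => i1 k,
      ← UC.Ex_const_mul, ← UC.Ex_const_mul, ← UC.Ex_add
      ((iA.const_mul 2).congr (Eventually.of_forall fun x => by beta_reduce; ring))
      ((iH.const_mul (2 * ∑ k, (UC.Ex V (fun y => y k) - x0 k) ^ 2)).congr
        (Eventually.of_forall fun x => by beta_reduce; ring))]
    refine UC.Ex_mono ?_ (((iA.const_mul 2).add (iH.const_mul
      (2 * ∑ k, (UC.Ex V (fun y => y k) - x0 k) ^ 2))).congr (Eventually.of_forall fun x => by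
      simp only [Pi.add_apply]; ring)) fun x => ?_
    · have : Integrable (fun x => ∑ k, xc V k x ^ 2 * h x ^ 2 * Real.exp (-V x)) :=
        integrable_finsetSum _ fun k _ => i1 k
      refine this.congr (Eventually.of_forall fun x => ?_)
      beta_reduce
      rw [Finset.sum_mul]
    · rw [hnorm, ← Finset.sum_mul]
      have h4 : ∑ k, xc V k x ^ 2 ≤ 2 * ∑ i, (x i - x0 i) ^ 2 +
          2 * ∑ k, (UC.Ex V (fun y => y k) - x0 k) ^ 2 := by
        rw [Finset.mul_sum, Finset.mul_sum, ← Finset.sum_add_distrib]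
        refine Finset.sum_le_sum fun k _ => ?_
        unfold xc
        nlinarith [sq_nonneg ((x k - x0 k) + (UC.Ex V (fun y => y k) - x0 k))]
      have h5 := mul_le_mul_of_nonneg_right h4 (sq_nonneg (h x))
      linarith
  refine h3.trans ?_
  have hk := hκ
  have h6 : UC.Ex V (fun x => ‖x - x0‖ ^ 2 * h x ^ 2) ≤
      2 / κ * (n * UC.Ex V (fun x => h x ^ 2) + 2 / κ * UC.Df V h h) := by
    have h9 : UC.Ex V (fun x => ‖x - x0‖ ^ 2 * h x ^ 2) =
        2 / κ * (κ / 2 * UC.Ex V (fun x => ‖x - x0‖ ^ 2 * h x ^ 2)) := by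
      field_simp
    rw [h9]
    exact mul_le_mul_of_nonneg_left h1 (by positivity)
  have h7 := mul_le_mul_of_nonneg_right h2 hH0
  have hn : (0 : ℝ) ≤ n := n.cast_nonneg
  have h8 : 0 ≤ 4 / κ * n * UC.Df V h h := by positivity
  have h10 : 0 ≤ 4 / κ * (2 / κ) * UC.Ex V (fun x => h x ^ 2) := by positivity
  have h11 : 0 ≤ 2 * C * UC.Df V h h := by positivity
  calc 2 * UC.Ex V (fun x => ‖x - x0‖ ^ 2 * h x ^ 2) +
        (2 * ∑ k, (UC.Ex V (fun y => y k) - x0 k) ^ 2) * UC.Ex V (fun x => h x ^ 2)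
      ≤ 2 * (2 / κ * (n * UC.Ex V (fun x => h x ^ 2) + 2 / κ * UC.Df V h h)) +
        2 * (C * UC.Ex V (fun x => h x ^ 2)) := by linarith
    _ ≤ (4 / κ * (n + 2 / κ) + 2 * C) * (UC.Ex V (fun x => h x ^ 2) + UC.Df V h h) := by
      have e : (4 / κ * (n + 2 / κ) + 2 * C) * (UC.Ex V (fun x => h x ^ 2) + UC.Df V h h) -
          (2 * (2 / κ * (n * UC.Ex V (fun x => h x ^ 2) + 2 / κ * UC.Df V h h)) +
            2 * (C * UC.Ex V (fun x => h x ^ 2))) =
          4 / κ * n * UC.Df V h h + 4 / κ * (2 / κ) * UC.Ex V (fun x => h x ^ 2) +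
            2 * C * UC.Df V h h := by ring
      linarith

end Pool.Agent.Lib.MP_6d896a_gt.LG
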