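import Mathlib
import Pool.Agent.Lib.MP_6d896a_gt.LG.PA1
import Pool.Agent.Lib.MP_6d896a_gt.LL.NearExt
import Pool.Agent.Lib.MP_6d896a_gt.LL.ZSm
import Pool.Agent.Lib.MP_6d896a_gt.LL.TsW
import Pool.Agent.Lib.MP_6d896a_gt.LL.KtSm
import Pool.Agent.Lib.MP_6d896a_gt.LL.OsSm
import Pool.Agent.Lib.MP_6d896a_gt.LL.OsBs

/-!
Project LL, piece L17: the step in the smooth class.
-/

set_option autoImplicit false
set_option linter.unusedVariables false

namespace Pool.Agent.Lib.MP_6d896a_gt.LG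

open MeasureTheory Filter Topology Set
open scoped ENNReal NNReal

variable {n : ℕ} {V f u : Eu n → ℝ} {κ Λ c0 : ℝ} {a r : Fin n → ℝ}

/-! ### real inequalities -/

private lemma cb_scalar {a t s : ℝ} (ha0 : 0 < a) (ha1 : a < 1) (ht : 0 < t) (hs : 0 ≤ s)
    {M : ℝ} (hM : 2 ≤ M) :
    M * a + (t + s) / (t / (2 * (1 - a)) + s) ≤
      (2 + (M - 2) * a) * (1 + 4 * (s / t) / M + 2 * (s / t) ^ 2) := by
  set σ := s / t with hσ
  have hσ0 : 0 ≤ σ := by positivity
  have hs' : s = σ * t := by rw [hσ]; field_simp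
  set w := 2 * (1 - a) with hw
  have hw0 : 0 < w := by linarith
  have hw2 : w < 2 := by linarith
  have e1 : (t + s) / (t / w + s) = w * (1 + σ) / (1 + σ * w) := by
    rw [hs']
    field_simp
  have e2 : w * (1 + σ) / (1 + σ * w) ≤ w + σ * (4 * a - w) + 2 * σ ^ 2 * w := by
    rw [div_le_iff₀ (by positivity)]
    have ha : a = 1 - w / 2 := by linarith
    rw [ha]
    have h1 : 0 ≤ σ ^ 2 * w := by positivity
    have h2 : 0 ≤ σ ^ 3 * w ^ 2 := by positivity
    nlinarith [mul_nonneg hσ0 (sq_nonneg (w - 2)), mul_nonneg h1 (sq_nonneg (w - 2)),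
      mul_nonneg h1 hw0.le, mul_nonneg h1 (by linarith : (0:ℝ) ≤ 2 - w),
      mul_nonneg (mul_nonneg hσ0 hσ0) (mul_nonneg hw0.le (by linarith : (0:ℝ) ≤ 2 - w))]
  have hr : 2 + (M - 2) * a = M * a + w := by rw [hw]; ring
  have hMa : 0 < M * a := by positivity
  rw [e1, hr]
  have e3 : 4 * σ / M * (M * a + w) = 4 * σ * a + 4 * σ / M * w := by
    field_simp
  have h3 : 0 ≤ 4 * σ / M * w := by positivity
  have h4 : 0 ≤ 2 * σ ^ 2 * (M * a) := by positivity
  have h5 : 0 ≤ σ * w := by positivity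
  nlinarith

private lemma cb_final {s C1 C3 rho rho0 C5 K K' c A : ℝ} (hs0 : 0 < s) (hs1 : s ≤ 1)
    (hs2 : s * (2 * (1 + C1)) ≤ 1) (hC1 : 0 ≤ C1) (hC3 : 0 ≤ C3) (hrho : 0 ≤ rho)
    (hrr : rho ≤ rho0) (hC5 : C5 = 2 * ((1 + rho0) * (1 + C1) + C1 + C3)) (hK' : 1 ≤ K')
    (hK : K' * (1 + s * (1 + rho) + C5 * s ^ 2) ≤ K) (hc : K < c)
    (hA : A ≤ rho)
    (h : c * (1 - s - C1 * s ^ 2) ≤ K' * (1 + s * A + C3 * s ^ 2)) : False := by
  have h1 : 1 / 2 ≤ 1 - s - C1 * s ^ 2 := by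
    have : C1 * s ^ 2 ≤ C1 * s := by
      have : s ^ 2 ≤ s := by nlinarith
      exact mul_le_mul_of_nonneg_left this hC1
    nlinarith
  have h2 : K * (1 - s - C1 * s ^ 2) < c * (1 - s - C1 * s ^ 2) :=
    mul_lt_mul_of_pos_right hc (by linarith)
  have h3 : K' * (1 + s * (1 + rho) + C5 * s ^ 2) * (1 - s - C1 * s ^ 2) ≤
      K * (1 - s - C1 * s ^ 2) := mul_le_mul_of_nonneg_right hK (by linarith)
  have h4 : K' * (1 + s * A + C3 * s ^ 2) ≤ K' * (1 + s * rho + C3 * s ^ 2) := by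
    refine mul_le_mul_of_nonneg_left ?_ (by linarith)
    nlinarith
  have h5 : 1 + s * rho + C3 * s ^ 2 ≤ (1 + s * (1 + rho) + C5 * s ^ 2) * (1 - s - C1 * s ^ 2) := by
    have hr0 : 0 ≤ rho0 := hrho.trans hrr
    have hC50 : 0 ≤ C5 := by rw [hC5]; positivity
    have e : (1 + s * (1 + rho) + C5 * s ^ 2) * (1 - s - C1 * s ^ 2) =
        1 + s * rho + s ^ 2 * (C5 * (1 - s - C1 * s ^ 2) - (1 + rho) - C1 -
          C1 * s * (1 + rho)) := by ring
    rw [e]
    have h6 : C5 * (1 / 2) ≤ C5 * (1 - s - C1 * s ^ 2) := mul_le_mul_of_nonneg_left h1 hC50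
    have h7 : C1 * s * (1 + rho) ≤ C1 * (1 + rho) := by
      have : C1 * s ≤ C1 := by nlinarith
      exact mul_le_mul_of_nonneg_right this (by linarith)
    have h8 : C3 ≤ C5 * (1 - s - C1 * s ^ 2) - (1 + rho) - C1 - C1 * s * (1 + rho) := by
      have h9 : (1 + rho) * (1 + C1) ≤ (1 + rho0) * (1 + C1) :=
        mul_le_mul_of_nonneg_right (by linarith) (by linarith)
      rw [hC5] at h6
      nlinarith
    have h10 := mul_le_mul_of_nonneg_left h8 (sq_nonneg s)
    linarith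
  have h6 : K' * (1 + s * rho + C3 * s ^ 2) ≤
      K' * (1 + s * (1 + rho) + C5 * s ^ 2) * (1 - s - C1 * s ^ 2) := by
    rw [mul_assoc]
    exact mul_le_mul_of_nonneg_left h5 (by linarith)
  linarith

/-- the cubic term after optimisation of the weight -/
private lemma cb_alpha {c t M Cw : ℝ} (hc : 0 < c) (ht : 0 < t) (hM : 0 < M) (hC : 0 < Cw) :
    M * (1 / (t * Real.sqrt (Cw * c)) * (2 * Cw / M) * (1 / c) +
      (1 / (t * Real.sqrt (Cw * c)) * (t / 2) ^ 2)⁻¹ * (1 / (2 * M)) * (1 / c ^ 2)) =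
      4 * Real.sqrt Cw / (t * Real.sqrt c) / c := by
  have e : Real.sqrt (Cw * c) = Real.sqrt Cw * Real.sqrt c := Real.sqrt_mul hC.le c
  rw [e]
  set x := Real.sqrt Cw with hx
  set y := Real.sqrt c with hy
  have hx0 : 0 < x := Real.sqrt_pos.2 hC
  have hy0 : 0 < y := Real.sqrt_pos.2 hc
  have e1 : Cw = x ^ 2 := (Real.sq_sqrt hC.le).symm
  have e2 : c = y ^ 2 := (Real.sq_sqrt hc.le).symm
  rw [e1, e2]
  field_simp
  ring


/-! ### energies -/

lemma SP.lower (h : SP V κ Λ c0) {κ' : ℝ} (hκ : 0 < κ') {q : Fin n → ℝ} (hq : ∀ i, κ' ≤ q i)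
    (hH : HesD V q) : SP V κ' Λ c0 := by
  refine { h with kpos := hκ, conv := fun x v => ?_ }
  refine le_trans ?_ (hH x v)
  rw [EuclideanSpace.norm_sq_eq, Finset.mul_sum]
  refine Finset.sum_le_sum fun i _ => ?_
  rw [Real.norm_eq_abs, sq_abs]
  exact mul_le_mul_of_nonneg_right (hq i) (sq_nonneg _)

private lemma cb_pd_int (h : SP V κ Λ c0) (hu : UC.TT u) (i : Fin n) :
    Integrable (fun x => UC.pd i u x ^ 2 * Real.exp (-V x)) := (h.sq_pd hu i).2

private lemma rE_nonneg (hr : ∀ i, 0 ≤ r i) : 0 ≤ rE V r u :=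
  Finset.sum_nonneg fun i _ => mul_nonneg (hr i) (UC.Ex_nonneg fun x => sq_nonneg _)

private lemma rE2_nonneg (hr : ∀ i, 0 ≤ r i) : 0 ≤ rE2 V r u :=
  Finset.sum_nonneg fun i _ => Finset.sum_nonneg fun j _ =>
    mul_nonneg (mul_nonneg (hr i) (hr j)) (UC.Ex_nonneg fun x => sq_nonneg _)

private lemma rE_mono {r' : Fin n → ℝ} (hr : ∀ i, r i ≤ r' i) : rE V r u ≤ rE V r' u :=
  Finset.sum_le_sum fun i _ => mul_le_mul_of_nonneg_right (hr i)
    (UC.Ex_nonneg fun x => sq_nonneg _)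

private lemma rE_cmul (c : ℝ) : rE V (fun i => c * r i) u = c * rE V r u := by
  unfold rE
  rw [Finset.mul_sum]
  exact Finset.sum_congr rfl fun i _ => by ring

private lemma Ex_gsq (h : SP V κ Λ c0) (hu : UC.TT u) :
    UC.Ex V (gsq u) = ∑ i, UC.Ex V (fun x => UC.pd i u x ^ 2) := by
  rw [← UC.Ex_sum (V := V) Finset.univ (F := fun i x => UC.pd i u x ^ 2)
    fun i _ => cb_pd_int h hu i]
  rfl

/-- directional variances for a diagonal covariance -/
lemma CovD.covLe (h : SP V κ Λ c0) (hA : CovD V a) {s : ℝ} (ha : ∀ i, a i ≤ s) : CovLe V s := by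
  intro w
  have hx : ∀ i, SqV V (fun x : Eu n => x i) := fun i => h.sq_coord i
  have e0 : (fun x : Eu n => (inner ℝ x w : ℝ)) = fun x => ∑ i, w i * x i := by
    funext x
    rw [PiLp.inner_apply]
    refine Finset.sum_congr rfl fun i _ => ?_
    simp
  have e1 : UC.Ex V (fun x : Eu n => ∑ i, w i * x i) = ∑ i, w i * UC.Ex V (fun x => x i) := by
    rw [UC.Ex_sum Finset.univ (F := fun i x => w i * x i) fun i _ =>
      ((hx i).cmul (w i)).int h]
    exact Finset.sum_congr rfl fun i _ => UC.Ex_const_mul V _ _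
  have e2 : UC.Ex V (fun x : Eu n => (∑ i, w i * x i) ^ 2) =
      ∑ i, ∑ j, w i * w j * UC.Ex V (fun x => x i * x j) := by
    have e3 : (fun x : Eu n => (∑ i, w i * x i) ^ 2) =
        fun x => ∑ i, ∑ j, w i * w j * (x i * x j) := by
      funext x
      rw [sq, Finset.sum_mul_sum]
      exact Finset.sum_congr rfl fun i _ => Finset.sum_congr rfl fun j _ => by ring
    have hi : ∀ i j, Integrable (fun x : Eu n => w i * w j * (x i * x j) * Real.exp (-V x)) :=
      fun i j => by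
        refine (((hx i).mul_int h.cont (hx j)).const_mul (w i * w j)).congr
          (Eventually.of_forall fun x => ?_)
        ring
    rw [e3, UC.Ex_sum Finset.univ (F := fun i x => ∑ j, w i * w j * (x i * x j)) fun i _ => by
      have : (fun x : Eu n => (∑ j, w i * w j * (x i * x j)) * Real.exp (-V x)) =
          fun x => ∑ j, w i * w j * (x i * x j) * Real.exp (-V x) := by
        funext x; rw [Finset.sum_mul]
      rw [this]
      exact integrable_finsetSum _ fun j _ => hi i j]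
    refine Finset.sum_congr rfl fun i _ => ?_
    rw [UC.Ex_sum Finset.univ (F := fun j x => w i * w j * (x i * x j)) fun j _ => hi i j]
    exact Finset.sum_congr rfl fun j _ => UC.Ex_const_mul V _ _
  have e4 : VarE V (fun x => inner ℝ x w) = ∑ i, a i * w i ^ 2 := by
    unfold VarE
    rw [e0, e1, e2, sq (∑ i, w i * UC.Ex V fun x => x i), Finset.sum_mul_sum,
      ← Finset.sum_sub_distrib]
    refine Finset.sum_congr rfl fun i _ => ?_
    rw [← Finset.sum_sub_distrib]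
    have e5 : ∀ j, w i * w j * UC.Ex V (fun x => x i * x j) -
        w i * UC.Ex V (fun x => x i) * (w j * UC.Ex V fun x => x j) =
        if i = j then a i * w i ^ 2 else 0 := by
      intro j
      have h6 := hA i j
      unfold AmE CvE at h6
      have h7 : w i * w j * UC.Ex V (fun x => x i * x j) -
          w i * UC.Ex V (fun x => x i) * (w j * UC.Ex V fun x => x j) =
          w i * w j * (UC.Ex V (fun x => x i * x j) - UC.Ex V (fun x => x i) *
            UC.Ex V fun x => x j) := by ring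
      rw [h7, h6]
      split_ifs with hij
      · subst hij; ring
      · ring
    rw [Finset.sum_congr rfl fun j _ => e5 j]
    simp
  rw [e4, EuclideanSpace.norm_sq_eq, Finset.mul_sum]
  refine Finset.sum_le_sum fun i _ => ?_
  rw [Real.norm_eq_abs, sq_abs]
  exact mul_le_mul_of_nonneg_right (ha i) (sq_nonneg _)

private lemma cb_vec (h : SP V κ Λ c0) (hA : CovD V a) (ha : ∀ i, a i ≤ 1) (hu : UC.TT u) :
    ∑ k, CvE V (fun x => x k) u ^ 2 ≤ VarE V u := by
  have hc := hA.covLe h ha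
  have su : SqV V u := SqV.of_TT h.cont hu
  have sc := h.const (UC.Ex V u)
  have sg : SqV V (fun x => u x - UC.Ex V u) := su.sub h.cont sc
  have h0 : UC.Ex V (fun x => u x - UC.Ex V u) = 0 := by
    rw [h.Ex_sub su sc, h.Ex_const, sub_self]
  have h1 := h.vec zero_le_one hc sg h0
  rw [one_mul, h.VarE_eq su] at h1
  refine le_trans (le_of_eq ?_) h1
  refine Finset.sum_congr rfl fun k _ => ?_
  congr 1
  rw [h.Ex_mul_sub (h.sq_coord k) su sc, h.Ex_mul_const]
  unfold CvE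
  ring


/-! ### the cubic term -/

private lemma cb_sqsum (h : SP V κ Λ c0) {ι : Type} (S : Finset ι) (F : ι → Eu n → ℝ)
    (hF : ∀ k, SqV V (F k)) : SqV V (fun x => ∑ k ∈ S, F k x) := by
  classical
  induction S using Finset.induction_on with
  | empty => simpa using h.const 0
  | insert k S hk ih =>
    have e : (fun x => ∑ l ∈ insert k S, F l x) = fun x => F k x + ∑ l ∈ S, F l x := by
      funext x; rw [Finset.sum_insert hk]
    rw [e]
    exact (hF k).add h.cont ih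

private lemma cb_first (h : SP V κ Λ c0) {Cw : ℝ} (hC : 0 ≤ Cw) (hW : Thin n Cw)
    (ha : ∀ i, 0 < a i ∧ a i < 1) (hA : CovD V a) {M : ℝ} (hM : 2 ≤ M) (hu : UC.TT u) :
    ∑ i, ∑ j, (a j)⁻¹ * UC.Ex V (fun x => (∑ k, TmE V k i j * UC.pd k u x) ^ 2) ≤
      2 * Cw / M * rE V (fun i => 2 + (M - 2) * a i) u := by
  have hV := h.cont
  have hTc : ∀ i j, SqV V (fun x => ∑ k, TmE V k i j * UC.pd k u x) := fun i j =>
    cb_sqsum h Finset.univ (fun k => fun x => TmE V k i j * UC.pd k u x)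
      fun k => (h.sq_pd hu k).cmul _
  -- the left side as one expectation
  have e1 : ∑ i, ∑ j, (a j)⁻¹ * UC.Ex V (fun x => (∑ k, TmE V k i j * UC.pd k u x) ^ 2) =
      UC.Ex V (fun x => ∑ i, ∑ j, (a j)⁻¹ * (∑ k, TmE V k i j * UC.pd k u x) ^ 2) := by
    have hi : ∀ i j, Integrable (fun x => (a j)⁻¹ * (∑ k, TmE V k i j * UC.pd k u x) ^ 2 *
        Real.exp (-V x)) := fun i j => by
      refine ((hTc i j).2.const_mul (a j)⁻¹).congr (Eventually.of_forall fun x => ?_)
      ring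
    rw [UC.Ex_sum Finset.univ
      (F := fun i x => ∑ j, (a j)⁻¹ * (∑ k, TmE V k i j * UC.pd k u x) ^ 2) fun i _ => by
      have : (fun x : Eu n => (∑ j, (a j)⁻¹ * (∑ k, TmE V k i j * UC.pd k u x) ^ 2) *
          Real.exp (-V x)) =
          fun x => ∑ j, (a j)⁻¹ * (∑ k, TmE V k i j * UC.pd k u x) ^ 2 * Real.exp (-V x) := by
        funext x; rw [Finset.sum_mul]
      rw [this]
      exact integrable_finsetSum _ fun j _ => hi i j]
    refine Finset.sum_congr rfl fun i _ => ?_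
    rw [UC.Ex_sum Finset.univ
      (F := fun j x => (a j)⁻¹ * (∑ k, TmE V k i j * UC.pd k u x) ^ 2) fun j _ => hi i j]
    exact Finset.sum_congr rfl fun j _ => (UC.Ex_const_mul V _ _).symm
  have e2 : UC.Ex V (fun x => ∑ k, 2 * Cw * a k * UC.pd k u x ^ 2) =
      2 * Cw * rE V a u := by
    have hi : ∀ k, Integrable (fun x => 2 * Cw * a k * UC.pd k u x ^ 2 * Real.exp (-V x)) :=
      fun k => by
        refine ((cb_pd_int h hu k).const_mul (2 * Cw * a k)).congr
          (Eventually.of_forall fun x => ?_)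
        ring
    rw [UC.Ex_sum Finset.univ (F := fun k x => 2 * Cw * a k * UC.pd k u x ^ 2) fun k _ => hi k]
    unfold rE
    rw [Finset.mul_sum]
    refine Finset.sum_congr rfl fun k _ => ?_
    rw [UC.Ex_const_mul]
    ring
  have h1 : UC.Ex V (fun x => ∑ i, ∑ j, (a j)⁻¹ * (∑ k, TmE V k i j * UC.pd k u x) ^ 2) ≤
      UC.Ex V (fun x => ∑ k, 2 * Cw * a k * UC.pd k u x ^ 2) := by
    refine UC.Ex_mono ?_ ?_ fun x => ?_
    · have : (fun x : Eu n => (∑ i, ∑ j, (a j)⁻¹ * (∑ k, TmE V k i j * UC.pd k u x) ^ 2) *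
          Real.exp (-V x)) = fun x => ∑ i, ∑ j,
            (a j)⁻¹ * ((∑ k, TmE V k i j * UC.pd k u x) ^ 2 * Real.exp (-V x)) := by
        funext x
        rw [Finset.sum_mul]
        refine Finset.sum_congr rfl fun i _ => ?_
        rw [Finset.sum_mul]
        exact Finset.sum_congr rfl fun j _ => by ring
      rw [this]
      exact integrable_finsetSum _ fun i _ => integrable_finsetSum _ fun j _ =>
        (hTc i j).2.const_mul _
    · have : (fun x : Eu n => (∑ k, 2 * Cw * a k * UC.pd k u x ^ 2) * Real.exp (-V x)) =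
          fun x => ∑ k, 2 * Cw * a k * (UC.pd k u x ^ 2 * Real.exp (-V x)) := by
        funext x
        rw [Finset.sum_mul]
        exact Finset.sum_congr rfl fun k _ => by ring
      rw [this]
      exact integrable_finsetSum _ fun k _ => (cb_pd_int h hu k).const_mul _
    · have h2 := t_bd hC hW h (fun i => (ha i).1) hA (fun k => UC.pd k u x)
      have h3 : ∑ i, ∑ j, (a j)⁻¹ * (∑ k, TmE V k i j * UC.pd k u x) ^ 2 ≤
          ∑ i, ∑ j, (∑ k, TmE V k i j * UC.pd k u x) ^ 2 / (a i * a j) := by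
        refine Finset.sum_le_sum fun i _ => Finset.sum_le_sum fun j _ => ?_
        have h4 : a i * a j ≤ a j := by
          have := (ha i).2
          have := (ha j).1
          nlinarith
        have h5 : 0 < a i * a j := mul_pos (ha i).1 (ha j).1
        rw [inv_mul_eq_div]
        exact div_le_div_of_nonneg_left (sq_nonneg _) h5 h4
      refine (h3.trans h2).trans (le_of_eq ?_)
      rw [Finset.mul_sum]
      exact Finset.sum_congr rfl fun k _ => by ring
  rw [e1]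
  refine (h1.trans (le_of_eq e2)).trans ?_
  have h6 : M * rE V a u ≤ rE V (fun i => 2 + (M - 2) * a i) u := by
    rw [← rE_cmul]
    refine rE_mono fun i => ?_
    have := (ha i).2
    nlinarith
  have h7 : rE V a u ≤ rE V (fun i => 2 + (M - 2) * a i) u / M := by
    rw [le_div_iff₀ (by linarith)]
    linarith
  calc 2 * Cw * rE V a u ≤ 2 * Cw * (rE V (fun i => 2 + (M - 2) * a i) u / M) :=
        mul_le_mul_of_nonneg_left h7 (by linarith)
    _ = 2 * Cw / M * rE V (fun i => 2 + (M - 2) * a i) u := by ring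

private lemma cb_second (ha : ∀ i, 0 < a i ∧ a i < 1) {M : ℝ} (hM : 2 ≤ M) :
    ∑ j, ∑ l, a j * UC.Ex V (fun x => UC.pd l (UC.pd j u) x ^ 2) ≤
      1 / (2 * M) * rE2 V (fun i => 2 + (M - 2) * a i) u := by
  unfold rE2
  rw [Finset.mul_sum]
  refine Finset.sum_le_sum fun j _ => ?_
  rw [Finset.mul_sum]
  refine Finset.sum_le_sum fun l _ => ?_
  rw [← mul_assoc]
  refine mul_le_mul_of_nonneg_right ?_ (UC.Ex_nonneg fun x => sq_nonneg _)
  have h1 := (ha j).1
  have h2 := (ha j).2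
  have h3 := (ha l).1
  have h4 : 2 ≤ 2 + (M - 2) * a l := by nlinarith
  have h5 : M * a j ≤ 2 + (M - 2) * a j := by nlinarith
  rw [one_div, ← div_eq_inv_mul, le_div_iff₀ (by linarith)]
  calc a j * (2 * M) = (M * a j) * 2 := by ring
    _ ≤ (2 + (M - 2) * a j) * (2 + (M - 2) * a l) :=
        mul_le_mul h5 h4 (by norm_num) (by nlinarith)


/-! ### the error term -/

private lemma cb_gsq_le (h : SP V κ Λ c0) (hr : ∀ i, 2 ≤ r i) (hu : UC.TT u) :
    UC.Ex V (gsq u) ≤ rE V r u := by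
  rw [Ex_gsq h hu]
  unfold rE
  refine Finset.sum_le_sum fun i _ => ?_
  have := UC.Ex_nonneg (V := V) (f := fun x => UC.pd i u x ^ 2) fun x => sq_nonneg _
  nlinarith [hr i]

private lemma cb_z (h : SP V κ Λ c0) (hr : ∀ i, 2 ≤ r i) (hu : UC.TT u) {C2 : ℝ} (hC2 : 0 ≤ C2)
    (hz : ∀ g : Eu n → ℝ, UC.TT g → ∑ k, UC.Ex V (fun x => xc V k x ^ 2 * g x ^ 2) ≤
      C2 * (UC.Ex V (fun x => g x ^ 2) + UC.Df V g g)) :
    ∑ k, UC.Ex V (fun x => xc V k x ^ 2 * gsq u x) ≤ C2 * (rE V r u + rE2 V r u) := by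
  have hV := h.cont
  have hxc : ∀ k, Continuous (xc V k) := fun k => by unfold xc; fun_prop
  have hi : ∀ k i, Integrable (fun x => xc V k x ^ 2 * UC.pd i u x ^ 2 * Real.exp (-V x)) :=
    fun k i => by
      have h1 : SqV V (fun x => xc V k x * UC.pd i u x) :=
        SqV.of_cc hV ((hxc k).mul (hu.pd i).continuous) (hu.pd i).cs.mul_left
      refine h1.2.congr (Eventually.of_forall fun x => ?_)
      ring
  have e1 : ∀ k, UC.Ex V (fun x => xc V k x ^ 2 * gsq u x) =
      ∑ i, UC.Ex V (fun x => xc V k x ^ 2 * UC.pd i u x ^ 2) := by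
    intro k
    rw [← UC.Ex_sum (V := V) Finset.univ (F := fun i x => xc V k x ^ 2 * UC.pd i u x ^ 2)
      fun i _ => hi k i]
    congr 1
    funext x
    unfold gsq
    rw [Finset.mul_sum]
  rw [Finset.sum_congr rfl fun k _ => e1 k, Finset.sum_comm]
  have h2 : ∀ i, ∑ k, UC.Ex V (fun x => xc V k x ^ 2 * UC.pd i u x ^ 2) ≤
      C2 * (UC.Ex V (fun x => UC.pd i u x ^ 2) + UC.Df V (UC.pd i u) (UC.pd i u)) :=
    fun i => hz _ (hu.pd i)
  refine (Finset.sum_le_sum fun i _ => h2 i).trans ?_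
  rw [← Finset.mul_sum]
  refine mul_le_mul_of_nonneg_left ?_ hC2
  rw [Finset.sum_add_distrib]
  unfold rE rE2
  refine add_le_add (Finset.sum_le_sum fun i _ => ?_) (Finset.sum_le_sum fun i _ => ?_)
  · have := UC.Ex_nonneg (V := V) (f := fun x => UC.pd i u x ^ 2) fun x => sq_nonneg _
    nlinarith [hr i]
  · rw [Df_self]
    refine Finset.sum_le_sum fun j _ => ?_
    have := UC.Ex_nonneg (V := V) (f := fun x => UC.pd j (UC.pd i u) x ^ 2) fun x => sq_nonneg _
    have h3 : 1 ≤ r i * r j := by nlinarith [hr i, hr j]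
    nlinarith


/-! ### the inequality for near extremal functions -/

private lemma cb_core {Cw M t t0 s c K' ε C1 C2 v E E2 W E' G0 Z T1 T2 c3' : ℝ}
    (hCw : 1 ≤ Cw) (hM : 2 ≤ M) (ht0 : 0 < t0) (ht : t0 ≤ t) (hs : 0 < s) (hc : 1 ≤ c)
    (hK' : 1 ≤ K') (hε : 0 < ε) (hC1 : 0 ≤ C1) (hC2 : 0 ≤ C2) (hv : 0 < v)
    (hE0 : 0 ≤ E) (hE20 : 0 ≤ E2)
    (hE : E ≤ (1 + ε) / c * v) (hE2 : E2 ≤ (1 + ε) / c ^ 2 * v) (hW : W ≤ v)
    (hE' : E' ≤ E * (1 + 4 * (s / t) / M + 2 * (s / t) ^ 2))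
    (hG0 : G0 ≤ E) (hZ : Z ≤ C2 * (E + E2)) (hT1 : T1 ≤ 2 * Cw / M * E)
    (hT2 : T2 ≤ 1 / (2 * M) * E2)
    (hc3 : c3' ≤ 1 / (t * Real.sqrt (Cw * c)) * T1 +
      (1 / (t * Real.sqrt (Cw * c)) * (t / 2) ^ 2)⁻¹ * T2)
    (hos : v ≤ s * W + C1 * s ^ 2 * v + K' * (E' + M * (s * c3' + C1 * s ^ 2 * (G0 + Z)))) :
    c * (1 - s - C1 * s ^ 2) ≤ K' * (1 + s * (4 / (M * t) + 4 * Real.sqrt Cw /
      (t * Real.sqrt c)) + (2 / t0 ^ 2 + M * C1 * (1 + 2 * C2)) * s ^ 2) * (1 + ε) := by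
  have ht' : 0 < t := lt_of_lt_of_le ht0 ht
  have hM0 : 0 < M := by linarith
  have hc0 : 0 < c := by linarith
  have hCw0 : 0 < Cw := by linarith
  set α := 1 / (t * Real.sqrt (Cw * c)) with hα
  have hα0 : 0 < α := by
    have : 0 < Real.sqrt (Cw * c) := Real.sqrt_pos.2 (by positivity)
    positivity
  set q := (1 + ε) * v / c with hq
  have hq0 : 0 < q := by positivity
  have hEq : E ≤ q := by rw [hq]; refine hE.trans (le_of_eq ?_); ring
  have hE2q : E2 ≤ (1 / c) * q := by rw [hq]; refine hE2.trans (le_of_eq ?_); field_simp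
  have hE2q' : E2 ≤ q := by
    refine hE2q.trans ?_
    have : 1 / c ≤ 1 := by rw [div_le_one hc0]; exact hc
    nlinarith
  -- the cubic term
  have h3 : M * c3' ≤ 4 * Real.sqrt Cw / (t * Real.sqrt c) * q := by
    have h4 : c3' ≤ α * (2 * Cw / M * q) + (α * (t / 2) ^ 2)⁻¹ * (1 / (2 * M) * ((1 / c) * q)) := by
      refine hc3.trans (add_le_add ?_ ?_)
      · refine mul_le_mul_of_nonneg_left (hT1.trans ?_) hα0.le
        exact mul_le_mul_of_nonneg_left hEq (by positivity)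
      · refine mul_le_mul_of_nonneg_left (hT2.trans ?_) (by positivity)
        exact mul_le_mul_of_nonneg_left hE2q (by positivity)
    have h5 := mul_le_mul_of_nonneg_left h4 hM0.le
    have h6 := cb_alpha (M := M) hc0 ht' hM0 hCw0
    rw [← hα] at h6
    have h7 : M * (α * (2 * Cw / M * q) + (α * (t / 2) ^ 2)⁻¹ * (1 / (2 * M) * ((1 / c) * q))) =
        (M * (α * (2 * Cw / M) * (1 / c) + (α * (t / 2) ^ 2)⁻¹ * (1 / (2 * M)) * (1 / c ^ 2))) *
          c * q := by
      field_simp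
    rw [h7, h6] at h5
    refine h5.trans (le_of_eq ?_)
    field_simp
  have h4 : E' ≤ q * (1 + 4 / (M * t) * s + 2 / t0 ^ 2 * s ^ 2) := by
    have h5 : 1 + 4 * (s / t) / M + 2 * (s / t) ^ 2 ≤ 1 + 4 / (M * t) * s + 2 / t0 ^ 2 * s ^ 2 := by
      have e1 : 4 * (s / t) / M = 4 / (M * t) * s := by field_simp
      have h6 : 2 * (s / t) ^ 2 ≤ 2 / t0 ^ 2 * s ^ 2 := by
        rw [div_pow, ← mul_div_assoc, mul_comm (2 : ℝ) (s ^ 2), mul_div_assoc, mul_comm]
        refine mul_le_mul_of_nonneg_right ?_ (sq_nonneg _)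
        exact div_le_div_of_nonneg_left (by norm_num) (by positivity)
          (pow_le_pow_left₀ ht0.le ht 2)
      rw [e1]
      linarith
    refine hE'.trans (mul_le_mul hEq h5 (by positivity) hq0.le)
  have h5 : G0 + Z ≤ q * (1 + 2 * C2) := by
    have h6 : C2 * (E + E2) ≤ C2 * (q + q) :=
      mul_le_mul_of_nonneg_left (by linarith) hC2
    nlinarith
  have h6 : v * (1 - s - C1 * s ^ 2) ≤ K' * (q * (1 + s * (4 / (M * t) + 4 * Real.sqrt Cw /
      (t * Real.sqrt c)) + (2 / t0 ^ 2 + M * C1 * (1 + 2 * C2)) * s ^ 2)) := by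
    have h7 : E' + M * (s * c3' + C1 * s ^ 2 * (G0 + Z)) ≤
        q * (1 + s * (4 / (M * t) + 4 * Real.sqrt Cw /
          (t * Real.sqrt c)) + (2 / t0 ^ 2 + M * C1 * (1 + 2 * C2)) * s ^ 2) := by
      have h8 : s * (M * c3') ≤ s * (4 * Real.sqrt Cw / (t * Real.sqrt c) * q) :=
        mul_le_mul_of_nonneg_left h3 hs.le
      have h9 : M * C1 * s ^ 2 * (G0 + Z) ≤ M * C1 * s ^ 2 * (q * (1 + 2 * C2)) :=
        mul_le_mul_of_nonneg_left h5 (by positivity)
      have e : E' + M * (s * c3' + C1 * s ^ 2 * (G0 + Z)) =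
          E' + s * (M * c3') + M * C1 * s ^ 2 * (G0 + Z) := by ring
      rw [e]
      refine (add_le_add (add_le_add h4 h8) h9).trans (le_of_eq ?_)
      ring
    have h8 := mul_le_mul_of_nonneg_left h7 (show 0 ≤ K' by linarith)
    have h9 : s * W ≤ s * v := mul_le_mul_of_nonneg_left hW hs.le
    linarith
  have h7 := mul_le_mul_of_nonneg_left h6 (show 0 ≤ c / v by positivity)
  have e1 : c / v * (v * (1 - s - C1 * s ^ 2)) = c * (1 - s - C1 * s ^ 2) := by
    field_simp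
  rw [e1] at h7
  refine h7.trans (le_of_eq ?_)
  rw [hq]
  field_simp

theorem comb {Cw : ℝ} (hC : 1 ≤ Cw) (hW : Thin n Cw) {M t0 : ℝ} (hM : 2 ≤ M) (ht0 : 0 < t0) :
    ∃ C5 s0 : ℝ, 0 ≤ C5 ∧ 0 < s0 ∧ ∀ t s K K' : ℝ, t0 ≤ t → 0 < s → s ≤ s0 → t + s ≤ 1 →
      1 ≤ K' → PK n (t + s) M K' →
      K' * (1 + s * (1 + 4 / (M * t) + 4 * Real.sqrt Cw / (t * Real.sqrt K)) + C5 * s ^ 2) ≤ K →
      PSd n t M K := by
  have hκ : 0 < t0 / 2 := by positivity
  have hM0 : 0 < M := by linarith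
  obtain ⟨C1, hC1, OS⟩ := os_sm_of n (os_bs n hκ)
  obtain ⟨C2, hC2, ZS⟩ := zsm n hκ
  set C3 : ℝ := 2 / t0 ^ 2 + M * C1 * (1 + 2 * C2) with hC3
  have hC30 : 0 ≤ C3 := by positivity
  set rho0 : ℝ := 4 / (M * t0) + 4 * Real.sqrt Cw / t0 with hrho0
  have hrho00 : 0 ≤ rho0 := by positivity
  refine ⟨2 * ((1 + rho0) * (1 + C1) + C1 + C3), min 1 (1 / (2 * (1 + C1))), by positivity,
    lt_min one_pos (by positivity), ?_⟩
  intro t s K K' ht hs hs0 hts hK' hPK hK V κ Λ c0 a hSP ha hA hH f hf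
  have ht' : 0 < t := lt_of_lt_of_le ht0 ht
  have hs1 : s ≤ 1 := hs0.trans (min_le_left _ _)
  have hs2 : s * (2 * (1 + C1)) ≤ 1 := by
    have h1 : s ≤ 1 / (2 * (1 + C1)) := hs0.trans (min_le_right _ _)
    rwa [le_div_iff₀ (by positivity)] at h1
  by_contra hcon
  push Not at hcon
  set r : Fin n → ℝ := fun i => 2 + (M - 2) * a i with hr
  have hr2 : ∀ i, 2 ≤ r i := fun i => by
    have h1 := (ha i).1
    show 2 ≤ 2 + (M - 2) * a i
    nlinarith
  have hr0 : ∀ i, 0 < r i := fun i => by linarith [hr2 i]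
  have hKK : 1 ≤ K := by
    refine le_trans ?_ hK
    have h9 : 0 ≤ s * (1 + 4 / (M * t) + 4 * Real.sqrt Cw / (t * Real.sqrt K)) +
        2 * ((1 + rho0) * (1 + C1) + C1 + C3) * s ^ 2 := by positivity
    nlinarith
  -- the potential with the lower bound `t / 2`
  have hq : ∀ i, t / 2 ≤ t / (2 * (1 - a i)) := fun i => by
    have h1 := (ha i).1
    have h2 := (ha i).2
    exact div_le_div_of_nonneg_left ht'.le (by linarith) (by linarith)
  have hSPt : SP V (t / 2) Λ c0 := hSP.lower (by positivity) hq hH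
  have hSP0 : SP V (t0 / 2) Λ c0 :=
    hSP.lower (by positivity) (fun i => le_trans (by linarith) (hq i)) hH
  -- the best constant
  set S : Set ℝ := {c | 0 ≤ c ∧ ∀ f : Eu n → ℝ, UC.TT f → VarE V f ≤ c * rE V r f} with hS
  have hrE0 : ∀ g : Eu n → ℝ, 0 ≤ rE V r g := fun g => rE_nonneg fun i => (hr0 i).le
  have hne : S.Nonempty := by
    refine ⟨c0, hSP.cpos.le, fun g hg => (hSP.hp g hg).trans ?_⟩
    refine mul_le_mul_of_nonneg_left ?_ hSP.cpos.le
    rw [Df_self]
    unfold rE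
    refine Finset.sum_le_sum fun i _ => ?_
    have := UC.Ex_nonneg (V := V) (f := fun x => UC.pd i g x ^ 2) fun x => sq_nonneg _
    nlinarith [hr2 i]
  have hbd : BddBelow S := ⟨0, fun K hK => hK.1⟩
  set c := sInf S with hcd
  have hc0 : 0 ≤ c := le_csInf hne fun K hK => hK.1
  have hP : ∀ g : Eu n → ℝ, UC.TT g → VarE V g ≤ c * rE V r g := by
    intro g hg
    refine le_of_forall_pos_le_add fun δ hδ => ?_
    obtain ⟨c', hc', hcc⟩ := exists_lt_of_csInf_lt hne
      (show sInf S < c + δ / (1 + rE V r g) by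
        have : 0 < δ / (1 + rE V r g) := by have := hrE0 g; positivity
        linarith)
    have h1 := hc'.2 g hg
    have h2 : c' * rE V r g ≤ (c + δ / (1 + rE V r g)) * rE V r g :=
      mul_le_mul_of_nonneg_right hcc.le (hrE0 g)
    have h3 : δ / (1 + rE V r g) * rE V r g ≤ δ := by
      rw [div_mul_eq_mul_div, div_le_iff₀ (by linarith [hrE0 g])]
      nlinarith [hrE0 g]
    linarith
  have hcK : K < c := by
    by_contra h1
    push Not at h1
    have h2 := hP f hf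
    have h3 : c * rE V r f ≤ K * rE V r f := mul_le_mul_of_nonneg_right h1 (hrE0 f)
    linarith
  have hc1 : 1 ≤ c := by linarith
  have hN : ∀ c' : ℝ, c' < c → ∃ g : Eu n → ℝ, UC.TT g ∧ c' * rE V r g < VarE V g := by
    intro c' hc'
    have h1 : max c' 0 < c := max_lt hc' (by linarith)
    have h2 : max c' 0 ∉ S := fun h => absurd (csInf_le hbd h) (by push Not; exact h1)
    rw [hS] at h2
    simp only [Set.mem_ofPred_eq, not_and] at h2
    have h3 := h2 (le_max_right _ _)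
    push Not at h3
    obtain ⟨g, hg, h4⟩ := h3
    refine ⟨g, hg, lt_of_le_of_lt ?_ h4⟩
    exact mul_le_mul_of_nonneg_right (le_max_left _ _) (hrE0 g)
  -- the inequality with `ε`
  have key : ∀ ε : ℝ, 0 < ε → c * (1 - s - C1 * s ^ 2) ≤
      K' * (1 + s * (4 / (M * t) + 4 * Real.sqrt Cw / (t * Real.sqrt c)) + C3 * s ^ 2) *
        (1 + ε) := by
    intro ε hε
    obtain ⟨u, hu, hv, hE, hE2⟩ := near_ext hSP hr0 (by linarith : (0:ℝ) < c) hP hN hε
    have hαpos : 0 < 1 / (t * Real.sqrt (Cw * c)) := by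
      have : 0 < Real.sqrt (Cw * c) := Real.sqrt_pos.2 (by nlinarith)
      positivity
    have hos := OS t s M K' ht' hs hs1 hM0.le (by linarith) hPK V κ Λ c0
      (fun i => t / (2 * (1 - a i))) a hSP (fun i => le_trans (by linarith) (hq i)) hH hA u hu
    refine cb_core (v := VarE V u) (E := rE V r u) (E2 := rE2 V r u) hC hM ht0 ht hs hc1 hK' hε
      hC1 hC2 hv (hrE0 u) (rE2_nonneg fun i => (hr0 i).le) hE hE2
      (cb_vec hSP hA (fun i => (ha i).2.le) hu) ?_ (cb_gsq_le hSP hr2 hu)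
      (cb_z hSP hr2 hu hC2 fun g hg => ZS V Λ c0 hSP0 g hg)
      (cb_first hSP (by linarith) hW ha hA hM hu) (cb_second ha hM)
      (kt_sm hSPt hu (fun i => (ha i).1) hαpos) hos
    rw [mul_comm (rE V r u), ← rE_cmul]
    refine rE_mono fun i => ?_
    refine (cb_scalar (ha i).1 (ha i).2 ht' hs.le hM).trans (le_of_eq ?_)
    show (2 + (M - 2) * a i) * _ = _ * (2 + (M - 2) * a i)
    ring
  have hfin : c * (1 - s - C1 * s ^ 2) ≤
      K' * (1 + s * (4 / (M * t) + 4 * Real.sqrt Cw / (t * Real.sqrt c)) + C3 * s ^ 2) := by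
    set Y := K' * (1 + s * (4 / (M * t) + 4 * Real.sqrt Cw / (t * Real.sqrt c)) + C3 * s ^ 2)
      with hY
    have hY0 : 0 ≤ Y := by
      have : 0 ≤ 1 + s * (4 / (M * t) + 4 * Real.sqrt Cw / (t * Real.sqrt c)) + C3 * s ^ 2 := by
        positivity
      exact mul_nonneg (by linarith) this
    refine le_of_forall_pos_le_add fun δ hδ => ?_
    have h1 := key (δ / (1 + Y)) (by positivity)
    have h2 : Y * (δ / (1 + Y)) ≤ δ := by
      rw [mul_div_assoc', div_le_iff₀ (by linarith)]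
      nlinarith
    linarith
  -- the conclusion
  have hsK : 1 ≤ Real.sqrt K := Real.one_le_sqrt.2 hKK
  have hsc : Real.sqrt K ≤ Real.sqrt c := Real.sqrt_le_sqrt hcK.le
  refine cb_final (C5 := 2 * ((1 + rho0) * (1 + C1) + C1 + C3)) (rho0 := rho0)
    (rho := 4 / (M * t) + 4 * Real.sqrt Cw / (t * Real.sqrt K)) hs hs1 hs2 hC1 hC30
    (by positivity) ?_ rfl hK' ?_ hcK ?_ hfin
  · rw [hrho0]
    refine add_le_add ?_ ?_
    · exact div_le_div_of_nonneg_left (by norm_num) (by positivity)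
        (mul_le_mul_of_nonneg_left ht hM0.le)
    · exact div_le_div_of_nonneg_left (by positivity) ht0 (by nlinarith)
  · rw [← add_assoc]
    exact hK
  · refine add_le_add le_rfl ?_
    exact div_le_div_of_nonneg_left (by positivity) (by positivity)
      (mul_le_mul_of_nonneg_left hsc ht'.le)

end Pool.Agent.Lib.MP_6d896a_gt.LG
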