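import Mathlib

/-!
Project LL, piece L19: the discrete Gronwall argument.
-/

set_option autoImplicit false

namespace Pool.Agent.Lib.MP_6d896a_gt.LG

namespace Gron

/-- the pairs `(K_j, T_j)` -/
private noncomputable def sq (c M C5 s : ℝ) : ℕ → ℝ × ℝ
  | 0 => (1, 0)
  | j + 1 =>
    ((sq c M C5 s j).1 * (1 + s * (1 + 4 / (M * (1 - (j + 1 : ℕ) * s)) +
      c / ((1 - (j + 1 : ℕ) * s) * Real.sqrt (sq c M C5 s j).1)) + C5 * s ^ 2),
     (sq c M C5 s j).2 + s / (1 - (j + 1 : ℕ) * s))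

private theorem step_bound {k a b K s M t c C5 : ℝ} (hc : 0 ≤ c) (hM : 2 ≤ M) (hs : 0 < s)
    (ht : 0 < t) (hC5 : 0 ≤ C5) (hK : 1 ≤ K) (hk : k = Real.sqrt K) (hb : 0 ≤ b)
    (hkb : k ≤ Real.exp a * b) (ha : 0 ≤ a) :
    Real.sqrt (K * (1 + s * (1 + 4 / (M * t) + c / (t * Real.sqrt K)) + C5 * s ^ 2)) ≤
      Real.exp (a + (s / 2 + 2 / M * (s / t) + C5 * s ^ 2 / 2)) * (b + c / 2 * (s / t)) := by
  have hM0 : 0 < M := by linarith
  have hk1 : 1 ≤ k := by rw [hk]; exact Real.one_le_sqrt.mpr hK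
  have hk0 : 0 < k := by linarith
  have hKk : K = k ^ 2 := by rw [hk, Real.sq_sqrt (by linarith)]
  rw [← hk]
  set y : ℝ := s / 2 + 2 / M * (s / t) + C5 * s ^ 2 / 2 with hy
  have hy0 : 0 ≤ y := by positivity
  have e1 : Real.sqrt (K * (1 + s * (1 + 4 / (M * t) + c / (t * k)) + C5 * s ^ 2)) ≤
      k * (1 + y) + c / 2 * (s / t) := by
    apply Real.sqrt_le_iff.mpr
    refine ⟨by positivity, ?_⟩
    have e2 : K * (1 + s * (1 + 4 / (M * t) + c / (t * k)) + C5 * s ^ 2) =
        k ^ 2 * (1 + 2 * y) + 2 * k * (c / 2 * (s / t)) := by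
      rw [hKk, hy]
      field_simp
      ring
    rw [e2]
    have h3 : 0 ≤ c / 2 * (s / t) := by positivity
    nlinarith [mul_nonneg hk0.le hy0, mul_nonneg (mul_nonneg hk0.le hy0) h3, sq_nonneg (k * y), sq_nonneg (c / 2 * (s / t))]
  refine e1.trans ?_
  have h3 : 0 ≤ c / 2 * (s / t) := by positivity
  have e3 : 1 + y ≤ Real.exp y := by linarith [Real.add_one_le_exp y]
  rw [Real.exp_add]
  have e4 : 1 ≤ Real.exp a := Real.one_le_exp ha
  have e5 : 1 ≤ Real.exp y := Real.one_le_exp hy0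
  have e6 : 1 ≤ Real.exp a * Real.exp y := by nlinarith
  calc k * (1 + y) + c / 2 * (s / t) ≤ (Real.exp a * b) * Real.exp y + (Real.exp a * Real.exp y) * (c / 2 * (s / t)) := by
        apply add_le_add
        · exact mul_le_mul hkb e3 (by linarith) (by positivity)
        · nlinarith
    _ = _ := by ring

private theorem inv {P : ℝ → ℝ → Prop} {c M t0 C5 s0 s : ℝ} {N : ℕ} (hc : 0 ≤ c) (hM : 2 ≤ M)
    (ht0 : 0 < t0) (hC5 : 0 ≤ C5) (h1 : P 1 1) (hs : 0 < s) (hss : s ≤ s0)
    (hN : (N : ℝ) * s = 1 - t0)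
    (hstep : ∀ t s K K' : ℝ, t0 ≤ t → 0 < s → s ≤ s0 → t + s ≤ 1 → 1 ≤ K' → P (t + s) K' →
      K' * (1 + s * (1 + 4 / (M * t) + c / (t * Real.sqrt K)) + C5 * s ^ 2) ≤ K → P t K)
    (j : ℕ) (hj : j ≤ N) :
    1 ≤ (sq c M C5 s j).1 ∧ P (1 - j * s) (sq c M C5 s j).1 ∧ 0 ≤ (sq c M C5 s j).2 ∧
      Real.sqrt (sq c M C5 s j).1 ≤
        Real.exp (j * s / 2 + 2 / M * (sq c M C5 s j).2 + j * (C5 * s ^ 2 / 2)) *
          (1 + c / 2 * (sq c M C5 s j).2) ∧
      (sq c M C5 s j).2 ≤ Real.log (1 / (1 - j * s)) + s / (1 - j * s) := by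
  have hM0 : 0 < M := by linarith
  induction j with
  | zero => simp [sq, h1, hs.le]
  | succ j ih =>
    obtain ⟨i1, i2, i3, i4, i5⟩ := ih (by omega)
    have hjN : ((j + 1 : ℕ) : ℝ) ≤ N := by exact_mod_cast hj
    have htj : t0 ≤ 1 - ((j + 1 : ℕ) : ℝ) * s := by nlinarith
    set t : ℝ := 1 - ((j + 1 : ℕ) : ℝ) * s with ht
    have htp : 0 < t := by linarith
    have htt : 1 - (j : ℝ) * s = t + s := by rw [ht]; push_cast; ring
    rw [htt] at i2 i5
    set K := (sq c M C5 s j).1 with hK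
    set T := (sq c M C5 s j).2 with hT
    have hs1 : (sq c M C5 s (j + 1)).1 = K * (1 + s * (1 + 4 / (M * t) + c / (t * Real.sqrt K)) + C5 * s ^ 2) := rfl
    have hs2 : (sq c M C5 s (j + 1)).2 = T + s / t := rfl
    have hkp : 0 < Real.sqrt K := Real.sqrt_pos.mpr (by linarith)
    have hge : K ≤ (sq c M C5 s (j + 1)).1 := by
      rw [hs1]
      have : 0 ≤ s * (1 + 4 / (M * t) + c / (t * Real.sqrt K)) + C5 * s ^ 2 := by positivity
      nlinarith
    refine ⟨by linarith, ?_, by rw [hs2]; positivity, ?_, ?_⟩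
    · refine hstep t s _ K htj hs hss ?_ i1 i2 ?_
      · rw [← htt]
        have : 0 ≤ (j : ℝ) * s := by positivity
        linarith
      · conv_rhs => rw [hs1]
        have hsq : Real.sqrt K ≤ Real.sqrt (sq c M C5 s (j + 1)).1 := Real.sqrt_le_sqrt hge
        have : c / (t * Real.sqrt (sq c M C5 s (j + 1)).1) ≤ c / (t * Real.sqrt K) := by
          apply div_le_div_of_nonneg_left hc (by positivity)
          exact mul_le_mul_of_nonneg_left hsq htp.le
        have hK0 : 0 ≤ K := by linarith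
        apply mul_le_mul_of_nonneg_left _ hK0
        nlinarith [mul_le_mul_of_nonneg_left this hs.le]
    · rw [hs1, hs2]
      have := step_bound (a := j * s / 2 + 2 / M * T + j * (C5 * s ^ 2 / 2)) (b := 1 + c / 2 * T)
        hc hM hs htp hC5 i1 rfl (by positivity) i4 (by positivity)
      refine this.trans (le_of_eq ?_)
      congr 1
      · congr 1
        push_cast
        ring
      · ring
    · rw [hs2]
      have h7 : s / (t + s) ≤ Real.log (1 / t) - Real.log (1 / (t + s)) := by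
        have h8 : Real.log (1 / t) - Real.log (1 / (t + s)) = - Real.log (t / (t + s)) := by
          rw [Real.log_div one_ne_zero htp.ne', Real.log_div one_ne_zero (by positivity),
            Real.log_div htp.ne' (by positivity)]
          ring
        rw [h8]
        have h9 := Real.log_le_sub_one_of_pos (x := t / (t + s)) (by positivity)
        have h10 : t / (t + s) - 1 = - (s / (t + s)) := by
          field_simp
          ring
        linarith
      linarith

end Gron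

theorem gron {P : ℝ → ℝ → Prop} {c M t0 C5 s0 : ℝ} (hc : 0 ≤ c) (hM : 2 ≤ M) (ht0 : 0 < t0)
    (ht1 : t0 ≤ 1) (hC5 : 0 ≤ C5) (hs0 : 0 < s0) (h1 : P 1 1)
    (hstep : ∀ t s K K' : ℝ, t0 ≤ t → 0 < s → s ≤ s0 → t + s ≤ 1 → 1 ≤ K' → P (t + s) K' →
      K' * (1 + s * (1 + 4 / (M * t) + c / (t * Real.sqrt K)) + C5 * s ^ 2) ≤ K → P t K) :
    ∃ K : ℝ, 1 ≤ K ∧ P t0 K ∧
      K ≤ (Real.exp (2 + 4 * Real.log (1 / t0) / M) * (1 + c * Real.log (1 / t0))) ^ 2 := by
  have hM0 : 0 < M := by linarith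
  have hL : 0 ≤ Real.log (1 / t0) := Real.log_nonneg (by rw [le_div_iff₀ ht0]; linarith)
  rcases ht1.eq_or_lt with h | hlt
  · refine ⟨1, le_rfl, by rw [h]; exact h1, ?_⟩
    have e1 : 1 ≤ Real.exp (2 + 4 * Real.log (1 / t0) / M) := Real.one_le_exp (by positivity)
    have e2 : 1 ≤ 1 + c * Real.log (1 / t0) := by nlinarith [mul_nonneg hc hL]
    have e3 : 1 ≤ Real.exp (2 + 4 * Real.log (1 / t0) / M) * (1 + c * Real.log (1 / t0)) := by nlinarith
    nlinarith
  · -- choose N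
    obtain ⟨N, hN⟩ := exists_nat_gt (max (max (1 / s0) (2 / t0)) (max C5 (c / t0)))
    have hN0 : (0 : ℝ) < N := lt_of_le_of_lt (by positivity) hN
    have hN1 : 1 / s0 < N := lt_of_le_of_lt ((le_max_left _ _).trans (le_max_left _ _)) hN
    have hN2 : 2 / t0 < N := lt_of_le_of_lt ((le_max_right _ _).trans (le_max_left _ _)) hN
    have hN3 : C5 < N := lt_of_le_of_lt ((le_max_left _ _).trans (le_max_right _ _)) hN
    have hN4 : c / t0 < N := lt_of_le_of_lt ((le_max_right _ _).trans (le_max_right _ _)) hN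
    set s : ℝ := (1 - t0) / N with hs
    have hsp : 0 < s := by rw [hs]; exact div_pos (by linarith) hN0
    have hs1 : s ≤ 1 / N := by
      rw [hs]
      exact div_le_div_of_nonneg_right (by linarith) hN0.le
    have hss : s ≤ s0 := by
      refine hs1.trans ?_
      rw [div_le_iff₀ hN0]
      rw [div_lt_iff₀ hs0] at hN1
      linarith
    have hst : s / t0 ≤ 1 / 2 := by
      rw [div_le_iff₀ ht0]
      refine hs1.trans ?_
      rw [div_le_iff₀ hN0]
      rw [div_lt_iff₀ ht0] at hN2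
      linarith
    have hsC : C5 * s ≤ 1 := by
      calc C5 * s ≤ N * (1 / N) := mul_le_mul hN3.le hs1 hsp.le hN0.le
        _ = 1 := by field_simp
    have hsc : c * (s / t0) ≤ 1 := by
      calc c * (s / t0) = (c / t0) * s := by ring
        _ ≤ N * (1 / N) := mul_le_mul hN4.le hs1 hsp.le hN0.le
        _ = 1 := by field_simp
    have hNs : (N : ℝ) * s = 1 - t0 := by rw [hs]; field_simp
    obtain ⟨i1, i2, i3, i4, i5⟩ := Gron.inv hc hM ht0 hC5 h1 hsp hss hNs hstep N le_rfl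
    set K := (Gron.sq c M C5 s N).1 with hK
    set T := (Gron.sq c M C5 s N).2 with hT
    rw [hNs, sub_sub_cancel] at i2 i5
    refine ⟨K, i1, i2, ?_⟩
    have hkK : K = Real.sqrt K ^ 2 := by rw [Real.sq_sqrt (by linarith)]
    rw [hkK]
    apply pow_le_pow_left₀ (Real.sqrt_nonneg _)
    refine i4.trans ?_
    set L := Real.log (1 / t0) with hLd
    have b1 : 1 + c / 2 * T ≤ Real.exp (1 / 2) * (1 + c * L) := by
      have e1 : (1 : ℝ) + 1 / 2 ≤ Real.exp (1 / 2) := by linarith [Real.add_one_le_exp (1 / 2 : ℝ)]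
      have e2 : c / 2 * T ≤ c / 2 * (L + s / t0) := mul_le_mul_of_nonneg_left i5 (by positivity)
      have e3 : 0 ≤ c * L := mul_nonneg hc hL
      nlinarith
    have hN5 : (N : ℝ) * (C5 * s ^ 2 / 2) = (1 - t0) * (C5 * s) / 2 := by rw [← hNs]; ring
    have b2 : (N : ℝ) * s / 2 + 2 / M * T + N * (C5 * s ^ 2 / 2) ≤ 3 / 2 + 4 * L / M := by
      rw [hN5, hNs]
      have e1 : 2 / M * T ≤ 2 / M * (L + s / t0) := mul_le_mul_of_nonneg_left i5 (by positivity)
      have e2 : 2 / M * (s / t0) ≤ 1 * (1 / 2) := by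
        apply mul_le_mul _ hst (by positivity) (by norm_num)
        rw [div_le_one hM0]; exact hM
      have e3 : (1 - t0) * (C5 * s) ≤ 1 * 1 := by
        apply mul_le_mul (by linarith) hsC (by positivity) (by norm_num)
      have e4 : 2 / M * L ≤ 4 * L / M := by
        rw [div_mul_eq_mul_div]
        apply div_le_div_of_nonneg_right _ hM0.le
        linarith
      nlinarith
    calc Real.exp ((N : ℝ) * s / 2 + 2 / M * T + N * (C5 * s ^ 2 / 2)) * (1 + c / 2 * T)
        ≤ Real.exp (3 / 2 + 4 * L / M) * (Real.exp (1 / 2) * (1 + c * L)) := by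
          apply mul_le_mul (Real.exp_le_exp.mpr b2) b1 (by positivity) (by positivity)
      _ = Real.exp (2 + 4 * L / M) * (1 + c * L) := by
          rw [← mul_assoc, ← Real.exp_add]
          congr 2
          ring

end Pool.Agent.Lib.MP_6d896a_gt.LG
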