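import Mathlib
import Pool.Agent.Lib.MP_6d896a_gt.LG.Defs2
import Pool.Agent.Lib.MP_6d896a_gt.FP.Conc

/-!
Project LL, piece L22: choice of the parameters in step V, logarithmic version.
-/

set_option autoImplicit false

namespace Pool.Agent.Lib.MP_6d896a_gt.LG

open MeasureTheory Filter Topology Set Matrix
open scoped ENNReal NNReal Pointwise

private lemma l22_exp_one_le : Real.exp 1 ≤ 4 := by
  have := Real.exp_one_lt_d9
  linarith

private lemma l22_eq (q : ℕ) : Real.exp ((q : ℝ) / 2) ≤ 4 ^ q * Real.exp (-((q : ℝ) / 2)) := by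
  have h1 : Real.exp (q : ℝ) ≤ 4 ^ q := by
    have h2 : Real.exp (q : ℝ) = Real.exp 1 ^ q := by
      rw [← Real.exp_nat_mul, mul_one]
    rw [h2]
    exact pow_le_pow_left₀ (Real.exp_pos _).le l22_exp_one_le q
  have h3 : Real.exp ((q : ℝ) / 2) = Real.exp (q : ℝ) * Real.exp (-((q : ℝ) / 2)) := by
    rw [← Real.exp_add]
    congr 1
    ring
  rw [h3]
  exact mul_le_mul_of_nonneg_right h1 (Real.exp_pos _).le

private lemma l22_small {n q : ℕ} (hn : 1 ≤ n) (hq : 1000 * (1 + Real.log n) ≤ (q : ℝ)) :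
    Real.exp (-((q : ℝ) / 2)) * (24 * (n : ℝ) ^ 2) ≤ FP.eta0 ^ 2 := by
  have hn1 : (1 : ℝ) ≤ n := by exact_mod_cast hn
  have hn0 : (0 : ℝ) < n := by linarith
  have hl : 0 ≤ Real.log n := Real.log_nonneg hn1
  have h1 : Real.exp (-((q : ℝ) / 2)) ≤ Real.exp (-500 - 2 * Real.log n) := by
    apply Real.exp_le_exp.2
    linarith
  have h2 : Real.exp (-500 - 2 * Real.log n) * (n : ℝ) ^ 2 = Real.exp (-500) := by
    have h3 : (n : ℝ) ^ 2 = Real.exp (2 * Real.log n) := by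
      rw [two_mul, Real.exp_add, Real.exp_log hn0, sq]
    rw [h3, ← Real.exp_add]
    congr 1
    ring
  have h4 : FP.eta0 ^ 2 = Real.exp (-500) * Real.exp 100 := by
    unfold FP.eta0
    rw [sq, ← Real.exp_add, ← Real.exp_add]
    congr 1
    norm_num
  have h5 : (24 : ℝ) ≤ Real.exp 100 := by
    have := Real.add_one_le_exp (100 : ℝ)
    linarith
  have hp : 0 < Real.exp (-500 : ℝ) := Real.exp_pos _
  calc Real.exp (-((q : ℝ) / 2)) * (24 * (n : ℝ) ^ 2)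
      ≤ Real.exp (-500 - 2 * Real.log n) * (24 * (n : ℝ) ^ 2) :=
        mul_le_mul_of_nonneg_right h1 (by positivity)
    _ = 24 * (Real.exp (-500 - 2 * Real.log n) * (n : ℝ) ^ 2) := by ring
    _ = Real.exp (-500) * 24 := by rw [h2]; ring
    _ ≤ Real.exp (-500) * Real.exp 100 := mul_le_mul_of_nonneg_left h5 hp.le
    _ = FP.eta0 ^ 2 := h4.symm

private lemma l22_num {n q : ℕ} (hn : 1 ≤ n) (hq : 1000 * (1 + Real.log n) ≤ (q : ℝ)) {C : ℝ}
    (hC : 1 ≤ C) :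
    2 / 4 ^ q * (Real.exp (12 * C * q ^ 2 * (1 / (24 * C * q))) * n) +
      3 * (FP.eta0 / (24 * n)) * n +
      2 / (4 ^ q * (FP.eta0 / (24 * n))) *
        (1 / (24 * C * q) * Real.exp (12 * C * q ^ 2 * (1 / (24 * C * q))) * n) ≤
      FP.eta0 / 4 := by
  have hn1 : (1 : ℝ) ≤ n := by exact_mod_cast hn
  have hn0 : (0 : ℝ) < n := by linarith
  have hl : 0 ≤ Real.log n := Real.log_nonneg hn1
  have hq1 : (1000 : ℝ) ≤ q := by nlinarith
  have hq0 : (0 : ℝ) < q := by linarith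
  have hC0 : 0 < C := by linarith
  have he := FP.eta0_pos
  have he1 : FP.eta0 ≤ 1 := by
    unfold FP.eta0
    rw [Real.exp_le_one_iff]
    norm_num
  have h1 : 12 * C * (q : ℝ) ^ 2 * (1 / (24 * C * q)) = q / 2 := by
    field_simp
    norm_num
  rw [h1]
  set E : ℝ := Real.exp ((q : ℝ) / 2) with hE
  set D : ℝ := Real.exp (-((q : ℝ) / 2)) with hD
  have hD0 : 0 < D := Real.exp_pos _
  have h2 : E ≤ 4 ^ q * D := l22_eq q
  have h3 : D * (24 * (n : ℝ) ^ 2) ≤ FP.eta0 ^ 2 := l22_small hn hq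
  have h4q : (0 : ℝ) < 4 ^ q := by positivity
  have t1 : 2 / 4 ^ q * (E * n) ≤ 2 * (D * (n : ℝ) ^ 2) := by
    have h4 : E / 4 ^ q ≤ D := by
      rw [div_le_iff₀ h4q]
      linarith
    have h5 : (n : ℝ) ≤ (n : ℝ) ^ 2 := by nlinarith
    calc 2 / 4 ^ q * (E * n) = 2 * (E / 4 ^ q * n) := by ring
      _ ≤ 2 * (D * (n : ℝ) ^ 2) := by
          refine mul_le_mul_of_nonneg_left ?_ (by norm_num)
          exact mul_le_mul h4 h5 hn0.le hD0.le
  have t2 : 3 * (FP.eta0 / (24 * n)) * n = FP.eta0 / 8 := by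
    field_simp
    norm_num
  have t3 : 2 / (4 ^ q * (FP.eta0 / (24 * n))) * (1 / (24 * C * q) * E * n) ≤
      D * (n : ℝ) ^ 2 / FP.eta0 := by
    have h4 : E / 4 ^ q ≤ D := by
      rw [div_le_iff₀ h4q]
      linarith
    have h5 : 2 / (4 ^ q * (FP.eta0 / (24 * n))) * (1 / (24 * C * q) * E * n) =
        2 / (C * q) * (E / 4 ^ q * ((n : ℝ) ^ 2 / FP.eta0)) := by
      field_simp
    have h6 : 2 / (C * q) ≤ 1 := by
      rw [div_le_one (by positivity)]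
      nlinarith
    have h7 : E / 4 ^ q * ((n : ℝ) ^ 2 / FP.eta0) ≤ D * ((n : ℝ) ^ 2 / FP.eta0) :=
      mul_le_mul_of_nonneg_right h4 (by positivity)
    have h8 : 0 ≤ E / 4 ^ q * ((n : ℝ) ^ 2 / FP.eta0) := by positivity
    rw [h5]
    calc 2 / (C * q) * (E / 4 ^ q * ((n : ℝ) ^ 2 / FP.eta0))
        ≤ 1 * (E / 4 ^ q * ((n : ℝ) ^ 2 / FP.eta0)) := mul_le_mul_of_nonneg_right h6 h8
      _ ≤ D * ((n : ℝ) ^ 2 / FP.eta0) := by rw [one_mul]; exact h7
      _ = D * (n : ℝ) ^ 2 / FP.eta0 := by ring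
  have h9 : D * (n : ℝ) ^ 2 ≤ FP.eta0 ^ 2 / 24 := by linarith
  have h10 : D * (n : ℝ) ^ 2 / FP.eta0 ≤ FP.eta0 / 24 := by
    rw [div_le_iff₀ he]
    have : FP.eta0 / 24 * FP.eta0 = FP.eta0 ^ 2 / 24 := by ring
    linarith
  have h11 : FP.eta0 ^ 2 ≤ FP.eta0 := by nlinarith
  rw [t2]
  linarith

private lemma l22_zero (μ : Measure (Eu 0)) [IsProbabilityMeasure μ] (g : Eu 0 → ℝ) :
    Cv μ g g = 0 := by
  have h : ∀ x, g x = g 0 := fun x => by rw [Subsingleton.elim x 0]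
  unfold Cv
  simp only [h, integral_const, probReal_univ, one_smul]
  ring

/-- L22: choice of the parameters; `SV` is the statement of `stepV` -/
theorem lip_bound_log_of
    (SV : ∀ (n : ℕ) (μ : Measure (Eu n)) (R B T C : ℝ), 0 ≤ C → Thin n C → Nm μ R B →
      FP.PLm μ → CovL μ 1 → ∀ q : ℕ, 2 ≤ q → 0 < T → T ≤ 1 / 8 → ∀ t0 : ℝ, 0 < t0 →
      ∀ K : ℝ, 0 ≤ K →
      (∀ ν : Measure (Eu n), IsProbabilityMeasure ν → BS R ν → ULC T ν → CovL ν 4 →
        ∀ f : Eu n → ℝ, ContDiff ℝ 1 f → Cv ν f f ≤ K * ∫ x, ‖fderiv ℝ f x‖ ^ 2 ∂ν) →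
      ∀ g : Eu n → ℝ, ContDiff ℝ 1 g → (∀ x, |g x| ≤ 1) → ∀ l : ℝ, (∀ x, ‖fderiv ℝ g x‖ ≤ l) →
      Cv μ g g ≤ 2 * (K * l ^ 2 + 2 / 4 ^ q * (Real.exp (12 * C * q ^ 2 * T) * n) +
        3 * t0 * n + 2 / (4 ^ q * t0) * (T * Real.exp (12 * C * q ^ 2 * T) * n)))
    {C : ℝ} (hC : 1 ≤ C) (hW : ∀ n, Thin n C) {K1 : ℝ} (hK1 : 1 ≤ K1)
    (hK : ∀ (n : ℕ) (ν : Measure (Eu n)) (R τ : ℝ), IsProbabilityMeasure ν → BS R ν → 0 < τ →
      τ ≤ 1 → ULC τ ν → CovL ν 4 → ∀ f : Eu n → ℝ, ContDiff ℝ 1 f →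
        Cv ν f f ≤ K1 * (1 + Real.log (1 / τ)) ^ 3 * ∫ x, ‖fderiv ℝ f x‖ ^ 2 ∂ν) :
    ∃ M : ℝ, 1 ≤ M ∧ ∀ (n : ℕ) (μ : Measure (Eu n)) (R : ℝ), IsProbabilityMeasure μ → BS R μ →
      FP.PLm μ → CovL μ 1 → ∀ g : Eu n → ℝ, ContDiff ℝ 1 g → (∀ x, |g x| ≤ 1) →
      ∀ l : ℝ, (∀ x, ‖fderiv ℝ g x‖ ≤ l) →
        Cv μ g g ≤ M * (1 + Real.log (1 + Real.log n)) ^ 3 * l ^ 2 + FP.eta0 / 2 := by
  have hC0 : 0 < C := by linarith
  have hL0 : 0 ≤ Real.log (24024 * C) := Real.log_nonneg (by linarith)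
  have hb : 1 ≤ (1 + Real.log (24024 * C)) ^ 3 := one_le_pow₀ (by linarith)
  refine ⟨2 * K1 * (1 + Real.log (24024 * C)) ^ 3, by nlinarith, ?_⟩
  intro n μ R hμ hbs hpl hcov g hg hg1 l hl
  have he := FP.eta0_pos
  rcases Nat.eq_zero_or_pos n with hn | hn
  · subst hn
    rw [l22_zero μ g]
    have h1 : 0 ≤ (1 + Real.log (1 + Real.log ((0 : ℕ) : ℝ))) ^ 3 := by
      simp
    positivity
  have hn1 : (1 : ℝ) ≤ n := by exact_mod_cast hn
  have hn0 : (0 : ℝ) < n := by linarith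
  have hln : 0 ≤ Real.log n := Real.log_nonneg hn1
  have hlln : 0 ≤ Real.log (1 + Real.log n) := Real.log_nonneg (by linarith)
  set q : ℕ := ⌈1000 * (1 + Real.log n)⌉₊ with hq
  have hq1 : 1000 * (1 + Real.log n) ≤ (q : ℝ) := Nat.le_ceil _
  have hq2 : (q : ℝ) ≤ 1001 * (1 + Real.log n) := by
    have := (Nat.ceil_lt_add_one (show 0 ≤ 1000 * (1 + Real.log n) by positivity)).le
    rw [← hq] at this
    linarith
  have hqr : (1000 : ℝ) ≤ q := by linarith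
  have hq0 : (0 : ℝ) < q := by linarith
  have hqn : 2 ≤ q := by
    have : (2 : ℝ) ≤ q := by linarith
    exact_mod_cast this
  set T : ℝ := 1 / (24 * C * q) with hT
  have hT0 : 0 < T := by positivity
  have hCq : 1 ≤ C * q := by nlinarith
  have hT8 : T ≤ 1 / 8 := by
    rw [hT]
    exact one_div_le_one_div_of_le (by norm_num) (by nlinarith)
  have hT1 : T ≤ 1 := by linarith
  have hNm : Nm μ (max R 0) (2 * n * (max R 0) ^ 2) :=
    ⟨hμ, le_max_right _ _, hbs.mono fun x hx => le_trans hx (le_max_left _ _), le_rfl⟩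
  have hinv : 1 / T = 24 * C * q := by
    rw [hT, one_div_one_div]
  have hlT : 0 ≤ Real.log (1 / T) := by
    refine Real.log_nonneg ?_
    rw [hinv]
    linarith
  have hKT : 0 ≤ K1 * (1 + Real.log (1 / T)) ^ 3 := by positivity
  have main := SV n μ (max R 0) (2 * n * (max R 0) ^ 2) T C hC0.le (hW n) hNm hpl hcov q hqn hT0
    hT8 (FP.eta0 / (24 * n)) (by positivity) (K1 * (1 + Real.log (1 / T)) ^ 3) hKT
    (fun ν hν hbν hu hc f hf => hK n ν (max R 0) T hν hbν hT0 hT1 hu hc f hf) g hg hg1 l hl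
  have hnum := l22_num hn hq1 hC
  rw [← hT] at hnum
  have hlog : 1 + Real.log (1 / T) ≤
      (1 + Real.log (24024 * C)) * (1 + Real.log (1 + Real.log n)) := by
    have h1 : Real.log (1 / T) ≤ Real.log (24024 * C * (1 + Real.log n)) := by
      refine Real.log_le_log (by positivity) ?_
      rw [hinv]
      have := mul_le_mul_of_nonneg_left hq2 (by positivity : (0 : ℝ) ≤ 24 * C)
      linarith
    rw [Real.log_mul (by positivity) (by positivity)] at h1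
    have h2 := mul_nonneg hL0 hlln
    linarith
  have hpow : (1 + Real.log (1 / T)) ^ 3 ≤
      (1 + Real.log (24024 * C)) ^ 3 * (1 + Real.log (1 + Real.log n)) ^ 3 := by
    rw [← mul_pow]
    exact pow_le_pow_left₀ (by linarith) hlog 3
  have hl2 : 0 ≤ l ^ 2 := sq_nonneg l
  have h1 : K1 * (1 + Real.log (1 / T)) ^ 3 * l ^ 2 ≤
      K1 * ((1 + Real.log (24024 * C)) ^ 3 * (1 + Real.log (1 + Real.log n)) ^ 3) * l ^ 2 :=
    mul_le_mul_of_nonneg_right (mul_le_mul_of_nonneg_left hpow (by linarith)) hl2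
  calc Cv μ g g ≤ _ := main
    _ ≤ 2 * (K1 * ((1 + Real.log (24024 * C)) ^ 3 * (1 + Real.log (1 + Real.log n)) ^ 3) * l ^ 2
        + FP.eta0 / 4) := by
        linarith
    _ = 2 * K1 * (1 + Real.log (24024 * C)) ^ 3 * (1 + Real.log (1 + Real.log n)) ^ 3 * l ^ 2
        + FP.eta0 / 2 := by ring

end Pool.Agent.Lib.MP_6d896a_gt.LG
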