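import Mathlib
import Pool.Agent.Lib.MP_6d896a_gt.LG.PA2b
import Pool.Agent.Lib.MP_6d896a_gt.LG.Basic
import Pool.Agent.Lib.MP_6d896a_gt.LL.Comb
import Pool.Agent.Lib.MP_6d896a_gt.LL.BsOf
import Pool.Agent.Lib.MP_6d896a_gt.LL.PkOf
import Pool.Agent.Lib.MP_6d896a_gt.LL.Base
import Pool.Agent.Lib.MP_6d896a_gt.LL.Gron
import Pool.Agent.Lib.MP_6d896a_gt.LL.Dlc

/-!
Project LL, piece L21: the logarithmic Lichnerowicz inequality.
-/

set_option autoImplicit false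

namespace Pool.Agent.Lib.MP_6d896a_gt.LG

open MeasureTheory Filter Topology Set Matrix
open scoped ENNReal NNReal

variable {n : ℕ} {μ ν : Measure (Eu n)} {R B T κ : ℝ}

/-- the inequality `PK` for all times -/
private theorem ul_pk {C : ℝ} (hC : 1 ≤ C) (hW : Thin n C) {M t0 : ℝ} (hM : 2 ≤ M)
    (ht0 : 0 < t0) (ht1 : t0 ≤ 1) :
    ∃ K : ℝ, 1 ≤ K ∧ PK n t0 M K ∧
      K ≤ (Real.exp (2 + 4 * Real.log (1 / t0) / M) *
        (1 + 4 * Real.sqrt C * Real.log (1 / t0))) ^ 2 := by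
  obtain ⟨C5, s0, hC5, hs0, H⟩ := comb hC hW hM ht0
  have hstep : ∀ t s K K' : ℝ, t0 ≤ t → 0 < s → s ≤ s0 → t + s ≤ 1 → 1 ≤ K' →
      (1 ≤ K' ∧ PK n (t + s) M K') →
      K' * (1 + s * (1 + 4 / (M * t) + 4 * Real.sqrt C / (t * Real.sqrt K)) + C5 * s ^ 2) ≤ K →
      (1 ≤ K ∧ PK n t M K) := by
    intro t s K K' h1 h2 h3 h4 h5 h6 h7
    have ht : 0 < t := lt_of_lt_of_le ht0 h1
    have h8 : PSd n t M K := H t s K K' h1 h2 h3 h4 h5 h6.2 h7
    have hK1 : 1 ≤ K := by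
      refine le_trans ?_ h7
      have h9 : 0 ≤ s * (1 + 4 / (M * t) + 4 * Real.sqrt C / (t * Real.sqrt K)) + C5 * s ^ 2 := by
        have : 0 ≤ 4 * Real.sqrt C / (t * Real.sqrt K) := by positivity
        have : 0 ≤ 4 / (M * t) := by positivity
        positivity
      nlinarith
    exact ⟨hK1, pk_of_pk1 (pk1_of_psd ht (by linarith) h8)⟩
  obtain ⟨K, hK1, hK, hK2⟩ := gron (P := fun t K => 1 ≤ K ∧ PK n t M K)
    (c := 4 * Real.sqrt C) (by positivity) hM ht0 ht1 hC5 hs0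
    ⟨le_rfl, pk_base (by linarith)⟩ hstep
  exact ⟨K, hK1, hK.2, hK2⟩

private lemma ul_gE (hν : IsProbabilityMeasure ν) (hR : BS R ν) (hc : CovL ν 4) {M : ℝ}
    (hM : 0 ≤ M) {f : Eu n → ℝ} (hf : UC.TT f) :
    gE ν (M • Am ν + Matrix.diagonal fun _ => (1 : ℝ)) f ≤
      (4 * M + 1) * ∫ x, ‖fderiv ℝ f x‖ ^ 2 ∂ν := by
  have hf1 : ContDiff ℝ 1 f := hf.cd.of_le (by exact_mod_cast le_top)
  have hpc : ∀ i, Continuous (UC.pd i f) := fun i => pd_continuous hf1 i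
  have hi : ∀ i j, Integrable (fun x => UC.pd i f x * UC.pd j f x) ν := fun i j =>
    bs_int hR ((hpc i).mul (hpc j))
  set G : Mat n := M • Am ν + Matrix.diagonal fun _ => (1 : ℝ) with hG
  have hi' : ∀ i, Integrable (fun x => ∑ j, G i j * (UC.pd i f x * UC.pd j f x)) ν := fun i =>
    integrable_finsetSum _ fun j _ => (hi i j).const_mul _
  have e1 : gE ν G f = ∫ x, ∑ i, ∑ j, G i j * (UC.pd i f x * UC.pd j f x) ∂ν := by
    have e2 : ∫ x, ∑ i, ∑ j, G i j * (UC.pd i f x * UC.pd j f x) ∂ν =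
        ∑ i, ∫ x, ∑ j, G i j * (UC.pd i f x * UC.pd j f x) ∂ν :=
      integral_finsetSum Finset.univ fun i _ => hi' i
    rw [e2]
    unfold gE
    refine Finset.sum_congr rfl fun i _ => ?_
    have e3 : ∫ x, ∑ j, G i j * (UC.pd i f x * UC.pd j f x) ∂ν =
        ∑ j, ∫ x, G i j * (UC.pd i f x * UC.pd j f x) ∂ν :=
      integral_finsetSum Finset.univ fun j _ => (hi i j).const_mul (G i j)
    rw [e3]
    refine Finset.sum_congr rfl fun j _ => ?_
    exact (integral_const_mul (G i j) _).symm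
  rw [e1, ← integral_const_mul]
  refine integral_mono (integrable_finsetSum _ fun i _ => hi' i) ?_ fun x => ?_
  · have h1 : Continuous (fun x => ‖fderiv ℝ f x‖ ^ 2) :=
      ((hf1.continuous_fderiv one_ne_zero).norm).pow 2
    exact (bs_int hR h1).const_mul _
  · set w : Eu n := WithLp.toLp 2 fun i => UC.pd i f x with hw
    have hwn : ‖w‖ ^ 2 = ‖fderiv ℝ f x‖ ^ 2 := by
      rw [EuclideanSpace.norm_sq_eq, UC.norm_fderiv_sq]
      refine Finset.sum_congr rfl fun i _ => ?_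
      rw [Real.norm_eq_abs, sq_abs]
    have h2 := hc w
    have e2 : (fun y : Eu n => (inner ℝ y w : ℝ)) = fun y => ∑ i, w i * y i := by
      funext y
      rw [PiLp.inner_apply]
      refine Finset.sum_congr rfl fun i _ => ?_
      simp
    rw [e2, ← Am_quad hR (fun i => w i) (fun i => w i), hwn] at h2
    have e3 : ∑ i, ∑ j, G i j * (UC.pd i f x * UC.pd j f x) =
        M * ((fun i => w i) ⬝ᵥ (Am ν *ᵥ fun i => w i)) + ‖fderiv ℝ f x‖ ^ 2 := by
      rw [UC.norm_fderiv_sq]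
      unfold dotProduct mulVec dotProduct
      rw [Finset.mul_sum, ← Finset.sum_add_distrib]
      refine Finset.sum_congr rfl fun i _ => ?_
      have e4 : ∀ j, G i j * (UC.pd i f x * UC.pd j f x) =
          M * (w i * (Am ν i j * w j)) + (if i = j then 1 else 0) *
            (UC.pd i f x * UC.pd j f x) := by
        intro j
        rw [hG]
        simp only [Matrix.add_apply, Matrix.smul_apply, smul_eq_mul, Matrix.diagonal_apply]
        have : ∀ i, w i = UC.pd i f x := fun i => rfl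
        rw [this, this]
        ring
      simp only [e4, Finset.sum_add_distrib]
      rw [Finset.mul_sum, Finset.mul_sum]
      congr 1
      simp [sq]
    show ∑ i, ∑ j, G i j * (UC.pd i f x * UC.pd j f x) ≤ (4 * M + 1) * ‖fderiv ℝ f x‖ ^ 2
    rw [e3]
    nlinarith

private lemma ul_num {L C K : ℝ} (hL : 0 ≤ L) (hC : 1 ≤ C)
    (hK : K ≤ (Real.exp (2 + 4 * L / (2 + L)) * (1 + 4 * Real.sqrt C * L)) ^ 2) :
    K * (4 * (2 + L) + 1) ≤ 200 * Real.exp 12 * C * (1 + L) ^ 3 := by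
  have h1 : Real.exp (2 + 4 * L / (2 + L)) ≤ Real.exp 6 := by
    apply Real.exp_le_exp.2
    have : 4 * L / (2 + L) ≤ 4 := by
      rw [div_le_iff₀ (by linarith)]
      linarith
    linarith
  have hs1 : 1 ≤ Real.sqrt C := Real.one_le_sqrt.2 hC
  have h2 : 1 + 4 * Real.sqrt C * L ≤ 4 * Real.sqrt C * (1 + L) := by nlinarith
  have h3 : 0 ≤ 1 + 4 * Real.sqrt C * L := by positivity
  have h4 : Real.exp (2 + 4 * L / (2 + L)) * (1 + 4 * Real.sqrt C * L) ≤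
      Real.exp 6 * (4 * Real.sqrt C * (1 + L)) :=
    mul_le_mul h1 h2 h3 (Real.exp_pos _).le
  have h5 : (Real.exp (2 + 4 * L / (2 + L)) * (1 + 4 * Real.sqrt C * L)) ^ 2 ≤
      (Real.exp 6 * (4 * Real.sqrt C * (1 + L))) ^ 2 :=
    pow_le_pow_left₀ (by positivity) h4 2
  have h6 : (Real.exp 6 * (4 * Real.sqrt C * (1 + L))) ^ 2 = 16 * Real.exp 12 * C * (1 + L) ^ 2 := by
    have : Real.exp 12 = Real.exp 6 ^ 2 := by
      rw [sq, ← Real.exp_add]; norm_num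
    rw [this, mul_pow, mul_pow, mul_pow, Real.sq_sqrt (by linarith)]
    ring
  have h7 : K ≤ 16 * Real.exp 12 * C * (1 + L) ^ 2 := by linarith
  have h8 : (4 * (2 + L) + 1) ≤ 9 * (1 + L) := by linarith
  have h9 : 0 ≤ 4 * (2 + L) + 1 := by linarith
  have h10 : 0 ≤ 16 * Real.exp 12 * C * (1 + L) ^ 2 := by positivity
  calc K * (4 * (2 + L) + 1) ≤ (16 * Real.exp 12 * C * (1 + L) ^ 2) * (9 * (1 + L)) :=
        mul_le_mul h7 h8 h9 h10
    _ = 144 * Real.exp 12 * C * (1 + L) ^ 3 := by ring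
    _ ≤ 200 * Real.exp 12 * C * (1 + L) ^ 3 := by
        have : 0 ≤ Real.exp 12 * C * (1 + L) ^ 3 := by positivity
        nlinarith

theorem ulc_log {C : ℝ} (hC : 1 ≤ C) (hW : ∀ n, Thin n C) :
    ∃ K1 : ℝ, 1 ≤ K1 ∧ ∀ (n : ℕ) (ν : Measure (Eu n)) (R τ : ℝ), IsProbabilityMeasure ν →
      BS R ν → 0 < τ → τ ≤ 1 → ULC τ ν → CovL ν 4 →
      ∀ f : Eu n → ℝ, ContDiff ℝ 1 f →
        Cv ν f f ≤ K1 * (1 + Real.log (1 / τ)) ^ 3 * ∫ x, ‖fderiv ℝ f x‖ ^ 2 ∂ν := by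
  refine ⟨200 * Real.exp 12 * C, ?_, ?_⟩
  · have : 1 ≤ Real.exp 12 := Real.one_le_exp (by norm_num)
    nlinarith
  intro n ν R τ hν hR hτ hτ1 hu hc f hf
  have hL : 0 ≤ Real.log (1 / τ) := Real.log_nonneg (by rw [le_div_iff₀ hτ]; linarith)
  obtain ⟨K, hK1, hK, hK2⟩ := ul_pk hC (hW n) (M := 2 + Real.log (1 / τ)) (by linarith) hτ hτ1
  have hnum := ul_num hL hC hK2
  have key : ∀ g : Eu n → ℝ, UC.TT g →
      Cv ν g g ≤ 200 * Real.exp 12 * C * (1 + Real.log (1 / τ)) ^ 3 *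
        ∫ x, ‖fderiv ℝ g x‖ ^ 2 ∂ν := by
    intro g hg
    have h1 := hK ν R (fun _ => τ) hν hR (fun _ => hτ) (dlc_const_iff.2 hu) g hg
    have e1 : (fun _ : Fin n => τ / τ) = fun _ => (1 : ℝ) := by
      funext i; exact div_self hτ.ne'
    rw [e1] at h1
    have h2 := ul_gE hν hR hc (M := 2 + Real.log (1 / τ)) (by linarith) hg
    have hI : 0 ≤ ∫ x, ‖fderiv ℝ g x‖ ^ 2 ∂ν := integral_nonneg fun x => sq_nonneg _
    calc Cv ν g g ≤ K * ((4 * (2 + Real.log (1 / τ)) + 1) * ∫ x, ‖fderiv ℝ g x‖ ^ 2 ∂ν) :=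
          h1.trans (mul_le_mul_of_nonneg_left h2 (by linarith))
      _ = (K * (4 * (2 + Real.log (1 / τ)) + 1)) * ∫ x, ‖fderiv ℝ g x‖ ^ 2 ∂ν := by ring
      _ ≤ _ := mul_le_mul_of_nonneg_right hnum hI
  obtain ⟨g, hg, hl1, hl2, -⟩ := c1_limits hR hf
  exact le_of_tendsto_of_tendsto' hl1 (hl2.const_mul _) fun k => key (g k) (hg k)

end Pool.Agent.Lib.MP_6d896a_gt.LG
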