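import Mathlib
import Pool.Agent.Lib.MP_6d896a_gt.LG.Glue
import Pool.Agent.Lib.MP_6d896a_gt.LG.PE
import Pool.Agent.Lib.MP_6d896a_gt.LG.PF
import Pool.Agent.Lib.MP_6d896a_gt.LG.PG2
import Pool.Agent.Lib.MP_6d896a_gt.LL.LipLog
import Pool.Agent.Lib.MP_6d896a_gt.LL.UlcLog

/-!
Project LL: isoperimetry of all log-concave measures up to a power of the iterated logarithm of
the dimension.
-/

set_option autoImplicit false

namespace Pool.Agent.Lib.MP_6d896a_gt.LG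

open MeasureTheory Filter Topology Set Matrix
open scoped ENNReal NNReal Pointwise

/-- the isoperimetric inequality for all log-concave probability measures, up to the factor
`(1 + log (1 + log n)) ^ (3 / 2)` -/
theorem iso_loglog :
    ∃ C : ℝ, 0 < C ∧ ∀ (n : ℕ) (μ : Measure (EuclideanSpace ℝ (Fin n))), IsProbabilityMeasure μ →
      (∀ (A B : Set (EuclideanSpace ℝ (Fin n))) (t : ℝ), IsCompact A → IsCompact B → 0 < t →
        t < 1 → (μ A) ^ t * (μ B) ^ (1 - t) ≤ μ (t • A + (1 - t) • B)) →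
      ∀ s : ℝ, 0 < s →
      (∀ θ : EuclideanSpace ℝ (Fin n), ‖θ‖ = 1 →
        ProbabilityTheory.variance (fun x => inner ℝ x θ) μ ≤ s) →
      ∀ S : Set (EuclideanSpace ℝ (Fin n)), MeasurableSet S →
        ENNReal.ofReal (C / ((1 + Real.log (1 + Real.log n)) ^ (3 / 2 : ℝ) * Real.sqrt s)) *
            min (μ S) (μ Sᶜ) ≤
          Filter.liminf (fun ε : ℝ => (μ (Metric.thickening ε S) - μ S) / ENNReal.ofReal ε)
            (nhdsWithin 0 (Set.Ioi 0)) := by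
  obtain ⟨K1, hK1, hK⟩ := ulc_log (C := 4 * (222 * (100 * 2 ^ 22))) (by norm_num) thin
  obtain ⟨M, hM, hL⟩ := lip_bound_log_of
    (fun _ _ _ _ _ _ hC hW h hpl hcov _ hq hT hT1 _ ht0 _ hK0 hK _ hg hg1 _ hl =>
      stepV_of h hpl (fun _ _ h1 h2 h3 h4 _ h5 => ulc_poincare h1 h2 h3 h4 h5) hcov hT
        (stepIV_EE hC hW h hpl hcov hq hT) (stepIV_JJ hC hW h hpl hcov hq hT) hT1 ht0 hK0 hK
        hg hg1 hl)
    (by norm_num : (1 : ℝ) ≤ 4 * (222 * (100 * 2 ^ 22))) thin hK1 hK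
  have hl1 : ∀ n : ℕ, (0 : ℝ) ≤ Real.log n := fun n => Real.log_natCast_nonneg n
  have hl2 : ∀ n : ℕ, (1 : ℝ) ≤ 1 + Real.log (1 + Real.log n) := fun n => by
    have : 0 ≤ Real.log (1 + Real.log (n : ℝ)) := Real.log_nonneg (by linarith [hl1 n])
    linarith
  have hpow : ∀ n : ℕ, (1 : ℝ) ≤ (1 + Real.log (1 + Real.log n)) ^ 3 := fun n =>
    one_le_pow₀ (hl2 n)
  obtain ⟨C, hC, hfin⟩ := final_of (M := fun n => M * (1 + Real.log (1 + Real.log n)) ^ 3)
    (fun n => by nlinarith [hpow n]) hL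
  refine ⟨C / Real.sqrt M, by positivity, ?_⟩
  intro n μ hμ hlc s hs hv S hS
  have h1 := hfin n μ hμ hlc s hs hv S hS
  have hl0 : 0 ≤ 1 + Real.log (1 + Real.log (n : ℝ)) := by linarith [hl2 n]
  have e1 : Real.sqrt (M * (1 + Real.log (1 + Real.log n)) ^ 3 * s) =
      Real.sqrt M * ((1 + Real.log (1 + Real.log n)) ^ (3 / 2 : ℝ) * Real.sqrt s) := by
    rw [Real.sqrt_mul (by positivity), Real.sqrt_mul (by linarith),
      Real.sqrt_eq_rpow ((1 + Real.log (1 + Real.log n)) ^ 3), ← Real.rpow_natCast,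
      ← Real.rpow_mul hl0]
    norm_num
    ring
  have e2 : C / Real.sqrt M / ((1 + Real.log (1 + Real.log n)) ^ (3 / 2 : ℝ) * Real.sqrt s) =
      C / Real.sqrt (M * (1 + Real.log (1 + Real.log n)) ^ 3 * s) := by
    rw [e1, div_div]
  rw [e2]
  exact h1

end Pool.Agent.Lib.MP_6d896a_gt.LG
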