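import Mathlib
import Pool.Agent.Lib.MP_6d896a_gt.LL.Defs
import Pool.Agent.Lib.MP_6d896a_gt.LG.PA3a

/-!
Project LL: statements of the pieces (not to be imported).
-/

set_option autoImplicit false

namespace Pool.Agent.Lib.MP_6d896a_gt.LG

open MeasureTheory Filter Topology Set Matrix
open scoped ENNReal NNReal

variable {n : ℕ} {μ ν : Measure (Eu n)} {R B T κ : ℝ}

/-! ### L01, file LL/ItW.lean -/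

theorem It.W (h : Nm μ R B) {φ : Eu n → ℝ} (hm : Measurable φ) {M : ℝ}
    (hb : ∀ᵐ x ∂μ, |φ x| ≤ M) (k : Fin n) :
    It μ B T (fun t s => Cv (tl μ t s.1) (fun x => x k) φ)
      (fun t s => - ∑ p, Am (tl μ t s.1) k p * Cv (tl μ t s.1) (fun x => x p) φ)
      (fun t s p => Xc (tl μ t s.1) k p φ) := by sorry

/-! ### L02, file LL/ItH.lean -/

theorem It.H (h : Nm μ R B) (k i j : Fin n) :
    It μ B T (fun t s => Hm (tl μ t s.1) k i j)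
      (fun t s => - ∑ p, (Am (tl μ t s.1) i p * Hm (tl μ t s.1) k p j +
        Am (tl μ t s.1) j p * Hm (tl μ t s.1) k i p +
        Am (tl μ t s.1) k p * Hm (tl μ t s.1) p i j))
      (fun t s p => Fc (tl μ t s.1) i j k p) := by sorry

/-! ### L03, file LL/ItZ.lean -/

theorem It.Z (h : Nm μ R B) {ψ : Eu n → ℝ} (hm : Measurable ψ) {M : ℝ}
    (hb : ∀ᵐ x ∂μ, |ψ x| ≤ M) :
    ∃ σ, It μ B T (fun t s => Zt (tl μ t s.1) ψ)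
      (fun t s => (∑ k, ∑ p, Am (tl μ t s.1) k p ^ 2) * ∫ x, ψ x ∂(tl μ t s.1) -
        2 * ∑ k, ∑ p, Am (tl μ t s.1) k p *
          ∫ x, (x k - mn (tl μ t s.1) k) * (x p - mn (tl μ t s.1) p) * ψ x ∂(tl μ t s.1)) σ := by
  sorry

/-- `∑ k p, Am k p * ∫ x~_k x~_p ψ ≥ 0` for `ψ ≥ 0` -/
theorem am_psd_weight (hν : IsProbabilityMeasure ν) (hR : BS R ν) {ψ : Eu n → ℝ}
    (hm : Measurable ψ) (h0 : ∀ x, 0 ≤ ψ x) {M : ℝ} (hb : ∀ᵐ x ∂ν, |ψ x| ≤ M) :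
    0 ≤ ∑ k, ∑ p, Am ν k p * ∫ x, (x k - mn ν k) * (x p - mn ν p) * ψ x ∂ν := by sorry

/-! ### L04, file LL/CumBd.lean -/

theorem cum_bd (hκ : 0 < κ) : ∃ C : ℝ, 0 ≤ C ∧ ∀ (n : ℕ) (ν : Measure (Eu n)) (R : ℝ),
    IsProbabilityMeasure ν → BS R ν → ULC κ ν → ∀ i j k l : Fin n,
      |Am ν i j| ≤ C ∧ |Hm ν k i j| ≤ C ∧ |Fc ν i j k l| ≤ C := by sorry

theorem W_abs (hν : IsProbabilityMeasure ν) (hR : BS R ν) {φ ψ : Eu n → ℝ}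
    (hφ : Measurable φ) (hψ : Measurable ψ) (hle : ∀ x, |φ x| ≤ ψ x) {M : ℝ}
    (hb : ∀ᵐ x ∂ν, |ψ x| ≤ M) (k : Fin n) :
    |Cv ν (fun x => x k) φ| ≤ ∫ x, ψ x ∂ν + Zt ν ψ := by sorry

theorem X_abs (hν : IsProbabilityMeasure ν) (hR : BS R ν) {φ ψ : Eu n → ℝ}
    (hφ : Measurable φ) (hψ : Measurable ψ) (hle : ∀ x, |φ x| ≤ ψ x) {M : ℝ}
    (hb : ∀ᵐ x ∂ν, |ψ x| ≤ M) (k l : Fin n) :
    |Xc ν k l φ| ≤ |Am ν k l| * ∫ x, ψ x ∂ν + Zt ν ψ := by sorry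

/-- `Xc` against the variance -/
theorem X_sq (hκ : 0 < κ) : ∃ C : ℝ, 0 ≤ C ∧ ∀ (n : ℕ) (ν : Measure (Eu n)) (R : ℝ),
    IsProbabilityMeasure ν → BS R ν → ULC κ ν → ∀ f : Eu n → ℝ, Continuous f →
      ∀ k l : Fin n, Xc ν k l f ^ 2 ≤ C * Cv ν f f := by sorry

/-! ### L05, file LL/Alpha.lean -/

theorem alpha (n : ℕ) (hκ : 0 < κ) : ∃ C : ℝ, 0 ≤ C ∧ ∀ (μ : Measure (Eu n)) (R B T : ℝ),
    Nm μ R B → ULC κ μ → 0 < T → T ≤ 1 → ∀ f : Eu n → ℝ, Continuous f →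
      JJ μ T (fun t s => ∑ k, Cv (tl μ t s.1) (fun x => x k) f ^ 2) ≤
        T * ∑ k, Cv μ (fun x => x k) f ^ 2 + C * T ^ 2 * Cv μ f f := by sorry

/-! ### L06, file LL/Beta.lean -/

theorem beta (n : ℕ) (hκ : 0 < κ) : ∃ C : ℝ, 0 ≤ C ∧ ∀ (μ : Measure (Eu n)) (R B T : ℝ),
    Nm μ R B → ULC κ μ → 0 < T → T ≤ 1 → ∀ f : Eu n → ℝ, UC.TT f →
      JJ μ T (fun t s => c3 (tl μ t s.1) (fun k i j => Hm (tl μ t s.1) k i j) f) ≤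
        T * c3 μ (fun k i j => Hm μ k i j) f +
          C * T ^ 2 * (∫ x, gsq f x ∂μ + Zt μ (gsq f)) := by sorry

/-! ### L07, file LL/OsBs.lean -/

theorem os_bs (n : ℕ) (hκ : 0 < κ) : ∃ C : ℝ, 0 ≤ C ∧ ∀ (t s M K : ℝ), 0 < t → 0 < s → s ≤ 1 →
    0 ≤ M → 0 ≤ K → PK n (t + s) M K →
    ∀ (μ : Measure (Eu n)) (R : ℝ) (q : Fin n → ℝ), IsProbabilityMeasure μ → BS R μ →
      (∀ i, κ ≤ q i) → DLC q μ → ∀ f : Eu n → ℝ, UC.TT f →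
      Cv μ f f ≤ s * ∑ k, Cv μ (fun x => x k) f ^ 2 + C * s ^ 2 * Cv μ f f +
        K * (gE μ (M • Am μ + Matrix.diagonal fun i => (t + s) / (q i + s)) f +
          M * (s * c3 μ (fun k i j => Hm μ k i j) f +
            C * s ^ 2 * (∫ x, gsq f x ∂μ + Zt μ (gsq f)))) := by sorry

/-! ### L08, file LL/KtBs.lean -/

theorem kt_bs (hμ : IsProbabilityMeasure μ) (hR : BS R μ) (hκ : 0 < κ) (hu : ULC κ μ)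
    {S : Fin n → Fin n → Fin n → ℝ} (hS : Sym3 S) {f : Eu n → ℝ} (hf : UC.TT f)
    {a : Fin n → ℝ} (ha : ∀ i, 0 < a i) {α : ℝ} (hα : 0 < α) :
    c3 μ S f ≤ α * ∑ i, ∑ j, (a j)⁻¹ * ∫ x, (∑ k, S k i j * UC.pd k f x) ^ 2 ∂μ +
      (α * κ ^ 2)⁻¹ * ∑ j, ∑ l, a j * ∫ x, UC.pd l (UC.pd j f) x ^ 2 ∂μ := by sorry

/-! ### L09, file LL/Dlc.lean -/

theorem tl_DLC (h : Nm μ R B) {q : Fin n → ℝ} (hq : DLC q μ) (t : ℝ) (c : Eu n) :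
    DLC (fun i => q i + t) (tl μ t c) := by sorry

theorem dlc_const_iff : DLC (fun _ => κ) ν ↔ ULC κ ν := by sorry

theorem DLC.ulc {q : Fin n → ℝ} (hq : ∀ i, κ ≤ q i) (h : DLC q ν) : ULC κ ν := by sorry

theorem sp_dlc {V : Eu n → ℝ} {Λ c0 : ℝ} {q : Fin n → ℝ} (h : SP V κ Λ c0) (hq : HesD V q)
    {k : ℕ} (hk : tgt V (Metric.closedBall 0 (k : ℝ)) ≠ 0) : DLC q (pa3r (tgt V) k) := by sorry

/-! ### L10, file LL/PkOf.lean -/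

theorem pk_of_pk1 {t M K : ℝ} (h : PK1 n t M K) : PK n t M K := by sorry

/-! ### L11, file LL/TsW.lean -/

theorem tsw {C : ℝ} (hC : 0 ≤ C) (hW : Thin n C) {V : Eu n → ℝ} {Λ c0 : ℝ}
    (h : SP V κ Λ c0) {a : Fin n → ℝ} (ha : ∀ i, 0 < a i) (hA : CovD V a)
    (b : Fin n → Fin n → ℝ) (hb : ∀ i j, b i j = b j i) :
    VarE V (fun x => ∑ i, ∑ j, b i j * (xc V i x * xc V j x)) ≤
      2 * C * ∑ i, ∑ j, a i * a j * b i j ^ 2 := by sorry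

theorem t_bd {C : ℝ} (hC : 0 ≤ C) (hW : Thin n C) {V : Eu n → ℝ} {Λ c0 : ℝ}
    (h : SP V κ Λ c0) {a : Fin n → ℝ} (ha : ∀ i, 0 < a i) (hA : CovD V a) (θ : Fin n → ℝ) :
    ∑ i, ∑ j, (∑ k, TmE V k i j * θ k) ^ 2 / (a i * a j) ≤ 2 * C * ∑ k, a k * θ k ^ 2 := by
  sorry

/-! ### L12, file LL/CvV.lean -/

section cv
variable {V : Eu n → ℝ} {Λ c0 : ℝ} (L : Eu n ≃L[ℝ] Eu n)

theorem Ex_cvV (φ : Eu n → ℝ) : UC.Ex (cvV V L) (fun y => φ (L y)) = UC.Ex V φ := by sorry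

theorem tt_comp {f : Eu n → ℝ} (hf : UC.TT f) : UC.TT (fun y => f (L y)) := by sorry

theorem pd_comp {f : Eu n → ℝ} (hf : ContDiff ℝ 1 f) (i : Fin n) (y : Eu n) :
    UC.pd i (fun y => f (L y)) y = ∑ j, L (EuclideanSpace.single i 1) j * UC.pd j f (L y) := by sorry

theorem hess_cvV (hV : ContDiff ℝ 2 V) (y v : Eu n) :
    fderiv ℝ (fderiv ℝ (cvV V L)) y v v = fderiv ℝ (fderiv ℝ V) (L y) (L v) (L v) := by sorry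

theorem sp_cvV (h : SP V κ Λ c0) : ∃ κ' Λ' c0' : ℝ, SP (cvV V L) κ' Λ' c0' := by sorry

theorem varE_cvV (f : Eu n → ℝ) : VarE (cvV V L) (fun y => f (L y)) = VarE V f := by sorry

end cv

/-! ### L13, file LL/NearExt.lean -/

/-- near extremal functions with the second order bound -/
theorem near_ext {V : Eu n → ℝ} {Λ c0 : ℝ} (h : SP V κ Λ c0) {r : Fin n → ℝ}
    (hr : ∀ i, 0 < r i) {c : ℝ} (hc : 0 < c)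
    (hP : ∀ f : Eu n → ℝ, UC.TT f → VarE V f ≤ c * rE V r f)
    (hN : ∀ c' : ℝ, c' < c → ∃ f : Eu n → ℝ, UC.TT f ∧ c' * rE V r f < VarE V f)
    {ε : ℝ} (hε : 0 < ε) :
    ∃ u : Eu n → ℝ, UC.TT u ∧ 0 < VarE V u ∧ rE V r u ≤ (1 + ε) / c * VarE V u ∧
      rE2 V r u ≤ (1 + ε) / c ^ 2 * VarE V u := by sorry

/-! ### L14, file LL/ZSm.lean -/

theorem zsm (n : ℕ) (hκ : 0 < κ) : ∃ C : ℝ, 0 ≤ C ∧ ∀ (V : Eu n → ℝ) (Λ c0 : ℝ), SP V κ Λ c0 →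
    ∀ h : Eu n → ℝ, UC.TT h →
      ∑ k, UC.Ex V (fun x => xc V k x ^ 2 * h x ^ 2) ≤
        C * (UC.Ex V (fun x => h x ^ 2) + UC.Df V h h) := by sorry

/-! ### L15, file LL/OsSm.lean -/

theorem os_sm (n : ℕ) (hκ : 0 < κ) : ∃ C : ℝ, 0 ≤ C ∧ ∀ (t s M K : ℝ), 0 < t → 0 < s → s ≤ 1 →
    0 ≤ M → 0 ≤ K → PK n (t + s) M K →
    ∀ (V : Eu n → ℝ) (κ' Λ c0 : ℝ) (q a : Fin n → ℝ), SP V κ' Λ c0 →
      (∀ i, κ ≤ q i) → HesD V q → CovD V a → ∀ f : Eu n → ℝ, UC.TT f →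
      VarE V f ≤ s * ∑ k, CvE V (fun x => x k) f ^ 2 + C * s ^ 2 * VarE V f +
        K * (rE V (fun i => M * a i + (t + s) / (q i + s)) f +
          M * (s * c3E V f + C * s ^ 2 * (UC.Ex V (gsq f) +
            ∑ k, UC.Ex V (fun x => xc V k x ^ 2 * gsq f x)))) := by sorry

/-! ### L16, file LL/KtSm.lean -/

theorem kt_sm {V : Eu n → ℝ} {Λ c0 : ℝ} (h : SP V κ Λ c0) {f : Eu n → ℝ} (hf : UC.TT f)
    {a : Fin n → ℝ} (ha : ∀ i, 0 < a i) {α : ℝ} (hα : 0 < α) :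
    c3E V f ≤ α * ∑ i, ∑ j, (a j)⁻¹ * UC.Ex V (fun x => (∑ k, TmE V k i j * UC.pd k f x) ^ 2) +
      (α * κ ^ 2)⁻¹ * ∑ j, ∑ l, a j * UC.Ex V (fun x => UC.pd l (UC.pd j f) x ^ 2) := by sorry

/-! ### L17, file LL/Comb.lean -/

theorem comb {Cw : ℝ} (hC : 1 ≤ Cw) (hW : Thin n Cw) {M t0 : ℝ} (hM : 2 ≤ M) (ht0 : 0 < t0) :
    ∃ C5 s0 : ℝ, 0 ≤ C5 ∧ 0 < s0 ∧ ∀ t s K K' : ℝ, t0 ≤ t → 0 < s → s ≤ s0 → t + s ≤ 1 →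
      1 ≤ K' → PK n (t + s) M K' →
      K' * (1 + s * (1 + 4 / (M * t) + 4 * Real.sqrt Cw / (t * Real.sqrt K)) + C5 * s ^ 2) ≤ K →
      PSd n t M K := by sorry

/-! ### L18, file LL/BsOf.lean -/

theorem pk1_of_psd {t M K : ℝ} (ht : 0 < t) (hK : 0 ≤ K) (h : PSd n t M K) : PK1 n t M K := by
  sorry

/-! ### L19, file LL/Gron.lean -/

theorem gron {P : ℝ → ℝ → Prop} {c M t0 C5 s0 : ℝ} (hc : 0 ≤ c) (hM : 2 ≤ M) (ht0 : 0 < t0)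
    (ht1 : t0 ≤ 1) (hC5 : 0 ≤ C5) (hs0 : 0 < s0) (h1 : P 1 1)
    (hstep : ∀ t s K K' : ℝ, t0 ≤ t → 0 < s → s ≤ s0 → t + s ≤ 1 → 1 ≤ K' → P (t + s) K' →
      K' * (1 + s * (1 + 4 / (M * t) + c / (t * Real.sqrt K)) + C5 * s ^ 2) ≤ K → P t K) :
    ∃ K : ℝ, 1 ≤ K ∧ P t0 K ∧
      K ≤ (Real.exp (2 + 4 * Real.log (1 / t0) / M) * (1 + c * Real.log (1 / t0))) ^ 2 := by
  sorry

/-! ### L20, file LL/Base.lean -/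

theorem pk_base {M : ℝ} (hM : 0 ≤ M) : PK n 1 M 1 := by sorry

/-! ### L21, file LL/UlcLog.lean -/

theorem ulc_log {C : ℝ} (hC : 1 ≤ C) (hW : ∀ n, Thin n C) :
    ∃ K1 : ℝ, 1 ≤ K1 ∧ ∀ (n : ℕ) (ν : Measure (Eu n)) (R τ : ℝ), IsProbabilityMeasure ν →
      BS R ν → 0 < τ → τ ≤ 1 → ULC τ ν → CovL ν 4 →
      ∀ f : Eu n → ℝ, ContDiff ℝ 1 f →
        Cv ν f f ≤ K1 * (1 + Real.log (1 / τ)) ^ 3 * ∫ x, ‖fderiv ℝ f x‖ ^ 2 ∂ν := by sorry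

/-! ### L22, file LL/LipLog.lean -/

theorem lip_bound_log_of
    (SV : ∀ (n : ℕ) (μ : Measure (Eu n)) (R B T C : ℝ), 0 ≤ C → Thin n C → Nm μ R B →
      FP.PLm μ → CovL μ 1 → ∀ q : ℕ, 2 ≤ q → 0 < T → T ≤ 1 / 8 → ∀ t0 : ℝ, 0 < t0 →
      ∀ K : ℝ, 0 ≤ K →
      (∀ ν : Measure (Eu n), IsProbabilityMeasure ν → BS R ν → ULC T ν → CovL ν 4 →
        ∀ f : Eu n → ℝ, ContDiff ℝ 1 f → Cv ν f f ≤ K * ∫ x, ‖fderiv ℝ f x‖ ^ 2 ∂ν) →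
      ∀ g : Eu n → ℝ, ContDiff ℝ 1 g → (∀ x, |g x| ≤ 1) → ∀ l : ℝ, (∀ x, ‖fderiv ℝ g x‖ ≤ l) →
      Cv μ g g ≤ 2 * (K * l ^ 2 + 2 / 4 ^ q * (Real.exp (12 * C * q ^ 2 * T) * n) +
        3 * t0 * n + 2 / (4 ^ q * t0) * (T * Real.exp (12 * C * q ^ 2 * T) * n)))
    {C : ℝ} (hC : 1 ≤ C) (hW : ∀ n, Thin n C) {K1 : ℝ} (hK1 : 1 ≤ K1)
    (hK : ∀ (n : ℕ) (ν : Measure (Eu n)) (R τ : ℝ), IsProbabilityMeasure ν → BS R ν → 0 < τ →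
      τ ≤ 1 → ULC τ ν → CovL ν 4 → ∀ f : Eu n → ℝ, ContDiff ℝ 1 f →
        Cv ν f f ≤ K1 * (1 + Real.log (1 / τ)) ^ 3 * ∫ x, ‖fderiv ℝ f x‖ ^ 2 ∂ν) :
    ∃ M : ℝ, 1 ≤ M ∧ ∀ (n : ℕ) (μ : Measure (Eu n)) (R : ℝ), IsProbabilityMeasure μ → BS R μ →
      FP.PLm μ → CovL μ 1 → ∀ g : Eu n → ℝ, ContDiff ℝ 1 g → (∀ x, |g x| ≤ 1) →
      ∀ l : ℝ, (∀ x, ‖fderiv ℝ g x‖ ≤ l) →
        Cv μ g g ≤ M * (1 + Real.log (1 + Real.log n)) ^ 3 * l ^ 2 + FP.eta0 / 2 := by sorry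

end Pool.Agent.Lib.MP_6d896a_gt.LG
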